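import Pool.Agent.Lib.MP_3bda03_nt.H.Defs

/-!
Algebra of integer frames.
-/

set_option autoImplicit false
set_option linter.unusedSectionVars false

noncomputable section

open MeasureTheory Matrix
open scoped ENNReal

namespace Pool.Agent.Eps.H

section
variable {α β ι κ : Type}

theorem cz_mul [Fintype ι] (P : Matrix α ι ℤ) (Q : Matrix ι κ ℤ) : cz (P * Q) = cz P * cz Q := by
  ext a k
  simp [cz, Matrix.mul_apply]

theorem cz_one [DecidableEq ι] : cz (1 : Matrix ι ι ℤ) = 1 := by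
  ext a k
  simp [cz, Matrix.one_apply]

theorem cz_add (P Q : Matrix α ι ℤ) : cz (P + Q) = cz P + cz Q := by
  ext a k
  simp [cz]

theorem cz_transpose (P : Matrix α ι ℤ) : cz Pᵀ = (cz P)ᵀ := by
  rfl

theorem cz_mul_row [Fintype ι] (P : Matrix α ι ℤ) (g : Matrix ι κ ℝ) (a : α) :
    (cz P * g) a = lv (P a) g := by
  ext k
  simp [cz, lv, cv, Matrix.mul_apply, Matrix.vecMul, dotProduct]

theorem cv_add (k l : ι → ℤ) : cv (k + l) = cv k + cv l := by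
  ext i
  simp [cv]

theorem cv_neg (k : ι → ℤ) : cv (-k) = -cv k := by
  ext i
  simp [cv]

theorem cv_smul (q : ℤ) (k : ι → ℤ) : cv (q • k) = (q : ℝ) • cv k := by
  ext i
  simp [cv]

theorem cv_zero : cv (0 : ι → ℤ) = 0 := by
  ext i
  simp [cv]

theorem cv_vecMul [Fintype α] (k : α → ℤ) (P : Matrix α ι ℤ) : cv (k ᵥ* P) = cv k ᵥ* cz P := by
  ext i
  simp [cv, cz, Matrix.vecMul, dotProduct]

theorem cv_mulVec [Fintype ι] (P : Matrix α ι ℤ) (l : ι → ℤ) : cv (P *ᵥ l) = cz P *ᵥ cv l := by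
  ext i
  simp [cv, cz, Matrix.mulVec, dotProduct]

theorem lv_add [Fintype α] (k l : α → ℤ) (X : Matrix α ι ℝ) : lv (k + l) X = lv k X + lv l X := by
  rw [lv, cv_add, Matrix.add_vecMul]; rfl

theorem lv_neg [Fintype α] (k : α → ℤ) (X : Matrix α ι ℝ) : lv (-k) X = -lv k X := by
  rw [lv, cv_neg, Matrix.neg_vecMul]; rfl

theorem lv_smul [Fintype α] (q : ℤ) (k : α → ℤ) (X : Matrix α ι ℝ) :
    lv (q • k) X = (q : ℝ) • lv k X := by
  rw [lv, cv_smul, Matrix.smul_vecMul]; rfl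

theorem lv_zero [Fintype α] (X : Matrix α ι ℝ) : lv (0 : α → ℤ) X = 0 := by
  rw [lv, cv_zero, Matrix.zero_vecMul]

theorem lv_vecMul [Fintype α] [Fintype ι] (k : α → ℤ) (P : Matrix α ι ℤ) (g : Matrix ι κ ℝ) :
    lv (k ᵥ* P) g = lv k (cz P * g) := by
  rw [lv, cv_vecMul, Matrix.vecMul_vecMul]; rfl

theorem lv_mul [Fintype α] [Fintype ι] (k : α → ℤ) (X : Matrix α ι ℝ) (h : Matrix ι κ ℝ) :
    lv k (X * h) = lv k X ᵥ* h := by
  rw [lv, lv, Matrix.vecMul_vecMul]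

theorem nsq_nonneg [Fintype ι] (x : ι → ℝ) : 0 ≤ nsq x := by
  exact Finset.sum_nonneg fun i _ => sq_nonneg _

theorem nsq_neg [Fintype ι] (x : ι → ℝ) : nsq (-x) = nsq x := by
  simp [nsq]

theorem nsq_smul [Fintype ι] (c : ℝ) (x : ι → ℝ) : nsq (c • x) = c ^ 2 * nsq x := by
  simp [nsq, mul_pow, Finset.mul_sum]

theorem nsq_eq_dot [Fintype ι] (x : ι → ℝ) : nsq x = x ⬝ᵥ x := by
  simp [nsq, dotProduct, sq]

theorem nsq_eq_zero [Fintype ι] {x : ι → ℝ} : nsq x = 0 ↔ x = 0 := by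
  rw [nsq_eq_dot, dotProduct_self_eq_zero]

end

section
variable {α β ι : Type} [Fintype ι] [DecidableEq ι]

theorem abs_det_cz (γ : GL ι ℤ) : |(cz γ.val).det| = 1 := by
  have h : (cz γ.val).det = ((γ.val.det : ℤ) : ℝ) := ((Int.castRingHom ℝ).map_det γ.val).symm
  have u : IsUnit γ.val.det := (Matrix.isUnit_iff_isUnit_det _).1 γ.isUnit
  rw [h, ← Int.cast_abs, Int.isUnit_iff_abs_eq.1 u, Int.cast_one]

theorem dual_mul (g h : Matrix ι ι ℝ) : dual (g * h) = dual g * dual h := by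
  rw [dual, Matrix.mul_inv_rev, Matrix.transpose_mul]; rfl

theorem dual_dual {g : Matrix ι ι ℝ} (hg : g.det ≠ 0) : dual (dual g) = g := by
  rw [dual, dual, ← Matrix.transpose_nonsing_inv, Matrix.transpose_transpose,
    Matrix.nonsing_inv_nonsing_inv _ (isUnit_iff_ne_zero.2 hg)]

theorem det_dual (g : Matrix ι ι ℝ) : (dual g).det = (g.det)⁻¹ := by
  rw [dual, Matrix.det_transpose, Matrix.det_nonsing_inv, Ring.inverse_eq_inv']

theorem lv_dot_dual {g : Matrix ι ι ℝ} (hg : g.det ≠ 0) (k l : ι → ℤ) :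
    lv k g ⬝ᵥ lv l (dual g) = ((k ⬝ᵥ l : ℤ) : ℝ) := by
  rw [lv, lv, dual, Matrix.vecMul_transpose, Matrix.dotProduct_mulVec, Matrix.vecMul_vecMul,
    Matrix.mul_nonsing_inv _ (isUnit_iff_ne_zero.2 hg), Matrix.vecMul_one]
  simp [cv, dotProduct]

theorem lv_injective {g : Matrix ι ι ℝ} (hg : g.det ≠ 0) :
    Function.Injective fun k : ι → ℤ => lv k g := by
  intro k l h
  have e : lv k g ᵥ* g⁻¹ = lv l g ᵥ* g⁻¹ := congrArg (· ᵥ* g⁻¹) h
  rw [← lv_mul, ← lv_mul, Matrix.mul_nonsing_inv _ (isUnit_iff_ne_zero.2 hg), lv, lv,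
    Matrix.vecMul_one, Matrix.vecMul_one] at e
  funext i
  exact Int.cast_injective (α := ℝ) (congrFun e i)

/-- an invertible matrix is bounded below -/
theorem exists_coer {g : Matrix ι ι ℝ} (hg : g.det ≠ 0) :
    ∃ c : ℝ, 0 < c ∧ ∀ x : ι → ℝ, c * nsq x ≤ nsq (x ᵥ* g) := by
  have p : 0 < ∑ j, ∑ i, g⁻¹ i j ^ 2 + 1 := by positivity
  refine ⟨(∑ j, ∑ i, g⁻¹ i j ^ 2 + 1)⁻¹, inv_pos.2 p, fun x => ?_⟩
  have e : x = (x ᵥ* g) ᵥ* g⁻¹ := by
    rw [Matrix.vecMul_vecMul, Matrix.mul_nonsing_inv _ (isUnit_iff_ne_zero.2 hg),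
      Matrix.vecMul_one]
  have b : nsq ((x ᵥ* g) ᵥ* g⁻¹) ≤ (∑ j, ∑ i, g⁻¹ i j ^ 2) * nsq (x ᵥ* g) := by
    rw [Finset.sum_mul]
    refine Finset.sum_le_sum fun j _ => ?_
    rw [mul_comm]
    exact Finset.sum_mul_sq_le_sq_mul_sq Finset.univ (x ᵥ* g) fun i => g⁻¹ i j
  rw [← e] at b
  rw [inv_mul_le_iff₀ p]
  linarith [nsq_nonneg (x ᵥ* g)]

/-- inverse transpose on the integer group -/
def glT (γ : GL ι ℤ) : GL ι ℤ :=
  ⟨(γ⁻¹).valᵀ, γ.valᵀ, by rw [← Matrix.transpose_mul, Units.mul_inv, Matrix.transpose_one],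
    by rw [← Matrix.transpose_mul, Units.inv_mul, Matrix.transpose_one]⟩

theorem glT_glT (γ : GL ι ℤ) : glT (glT γ) = γ := by
  exact Units.ext (Matrix.transpose_transpose _)

theorem dual_cz (γ : GL ι ℤ) : dual (cz γ.val) = cz (glT γ).val := by
  rw [dual, Matrix.inv_eq_right_inv (B := cz (γ⁻¹).val) (by rw [← cz_mul, Units.mul_inv, cz_one])]
  rfl

theorem LInv.comp_dual {E : Type} {Φ : Matrix ι ι ℝ → E} (h : LInv Φ) :
    LInv fun g => Φ (dual g) := by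
  intro γ g
  show Φ (dual (cz γ.val * g)) = Φ (dual g)
  rw [dual_mul, dual_cz, h]

theorem lv_mulVec_dual (γ : GL ι ℤ) (g : Matrix ι ι ℝ) (l : ι → ℤ) :
    lv (γ.val *ᵥ l) (dual (cz γ.val * g)) = lv l (dual g) := by
  rw [dual_mul, dual_cz, ← lv_vecMul]
  congr 1
  show (γ.val *ᵥ l) ᵥ* (γ⁻¹).valᵀ = l
  rw [Matrix.vecMul_transpose, Matrix.mulVec_mulVec, Units.inv_mul, Matrix.one_mulVec]

theorem alg_ind (v : α → ι → ℤ) (γ : GL ι ℤ) :
    LinearIndependent ℤ (fun a => v a ᵥ* γ.val) ↔ LinearIndependent ℤ v :=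
  LinearMap.linearIndependent_iff_of_injOn (v := v) γ.val.vecMulLinear (fun x _ y _ e => by
    have e' : (x ᵥ* γ.val) ᵥ* (γ⁻¹).val = (y ᵥ* γ.val) ᵥ* (γ⁻¹).val := congrArg (· ᵥ* (γ⁻¹).val) e
    rwa [Matrix.vecMul_vecMul, Matrix.vecMul_vecMul, Units.mul_inv, Matrix.vecMul_one,
      Matrix.vecMul_one] at e')

theorem Ind.mul_gl {Y : Matrix α ι ℤ} (γ : GL ι ℤ) : Ind (Y * γ.val) ↔ Ind Y := by
  exact alg_ind (fun a => Y a) γ

theorem Ind2.vecMul_gl (γ : GL ι ℤ) (k l : ι → ℤ) :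
    Ind2 (k ᵥ* γ.val, l ᵥ* γ.val) ↔ Ind2 (k, l) := by
  rw [Ind2, Ind2, ← alg_ind ![k, l] γ]
  have e : ![k ᵥ* γ.val, l ᵥ* γ.val] = fun a => ![k, l] a ᵥ* γ.val := by
    funext a
    fin_cases a <;> rfl
  rw [← e]

theorem Ind2.mulVec_gl (γ : GL ι ℤ) (k l : ι → ℤ) :
    Ind2 (γ.val *ᵥ k, γ.val *ᵥ l) ↔ Ind2 (k, l) := by
  have := Ind2.vecMul_gl (glT γ)⁻¹ k l
  rwa [show ((glT γ)⁻¹).val = γ.valᵀ from rfl, Matrix.vecMul_transpose,
    Matrix.vecMul_transpose] at this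

variable [Fintype α] [DecidableEq α]

theorem Prim.mul_gl {P : Matrix α ι ℤ} (γ : GL ι ℤ) : Prim (P * γ.val) ↔ Prim P := by
  constructor
  · rintro ⟨Q, h⟩
    exact ⟨γ.val * Q, by rw [← Matrix.mul_assoc, h]⟩
  · rintro ⟨Q, h⟩
    exact ⟨(γ⁻¹).val * Q, by
      rw [Matrix.mul_assoc, ← Matrix.mul_assoc γ.val, Units.mul_inv, Matrix.one_mul, h]⟩

theorem Prim.ind {P : Matrix α ι ℤ} (h : Prim P) : Ind P := by
  obtain ⟨Q, h⟩ := h
  refine Matrix.vecMul_injective_iff.1 fun u v e => ?_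
  have e' : (u ᵥ* P) ᵥ* Q = (v ᵥ* P) ᵥ* Q := congrArg (· ᵥ* Q) e
  rwa [Matrix.vecMul_vecMul, Matrix.vecMul_vecMul, h, Matrix.vecMul_one, Matrix.vecMul_one] at e'

/-- a subfamily of a primitive frame is primitive -/
theorem Prim.submatrix {α' : Type} [DecidableEq α'] {P : Matrix α ι ℤ} (h : Prim P) {f : α' → α}
    (hf : Function.Injective f) : Prim (P.submatrix f id) := by
  obtain ⟨Q, h⟩ := h
  refine ⟨Q.submatrix id f, ?_⟩
  ext a b
  have := congrFun (congrFun h (f a)) (f b)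
  rw [Matrix.one_apply] at this ⊢
  simp only [hf.eq_iff] at this
  exact this

/-- a lattice vector in the rational span of a primitive frame is in its integer span -/
theorem Prim.mem_span {P : Matrix α ι ℤ} (h : Prim P) {q : ℤ} (hq : q ≠ 0) {v : ι → ℤ}
    {u : α → ℤ} (hv : q • v = u ᵥ* P) : ∃ κ : α → ℤ, v = κ ᵥ* P := by
  obtain ⟨Q, h⟩ := h
  have e : q • (v ᵥ* Q) = u := by
    rw [← Matrix.smul_vecMul, hv, Matrix.vecMul_vecMul, h, Matrix.vecMul_one]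
  refine ⟨v ᵥ* Q, smul_right_injective _ hq ?_⟩
  show q • v = q • ((v ᵥ* Q) ᵥ* P)
  rw [← Matrix.smul_vecMul, e, hv]

/-- a primitive frame stays independent modulo any integer -/
theorem Prim.dvd_of_dvd {P : Matrix α ι ℤ} (h : Prim P) {q : ℤ} {u : α → ℤ}
    (hu : ∀ i, q ∣ (u ᵥ* P) i) (a : α) : q ∣ u a := by
  obtain ⟨Q, h⟩ := h
  have e : u = (u ᵥ* P) ᵥ* Q := by rw [Matrix.vecMul_vecMul, h, Matrix.vecMul_one]
  rw [e]
  exact Finset.dvd_sum fun i _ => (hu i).mul_right _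

end

end Pool.Agent.Eps.H
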