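import Pool.Agent.Lib.MP_3bda03_nt.H.Lin
import Pool.Agent.Lib.MP_3bda03_nt.H.Alg

/-!
Equidistribution on tori.
-/

set_option autoImplicit false

noncomputable section

open MeasureTheory Matrix
open scoped ENNReal

namespace Pool.Agent.Eps.H

variable {α β κ : Type} [Fintype α] [Fintype β] [Fintype κ]

omit [Fintype α] [Fintype β] in
theorem equi_tile (t : Matrix β α ℝ) :
    ∑' b : Matrix β α ℤ, (cube β α).indicator (1 : Matrix β α ℝ → ℝ≥0∞) (cz b + t) = 1 := by
  let b0 : Matrix β α ℤ := Matrix.of fun i j => -⌊t i j⌋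
  rw [tsum_eq_single b0]
  · refine Set.indicator_of_mem (fun i j => ?_) _
    have e : (cz b0 + t) i j = Int.fract (t i j) := by
      simp only [Matrix.add_apply, cz, Matrix.map_apply, b0, Matrix.of_apply, Int.cast_neg]
      rw [Int.fract]; ring
    rw [e]
    exact ⟨Int.fract_nonneg _, Int.fract_lt_one _⟩
  · refine fun b hb => Set.indicator_of_notMem (fun h => hb ?_) _
    ext i j
    have h1 : (b i j : ℝ) + t i j ∈ Set.Ico (0 : ℝ) 1 := h i j
    have h2 : ⌊t i j⌋ = -b i j := by
      rw [Int.floor_eq_iff]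
      push_cast
      constructor <;> linarith [h1.1, h1.2]
    change b i j = -⌊t i j⌋
    rw [h2, neg_neg]

omit [Fintype α] [Fintype β] in
theorem equi_cz_neg (b : Matrix β α ℤ) : cz (-b) = -cz b := by
  ext i j
  simp [cz]

/-- unfolding -/
theorem equi_unfold (G : Matrix β α ℝ → ℝ≥0∞) (hG : Measurable G) :
    ∫⁻ s in cube β α, ∑' m : Matrix β α ℤ, G (cz m + s) = ∫⁻ s, G s := by
  have hm : ∀ b : Matrix β α ℤ, Measurable fun s : Matrix β α ℝ => cz b + s :=
    fun b => measurable_const_add _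
  have hi : Measurable ((cube β α).indicator (1 : Matrix β α ℝ → ℝ≥0∞)) :=
    measurable_one.indicator measurableSet_cube
  calc ∫⁻ s in cube β α, ∑' m : Matrix β α ℤ, G (cz m + s)
      = ∑' m : Matrix β α ℤ, ∫⁻ s in cube β α, G (cz m + s) :=
        lintegral_tsum fun m => (hG.comp (hm m)).aemeasurable
    _ = ∑' m : Matrix β α ℤ, ∫⁻ s, (cube β α).indicator 1 (cz (-m) + s) * G s := by
        refine tsum_congr fun m => ?_
        rw [← lintegral_add_left_eq_self (fun s => (cube β α).indicator 1 (cz (-m) + s) * G s)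
          (cz m), ← lintegral_indicator measurableSet_cube]
        refine lintegral_congr fun s => ?_
        rw [equi_cz_neg, neg_add_cancel_left]
        by_cases h : s ∈ cube β α <;> simp [h]
    _ = ∑' m : Matrix β α ℤ, ∫⁻ s, (cube β α).indicator 1 (cz m + s) * G s :=
        (Equiv.neg (Matrix β α ℤ)).tsum_eq
          fun m => ∫⁻ s, (cube β α).indicator 1 (cz m + s) * G s
    _ = ∫⁻ s, ∑' m : Matrix β α ℤ, (cube β α).indicator 1 (cz m + s) * G s :=
        (lintegral_tsum fun m => ((hi.comp (hm m)).mul hG).aemeasurable).symm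
    _ = ∫⁻ s, G s := lintegral_congr fun s => by rw [ENNReal.tsum_mul_right, equi_tile, one_mul]

/-- the integral of a periodic function over the cube does not change under translation -/
theorem equi_per (F : Matrix β α ℝ → ℝ≥0∞) (hF : Measurable F)
    (hp : ∀ (b : Matrix β α ℤ) (t : Matrix β α ℝ), F (cz b + t) = F t) (t0 : Matrix β α ℝ) :
    ∫⁻ t in cube β α, F (t + t0) = ∫⁻ t in cube β α, F t := by
  have hi : Measurable ((cube β α).indicator (1 : Matrix β α ℝ → ℝ≥0∞)) :=
    measurable_one.indicator measurableSet_cube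
  have h1 := equi_unfold (fun s => (cube β α).indicator 1 (s + t0) * F (s + t0))
    ((hi.mul hF).comp (measurable_add_const t0))
  rw [lintegral_add_right_eq_self (fun s => (cube β α).indicator 1 s * F s) t0] at h1
  simp only [add_assoc, hp, ENNReal.tsum_mul_right, equi_tile, one_mul] at h1
  rw [h1, ← lintegral_indicator measurableSet_cube]
  refine lintegral_congr fun s => ?_
  by_cases h : s ∈ cube β α <;> simp [h]

omit [Fintype α] in
theorem equi_surj {l : Matrix κ β ℤ} (hl : Ind l) (s : Matrix κ α ℝ) :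
    ∃ t : Matrix β α ℝ, cz l * t = s := by
  have h1 : LinearIndependent ℝ (cz l).row :=
    (linearIndependent_algebraMap_comp_iff (S := ℝ)).2 hl
  have h2 : Function.Surjective (cz l).mulVecLin := by
    rw [← LinearMap.range_eq_top]
    apply Submodule.eq_top_of_finrank_eq
    rw [Module.finrank_fintype_fun_eq_card, ← h1.rank_matrix, Matrix.rank]
  choose v hv using fun a : α => h2 fun k => s k a
  refine ⟨Matrix.of fun b a => v a b, ?_⟩
  ext k a
  exact congrFun (hv a) k

theorem equi (l : Matrix κ β ℤ) (hl : Ind l) (G : Matrix κ α ℝ → ℝ≥0∞) (hG : Measurable G) :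
    ∫⁻ t in cube β α, ∑' m : Matrix κ α ℤ, G (cz m + cz l * t) = ∫⁻ s, G s := by
  have hm : Measurable fun t : Matrix β α ℝ => cz l * t :=
    Measurable.mxmul measurable_const measurable_id
  let F : Matrix κ α ℝ → ℝ≥0∞ := fun s => ∑' m : Matrix κ α ℤ, G (cz m + s)
  have hF : Measurable F := Measurable.tsum fun m => hG.comp (measurable_const_add _)
  have hp : ∀ (b : Matrix κ α ℤ) (s : Matrix κ α ℝ), F (cz b + s) = F s := fun b s => by
    simp only [F, ← add_assoc, ← cz_add]
    exact (Equiv.addRight b).tsum_eq fun m => G (cz m + s)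
  have h1 : ∀ s, ∫⁻ t in cube β α, F (cz l * t + s) = ∫⁻ t in cube β α, F (cz l * t) :=
    fun s => by
      obtain ⟨t0, rfl⟩ := equi_surj hl s
      simp only [← Matrix.mul_add]
      exact equi_per (fun t => F (cz l * t)) (hF.comp hm)
        (fun b t => by rw [Matrix.mul_add, ← cz_mul, hp]) t0
  have h2 : ∀ x, ∫⁻ s in cube κ α, F (x + s) = ∫⁻ s, G s := fun x => by
    simp only [add_comm x]
    rw [equi_per F hF hp, equi_unfold G hG]
  calc ∫⁻ t in cube β α, F (cz l * t)
      = ∫⁻ s in cube κ α, ∫⁻ t in cube β α, F (cz l * t + s) := by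
        simp only [h1]
        rw [setLIntegral_const, volume_cube, mul_one]
    _ = ∫⁻ t in cube β α, ∫⁻ s in cube κ α, F (cz l * t + s) :=
        lintegral_lintegral_swap
          (hF.comp ((hm.comp measurable_snd).add measurable_fst)).aemeasurable
    _ = ∫⁻ s, G s := by
        simp only [h2]
        rw [setLIntegral_const, volume_cube, mul_one]

/-- the transposed form, with a sign -/
theorem equi' (m : Matrix κ α ℤ) (hm : Ind m) (G : Matrix κ β ℝ → ℝ≥0∞) (hG : Measurable G) :
    ∫⁻ t in cube β α, ∑' l : Matrix κ β ℤ, G (cz l - cz m * tᵀ) = ∫⁻ s, G s := by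
  have h1 : Ind (-m) := LinearIndependent.neg hm
  have h2 : Measurable fun t : Matrix α β ℝ => ∑' l : Matrix κ β ℤ, G (cz l + cz (-m) * t) :=
    Measurable.tsum fun l => hG.comp
      (measurable_const.add (Measurable.mxmul measurable_const measurable_id))
  have h3 := (mp_transpose (α := β) (ι := α)).setLIntegral_comp_preimage
    (measurableSet_cube (α := β) (β := α)) h2
  have h4 : (fun X : Matrix β α ℝ => Xᵀ) ⁻¹' cube α β = cube β α :=
    Set.ext fun X => ⟨fun h b a => h a b, fun h a b => h b a⟩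
  rw [h4, equi (-m) h1 G hG] at h3
  rw [← h3]
  simp only [equi_cz_neg, Matrix.neg_mul, sub_eq_add_neg]

omit [Fintype β] [Fintype κ] in
theorem equi_row (l : Matrix κ β ℤ) (m : Matrix κ α ℤ) (t : Matrix β α ℝ) (k : κ) :
    ((cz l - cz m * tᵀ) k : β → ℝ) = cv (l k) - t *ᵥ cv (m k) := by
  funext b
  simp only [Matrix.sub_apply, Matrix.mul_apply, Pi.sub_apply, mulVec, dotProduct, cz, cv,
    Matrix.map_apply, Matrix.transpose_apply, mul_comm]

/-- one vector -/
theorem equi_one {m : α → ℤ} (hm : m ≠ 0) (G : (β → ℝ) → ℝ≥0∞) (hG : Measurable G) :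
    ∫⁻ t in cube β α, ∑' l : β → ℤ, G (cv l - t *ᵥ cv m) = ∫⁻ s, G s := by
  have h1 : Ind (Matrix.of fun (_ : Unit) a => m a) := linearIndependent_unique_iff.2 hm
  have h2 : Measurable fun s : Matrix Unit β ℝ => G (s ()) := hG.comp (measurable_row ())
  have h3 := equi' _ h1 _ h2
  rw [← (mp_one_row (ι := β)).lintegral_comp h2] at h3
  refine Eq.trans (lintegral_congr fun t => ?_) h3
  simp only [equi_row]
  exact ((Equiv.funUnique Unit (β → ℤ)).tsum_eq fun l => G (cv l - t *ᵥ cv m)).symm

/-- two vectors -/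
theorem equi_two {m m' : α → ℤ} (hm : Ind2 (m, m')) (G : (β → ℝ) → (β → ℝ) → ℝ≥0∞)
    (hG : Measurable (Function.uncurry G)) :
    ∫⁻ t in cube β α, ∑' l : β → ℤ, ∑' l' : β → ℤ, G (cv l - t *ᵥ cv m) (cv l' - t *ᵥ cv m') =
      ∫⁻ s, ∫⁻ s', G s s' := by
  have h1 : Ind (Matrix.of ![m, m']) := hm
  have h2 : Measurable fun s : Matrix (Fin 2) β ℝ => G (s 0) (s 1) :=
    hG.comp ((measurable_row 0).prodMk (measurable_row 1))
  have h3 := equi' _ h1 _ h2
  rw [← (mp_two_rows (ι := β)).lintegral_comp h2] at h3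
  refine Eq.trans (lintegral_congr fun t => ?_) (h3.trans (lintegral_prod _ hG.aemeasurable))
  simp only [equi_row]
  rw [← ENNReal.tsum_prod]
  exact ((finTwoArrowEquiv (β → ℤ)).tsum_eq
    fun p => G (cv p.1 - t *ᵥ cv m) (cv p.2 - t *ᵥ cv m')).symm

/-- the integer translates of the cube tile the space -/
theorem tsum_cube_indicator (t : Matrix β α ℝ) :
    ∑' b : Matrix β α ℤ, (cube β α).indicator (1 : Matrix β α ℝ → ℝ≥0∞) (cz b + t) = 1 :=
  equi_tile t

end Pool.Agent.Eps.H
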