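import Pool.Agent.Lib.MP_3bda03_nt.H.Alg

/-!
The integer group acts transitively on primitive frames.
-/

set_option autoImplicit false

noncomputable section

open MeasureTheory Matrix
open scoped ENNReal

namespace Pool.Agent.Eps.H

section
variable {α β ι : Type} [Fintype α] [DecidableEq α] [Fintype β] [DecidableEq β] [Fintype ι]
  [DecidableEq ι] (e : α ⊕ β ≃ ι)

theorem prim_std : Prim (std e) := by
  refine ⟨(std e)ᵀ, ?_⟩
  ext a b
  simp only [std, Matrix.mul_apply, Matrix.transpose_apply, ite_mul, one_mul, zero_mul,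
    Finset.sum_ite_eq, Finset.mem_univ, if_true, Matrix.one_apply, EmbeddingLike.apply_eq_iff_eq,
    Sum.inl.injEq]
  simp only [eq_comm]

theorem std_mulVec (l : ι → ℤ) : std e *ᵥ l = fun a => l (e (Sum.inl a)) := by
  funext a
  simp [std, Matrix.mulVec, dotProduct]

theorem std_mul {κ : Type} (M : Matrix ι κ ℤ) : std e * M = M.submatrix (fun a => e (Sum.inl a)) id := by
  ext a j
  simp [std, Matrix.mul_apply]

theorem cz_std_mul {κ : Type} (M : Matrix ι κ ℝ) :
    cz (std e) * M = M.submatrix (fun a => e (Sum.inl a)) id := by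
  ext a j
  simp [std, cz, Matrix.mul_apply, apply_ite (fun x : ℤ => (x : ℝ))]

theorem exists_gl {P : Matrix α ι ℤ} (hP : Prim P) : ∃ γ : GL ι ℤ, std e * γ.val = P := by
  obtain ⟨Q, hQ⟩ := hP
  set φ : (ι → ℤ) →ₗ[ℤ] (α → ℤ) := Q.vecMulLinear with hφ
  have hsurj : Function.Surjective φ := fun u =>
    ⟨u ᵥ* P, by simp [hφ, Matrix.vecMul_vecMul, hQ]⟩
  have hrk : Module.finrank ℤ (LinearMap.ker φ) = Fintype.card β := by
    have h1 := (LinearMap.ker φ).finrank_quotient_add_finrank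
    rw [(φ.quotKerEquivOfSurjective hsurj).finrank_eq] at h1
    simp only [Module.finrank_fintype_fun_eq_card] at h1
    have h2 := Fintype.card_congr e
    rw [Fintype.card_sum] at h2
    omega
  let B : Module.Basis β ℤ (LinearMap.ker φ) :=
    (Module.finBasisOfFinrankEq ℤ _ hrk).reindex (Fintype.equivFin β).symm
  let B' : Matrix β ι ℤ := Matrix.of fun b => (B b : ι → ℤ)
  let M : Matrix ι ι ℤ := (Matrix.fromRows P B').submatrix e.symm id
  have hM : IsUnit M := by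
    rw [← Matrix.vecMul_surjective_iff_isUnit]
    intro v
    have hk : v - (v ᵥ* Q) ᵥ* P ∈ LinearMap.ker φ := by
      simp [hφ, LinearMap.mem_ker, Matrix.sub_vecMul, Matrix.vecMul_vecMul, Matrix.mul_assoc, hQ]
    have hc : (fun b => B.repr ⟨_, hk⟩ b) ᵥ* B' = v - (v ᵥ* Q) ᵥ* P := by
      have h1 := congrArg Subtype.val (B.sum_repr ⟨_, hk⟩)
      rw [Matrix.vecMul_eq_sum]
      rw [Submodule.coe_sum] at h1
      exact h1
    refine ⟨Sum.elim (v ᵥ* Q) (fun b => B.repr ⟨_, hk⟩ b) ∘ e.symm, ?_⟩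
    change (Sum.elim (v ᵥ* Q) (fun b => B.repr ⟨_, hk⟩ b) ∘ e.symm) ᵥ* M = v
    have h3 : (Sum.elim (v ᵥ* Q) (fun b => B.repr ⟨_, hk⟩ b) ∘ e.symm) ∘ e.symm.symm =
        Sum.elim (v ᵥ* Q) (fun b => B.repr ⟨_, hk⟩ b) := by
      funext x
      simp
    rw [Matrix.submatrix_vecMul_equiv, h3, Matrix.sumElim_vecMul_fromRows, hc]
    funext i
    simp
  refine ⟨hM.unit, ?_⟩
  rw [IsUnit.unit_spec, std_mul]
  ext a j
  simp [M]

/-- the stabiliser of the standard frame -/
def stab (b : Matrix β α ℤ) (δ : GL β ℤ) : GL ι ℤ :=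
  ⟨Matrix.reindex e e (Matrix.fromBlocks 1 0 b δ.val),
    Matrix.reindex e e (Matrix.fromBlocks 1 0 (-((δ⁻¹).val * b)) (δ⁻¹).val),
    by
      simp only [Matrix.reindex_apply, Matrix.submatrix_mul_equiv, Matrix.fromBlocks_multiply]
      simp [← Matrix.mul_assoc, Matrix.fromBlocks_one],
    by
      simp only [Matrix.reindex_apply, Matrix.submatrix_mul_equiv, Matrix.fromBlocks_multiply]
      simp [Matrix.fromBlocks_one]⟩

theorem std_mul_stab (b : Matrix β α ℤ) (δ : GL β ℤ) : std e * (stab e b δ).val = std e := by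
  rw [std_mul]
  ext a j
  obtain ⟨x, rfl⟩ := e.surjective j
  rcases x with a' | b' <;> simp [stab, std, Matrix.one_apply]

theorem orb_stab_inj {b b' : Matrix β α ℤ} {δ δ' : GL β ℤ} (h : stab e b δ = stab e b' δ') :
    b = b' ∧ δ = δ' := by
  have h1 : Matrix.reindex e e (Matrix.fromBlocks 1 0 b δ.val) =
      Matrix.reindex e e (Matrix.fromBlocks 1 0 b' δ'.val) := congrArg Units.val h
  have h2 := Matrix.fromBlocks_inj.1 ((Matrix.reindex e e).injective h1)
  exact ⟨h2.2.2.1, Units.ext h2.2.2.2⟩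

theorem orb_exists_stab {σ : GL ι ℤ} (h : std e * σ.val = std e) :
    ∃ (b : Matrix β α ℤ) (δ : GL β ℤ), stab e b δ = σ := by
  rw [std_mul] at h
  have hN : σ.val.submatrix e e = Matrix.fromBlocks 1 0 (σ.val.submatrix e e).toBlocks₂₁
      (σ.val.submatrix e e).toBlocks₂₂ := by
    ext x y
    rcases x with a | b <;> rcases y with a' | b'
    · have := congrFun (congrFun h a) (e (Sum.inl a'))
      simpa [std, Matrix.one_apply] using this
    · have := congrFun (congrFun h a) (e (Sum.inr b'))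
      simpa [std] using this
    · simp [Matrix.toBlocks₂₁]
    · simp [Matrix.toBlocks₂₂]
  have hd : IsUnit (σ.val.submatrix e e).toBlocks₂₂ := by
    rw [Matrix.isUnit_iff_isUnit_det]
    have h1 : IsUnit (σ.val.submatrix e e).det := by
      rw [Matrix.det_submatrix_equiv_self, ← Matrix.isUnit_iff_isUnit_det]
      exact σ.isUnit
    rw [hN, Matrix.det_fromBlocks_zero₁₂, Matrix.det_one, one_mul] at h1
    exact h1
  refine ⟨(σ.val.submatrix e e).toBlocks₂₁, hd.unit, Units.ext ?_⟩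
  change Matrix.reindex e e (Matrix.fromBlocks 1 0 _ hd.unit.val) = _
  rw [IsUnit.unit_spec, ← hN]
  ext i j
  simp

theorem tsum_gl (sec : {P : Matrix α ι ℤ // Prim P} → GL ι ℤ)
    (hsec : ∀ P, std e * (sec P).val = P.1) (f : GL ι ℤ → ℝ≥0∞) :
    ∑' γ, f γ = ∑' P, ∑' b : Matrix β α ℤ, ∑' δ : GL β ℤ, f (stab e b δ * sec P) := by
  let F : {P : Matrix α ι ℤ // Prim P} × (Matrix β α ℤ × GL β ℤ) → GL ι ℤ :=
    fun x => stab e x.2.1 x.2.2 * sec x.1
  have hF : ∀ x, std e * (F x).val = x.1.1 := fun x => by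
    simp only [F, Units.val_mul]
    rw [← Matrix.mul_assoc, std_mul_stab, hsec]
  have hinj : Function.Injective F := by
    rintro ⟨P, b, δ⟩ ⟨P', b', δ'⟩ h
    have h1 : P = P' := Subtype.ext (by
      have := hF (P, b, δ)
      rw [h, hF] at this
      exact this.symm)
    subst h1
    have h2 : stab e b δ = stab e b' δ' := mul_right_cancel h
    obtain ⟨rfl, rfl⟩ := orb_stab_inj e h2
    rfl
  have hsurj : Function.Surjective F := by
    intro γ
    have hP : Prim (std e * γ.val) := (Prim.mul_gl γ).2 (prim_std e)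
    have h1 : std e * (γ * (sec ⟨_, hP⟩)⁻¹).val = std e := by
      rw [Units.val_mul, ← Matrix.mul_assoc]
      have h2 : std e * (sec ⟨_, hP⟩).val = std e * γ.val := hsec ⟨_, hP⟩
      generalize sec ⟨_, hP⟩ = σ at h2
      rw [← h2, Matrix.mul_assoc, Units.mul_inv, Matrix.mul_one]
    obtain ⟨b, δ, h⟩ := orb_exists_stab e h1
    refine ⟨(⟨_, hP⟩, b, δ), ?_⟩
    simp only [F]
    rw [h, inv_mul_cancel_right]
  rw [← (Equiv.ofBijective F ⟨hinj, hsurj⟩).tsum_eq f, ENNReal.tsum_prod']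
  refine tsum_congr fun P => ?_
  rw [ENNReal.tsum_prod']
  rfl

/-- independence modulo the standard frame -/
theorem ind_std_iff {τ : Type} (Y : Matrix τ ι ℤ) :
    Ind (Matrix.fromRows (std e) Y) ↔ Ind (Y.submatrix id fun b => e (Sum.inr b)) := by
  let π : (ι → ℤ) →ₗ[ℤ] (β → ℤ) := LinearMap.funLeft ℤ ℤ fun b => e (Sum.inr b)
  have hker : LinearMap.ker π = Submodule.span ℤ (Set.range fun a => std e a) := by
    apply le_antisymm
    · intro x hx
      rw [Submodule.mem_span_range_iff_exists_fun]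
      refine ⟨fun a => x (e (Sum.inl a)), ?_⟩
      funext j
      obtain ⟨y, rfl⟩ := e.surjective j
      rcases y with a' | b'
      · simp [std, Finset.sum_apply]
      · have := congrFun (LinearMap.mem_ker.1 hx) b'
        simpa [std, Finset.sum_apply, π, LinearMap.funLeft_apply] using this.symm
    · rw [Submodule.span_le]
      rintro _ ⟨a, rfl⟩
      rw [SetLike.mem_coe, LinearMap.mem_ker]
      funext b
      simp [π, std, LinearMap.funLeft_apply]
  have h1 : Ind (Y.submatrix id fun b => e (Sum.inr b)) ↔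
      LinearIndependent ℤ (π ∘ fun t => Y t) := Iff.rfl
  have h2 : Ind (Matrix.fromRows (std e) Y) ↔ LinearIndependent ℤ (fun a => std e a) ∧
      LinearIndependent ℤ (fun t => Y t) ∧
        Disjoint (Submodule.span ℤ (Set.range fun a => std e a))
          (Submodule.span ℤ (Set.range fun t => Y t)) := linearIndependent_sum
  rw [h1, h2, ← hker]
  constructor
  · rintro ⟨-, h3, h4⟩
    exact h3.map h4.symm
  · intro h
    exact ⟨(prim_std e).ind, h.of_comp, (Submodule.range_ker_disjoint h).symm⟩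

end

section
variable {α ι : Type} [Fintype ι] [DecidableEq ι]

theorem orb_prim_iff {P : Matrix Unit ι ℤ} : Prim P ↔ ∃ c : ι → ℤ, P () ⬝ᵥ c = 1 := by
  constructor
  · rintro ⟨Q, hQ⟩
    refine ⟨fun i => Q i (), ?_⟩
    have := congrFun (congrFun hQ ()) ()
    simpa [Matrix.mul_apply, dotProduct] using this
  · rintro ⟨c, hc⟩
    refine ⟨Matrix.of fun i _ => c i, ?_⟩
    ext u v
    simpa [Matrix.mul_apply, dotProduct] using hc

theorem orb_extract {k : ι → ℤ} (hk : k ≠ 0) :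
    ∃ (w c : ι → ℤ) (q : ℕ), 1 ≤ q ∧ w ⬝ᵥ c = 1 ∧ k = (q : ℤ) • w := by
  obtain ⟨d, hd⟩ : ∃ d : ℕ, Ideal.span (Set.range k) = Ideal.span {(d : ℤ)} :=
    ⟨(Submodule.IsPrincipal.generator (Ideal.span (Set.range k))).natAbs, by
      rw [Int.span_natAbs, Ideal.span_singleton_generator]⟩
  have hdvd : ∀ i, (d : ℤ) ∣ k i := fun i => by
    rw [← Ideal.mem_span_singleton, ← hd]
    exact Ideal.subset_span ⟨i, rfl⟩
  choose w hw using hdvd
  have hd0 : d ≠ 0 := by
    rintro rfl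
    exact hk (funext fun i => by simpa using hw i)
  obtain ⟨c, hc⟩ : ∃ c : ι → ℤ, ∑ i, c i * k i = d := by
    rw [← Ideal.mem_span_range_iff_exists_fun, hd]
    exact Ideal.mem_span_singleton_self _
  refine ⟨w, c, d, Nat.one_le_iff_ne_zero.2 hd0, ?_, funext fun i => by simpa using hw i⟩
  apply mul_left_cancel₀ (Int.natCast_ne_zero.2 hd0)
  rw [mul_one, dotProduct, Finset.mul_sum]
  conv_rhs => rw [← hc]
  exact Finset.sum_congr rfl fun i _ => by rw [hw i]; ring

/-- a nonzero vector is a positive multiple of exactly one primitive vector -/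
theorem tsum_ne_zero (f : (ι → ℤ) → ℝ≥0∞) :
    ∑' k : {k : ι → ℤ // k ≠ 0}, f k.1 =
      ∑' P : {P : Matrix Unit ι ℤ // Prim P}, ∑' q : ℕ, f (((q + 1 : ℕ) : ℤ) • P.1 ()) := by
  have hne : ∀ (P : {P : Matrix Unit ι ℤ // Prim P}) (q : ℕ),
      ((q + 1 : ℕ) : ℤ) • P.1 () ≠ 0 := by
    intro P q h
    obtain ⟨c, hc⟩ := orb_prim_iff.1 P.2
    have h1 : (((q + 1 : ℕ) : ℤ) • P.1 ()) ⬝ᵥ c = 0 := by rw [h, zero_dotProduct]
    rw [smul_dotProduct, hc, smul_eq_mul, mul_one] at h1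
    omega
  let F : {P : Matrix Unit ι ℤ // Prim P} × ℕ → {k : ι → ℤ // k ≠ 0} :=
    fun x => ⟨((x.2 + 1 : ℕ) : ℤ) • x.1.1 (), hne x.1 x.2⟩
  have hinj : Function.Injective F := by
    rintro ⟨P, q⟩ ⟨P', q'⟩ h
    have h1 : ((q + 1 : ℕ) : ℤ) • P.1 () = ((q' + 1 : ℕ) : ℤ) • P'.1 () := congrArg Subtype.val h
    obtain ⟨c, hc⟩ := orb_prim_iff.1 P.2
    obtain ⟨c', hc'⟩ := orb_prim_iff.1 P'.2
    have h2 : ((q' + 1 : ℕ) : ℤ) ∣ ((q + 1 : ℕ) : ℤ) := by
      have := congrArg (fun x => x ⬝ᵥ c) h1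
      simp only [smul_dotProduct, hc, smul_eq_mul, mul_one] at this
      exact ⟨_, this⟩
    have h3 : ((q + 1 : ℕ) : ℤ) ∣ ((q' + 1 : ℕ) : ℤ) := by
      have := congrArg (fun x => x ⬝ᵥ c') h1
      simp only [smul_dotProduct, hc', smul_eq_mul, mul_one] at this
      exact ⟨_, this.symm⟩
    have h4 : q = q' := by
      have := Nat.dvd_antisymm (Int.natCast_dvd_natCast.1 h3) (Int.natCast_dvd_natCast.1 h2)
      omega
    subst h4
    have h5 : P.1 () = P'.1 () := smul_right_injective _ (by omega) h1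
    have h6 : P = P' := Subtype.ext (by
      ext u i
      exact congrFun h5 i)
    rw [h6]
  have hsurj : Function.Surjective F := by
    rintro ⟨k, hk⟩
    obtain ⟨w, c, q, hq, hc, hw⟩ := orb_extract hk
    refine ⟨(⟨Matrix.of fun _ => w, orb_prim_iff.2 ⟨c, hc⟩⟩, q - 1), Subtype.ext ?_⟩
    change ((q - 1 + 1 : ℕ) : ℤ) • w = k
    rw [Nat.sub_add_cancel hq, hw]
  rw [← (Equiv.ofBijective F ⟨hinj, hsurj⟩).tsum_eq (fun k => f k.1), ENNReal.tsum_prod']
  rfl

/-- a vector outside the rational span of a primitive frame -/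
theorem Prim.extend [Fintype α] [DecidableEq α] {P : Matrix α ι ℤ} (h : Prim P) {v : ι → ℤ}
    (hv : ∀ κ : α → ℤ, v ≠ κ ᵥ* P) :
    ∃ (w : ι → ℤ) (q : ℕ) (κ : α → ℤ), 1 ≤ q ∧
      Prim (Matrix.fromRows P (Matrix.of fun (_ : Unit) => w)) ∧ v = κ ᵥ* P + (q : ℤ) • w := by
  obtain ⟨Q, hQ⟩ := h
  have h0 : v - (v ᵥ* Q) ᵥ* P ≠ 0 := fun h0 => hv _ (sub_eq_zero.1 h0)
  obtain ⟨w, c, q, hq, hc, hw⟩ := orb_extract h0
  have hwQ : w ᵥ* Q = 0 := by
    have h1 : (q : ℤ) • (w ᵥ* Q) = 0 := by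
      rw [← Matrix.smul_vecMul, ← hw, Matrix.sub_vecMul, Matrix.vecMul_vecMul,
        Matrix.vecMul_vecMul, hQ, Matrix.mul_one, sub_self]
    exact (smul_eq_zero.1 h1).resolve_left (by omega)
  refine ⟨w, q, v ᵥ* Q, hq, ⟨Matrix.fromCols Q
    (Matrix.of fun i (_ : Unit) => (c - Q *ᵥ (P *ᵥ c)) i), ?_⟩, by rw [← hw]; simp⟩
  rw [Matrix.fromRows_mul_fromCols, ← Matrix.fromBlocks_one, Matrix.fromBlocks_inj]
  refine ⟨hQ, ?_, ?_, ?_⟩
  · ext a u
    have h1 : P *ᵥ (c - Q *ᵥ (P *ᵥ c)) = 0 := by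
      rw [Matrix.mulVec_sub, Matrix.mulVec_mulVec, hQ, Matrix.one_mulVec, sub_self]
    exact congrFun h1 a
  · ext u a
    exact congrFun hwQ a
  · ext u u'
    have h1 : w ⬝ᵥ (c - Q *ᵥ (P *ᵥ c)) = 1 := by
      rw [dotProduct_sub, Matrix.dotProduct_mulVec, hwQ, zero_dotProduct, hc, sub_zero]
    rw [Matrix.one_apply_eq]
    exact h1

/-- two dependent nonzero vectors are multiples of one primitive vector -/
theorem exists_of_not_ind2 {k l : ι → ℤ} (hk : k ≠ 0) (h : ¬ Ind2 (k, l)) :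
    ∃ (w : ι → ℤ) (p q : ℤ), 0 < p ∧ Prim (Matrix.of fun (_ : Unit) => w) ∧
      k = p • w ∧ l = q • w := by
  obtain ⟨w, c, p, hp, hc, hw⟩ := orb_extract hk
  have h1 : ¬ LinearIndependent ℤ ![k, l] := h
  rw [LinearIndependent.pair_iff] at h1
  push Not at h1
  obtain ⟨s, t, hst, hne⟩ := h1
  have ht : t ≠ 0 := by
    rintro rfl
    rw [zero_smul, add_zero] at hst
    exact hne ((smul_eq_zero.1 hst).resolve_right hk) rfl
  refine ⟨w, p, l ⬝ᵥ c, by omega, orb_prim_iff.2 ⟨c, hc⟩, hw, ?_⟩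
  have h2 : t • l = (-(s * p)) • w := by
    rw [hw, smul_smul] at hst
    rw [neg_smul]
    exact eq_neg_of_add_eq_zero_right hst
  have h3 : t * (l ⬝ᵥ c) = -(s * p) := by
    have := congrArg (fun x => x ⬝ᵥ c) h2
    simpa only [smul_dotProduct, hc, smul_eq_mul, mul_one] using this
  apply smul_right_injective (ι → ℤ) ht
  change t • l = t • ((l ⬝ᵥ c) • w)
  rw [smul_smul, h3, h2]

end

end Pool.Agent.Eps.H
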