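import Pool.Agent.Lib.MP_3bda03_nt.H.Lin
import Pool.Agent.Lib.MP_3bda03_nt.H.Alg

/-!
Radial integrals and the Fourier transform of radial functions.
-/

set_option autoImplicit false

noncomputable section

open MeasureTheory Matrix
open scoped ENNReal Pointwise

namespace Pool.Agent.Eps.H

variable {ι : Type} [Fintype ι]

/-- the radial density -/
def radDens (m ρ : ℝ) : ℝ := Real.pi ^ m / Real.Gamma m * ρ ^ (m - 1)

/-- the radial measure -/
def radNu (m : ℝ) : Measure ℝ :=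
  (volume.restrict (Set.Ioi (0 : ℝ))).withDensity fun ρ => ENNReal.ofReal (radDens m ρ)

instance rad_sfinite (m : ℝ) : SFinite (radNu m) := by
  unfold radNu
  infer_instance

theorem rad_meas (m : ℝ) : Measurable fun ρ => ENNReal.ofReal (radDens m ρ) := by
  unfold radDens
  fun_prop

theorem rad_c {m : ℝ} (hm : 0 < m) : 0 < Real.pi ^ m / Real.Gamma m :=
  div_pos (Real.rpow_pos_of_pos Real.pi_pos m) (Real.Gamma_pos_of_pos hm)

theorem rad_m [Nonempty ι] : 0 < (Fintype.card ι : ℝ) / 2 := by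
  have : 0 < Fintype.card ι := Fintype.card_pos
  positivity

theorem rad_pos (m : ℝ) : ∀ᵐ ρ ∂radNu m, 0 < ρ :=
  (withDensity_absolutelyContinuous _ _).ae_le (ae_restrict_mem measurableSet_Ioi)

theorem rad_lint (m : ℝ) {φ : ℝ → ℝ≥0∞} (hφ : Measurable φ) :
    ∫⁻ ρ, φ ρ ∂radNu m = ∫⁻ ρ in Set.Ioi (0 : ℝ), φ ρ * ENNReal.ofReal (radDens m ρ) := by
  rw [radNu, lintegral_withDensity_eq_lintegral_mul _ (rad_meas m) hφ]
  simp only [Pi.mul_apply, mul_comm]

theorem rad_sqrt_pow {r : ℝ} (hr : 0 ≤ r) (n : ℕ) : Real.sqrt r ^ n = r ^ ((n : ℝ) / 2) := by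
  rw [Real.sqrt_eq_rpow, ← Real.rpow_natCast, ← Real.rpow_mul hr]
  congr 1
  ring

/-- the substitution of the square of the radius -/
theorem rad_sq {n : ℕ} (hn : 0 < n) :
    ENNReal.ofReal (2 * (Real.pi ^ ((n : ℝ) / 2) / Real.Gamma ((n : ℝ) / 2))) •
      Measure.map (fun r : Set.Ioi (0 : ℝ) => r.1 ^ 2) (Measure.volumeIoiPow (n - 1)) =
      radNu ((n : ℝ) / 2) := by
  have hc := rad_c (m := (n : ℝ) / 2) (by positivity)
  refine Measure.ext_of_lintegral _ fun g hg => ?_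
  have him : (fun r : ℝ => r ^ 2) '' Set.Ioi 0 = Set.Ioi 0 := by
    ext y
    refine ⟨?_, fun hy => ⟨Real.sqrt y, Real.sqrt_pos.2 hy, Real.sq_sqrt (le_of_lt hy)⟩⟩
    rintro ⟨r, hr, rfl⟩
    exact pow_pos (show (0 : ℝ) < r from hr) 2
  rw [rad_lint _ hg, lintegral_smul_measure, lintegral_map hg (by fun_prop), Measure.volumeIoiPow,
    lintegral_withDensity_eq_lintegral_mul _ (by fun_prop) (by fun_prop)]
  simp only [Pi.mul_apply]
  rw [lintegral_subtype_comap measurableSet_Ioi fun r => ENNReal.ofReal (r ^ (n - 1)) * g (r ^ 2),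
    smul_eq_mul, ← lintegral_const_mul _ (by fun_prop)]
  conv_rhs => rw [← him]
  rw [lintegral_image_eq_lintegral_abs_deriv_mul (f' := fun r => 2 * r) measurableSet_Ioi
    (fun r _ => by simpa using (hasDerivAt_pow 2 r).hasDerivWithinAt)
    (fun a ha b hb h => (pow_left_inj₀ (le_of_lt ha) (le_of_lt hb) two_ne_zero).1 h)]
  refine setLIntegral_congr_fun measurableSet_Ioi fun r hr => ?_
  have hr0 : 0 < r := hr
  have e1 : (r ^ 2) ^ ((n : ℝ) / 2 - 1) * r = r ^ (n - 1) := by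
    rw [← Real.rpow_natCast r 2, ← Real.rpow_mul hr0.le, ← Real.rpow_add_one hr0.ne',
      ← Real.rpow_natCast, Nat.cast_pred hn]
    congr 1
    push_cast
    ring
  rw [← mul_assoc, ← ENNReal.ofReal_mul (by positivity), mul_comm (g _), ← mul_assoc,
    ← ENNReal.ofReal_mul (abs_nonneg _), abs_of_pos (by positivity), radDens, ← e1]
  congr 2
  ring

theorem rad_nsq (x : EuclideanSpace ℝ ι) : nsq x.ofLp = ‖x‖ ^ 2 := by
  rw [EuclideanSpace.norm_sq_eq, nsq]
  simp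

theorem rad_mass [Nonempty ι] : (volume : Measure (EuclideanSpace ℝ ι)).toSphere Set.univ =
    ENNReal.ofReal (2 * (Real.pi ^ ((Fintype.card ι : ℝ) / 2) /
      Real.Gamma ((Fintype.card ι : ℝ) / 2))) := by
  have hm := rad_m (ι := ι)
  have hG := Real.Gamma_pos_of_pos hm
  rw [Measure.toSphere_apply_univ, EuclideanSpace.volume_ball, finrank_euclideanSpace,
    ENNReal.ofReal_one, one_pow, one_mul, ← ENNReal.ofReal_natCast,
    ← ENNReal.ofReal_mul (Nat.cast_nonneg _), rad_sqrt_pow Real.pi_pos.le,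
    Real.Gamma_add_one hm.ne']
  congr 1
  field_simp

theorem rad_sph [Nonempty ι] : ∃ σ : Measure (ι → ℝ), IsProbabilityMeasure σ ∧
    (∀ᵐ θ ∂σ, nsq θ = 1) ∧ Measure.map (fun θ => -θ) σ = σ ∧
    MeasurePreserving (fun p : ℝ × (ι → ℝ) => Real.sqrt p.1 • p.2)
      ((radNu ((Fintype.card ι : ℝ) / 2)).prod σ) volume := by
  have hc := rad_c (rad_m (ι := ι))
  obtain ⟨c, hc1, hc0⟩ : ∃ c : ℝ≥0∞, c = ENNReal.ofReal (2 * (Real.pi ^ ((Fintype.card ι : ℝ) / 2) /
      Real.Gamma ((Fintype.card ι : ℝ) / 2))) ∧ c ≠ 0 :=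
    ⟨_, rfl, (ENNReal.ofReal_pos.2 (by positivity)).ne'⟩
  have hct : c ≠ ∞ := hc1 ▸ ENNReal.ofReal_ne_top
  obtain ⟨τ, hτ⟩ : ∃ τ, τ = (volume : Measure (EuclideanSpace ℝ ι)).toSphere := ⟨_, rfl⟩
  obtain ⟨f, hf⟩ : ∃ f : Metric.sphere (0 : EuclideanSpace ℝ ι) 1 → ι → ℝ,
      f = fun s => s.1.ofLp := ⟨_, rfl⟩
  have fm : Measurable f := by
    rw [hf]
    fun_prop
  have : IsFiniteMeasure τ := hτ ▸ inferInstance
  refine ⟨c⁻¹ • Measure.map f τ, ⟨?_⟩, ?_, ?_, by fun_prop, ?_⟩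
  · rw [Measure.smul_apply, Measure.map_apply fm .univ, Set.preimage_univ, hτ, rad_mass, ← hc1,
      smul_eq_mul, ENNReal.inv_mul_cancel hc0 hct]
  · refine Measure.ae_smul_measure ((ae_map_iff fm.aemeasurable
      (measurableSet_eq_fun measurable_nsq measurable_const)).2 (ae_of_all _ fun s => ?_)) _
    rw [hf, rad_nsq, mem_sphere_zero_iff_norm.1 s.2, one_pow]
  · have h1 : Measure.map (fun s => -s) τ = τ := by
      ext s hs
      have h2 : (Subtype.val '' ((fun s => -s) ⁻¹' s) : Set (EuclideanSpace ℝ ι)) =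
          -(Subtype.val '' s) := by
        ext x
        constructor
        · rintro ⟨y, hy, rfl⟩
          exact ⟨-y, hy, rfl⟩
        · rintro ⟨y, hy, h3⟩
          exact ⟨-y, by simpa using hy, by simp [h3]⟩
      rw [Measure.map_apply continuous_neg.measurable hs, hτ,
        Measure.toSphere_apply' _ (continuous_neg.measurable hs), Measure.toSphere_apply' _ hs, h2,
        Set.smul_neg, Measure.measure_neg]
    rw [Measure.map_smul, Measure.map_map measurable_neg fm]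
    conv_rhs => rw [← h1, Measure.map_map fm continuous_neg.measurable]
    rw [hf]
    rfl
  · have h1 := ((volume : Measure (EuclideanSpace ℝ ι)).measurePreserving_homeomorphUnitSphereProd).symm
      (homeomorphUnitSphereProd (EuclideanSpace ℝ ι)).toMeasurableEquiv
    have h2 := measurePreserving_subtype_coe (μa := (volume : Measure (EuclideanSpace ℝ ι)))
      (measurableSet_singleton (0 : EuclideanSpace ℝ ι)).compl
    rw [restrict_compl_singleton] at h2
    have h3 := (((PiLp.volume_preserving_ofLp ι).comp h2).comp h1).comp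
      Measure.measurePreserving_swap
    rw [finrank_euclideanSpace, ← hτ] at h3
    rw [← rad_sq Fintype.card_pos, ← hc1, Measure.prod_smul_left, Measure.prod_smul_right,
      smul_smul, ENNReal.mul_inv_cancel hc0 hct, one_smul,
      Measure.map_prod_map _ _ (by fun_prop) fm, Measure.map_map (by fun_prop) (by fun_prop),
      ← h3.map_eq]
    congr 1
    funext p
    simp only [Function.comp_apply, Prod.map_fst, Prod.map_snd, hf,
      Real.sqrt_sq (le_of_lt p.1.2)]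
    rfl

/-- polar coordinates -/
theorem exists_sph [Nonempty ι] : ∃ σ : Measure (ι → ℝ), IsProbabilityMeasure σ ∧
    (∀ᵐ θ ∂σ, nsq θ = 1) ∧ Measure.map (fun θ => -θ) σ = σ ∧
    MeasurePreserving (fun p : ℝ × (ι → ℝ) => Real.sqrt p.1 • p.2)
      (((volume.restrict (Set.Ioi (0 : ℝ))).withDensity fun ρ => ENNReal.ofReal
        (Real.pi ^ ((Fintype.card ι : ℝ) / 2) / Real.Gamma ((Fintype.card ι : ℝ) / 2) *
          ρ ^ ((Fintype.card ι : ℝ) / 2 - 1))).prod σ) volume := rad_sph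

theorem rad_ae {m : ℝ} {σ : Measure (ι → ℝ)} [SFinite σ] (h : ∀ᵐ θ ∂σ, nsq θ = 1) :
    ∀ᵐ p ∂(radNu m).prod σ, nsq (Real.sqrt p.1 • p.2) = p.1 := by
  filter_upwards [Measure.quasiMeasurePreserving_fst.ae (rad_pos m),
    Measure.quasiMeasurePreserving_snd.ae h] with p h1 h2
  rw [nsq_smul, h2, Real.sq_sqrt h1.le, mul_one]

theorem rad_mp [Nonempty ι] :
    MeasurePreserving (nsq : (ι → ℝ) → ℝ) volume (radNu ((Fintype.card ι : ℝ) / 2)) := by
  obtain ⟨σ, _, h1, -, h2⟩ := rad_sph (ι := ι)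
  refine ⟨measurable_nsq, ?_⟩
  rw [← h2.map_eq, Measure.map_map measurable_nsq h2.measurable]
  refine (Measure.map_congr (g := Prod.fst) (rad_ae h1)).trans ?_
  rw [Measure.map_fst_prod, measure_univ, one_smul]

theorem lintegral_radial [Nonempty ι] (φ : ℝ → ℝ≥0∞) (hφ : Measurable φ) :
    ∫⁻ x : ι → ℝ, φ (nsq x) = ∫⁻ ρ in Set.Ioi (0 : ℝ), φ ρ *
      ENNReal.ofReal (Real.pi ^ ((Fintype.card ι : ℝ) / 2) / Real.Gamma ((Fintype.card ι : ℝ) / 2) *
        ρ ^ ((Fintype.card ι : ℝ) / 2 - 1)) := by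
  rw [rad_mp.lintegral_comp hφ, rad_lint _ hφ]
  rfl

theorem rad_toReal {m ρ : ℝ} (hm : 0 < m) (hρ : 0 < ρ) :
    (ENNReal.ofReal (radDens m ρ)).toReal = Real.pi ^ m / Real.Gamma m * ρ ^ (m - 1) :=
  ENNReal.toReal_ofReal (mul_nonneg (rad_c hm).le (Real.rpow_nonneg hρ.le _))

theorem integral_radial [Nonempty ι] (φ : ℝ → ℝ) (hφ : Measurable φ) :
    ∫ x : ι → ℝ, φ (nsq x) = ∫ ρ in Set.Ioi (0 : ℝ), φ ρ *
      (Real.pi ^ ((Fintype.card ι : ℝ) / 2) / Real.Gamma ((Fintype.card ι : ℝ) / 2) *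
        ρ ^ ((Fintype.card ι : ℝ) / 2 - 1)) := by
  rw [← integral_map measurable_nsq.aemeasurable hφ.aestronglyMeasurable, rad_mp.map_eq, radNu,
    integral_withDensity_eq_integral_toReal_smul (rad_meas _)
      (ae_of_all _ fun _ => ENNReal.ofReal_lt_top)]
  refine setIntegral_congr_fun measurableSet_Ioi fun ρ hρ => ?_
  rw [rad_toReal rad_m hρ, smul_eq_mul, mul_comm]

theorem integrable_radial_iff [Nonempty ι] (φ : ℝ → ℝ) (hφ : Measurable φ) :
    Integrable (fun x : ι → ℝ => φ (nsq x)) ↔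
      IntegrableOn (fun ρ => φ ρ * ρ ^ ((Fintype.card ι : ℝ) / 2 - 1)) (Set.Ioi 0) := by
  have h1 := (rad_mp (ι := ι)).integrable_comp hφ.aestronglyMeasurable
  rw [radNu, integrable_withDensity_iff (rad_meas _) (ae_of_all _ fun _ => ENNReal.ofReal_lt_top)]
    at h1
  refine h1.trans ?_
  rw [IntegrableOn, ← integrable_const_mul_iff (IsUnit.mk0 _ (rad_c (rad_m (ι := ι))).ne')
    fun ρ => φ ρ * ρ ^ ((Fintype.card ι : ℝ) / 2 - 1)]
  refine integrable_congr ?_
  filter_upwards [ae_restrict_mem measurableSet_Ioi] with ρ hρ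
  rw [rad_toReal rad_m hρ]
  ring

theorem rad_vol {r : ℝ} (hr : 0 ≤ r) (n : ℕ) :
    ENNReal.ofReal (Real.sqrt r) ^ n * ENNReal.ofReal (Real.sqrt Real.pi ^ n /
      Real.Gamma ((n : ℝ) / 2 + 1)) =
    ENNReal.ofReal ((Real.pi * r) ^ ((n : ℝ) / 2) / Real.Gamma ((n : ℝ) / 2 + 1)) := by
  rw [← ENNReal.ofReal_pow (Real.sqrt_nonneg r), ← ENNReal.ofReal_mul (by positivity),
    rad_sqrt_pow hr, rad_sqrt_pow Real.pi_pos.le, Real.mul_rpow Real.pi_pos.le hr]
  congr 1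
  ring

theorem rad_norm (x : ι → ℝ) : ‖(WithLp.toLp 2 x : EuclideanSpace ℝ ι)‖ = Real.sqrt (nsq x) := by
  rw [← Real.sqrt_sq (norm_nonneg (WithLp.toLp 2 x : EuclideanSpace ℝ ι)), ← rad_nsq]

theorem volume_nsq_le [Nonempty ι] {r : ℝ} (hr : 0 ≤ r) :
    volume {x : ι → ℝ | nsq x ≤ r} = ENNReal.ofReal
      ((Real.pi * r) ^ ((Fintype.card ι : ℝ) / 2) / Real.Gamma ((Fintype.card ι : ℝ) / 2 + 1)) := by
  rw [← rad_vol hr, ← EuclideanSpace.volume_closedBall ι 0,
    ← (PiLp.volume_preserving_toLp ι).measure_preimage measurableSet_closedBall.nullMeasurableSet]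
  congr 1
  ext x
  rw [Set.mem_preimage, mem_closedBall_zero_iff, rad_norm, Real.sqrt_le_sqrt_iff hr]
  rfl

theorem volume_nsq_lt [Nonempty ι] {r : ℝ} (hr : 0 ≤ r) :
    volume {x : ι → ℝ | nsq x < r} = ENNReal.ofReal
      ((Real.pi * r) ^ ((Fintype.card ι : ℝ) / 2) / Real.Gamma ((Fintype.card ι : ℝ) / 2 + 1)) := by
  rw [← rad_vol hr, ← EuclideanSpace.volume_ball ι 0,
    ← (PiLp.volume_preserving_toLp ι).measure_preimage measurableSet_ball.nullMeasurableSet]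
  congr 1
  ext x
  rw [Set.mem_preimage, mem_ball_zero_iff, rad_norm, Real.sqrt_lt_sqrt_iff (nsq_nonneg x)]
  rfl

theorem rad_gamma {m : ℝ} (hm : 0 < m) (k : ℕ) : m ^ k * Real.Gamma m ≤ Real.Gamma (m + k) := by
  induction k with
  | zero => simp
  | succ k ih =>
    have h1 : 0 < m + k := by positivity
    have h2 := Real.Gamma_pos_of_pos hm
    rw [Nat.cast_succ, ← add_assoc, Real.Gamma_add_one h1.ne', pow_succ', mul_assoc]
    exact mul_le_mul (by linarith [Nat.cast_nonneg (α := ℝ) k]) ih (by positivity) h1.le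

theorem rad_mom {m b : ℝ} (hm : 0 < m) (hb : 0 < b) (k : ℕ) :
    ∫⁻ ρ, ENNReal.ofReal (ρ ^ k) * ENNReal.ofReal (Real.exp (-(b * ρ))) ∂radNu m =
      ENNReal.ofReal (Real.pi ^ m / Real.Gamma m * ((1 / b) ^ (m + k) * Real.Gamma (m + k))) := by
  have h1 : 0 < m + k := by positivity
  have h2 := Real.integral_rpow_mul_exp_neg_mul_Ioi h1 hb
  have h3 := Real.Gamma_pos_of_pos h1
  have h4 : IntegrableOn (fun t : ℝ => t ^ (m + k - 1) * Real.exp (-(b * t))) (Set.Ioi 0) :=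
    .of_integral_ne_zero (by rw [h2]; positivity)
  have hc := rad_c hm
  rw [rad_lint _ (by fun_prop), ← h2, ENNReal.ofReal_mul hc.le,
    ofReal_integral_eq_lintegral_ofReal h4, ← lintegral_const_mul _ (by fun_prop)]
  · refine setLIntegral_congr_fun measurableSet_Ioi fun ρ hρ => ?_
    have h0 : 0 < ρ := hρ
    rw [← ENNReal.ofReal_mul (by positivity), ← ENNReal.ofReal_mul (by positivity),
      ← ENNReal.ofReal_mul hc.le, radDens, show m + k - 1 = m - 1 + k by ring,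
      Real.rpow_add_natCast h0.ne']
    congr 1
    ring
  · filter_upwards [ae_restrict_mem measurableSet_Ioi] with ρ hρ
    have h0 : 0 < ρ := hρ
    positivity

/-- the mass of the Gaussian weight -/
def radZ (m b : ℝ) : ℝ≥0∞ := ∫⁻ ρ, ENNReal.ofReal (Real.exp (-(b * ρ))) ∂radNu m

theorem rad_Z {m b : ℝ} (hm : 0 < m) (hb : 0 < b) :
    radZ m b = ENNReal.ofReal (Real.pi ^ m / Real.Gamma m * ((1 / b) ^ m * Real.Gamma m)) := by
  simpa only [radZ, pow_zero, ENNReal.ofReal_one, one_mul, Nat.cast_zero, add_zero] using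
    rad_mom hm hb 0

theorem rad_mom_le {m b : ℝ} (hm : 0 < m) (hb : 0 < b) (k : ℕ) :
    ENNReal.ofReal ((m / b) ^ k) * radZ m b ≤
      ∫⁻ ρ, ENNReal.ofReal (ρ ^ k) * ENNReal.ofReal (Real.exp (-(b * ρ))) ∂radNu m := by
  have hc := rad_c hm
  have h1 : 0 < 1 / b := by positivity
  rw [rad_mom hm hb, rad_Z hm hb, ← ENNReal.ofReal_mul (by positivity),
    Real.rpow_add_natCast h1.ne']
  refine ENNReal.ofReal_le_ofReal ?_
  have h2 := mul_le_mul_of_nonneg_left (rad_gamma hm k)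
    (show 0 ≤ Real.pi ^ m / Real.Gamma m * ((1 / b) ^ m * (1 / b) ^ k) by positivity)
  rw [div_eq_mul_one_div m b, mul_pow]
  linarith

theorem rad_series {ρ : ℝ} (hρ : 0 ≤ ρ) (a : ℝ) : ENNReal.ofReal (Real.cosh (Real.sqrt ρ * a)) =
    ∑' k : ℕ, ENNReal.ofReal (a ^ (2 * k) / (2 * k).factorial) * ENNReal.ofReal (ρ ^ k) := by
  have h1 := Real.hasSum_cosh (Real.sqrt ρ * a)
  rw [← h1.tsum_eq, ENNReal.ofReal_tsum_of_nonneg (fun k => by rw [pow_mul]; positivity)
    h1.summable]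
  refine tsum_congr fun k => ?_
  rw [← ENNReal.ofReal_mul (by rw [pow_mul]; positivity), mul_pow, pow_mul (Real.sqrt ρ),
    Real.sq_sqrt hρ]
  congr 1
  ring

theorem rad_cosh {m b : ℝ} (hm : 0 < m) (hb : 0 < b) (a : ℝ) :
    ENNReal.ofReal (Real.cosh (Real.sqrt (m / b) * a)) * radZ m b ≤
      ∫⁻ ρ, ENNReal.ofReal (Real.cosh (Real.sqrt ρ * a)) *
        ENNReal.ofReal (Real.exp (-(b * ρ))) ∂radNu m := by
  have h1 : ∀ᵐ ρ ∂radNu m, ENNReal.ofReal (Real.cosh (Real.sqrt ρ * a)) *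
      ENNReal.ofReal (Real.exp (-(b * ρ))) =
      ∑' k : ℕ, ENNReal.ofReal (a ^ (2 * k) / (2 * k).factorial) *
        (ENNReal.ofReal (ρ ^ k) * ENNReal.ofReal (Real.exp (-(b * ρ)))) := by
    filter_upwards [rad_pos m] with ρ hρ
    rw [rad_series hρ.le, ← ENNReal.tsum_mul_right]
    simp only [mul_assoc]
  rw [lintegral_congr_ae h1, lintegral_tsum (fun k => by fun_prop), rad_series (by positivity),
    ← ENNReal.tsum_mul_right]
  refine ENNReal.tsum_le_tsum fun k => ?_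
  rw [lintegral_const_mul _ (by fun_prop), mul_assoc]
  exact mul_le_mul_right (rad_mom_le hm hb k) _

theorem rad_dot (w : ι → ℝ) : Measurable fun x : ι → ℝ => w ⬝ᵥ x := by
  unfold dotProduct
  fun_prop

theorem rad_even {μ : Measure (ι → ℝ)} (hμ : Measure.map (fun x => -x) μ = μ)
    {g : (ι → ℝ) → ℝ≥0∞} (hg : Measurable g) (he : ∀ x, g (-x) = g x) (w : ι → ℝ) :
    ∫⁻ x, ENNReal.ofReal (Real.cosh (w ⬝ᵥ x)) * g x ∂μ =
      ∫⁻ x, ENNReal.ofReal (Real.exp (w ⬝ᵥ x)) * g x ∂μ := by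
  have hw := rad_dot w
  have h1 : ∫⁻ x, ENNReal.ofReal (Real.exp (w ⬝ᵥ x)) * g x ∂μ =
      ∫⁻ x, ENNReal.ofReal (Real.exp (-(w ⬝ᵥ x))) * g x ∂μ := by
    conv_lhs => rw [← hμ, lintegral_map (by fun_prop) measurable_neg]
    simp only [he, dotProduct_neg]
  refine (ENNReal.mul_right_inj two_ne_zero ENNReal.ofNat_ne_top).1 ?_
  conv_rhs => rw [two_mul]
  nth_rw 2 [h1]
  rw [← lintegral_add_left (by fun_prop), ← lintegral_const_mul _ (by fun_prop)]
  refine lintegral_congr fun x => ?_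
  rw [← add_mul, ← ENNReal.ofReal_add (Real.exp_pos _).le (Real.exp_pos _).le, ← mul_assoc,
    ← ENNReal.ofReal_ofNat, ← ENNReal.ofReal_mul (by norm_num), Real.cosh_eq]
  congr 2
  ring

theorem rad_gauss [Nonempty ι] {b : ℝ} (hb : 0 < b) (w : ι → ℝ) :
    ∫⁻ x : ι → ℝ, ENNReal.ofReal (Real.exp (w ⬝ᵥ x)) * ENNReal.ofReal (Real.exp (-(b * nsq x))) =
      ENNReal.ofReal (Real.exp (nsq w / (4 * b))) * radZ ((Fintype.card ι : ℝ) / 2) b := by
  have hn := measurable_nsq (ι := ι)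
  rw [radZ, ← rad_mp.lintegral_comp (by fun_prop),
    ← lintegral_sub_right_eq_self (fun x => ENNReal.ofReal (Real.exp (-(b * nsq x))))
      ((2 * b)⁻¹ • w), ← lintegral_const_mul _ (by fun_prop)]
  refine lintegral_congr fun x => ?_
  rw [← ENNReal.ofReal_mul (Real.exp_pos _).le, ← ENNReal.ofReal_mul (Real.exp_pos _).le,
    ← Real.exp_add, ← Real.exp_add]
  congr 2
  simp only [nsq_eq_dot, sub_dotProduct, dotProduct_sub, smul_dotProduct, dotProduct_smul,
    smul_eq_mul, dotProduct_comm x w]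
  field_simp
  ring

theorem rad_sphere [Nonempty ι] {σ : Measure (ι → ℝ)} [IsProbabilityMeasure σ]
    (h1 : ∀ᵐ θ ∂σ, nsq θ = 1) (h2 : Measure.map (fun θ => -θ) σ = σ)
    (h3 : MeasurePreserving (fun p : ℝ × (ι → ℝ) => Real.sqrt p.1 • p.2)
      ((radNu ((Fintype.card ι : ℝ) / 2)).prod σ) volume) (w : ι → ℝ) {r : ℝ} (hr : 0 < r) :
    ∫⁻ θ, ENNReal.ofReal (Real.exp (w ⬝ᵥ (Real.sqrt r • θ))) ∂σ ≤
      ENNReal.ofReal (Real.exp (nsq w * r / (2 * Fintype.card ι))) := by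
  have hm := rad_m (ι := ι)
  have hn := measurable_nsq (ι := ι)
  have hw := rad_dot w
  obtain ⟨b, hb1⟩ : ∃ b, b = (Fintype.card ι : ℝ) / 2 / r := ⟨_, rfl⟩
  have hb : 0 < b := by rw [hb1]; positivity
  have e1 : (Fintype.card ι : ℝ) / 2 / b = r := by
    rw [hb1]
    field_simp
  have e2 : nsq w * r / (2 * Fintype.card ι) = nsq w / (4 * b) := by
    have : (0 : ℝ) < Fintype.card ι := by linarith
    rw [hb1]
    field_simp
    ring
  have hG := Real.Gamma_pos_of_pos hm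
  have hc := rad_c hm
  have z0 : radZ ((Fintype.card ι : ℝ) / 2) b ≠ 0 := by
    rw [rad_Z hm hb]
    exact (ENNReal.ofReal_pos.2 (by positivity)).ne'
  have z1 : radZ ((Fintype.card ι : ℝ) / 2) b ≠ ∞ := by
    rw [rad_Z hm hb]
    exact ENNReal.ofReal_ne_top
  have h4 := rad_even h2 (g := fun _ => 1) measurable_const (fun _ => rfl) (Real.sqrt r • w)
  simp only [mul_one, smul_dotProduct, smul_eq_mul] at h4
  simp only [dotProduct_smul, smul_eq_mul]
  rw [← h4, ← ENNReal.mul_le_mul_iff_left z0 z1, e2, ← rad_gauss hb,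
    ← rad_even (Measure.map_neg_eq_self _) (by fun_prop) (fun x => by rw [nsq_neg]),
    ← h3.lintegral_comp (by fun_prop), ← lintegral_mul_const _ (by fun_prop)]
  have h5 : ∀ᵐ p ∂(radNu ((Fintype.card ι : ℝ) / 2)).prod σ,
      ENNReal.ofReal (Real.cosh (w ⬝ᵥ (Real.sqrt p.1 • p.2))) *
        ENNReal.ofReal (Real.exp (-(b * nsq (Real.sqrt p.1 • p.2)))) =
      ENNReal.ofReal (Real.cosh (Real.sqrt p.1 * (w ⬝ᵥ p.2))) *
        ENNReal.ofReal (Real.exp (-(b * p.1))) := by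
    filter_upwards [rad_ae h1] with p hp
    rw [hp, dotProduct_smul, smul_eq_mul]
  rw [lintegral_congr_ae h5, lintegral_prod_symm _ (by fun_prop)]
  refine lintegral_mono fun θ => ?_
  have h6 := rad_cosh hm hb (w ⬝ᵥ θ)
  rwa [e1] at h6

/-- exponential moments on spheres, integrated against a radial weight -/
theorem lintegral_radial_exp_le [Nonempty ι] (φ : ℝ → ℝ≥0∞) (hφ : Measurable φ) (w : ι → ℝ) :
    ∫⁻ x : ι → ℝ, φ (nsq x) * ENNReal.ofReal (Real.exp (w ⬝ᵥ x)) ≤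
      ∫⁻ x : ι → ℝ, φ (nsq x) *
        ENNReal.ofReal (Real.exp (nsq w * nsq x / (2 * Fintype.card ι))) := by
  obtain ⟨σ, _, h1, h2, h3⟩ := rad_sph (ι := ι)
  have hn := measurable_nsq (ι := ι)
  have hw := rad_dot w
  have h5 : ∀ᵐ p ∂(radNu ((Fintype.card ι : ℝ) / 2)).prod σ,
      φ (nsq (Real.sqrt p.1 • p.2)) * ENNReal.ofReal (Real.exp (w ⬝ᵥ (Real.sqrt p.1 • p.2))) =
      φ p.1 * ENNReal.ofReal (Real.exp (w ⬝ᵥ (Real.sqrt p.1 • p.2))) := by
    filter_upwards [rad_ae h1] with p hp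
    rw [hp]
  rw [rad_mp.lintegral_comp (f := fun ρ => φ ρ *
      ENNReal.ofReal (Real.exp (nsq w * ρ / (2 * Fintype.card ι)))) (by fun_prop),
    ← h3.lintegral_comp (by fun_prop), lintegral_congr_ae h5, lintegral_prod _ (by fun_prop)]
  refine lintegral_mono_ae ?_
  filter_upwards [rad_pos _] with ρ hρ
  rw [lintegral_const_mul _ (by fun_prop)]
  exact mul_le_mul_right (rad_sphere h1 h2 h3 w hρ) _

end Pool.Agent.Eps.H
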