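import Pool.Agent.Lib.MP_3bda03_nt.H.Poisson

/-!
The continuation of the Epstein zeta function and the sign condition.
-/

set_option autoImplicit false

noncomputable section

open MeasureTheory Matrix
open scoped ENNReal

namespace Pool.Agent.Eps.H

variable {ι : Type} [Fintype ι] [DecidableEq ι]

theorem fs_nonneg (s ρ : ℝ) : 0 ≤ fs s ρ :=
  setIntegral_nonneg measurableSet_Ioi fun t (ht : 1 < t) =>
    mul_nonneg (Real.rpow_nonneg (by linarith) _) (Real.exp_pos _).le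

theorem integrableOn_fs (s : ℝ) {ρ : ℝ} (hρ : 0 < ρ) :
    IntegrableOn (fun t : ℝ => t ^ (s - 1) * Real.exp (-Real.pi * t * ρ)) (Set.Ioi 1) := by
  have hb : 0 < Real.pi * ρ := mul_pos Real.pi_pos hρ
  have h := (integrableOn_rpow_mul_exp_neg_mul_rpow (s := |s - 1|) (p := 1) (b := Real.pi * ρ)
    (by linarith [abs_nonneg (s - 1)]) one_pos hb).mono_set
    (Set.Ioi_subset_Ioi (zero_le_one' ℝ))
  refine h.mono' ?_ ?_
  · refine ContinuousOn.aestronglyMeasurable ?_ measurableSet_Ioi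
    refine ContinuousOn.mul (continuousOn_id.rpow_const fun t (ht : 1 < t) => Or.inl ?_) (by fun_prop)
    simp only [id]; linarith
  · filter_upwards [ae_restrict_mem measurableSet_Ioi] with t (ht : 1 < t)
    have h0 : 0 ≤ t ^ (s - 1) := Real.rpow_nonneg (by linarith) _
    rw [Real.norm_eq_abs, abs_of_nonneg (mul_nonneg h0 (Real.exp_pos _).le), Real.rpow_one]
    have e : -Real.pi * t * ρ = -(Real.pi * ρ) * t := by ring
    rw [e]
    exact mul_le_mul_of_nonneg_right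
      (Real.rpow_le_rpow_of_exponent_le ht.le (le_abs_self _)) (Real.exp_pos _).le

omit [DecidableEq ι] in
theorem ana_one_le {k : ι → ℤ} (hk : k ≠ 0) : (1 : ℝ) ≤ nsq (cv k) := by
  obtain ⟨j, hj⟩ := Function.ne_iff.mp hk
  have h1 : (1 : ℤ) ≤ k j ^ 2 := by
    have : 0 < k j ^ 2 := by
      have : k j ≠ 0 := hj
      positivity
    omega
  have h2 : (1 : ℝ) ≤ ((k j : ℤ) : ℝ) ^ 2 := by exact_mod_cast h1
  exact h2.trans (Finset.single_le_sum (f := fun j => ((k j : ℤ) : ℝ) ^ 2)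
    (fun _ _ => sq_nonneg _) (Finset.mem_univ j))

theorem ana_coer {g : Matrix ι ι ℝ} (hg : g.det ≠ 0) :
    ∃ c : ℝ, 0 < c ∧ ∀ k : ι → ℤ, c * nsq (cv k) ≤ nsq (lv k g) := by
  obtain ⟨c, hc, h⟩ := exists_coer hg
  exact ⟨c, hc, fun k => h (cv k)⟩

theorem ana_pos {g : Matrix ι ι ℝ} (hg : g.det ≠ 0) {k : ι → ℤ} (hk : k ≠ 0) :
    0 < nsq (lv k g) := by
  obtain ⟨c, hc, h⟩ := ana_coer hg
  have := ana_one_le hk
  have := h k
  nlinarith

theorem ana_summable_rpow {g : Matrix ι ι ℝ} (hg : g.det ≠ 0) {σ : ℝ}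
    (hσ : (Fintype.card ι : ℝ) / 2 < σ) :
    Summable fun k : {k : ι → ℤ // k ≠ 0} => nsq (lv k.1 g) ^ (-σ) := by
  obtain ⟨c, hc, h⟩ := ana_coer hg
  set b := Pi.basisFun ℝ ι with hb
  set L : Submodule ℤ (ι → ℝ) := Submodule.span ℤ (Set.range b) with hL
  have hrk : Module.finrank ℤ L = Fintype.card ι :=
    Module.finrank_eq_card_basis (b.restrictScalars ℤ)
  have hs := ZLattice.summable_norm_rpow L (-(2 * σ)) (by rw [hrk]; linarith)
  have hmem : ∀ k : ι → ℤ, cv k ∈ L := by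
    intro k
    rw [hL, Module.Basis.mem_span_iff_repr_mem]
    intro i
    exact ⟨k i, by simp [hb, cv]⟩
  let φ : {k : ι → ℤ // k ≠ 0} → L := fun k => ⟨_, hmem k.1⟩
  have hφ : Function.Injective φ := by
    intro k k' hkk
    have : cv k.1 = cv k'.1 := congrArg Subtype.val hkk
    ext j
    have := congrFun this j
    simp only [cv] at this
    exact_mod_cast this
  have hσ0 : 0 < σ := lt_of_le_of_lt (by positivity) hσ
  refine Summable.of_nonneg_of_le (fun k => Real.rpow_nonneg (nsq_nonneg _) _) (fun k => ?_)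
    ((hs.comp_injective hφ).mul_left (c ^ (-σ)))
  have hn1 : ‖φ k‖ ^ 2 ≤ nsq (cv k.1) := by
    have h0 : 0 ≤ nsq (cv k.1) := nsq_nonneg _
    have : ‖φ k‖ ≤ √(nsq (cv k.1)) := by
      change ‖cv k.1‖ ≤ _
      refine (pi_norm_le_iff_of_nonneg (Real.sqrt_nonneg _)).mpr fun j => ?_
      rw [Real.norm_eq_abs]
      exact Real.abs_le_sqrt (Finset.single_le_sum (f := fun j => cv k.1 j ^ 2)
        (fun _ _ => sq_nonneg _) (Finset.mem_univ j))
    calc ‖φ k‖ ^ 2 ≤ √(nsq (cv k.1)) ^ 2 := by gcongr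
      _ = _ := Real.sq_sqrt h0
  have hpos : 0 < ‖φ k‖ := by
    rw [norm_pos_iff]
    intro h0
    apply k.2
    have : cv k.1 = 0 := congrArg Subtype.val h0
    ext j
    have := congrFun this j
    simpa [cv] using this
  have hle : c * ‖φ k‖ ^ 2 ≤ nsq (lv k.1 g) := le_trans (by gcongr) (h k.1)
  calc nsq (lv k.1 g) ^ (-σ) ≤ (c * ‖φ k‖ ^ 2) ^ (-σ) :=
        Real.rpow_le_rpow_of_nonpos (by positivity) hle (by linarith)
    _ = c ^ (-σ) * ‖φ k‖ ^ (-(2 * σ)) := by
        rw [Real.mul_rpow hc.le (by positivity), ← Real.rpow_natCast, ← Real.rpow_mul hpos.le]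
        congr 2
        push_cast
        ring

theorem ana_contOn {g : Matrix ι ι ℝ} (hg : g.det ≠ 0) :
    ContinuousOn (theta g) (Set.Ioi 0) := by
  intro t (ht : 0 < t)
  have h : ContinuousOn (theta g) (Set.Ioi (t / 2)) := by
    refine continuousOn_tsum (u := fun k => Real.exp (-Real.pi * (t / 2) * nsq (lv k g)))
      (fun k => by fun_prop) (summable_theta hg (by linarith)) (fun k x (hx : t / 2 < x) => ?_)
    rw [Real.norm_eq_abs, abs_of_pos (Real.exp_pos _)]
    apply Real.exp_le_exp.mpr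
    have h0 := nsq_nonneg (lv k g)
    have : Real.pi * (t / 2) * nsq (lv k g) ≤ Real.pi * x * nsq (lv k g) := by
      have := Real.pi_pos
      gcongr
    change -Real.pi * x * nsq (lv k g) ≤ _
    linarith
  exact (h.continuousAt (Ioi_mem_nhds (by linarith))).continuousWithinAt

theorem ana_decay {g : Matrix ι ι ℝ} (hg : g.det ≠ 0) (r : ℝ) :
    ∃ C : ℝ, 0 ≤ C ∧ ∀ t : ℝ, 1 ≤ t → |theta g t - 1| ≤ C * t ^ r := by
  obtain ⟨c, hc, h⟩ := ana_coer hg
  obtain ⟨N, hN⟩ := exists_nat_ge (-r)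
  have h1 := hasSum_theta hg one_pos
  have hθ : 0 ≤ theta g 1 - 1 := h1.nonneg fun _ => (Real.exp_pos _).le
  have hpc : 0 < Real.pi * c := mul_pos Real.pi_pos hc
  refine ⟨Real.exp (Real.pi * c) * (theta g 1 - 1) * (N.factorial / (Real.pi * c) ^ N),
    by positivity, fun t ht => ?_⟩
  have ht0 : 0 < t := by linarith
  have h2 := hasSum_theta hg ht0
  rw [abs_of_nonneg (h2.nonneg fun _ => (Real.exp_pos _).le)]
  have h3 : theta g t - 1 ≤ Real.exp (-(Real.pi * c) * (t - 1)) * (theta g 1 - 1) := by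
    refine hasSum_le (fun k => ?_) h2 (h1.mul_left _)
    rw [← Real.exp_add]
    apply Real.exp_le_exp.mpr
    have h4 : c ≤ nsq (lv k.1 g) := by
      have := ana_one_le k.2
      have := h k.1
      nlinarith
    have h5 : Real.pi * (t - 1) * c ≤ Real.pi * (t - 1) * nsq (lv k.1 g) := by
      have := Real.pi_pos
      have : 0 ≤ t - 1 := by linarith
      gcongr
    linarith
  have h6 : Real.exp (-(Real.pi * c * t)) ≤ N.factorial / (Real.pi * c) ^ N * t ^ r := by
    have h7 := Real.pow_div_factorial_le_exp (Real.pi * c * t) (by positivity) N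
    have h8 : (t ^ N)⁻¹ ≤ t ^ r := by
      rw [← Real.rpow_natCast, ← Real.rpow_neg ht0.le]
      exact Real.rpow_le_rpow_of_exponent_le ht (by linarith)
    calc Real.exp (-(Real.pi * c * t)) = (Real.exp (Real.pi * c * t))⁻¹ := Real.exp_neg _
      _ ≤ ((Real.pi * c * t) ^ N / N.factorial)⁻¹ := inv_anti₀ (by positivity) h7
      _ = N.factorial / (Real.pi * c) ^ N * (t ^ N)⁻¹ := by
          rw [mul_pow (Real.pi * c) t]
          field_simp
      _ ≤ _ := by gcongr
  calc theta g t - 1 ≤ Real.exp (-(Real.pi * c) * (t - 1)) * (theta g 1 - 1) := h3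
    _ = Real.exp (Real.pi * c) * (theta g 1 - 1) * Real.exp (-(Real.pi * c * t)) := by
        rw [mul_right_comm, ← Real.exp_add]
        congr 2
        ring
    _ ≤ Real.exp (Real.pi * c) * (theta g 1 - 1) * (N.factorial / (Real.pi * c) ^ N * t ^ r) := by
        gcongr
    _ = _ := by ring

theorem integrableOn_theta {g : Matrix ι ι ℝ} (hg : g.det ≠ 0) (s : ℝ) :
    IntegrableOn (fun t : ℝ => (theta g t - 1) * t ^ (s - 1)) (Set.Ioi 1) := by
  obtain ⟨C, hC, h⟩ := ana_decay hg (-s - 1)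
  have h2 := (integrableOn_Ioi_rpow_of_lt (a := -2) (by norm_num) one_pos).const_mul C
  refine Integrable.mono' h2 ?_ ?_
  · refine ContinuousOn.aestronglyMeasurable ?_ measurableSet_Ioi
    refine ContinuousOn.mul (((ana_contOn hg).mono
      (Set.Ioi_subset_Ioi (zero_le_one' ℝ))).sub continuousOn_const)
      (continuousOn_id.rpow_const fun t (ht : 1 < t) => Or.inl ?_)
    simp only [id]; linarith
  · filter_upwards [ae_restrict_mem measurableSet_Ioi] with t (ht : 1 < t)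
    have ht0 : 0 < t := by linarith
    have h0 : 0 ≤ t ^ (s - 1) := Real.rpow_nonneg ht0.le _
    rw [Real.norm_eq_abs, abs_mul, abs_of_nonneg h0]
    calc |theta g t - 1| * t ^ (s - 1) ≤ C * t ^ (-s - 1) * t ^ (s - 1) := by
          gcongr
          exact h t ht.le
      _ = C * t ^ (-2 : ℝ) := by
          rw [mul_assoc, ← Real.rpow_add ht0]
          congr 2
          ring

theorem hasSum_fs {g : Matrix ι ι ℝ} (hg : g.det ≠ 0) (s : ℝ) :
    HasSum (fun k : {k : ι → ℤ // k ≠ 0} => fs s (nsq (lv k.1 g)))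
      (∫ t in Set.Ioi (1 : ℝ), (theta g t - 1) * t ^ (s - 1)) := by
  set F : {k : ι → ℤ // k ≠ 0} → ℝ → ℝ :=
    fun k t => t ^ (s - 1) * Real.exp (-Real.pi * t * nsq (lv k.1 g)) with hF
  have hi : ∀ k, Integrable (F k) (volume.restrict (Set.Ioi (1 : ℝ))) :=
    fun k => integrableOn_fs s (ana_pos hg k.2)
  have hpt : ∀ t : ℝ, 1 < t → HasSum (fun k => F k t) ((theta g t - 1) * t ^ (s - 1)) := by
    intro t ht
    rw [mul_comm]
    exact (hasSum_theta hg (by linarith : (0 : ℝ) < t)).mul_left _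
  have h0 : ∀ k t, 1 < t → 0 ≤ F k t := fun k t ht =>
    mul_nonneg (Real.rpow_nonneg (by linarith) _) (Real.exp_pos _).le
  have hn : ∀ k, ∫ t in Set.Ioi (1 : ℝ), ‖F k t‖ = ∫ t in Set.Ioi (1 : ℝ), F k t := fun k =>
    setIntegral_congr_fun measurableSet_Ioi fun t (ht : 1 < t) => by
      simp only [Real.norm_eq_abs, abs_of_nonneg (h0 k t ht)]
  have hs : Summable fun k => ∫ t in Set.Ioi (1 : ℝ), ‖F k t‖ := by
    simp_rw [hn]
    refine summable_of_sum_le (c := ∫ t in Set.Ioi (1 : ℝ), (theta g t - 1) * t ^ (s - 1))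
      (fun k => fs_nonneg s _) fun u => ?_
    rw [← integral_finsetSum u fun k _ => hi k]
    refine setIntegral_mono_on (integrable_finsetSum u fun k _ => hi k) (integrableOn_theta hg s)
      measurableSet_Ioi fun t (ht : 1 < t) => ?_
    exact sum_le_hasSum u (fun k _ => h0 k t ht) (hpt t ht)
  have h := hasSum_integral_of_summable_integral_norm hi hs
  have e : ∫ t in Set.Ioi (1 : ℝ), ∑' k, F k t =
      ∫ t in Set.Ioi (1 : ℝ), (theta g t - 1) * t ^ (s - 1) :=
    setIntegral_congr_fun measurableSet_Ioi fun t (ht : 1 < t) => (hpt t ht).tsum_eq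
  rw [e] at h
  exact h

omit [DecidableEq ι] in
theorem ana_exp_term (g : Matrix ι ι ℝ) (x u : ℝ) :
    |Real.exp u| • ((theta g (Real.exp u) - 1) * Real.exp u ^ (x - 1)) =
      Real.exp (x * u) * (theta g (Real.exp u) - 1) := by
  rw [abs_of_pos (Real.exp_pos _), smul_eq_mul, ← Real.exp_mul, mul_left_comm, ← Real.exp_add,
    mul_comm]
  congr 2
  ring

theorem ana_image_exp : Real.exp '' Set.Ioi 0 = Set.Ioi 1 := by
  ext t
  constructor
  · rintro ⟨u, hu, rfl⟩
    exact Real.one_lt_exp_iff.mpr hu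
  · intro (ht : 1 < t)
    exact ⟨Real.log t, Real.log_pos ht, Real.exp_log (by linarith)⟩

theorem ana_integrableOn_exp {g : Matrix ι ι ℝ} (hg : g.det ≠ 0) (x : ℝ) :
    IntegrableOn (fun u => Real.exp (x * u) * (theta g (Real.exp u) - 1)) (Set.Ioi 0) := by
  have h := integrableOn_theta hg x
  rw [← ana_image_exp, integrableOn_image_iff_integrableOn_abs_deriv_smul (f' := Real.exp)
    measurableSet_Ioi (fun x _ => (Real.hasDerivAt_exp x).hasDerivWithinAt)
    Real.exp_injective.injOn] at h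
  simpa only [ana_exp_term] using h

omit [DecidableEq ι] in
theorem ana_integral_exp (g : Matrix ι ι ℝ) (x : ℝ) :
    ∫ u in Set.Ioi (0 : ℝ), Real.exp (x * u) * (theta g (Real.exp u) - 1) =
      ∫ t in Set.Ioi (1 : ℝ), (theta g t - 1) * t ^ (x - 1) := by
  rw [← ana_image_exp, integral_image_eq_integral_abs_deriv_smul (f' := Real.exp)
    measurableSet_Ioi (fun x _ => (Real.hasDerivAt_exp x).hasDerivWithinAt)
    Real.exp_injective.injOn]
  simp only [ana_exp_term]

theorem ana_det_ne {g : Matrix ι ι ℝ} (hg : |g.det| = 1) : g.det ≠ 0 := by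
  intro h
  rw [h, abs_zero] at hg
  exact zero_ne_one hg

theorem ana_det_dual_ne {g : Matrix ι ι ℝ} (hg : |g.det| = 1) : (dual g).det ≠ 0 := by
  rw [det_dual]
  exact inv_ne_zero (ana_det_ne hg)

theorem ana_fe {g : Matrix ι ι ℝ} (hg : |g.det| = 1) {t : ℝ} (ht : 0 < t) :
    theta g t⁻¹ = t ^ ((Fintype.card ι : ℝ) / 2) * theta (dual g) t := by
  rw [theta_dual (ana_det_ne hg) (inv_pos.mpr ht), hg, inv_one, one_mul, inv_inv,
    Real.inv_rpow ht.le, Real.rpow_neg ht.le, inv_inv]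

theorem ana_top {g : Matrix ι ι ℝ} (hg : g.det ≠ 0) (r : ℝ) :
    (fun t => ((theta g t : ℝ) : ℂ) - 1) =O[Filter.atTop] (fun t : ℝ => t ^ r) := by
  obtain ⟨C, -, h⟩ := ana_decay hg r
  refine Asymptotics.IsBigO.of_bound C ?_
  filter_upwards [Filter.eventually_ge_atTop 1] with t ht
  have : ((theta g t : ℝ) : ℂ) - 1 = ((theta g t - 1 : ℝ) : ℂ) := by push_cast; ring
  rw [this, Complex.norm_real, Real.norm_eq_abs, Real.norm_eq_abs,
    abs_of_pos (Real.rpow_pos_of_pos (by linarith) r)]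
  exact h t ht

theorem ana_int {g : Matrix ι ι ℝ} (hg : g.det ≠ 0) :
    LocallyIntegrableOn (fun t => ((theta g t : ℝ) : ℂ)) (Set.Ioi 0) :=
  (Complex.continuous_ofReal.comp_continuousOn (ana_contOn hg)).locallyIntegrableOn
    measurableSet_Ioi

/-- the pair to which the abstract functional equation is applied -/
def anaP (hn : 1 ≤ Fintype.card ι) (g : Matrix ι ι ℝ) (hg : |g.det| = 1) : WeakFEPair ℂ :=
  { f := fun t => ((theta g t : ℝ) : ℂ)
    g := fun t => ((theta (dual g) t : ℝ) : ℂ)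
    k := (Fintype.card ι : ℝ) / 2
    ε := 1
    f₀ := 1
    g₀ := 1
    hf_int := ana_int (ana_det_ne hg)
    hg_int := ana_int (ana_det_dual_ne hg)
    hk := by
      have : (1 : ℝ) ≤ Fintype.card ι := by exact_mod_cast hn
      linarith
    hε := one_ne_zero
    h_feq := fun x hx => by
      rw [one_div, ana_fe hg hx]
      simp
    hf_top := ana_top (ana_det_ne hg)
    hg_top := ana_top (ana_det_dual_ne hg) }

theorem ana_integral_Ioi (G : ℝ → ℂ) :
    ∫ t in Set.Ioi (0 : ℝ), G t = ∫ u, Real.exp u • G (Real.exp u) := by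
  have := integral_image_eq_integral_abs_deriv_smul (s := Set.univ) (f := Real.exp)
    (f' := Real.exp) MeasurableSet.univ (fun x _ => (Real.hasDerivAt_exp x).hasDerivWithinAt)
    Real.exp_injective.injOn G
  rw [Set.image_univ, Real.range_exp, Measure.restrict_univ] at this
  rw [this]
  simp_rw [abs_of_pos (Real.exp_pos _)]

theorem anaP_lam0 (hn : 1 ≤ Fintype.card ι) (g : Matrix ι ι ℝ) (hg : |g.det| = 1) (x : ℝ) :
    (anaP hn g hg).Λ₀ x =
      (((∫ t in Set.Ioi (1 : ℝ), (theta g t - 1) * t ^ (x - 1)) +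
        (∫ t in Set.Ioi (1 : ℝ),
          (theta (dual g) t - 1) * t ^ ((Fintype.card ι : ℝ) / 2 - x - 1)) : ℝ) : ℂ) := by
  rw [← ana_integral_exp, ← ana_integral_exp]
  set n : ℝ := (Fintype.card ι : ℝ) with hn'
  set P := anaP hn g hg with hP
  set G : ℝ → ℂ := fun u => Real.exp u •
    (((Real.exp u : ℝ) : ℂ) ^ ((x : ℂ) - 1) • P.f_modif (Real.exp u)) with hG
  have h0 : P.Λ₀ x = ∫ u, G u := by
    rw [WeakFEPair.Λ₀, mellin, ana_integral_Ioi]
  have hG0 : ∀ u, G u = ((Real.exp (x * u) : ℝ) : ℂ) * P.f_modif (Real.exp u) := by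
    intro u
    have : ((Real.exp u : ℝ) : ℂ) ^ ((x : ℂ) - 1) = ((Real.exp u ^ (x - 1) : ℝ) : ℂ) := by
      rw [Complex.ofReal_cpow (Real.exp_pos u).le]
      push_cast
      rfl
    simp only [hG]
    rw [this, smul_eq_mul, Complex.real_smul, ← mul_assoc, ← Complex.ofReal_mul, ← Real.exp_mul,
      ← Real.exp_add]
    congr 3
    ring
  have hpos : ∀ u ∈ Set.Ioi (0 : ℝ),
      G u = ((Real.exp (x * u) * (theta g (Real.exp u) - 1) : ℝ) : ℂ) := by
    intro u (hu : 0 < u)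
    have h1 : 1 < Real.exp u := Real.one_lt_exp_iff.mpr hu
    rw [hG0, WeakFEPair.f_modif, Pi.add_apply, Set.indicator_of_mem (Set.mem_Ioi.mpr h1),
      Set.indicator_of_notMem (Set.notMem_Ioo_of_ge h1.le), add_zero]
    simp [hP, anaP]
  have hneg : ∀ u ∈ Set.Ioi (0 : ℝ),
      G (-u) = ((Real.exp ((n / 2 - x) * u) * (theta (dual g) (Real.exp u) - 1) : ℝ) : ℂ) := by
    intro u (hu : 0 < u)
    have h1 : Real.exp (-u) < 1 := Real.exp_lt_one_iff.mpr (by linarith)
    rw [hG0, WeakFEPair.f_modif, Pi.add_apply, Set.indicator_of_notMem (Set.notMem_Ioi.mpr h1.le),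
      Set.indicator_of_mem (Set.mem_Ioo.mpr ⟨Real.exp_pos _, h1⟩), zero_add]
    have h2 : theta g (Real.exp (-u)) = Real.exp (u * (n / 2)) * theta (dual g) (Real.exp u) := by
      rw [Real.exp_neg, ana_fe hg (Real.exp_pos u), ← Real.exp_mul]
    have h3 : Real.exp (-u) ^ (-(n / 2)) = Real.exp (u * (n / 2)) := by
      rw [← Real.exp_mul]
      congr 1
      ring
    have h4 : Real.exp ((n / 2 - x) * u) = Real.exp (x * -u) * Real.exp (u * (n / 2)) := by
      rw [← Real.exp_add]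
      congr 1
      ring
    change _ * (((theta g (Real.exp (-u)) : ℝ) : ℂ) -
      ((1 : ℂ) * ((Real.exp (-u) ^ (-(n / 2)) : ℝ) : ℂ)) • (1 : ℂ)) = _
    rw [h2, h3, h4, smul_eq_mul]
    simp only [Complex.ofReal_mul, Complex.ofReal_sub, Complex.ofReal_one]
    ring
  have i1 : IntegrableOn G (Set.Ioi 0) :=
    IntegrableOn.congr_fun (ana_integrableOn_exp (ana_det_ne hg) x).ofReal
      (fun u hu => (hpos u hu).symm) measurableSet_Ioi
  have i2 : IntegrableOn (fun u => G (-u)) (Set.Ioi 0) :=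
    IntegrableOn.congr_fun (ana_integrableOn_exp (ana_det_dual_ne hg) (n / 2 - x)).ofReal
      (fun u hu => (hneg u hu).symm) measurableSet_Ioi
  have i3 : IntegrableOn G (Set.Iic 0) := by
    rw [integrableOn_Iic_iff_integrableOn_Iio]
    have := (Measure.measurePreserving_neg (volume : Measure ℝ)).integrableOn_comp_preimage
      (Homeomorph.neg ℝ).measurableEmbedding (f := G) (s := Set.Iio 0)
    rw [← this]
    simpa [Function.comp_def] using i2
  have e3 : ∫ u in Set.Iic (0 : ℝ), G u = ∫ u in Set.Ioi (0 : ℝ), G (-u) := by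
    rw [integral_comp_neg_Ioi, neg_zero]
  rw [h0, ← intervalIntegral.integral_Iic_add_Ioi i3 i1, e3,
    setIntegral_congr_fun measurableSet_Ioi hpos, setIntegral_congr_fun measurableSet_Ioi hneg,
    integral_complex_ofReal, integral_complex_ofReal, Complex.ofReal_add, add_comm]

theorem anaP_hasSum (hn : 1 ≤ Fintype.card ι) (g : Matrix ι ι ℝ) (hg : |g.det| = 1) {s : ℂ}
    (hs : (Fintype.card ι : ℝ) / 2 < s.re) :
    HasSum (fun k : {k : ι → ℤ // k ≠ 0} => ((nsq (lv k.1 g) : ℝ) : ℂ) ^ (-s))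
      ((Real.pi : ℂ) ^ s * (Complex.Gamma s)⁻¹ * (anaP hn g hg).Λ s) := by
  have hA := ana_det_ne hg
  have hs0 : 0 < s.re := lt_of_le_of_lt (by positivity) hs
  have h1 := ((anaP hn g hg).hasMellin (s := s) hs).2
  have h2 := hasSum_mellin_pi_mul (a := fun _ : {k : ι → ℤ // k ≠ 0} => (1 : ℂ))
    (q := fun k => nsq (lv k.1 g)) (F := fun t => ((theta g t : ℝ) : ℂ) - 1) (s := s)
    (fun k => Or.inr (ana_pos hA k.2)) hs0
    (fun t ht => by
      have h3 := Complex.hasSum_ofReal.mpr (hasSum_theta hA ht)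
      have e : ((theta g t - 1 : ℝ) : ℂ) = ((theta g t : ℝ) : ℂ) - 1 := by push_cast; ring
      rw [e] at h3
      have e2 : (fun k : {k : ι → ℤ // k ≠ 0} =>
          (1 : ℂ) * Real.exp (-Real.pi * nsq (lv k.1 g) * t)) =
          fun k => ((Real.exp (-Real.pi * t * nsq (lv k.1 g)) : ℝ) : ℂ) := by
        funext k
        rw [one_mul, mul_right_comm]
      rw [e2]
      exact h3)
    (by
      refine (ana_summable_rpow hA hs).congr fun k => ?_
      rw [norm_one, one_div, Real.rpow_neg (nsq_nonneg _)])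
  have h4 : mellin (fun t => ((theta g t : ℝ) : ℂ) - 1) s = (anaP hn g hg).Λ s := h1
  rw [h4] at h2
  have hG : Complex.Gamma s ≠ 0 := Complex.Gamma_ne_zero_of_re_pos hs0
  have hp : (Real.pi : ℂ) ^ s ≠ 0 := by
    rw [Ne, Complex.cpow_eq_zero_iff, not_and_or]
    exact Or.inl (Complex.ofReal_ne_zero.mpr Real.pi_ne_zero)
  have e3 : (fun k : {k : ι → ℤ // k ≠ 0} => ((nsq (lv k.1 g) : ℝ) : ℂ) ^ (-s)) = fun k =>
      (Real.pi : ℂ) ^ s * (Complex.Gamma s)⁻¹ *
        ((Real.pi : ℂ) ^ (-s) * Complex.Gamma s * 1 / ((nsq (lv k.1 g) : ℝ) : ℂ) ^ s) := by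
    funext k
    rw [Complex.cpow_neg, Complex.cpow_neg]
    field_simp
  rw [e3]
  exact h2.mul_left _

/-- the statement to be proved in dimension `n` -/
def Goal (n : ℕ) : Prop :=
  ∃ A : Matrix (Fin n) (Fin n) ℝ, |A.det| = 1 ∧
    ∃ F : ℂ → ℂ,
      DifferentiableOn ℂ F {((n : ℂ) / 2)}ᶜ ∧
      (∀ s : ℂ, (n : ℝ) / 2 < s.re →
        F s = ∑' k : {k : Fin n → ℤ // k ≠ 0},
          (((∑ i, (∑ j, A i j * ((k.1 j : ℤ) : ℝ)) ^ 2 : ℝ) : ℂ)) ^ (-s)) ∧
      (∀ x : ℝ, 0 < x → x ≠ (n : ℝ) / 2 → F (x : ℂ) ≠ 0)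

theorem goal_of_theta {n : ℕ} (hn : 1 ≤ n) (hι : Fintype.card ι = n) (g : Matrix ι ι ℝ)
    (hg : |g.det| = 1)
    (hneg : ∀ s : ℝ, 0 < s → s < (n : ℝ) / 2 →
      (∫ t in Set.Ioi (1 : ℝ), (theta g t - 1) * t ^ (s - 1)) +
        (∫ t in Set.Ioi (1 : ℝ), (theta (dual g) t - 1) * t ^ ((n : ℝ) / 2 - s - 1)) <
      1 / s + 1 / ((n : ℝ) / 2 - s)) : Goal n := by
  subst hι
  have hA0 := ana_det_ne hg
  set e := Fintype.equivFin ι with he
  set P := anaP hn g hg with hP
  have hπ : (Real.pi : ℂ) ≠ 0 := Complex.ofReal_ne_zero.mpr Real.pi_ne_zero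
  set F : ℂ → ℂ := fun s => (Real.pi : ℂ) ^ s * (Complex.Gamma s)⁻¹ * P.Λ₀ s -
    (Real.pi : ℂ) ^ s * (Complex.Gamma (s + 1))⁻¹ -
    (Real.pi : ℂ) ^ s * (Complex.Gamma s)⁻¹ * ((Fintype.card ι : ℂ) / 2 - s)⁻¹ with hF
  have hFΛ : ∀ s : ℂ, 0 < s.re → F s = (Real.pi : ℂ) ^ s * (Complex.Gamma s)⁻¹ * P.Λ s := by
    intro s hs
    have hs0 : s ≠ 0 := fun h => by simp [h] at hs
    simp only [hF, WeakFEPair.Λ]
    rw [Complex.Gamma_add_one s hs0]
    simp only [hP, anaP, smul_eq_mul]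
    push_cast
    rw [mul_inv]
    ring
  have hsum : ∀ s : ℂ, (Fintype.card ι : ℝ) / 2 < s.re →
      HasSum (fun k : {k : ι → ℤ // k ≠ 0} => ((nsq (lv k.1 g) : ℝ) : ℂ) ^ (-s)) (F s) := by
    intro s hs
    rw [hFΛ s (lt_of_le_of_lt (by positivity) hs)]
    exact anaP_hasSum hn g hg hs
  let E : {k : Fin (Fintype.card ι) → ℤ // k ≠ 0} ≃ {k : ι → ℤ // k ≠ 0} :=
    Equiv.subtypeEquiv (Equiv.arrowCongr e.symm (Equiv.refl ℤ)) fun k => by
      refine not_congr ⟨fun h => ?_, fun h => ?_⟩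
      · subst h
        rfl
      · funext j
        simpa using congrFun h (e.symm j)
  have hE : ∀ k : {k : Fin (Fintype.card ι) → ℤ // k ≠ 0},
      ∑ i, (∑ j, (Matrix.reindex e e g)ᵀ i j * ((k.1 j : ℤ) : ℝ)) ^ 2 = nsq (lv (E k).1 g) := by
    intro k
    rw [nsq, ← e.symm.sum_comp]
    refine Finset.sum_congr rfl fun i _ => ?_
    congr 1
    rw [lv, Matrix.vecMul, dotProduct, ← e.symm.sum_comp]
    refine Finset.sum_congr rfl fun j _ => ?_
    simp [E, cv, mul_comm]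
  refine ⟨(Matrix.reindex e e g)ᵀ, by rw [Matrix.det_transpose, Matrix.det_reindex_self, hg],
    F, ?_, fun s hs => ?_, fun x hx hxn => ?_⟩
  · have d1 : Differentiable ℂ fun s : ℂ => (Real.pi : ℂ) ^ s :=
      differentiable_id.const_cpow (Or.inl hπ)
    have d2 := Complex.differentiable_one_div_Gamma
    have d3 : Differentiable ℂ fun s : ℂ => (Complex.Gamma (s + 1))⁻¹ :=
      d2.comp (differentiable_id.add_const 1)
    refine ((((d1.mul d2).mul P.differentiable_Λ₀).sub (d1.mul d3)).differentiableOn).sub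
      ((d1.mul d2).differentiableOn.mul (DifferentiableOn.inv (by fun_prop) fun s hs => ?_))
    exact sub_ne_zero.mpr fun h => hs h.symm
  · simp_rw [hE]
    rw [E.tsum_eq (fun k => ((nsq (lv k.1 g) : ℝ) : ℂ) ^ (-s))]
    exact (hsum s hs).tsum_eq.symm
  · rcases lt_or_gt_of_ne hxn with h | h
    · rw [hFΛ x (by simpa using hx)]
      refine mul_ne_zero (mul_ne_zero ?_ (inv_ne_zero ?_)) ?_
      · rw [Ne, Complex.cpow_eq_zero_iff, not_and_or]
        exact Or.inl hπ
      · exact Complex.Gamma_ne_zero_of_re_pos (by simpa using hx)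
      · have h2 := hneg x hx h
        rw [WeakFEPair.Λ, anaP_lam0]
        set I : ℝ := (∫ t in Set.Ioi (1 : ℝ), (theta g t - 1) * t ^ (x - 1)) +
          (∫ t in Set.Ioi (1 : ℝ),
            (theta (dual g) t - 1) * t ^ ((Fintype.card ι : ℝ) / 2 - x - 1)) with hI
        have e3 : (I : ℂ) - (1 / (x : ℂ)) • P.f₀ - (P.ε / ((P.k : ℂ) - x)) • P.g₀ =
            ((I - (1 / x + 1 / ((Fintype.card ι : ℝ) / 2 - x)) : ℝ) : ℂ) := by
          simp only [hP, anaP, smul_eq_mul]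
          push_cast
          ring
        rw [e3]
        exact Complex.ofReal_ne_zero.mpr (by linarith)
    · have h1 := hsum x (by simpa using h)
      have h2 := ana_summable_rpow hA0 h
      have h3 := Complex.hasSum_ofReal.mpr h2.hasSum
      have h4 : (fun k : {k : ι → ℤ // k ≠ 0} => ((nsq (lv k.1 g) ^ (-x) : ℝ) : ℂ)) =
          fun k => ((nsq (lv k.1 g) : ℝ) : ℂ) ^ (-(x : ℂ)) := by
        funext k
        rw [Complex.ofReal_cpow (nsq_nonneg _), Complex.ofReal_neg]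
      rw [h4] at h3
      rw [h1.unique h3]
      refine Complex.ofReal_ne_zero.mpr (ne_of_gt ?_)
      have hk : (fun _ : ι => (1 : ℤ)) ≠ 0 := fun h0 =>
        one_ne_zero (congrFun h0 (e.symm ⟨0, hn⟩))
      exact h2.tsum_pos (fun k => Real.rpow_nonneg (nsq_nonneg _) _) ⟨_, hk⟩
        (Real.rpow_pos_of_pos (ana_pos hA0 hk) _)

theorem goal_of_fs {n : ℕ} (hn : 1 ≤ n) (hι : Fintype.card ι = n) (g : Matrix ι ι ℝ)
    (hg : |g.det| = 1)
    (hneg : ∀ s : ℝ, 0 < s → s < (n : ℝ) / 2 →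
      (∑' k : {k : ι → ℤ // k ≠ 0}, fs s (nsq (lv k.1 g))) +
        (∑' k : {k : ι → ℤ // k ≠ 0}, fs ((n : ℝ) / 2 - s) (nsq (lv k.1 (dual g)))) <
      1 / s + 1 / ((n : ℝ) / 2 - s)) : Goal n := by
  refine goal_of_theta hn hι g hg fun s h0 h1 => ?_
  have h := hneg s h0 h1
  rwa [(hasSum_fs (ana_det_ne hg) s).tsum_eq, (hasSum_fs (ana_det_dual_ne hg) _).tsum_eq] at h

theorem ana_lt {g : Matrix ι ι ℝ} (hg : g.det ≠ 0) {m s : ℝ} (hs : s < m)
    (h1 : ∀ t : ℝ, 1 < t → theta g t - 1 < t ^ (-m)) :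
    ∫ t in Set.Ioi (1 : ℝ), (theta g t - 1) * t ^ (s - 1) < 1 / (m - s) := by
  have ha : s - m - 1 < -1 := by linarith
  have i1 := integrableOn_Ioi_rpow_of_lt ha one_pos
  have i2 := integrableOn_theta hg s
  have e : ∫ t in Set.Ioi (1 : ℝ), t ^ (s - m - 1) = 1 / (m - s) := by
    rw [integral_Ioi_rpow_of_lt ha one_pos, Real.one_rpow]
    have : m - s ≠ 0 := by linarith
    have : s - m - 1 + 1 ≠ 0 := by linarith
    field_simp
    ring
  have hp : ∀ t : ℝ, 1 < t → 0 < t ^ (s - m - 1) - (theta g t - 1) * t ^ (s - 1) := by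
    intro t ht
    have ht0 : 0 < t := by linarith
    have e2 : t ^ (s - m - 1) = t ^ (-m) * t ^ (s - 1) := by
      rw [← Real.rpow_add ht0]
      congr 1
      ring
    rw [e2, ← sub_mul]
    exact mul_pos (sub_pos.mpr (h1 t ht)) (Real.rpow_pos_of_pos ht0 _)
  rw [← e, ← sub_pos, ← integral_sub i1 i2]
  refine (setIntegral_pos_iff_support_of_nonneg_ae ?_ (i1.sub i2)).mpr ?_
  · filter_upwards [ae_restrict_mem measurableSet_Ioi] with t (ht : 1 < t)
    exact (hp t ht).le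
  · have : Set.Ioi (1 : ℝ) ⊆ Function.support
        (fun t : ℝ => t ^ (s - m - 1) - (theta g t - 1) * t ^ (s - 1)) ∩ Set.Ioi 1 :=
      fun t ht => ⟨(hp t ht).ne', ht⟩
    refine lt_of_lt_of_le ?_ (measure_mono this)
    simp

/-- the pointwise criterion -/
theorem goal_of_pointwise {n : ℕ} (hn : 1 ≤ n) (hι : Fintype.card ι = n) (g : Matrix ι ι ℝ)
    (hg : |g.det| = 1) (h1 : ∀ t : ℝ, 1 < t → theta g t - 1 < t ^ (-((n : ℝ) / 2)))
    (h2 : ∀ t : ℝ, 1 < t → theta (dual g) t - 1 < t ^ (-((n : ℝ) / 2))) : Goal n := by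
  refine goal_of_theta hn hι g hg fun s h0 hs => ?_
  have a1 := ana_lt (ana_det_ne hg) hs h1
  have a2 := ana_lt (ana_det_dual_ne hg) (s := (n : ℝ) / 2 - s) (by linarith) h2
  rw [sub_sub_cancel] at a2
  linarith

end Pool.Agent.Eps.H
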