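import Pool.Agent.Lib.MP_3bda03_nt.H.Lin
import Pool.Agent.Lib.MP_3bda03_nt.H.Alg

/-!
Block coordinates adapted to a frame.
-/

set_option autoImplicit false
set_option linter.unusedSectionVars false

noncomputable section

open MeasureTheory Matrix
open scoped ENNReal

namespace Pool.Agent.Eps.H

variable {α β ι : Type} [Fintype α] [DecidableEq α] [Fintype β] [DecidableEq β] [Fintype ι]
  [DecidableEq ι] (e : α ⊕ β ≃ ι)

theorem blk_HX (X : Matrix α ι ℝ) : HX e X = Matrix.reindex e e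
    (Matrix.fromBlocks (blk e X) (X.submatrix id fun b => e (Sum.inr b)) 0 (del e X • 1)) := by
  ext i j
  obtain ⟨i, rfl⟩ := e.surjective i
  obtain ⟨j, rfl⟩ := e.surjective j
  rcases i with a | b <;> rcases j with a' | b' <;> simp [HX, blk, Matrix.one_apply]

theorem blk_lift (X : Matrix α ι ℝ) (t : Matrix β α ℝ) (g : Matrix β β ℝ) :
    lift e X t g = Matrix.reindex e e (Matrix.fromBlocks (blk e X)
      (X.submatrix id fun b => e (Sum.inr b)) (t * blk e X)
      (t * (X.submatrix id fun b => e (Sum.inr b)) + del e X • g)) := by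
  rw [lift, blk_HX]
  simp [Matrix.fromBlocks_multiply]

theorem blk_vecMul (A : Matrix α α ℝ) (B : Matrix α β ℝ) (C : Matrix β α ℝ) (D : Matrix β β ℝ)
    (x : α → ℝ) (y : β → ℝ) :
    (fun i => Sum.elim x y (e.symm i)) ᵥ* Matrix.reindex e e (Matrix.fromBlocks A B C D) =
      fun i => Sum.elim (x ᵥ* A + y ᵥ* C) (x ᵥ* B + y ᵥ* D) (e.symm i) := by
  rw [Matrix.reindex_apply, Matrix.submatrix_vecMul_equiv,
    show (fun i => Sum.elim x y (e.symm i)) ∘ e.symm.symm = Sum.elim x y from
      funext fun i => by simp, Matrix.vecMul_fromBlocks]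
  rfl

theorem blk_cv (m : α → ℤ) (l : β → ℤ) : cv (fun i => Sum.elim m l (e.symm i)) =
    fun i => Sum.elim (cv m) (cv l) (e.symm i) := by
  funext i
  rcases h : e.symm i with a | b <;> simp [cv, h]

theorem blk_meas : Measurable (blk e) := measurable_mx.2 fun _ _ => measurable_entry _ _

theorem blk_meas_elim {Ω : Type} [MeasurableSpace Ω] {f : Ω → α → ℝ} {g : Ω → β → ℝ}
    (hf : Measurable f) (hg : Measurable g) :
    Measurable fun x => fun i => Sum.elim (f x) (g x) (e.symm i) := by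
  refine measurable_pi_iff.2 fun i => ?_
  rcases e.symm i with a | b
  exacts [measurable_pi_iff.1 hf a, measurable_pi_iff.1 hg b]

theorem blk_mp {H : Matrix ι ι ℝ} (h : |H.det| = 1) :
    MeasurePreserving (fun x : ι → ℝ => x ᵥ* H) volume volume :=
  ⟨Measurable.vmul measurable_id measurable_const, by
    rw [map_vecMul H (abs_ne_zero.1 (h ▸ one_ne_zero)), h]; simp⟩

theorem measurable_HX : Measurable (HX e) := by
  refine measurable_mx.2 fun i j => ?_
  unfold HX
  rcases e.symm i with a | b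
  · exact measurable_entry a j
  · simp only [Sum.elim_inr]
    split_ifs
    · exact (measurable_det.comp (blk_meas e)).abs.pow_const _
    · exact measurable_const

theorem measurable_lift :
    Measurable fun p : Matrix α ι ℝ × Matrix β α ℝ × Matrix β β ℝ => lift e p.1 p.2.1 p.2.2 := by
  refine Measurable.mxmul (measurable_mx.2 fun i j => ?_) ((measurable_HX e).comp measurable_fst)
  simp only [Matrix.reindex_apply, Matrix.submatrix_apply]
  rcases e.symm i with a | b <;> rcases e.symm j with a' | b'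
  · exact measurable_const
  · exact measurable_const
  · exact (measurable_entry b a').comp measurable_snd.fst
  · exact (measurable_entry b b').comp measurable_snd.snd

theorem measurable_layer :
    Measurable fun p : Matrix α ι ℝ × (α → ℝ) × (β → ℝ) => layer e p.1 p.2.1 p.2.2 := by
  exact Measurable.vmul (blk_meas_elim e measurable_snd.fst measurable_snd.snd)
    (measurable_dual.comp ((measurable_HX e).comp measurable_fst))

theorem ae_blk : ∀ᵐ X : Matrix α ι ℝ, (blk e X).det ≠ 0 := by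
  have h := mp_cols (κ := α) e
  rw [← h.map_eq]
  refine (ae_map_iff h.measurable.aemeasurable
    ((measurable_det.comp (blk_meas e)) (measurableSet_singleton 0).compl)).2 ?_
  filter_upwards [Measure.quasiMeasurePreserving_fst.ae (ae_det_ne_zero (ι := α))] with p hp
  have h1 : blk e (Matrix.of fun k j => Sum.elim (p.1 k) (p.2 k) (e.symm j)) = p.1 :=
    Matrix.ext fun k a => congrArg (Sum.elim (p.1 k) (p.2 k)) (e.symm_apply_apply (Sum.inl a))
  exact fun h2 => hp ((congrArg Matrix.det h1).symm.trans h2)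

theorem abs_det_HX [Nonempty β] {X : Matrix α ι ℝ} (hX : (blk e X).det ≠ 0) :
    |(HX e X).det| = 1 := by
  have h1 := abs_pos.2 hX
  have h2 : (Fintype.card β : ℝ) ≠ 0 := Nat.cast_ne_zero.2 Fintype.card_ne_zero
  rw [blk_HX, Matrix.det_reindex_self, Matrix.det_fromBlocks_zero₂₁, Matrix.det_smul,
    Matrix.det_one, mul_one, abs_mul, del, ← Real.rpow_natCast, ← Real.rpow_mul h1.le,
    abs_of_pos (Real.rpow_pos_of_pos h1 _), neg_mul, one_div_mul_cancel h2, Real.rpow_neg_one,
    mul_inv_cancel₀ h1.ne']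

theorem HX_inl (X : Matrix α ι ℝ) (a : α) : HX e X (e (Sum.inl a)) = X a := by
  funext j
  simp [HX]

theorem lift_inl (X : Matrix α ι ℝ) (t : Matrix β α ℝ) (g : Matrix β β ℝ) (a : α) :
    lift e X t g (e (Sum.inl a)) = X a := by
  funext j
  obtain ⟨j, rfl⟩ := e.surjective j
  rw [blk_lift]
  rcases j with a' | b' <;> simp [blk]

/-- the lower rows of the lift -/
theorem lift_inr (X : Matrix α ι ℝ) (t : Matrix β α ℝ) (g : Matrix β β ℝ) (b : β) :
    lift e X t g (e (Sum.inr b)) = (fun j => Sum.elim (t b) (g b) (e.symm j)) ᵥ* HX e X := by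
  rw [show (fun j => Sum.elim (t b) (g b) (e.symm j)) =
    Matrix.reindex e e (Matrix.fromBlocks 1 0 t g) (e (Sum.inr b)) from funext fun j => by
      rcases h : e.symm j with a' | b' <;> simp [h]]
  rfl

theorem abs_det_lift [Nonempty β] {X : Matrix α ι ℝ} (hX : (blk e X).det ≠ 0) (t : Matrix β α ℝ)
    (g : Matrix β β ℝ) : |(lift e X t g).det| = |g.det| := by
  rw [lift, Matrix.det_mul, abs_mul, abs_det_HX e hX, mul_one, Matrix.det_reindex_self,
    Matrix.det_fromBlocks_zero₁₂, Matrix.det_one, one_mul]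

theorem lv_lift (X : Matrix α ι ℝ) (t : Matrix β α ℝ) (g : Matrix β β ℝ) (m : α → ℤ) (l : β → ℤ) :
    lv (fun i => Sum.elim m l (e.symm i)) (lift e X t g) =
      (fun i => Sum.elim (cv m + cv l ᵥ* t) (lv l g) (e.symm i)) ᵥ* HX e X := by
  rw [lift, lv, ← Matrix.vecMul_vecMul, blk_cv, blk_vecMul, Matrix.vecMul_one, Matrix.vecMul_zero,
    zero_add, lv]

theorem lv_dual_lift [Nonempty β] {X : Matrix α ι ℝ} (hX : (blk e X).det ≠ 0) (t : Matrix β α ℝ)
    {g : Matrix β β ℝ} (hg : g.det ≠ 0) (m : α → ℤ) (l : β → ℤ) :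
    lv (fun i => Sum.elim m l (e.symm i)) (dual (lift e X t g)) =
      layer e X (cv m) ((cv l - t *ᵥ cv m) ᵥ* dual g) := by
  have h1 : (Matrix.reindex e e (Matrix.fromBlocks 1 0 t g))⁻¹ =
      Matrix.reindex e e (Matrix.fromBlocks 1 0 (-(g⁻¹ * t)) g⁻¹) := by
    refine Matrix.inv_eq_right_inv ?_
    simp [Matrix.fromBlocks_multiply, ← Matrix.mul_assoc,
      Matrix.mul_nonsing_inv g (Ne.isUnit hg)]
  rw [lift, dual_mul, lv, ← Matrix.vecMul_vecMul, blk_cv, dual, h1, Matrix.transpose_reindex,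
    Matrix.fromBlocks_transpose, blk_vecMul, layer, Matrix.transpose_one, Matrix.transpose_zero,
    Matrix.vecMul_one, Matrix.vecMul_zero, add_zero, Matrix.transpose_neg, Matrix.transpose_mul,
    Matrix.vecMul_neg, ← Matrix.vecMul_vecMul, Matrix.vecMul_transpose t, Matrix.sub_vecMul,
    neg_add_eq_sub]
  rfl

/-- rescaling a lift -/
theorem nrm_lift [Nonempty β] {X : Matrix α ι ℝ} (hX : (blk e X).det ≠ 0) (t : Matrix β α ℝ)
    {g : Matrix β β ℝ} (hg : g.det ≠ 0) :
    nrm (lift e ((|g.det| ^ (1 / (Fintype.card ι : ℝ))) • X) t g) = lift e X t (nrm g) := by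
  have h1 := abs_pos.2 hg
  have h2 : (0 : ℝ) < Fintype.card β := Nat.cast_pos.2 Fintype.card_pos
  have h3 : (Fintype.card ι : ℝ) = Fintype.card α + Fintype.card β := by
    rw [← Fintype.card_congr e, Fintype.card_sum, Nat.cast_add]
  obtain ⟨c, hc⟩ : ∃ c, c = |g.det| ^ (1 / (Fintype.card ι : ℝ)) := ⟨_, rfl⟩
  have h4 : 0 < c := hc ▸ Real.rpow_pos_of_pos h1 _
  have h5 : blk e (c • X) = c • blk e X := rfl
  have h6 : (blk e (c • X)).det ≠ 0 := by
    rw [h5, Matrix.det_smul]
    exact mul_ne_zero (pow_ne_zero _ h4.ne') hX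
  have h7 : c⁻¹ * del e (c • X) = del e X * |g.det| ^ (-(1 / (Fintype.card β : ℝ))) := by
    rw [del, del, h5, Matrix.det_smul, abs_mul, abs_of_pos (pow_pos h4 _),
      Real.mul_rpow (pow_pos h4 _).le (abs_nonneg _), ← mul_assoc, mul_comm, hc,
      ← Real.rpow_neg h1.le, ← Real.rpow_natCast, ← Real.rpow_mul h1.le, ← Real.rpow_mul h1.le,
      ← Real.rpow_add h1, h3]
    congr 2
    have := (Nat.cast_nonneg (Fintype.card α) : (0 : ℝ) ≤ _)
    field_simp
    ring
  rw [← hc, nrm, abs_det_lift e h6, Real.rpow_neg h1.le, ← hc, blk_lift, blk_lift, h5, nrm,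
    smul_smul, ← h7]
  rw [show ((c • X).submatrix id fun b => e (Sum.inr b)) =
    c • X.submatrix id fun b => e (Sum.inr b) from rfl]
  have h8 : ∀ A : Matrix (α ⊕ β) (α ⊕ β) ℝ,
    c⁻¹ • Matrix.reindex e e A = Matrix.reindex e e (c⁻¹ • A) := fun _ => rfl
  rw [h8]
  simp [Matrix.fromBlocks_smul, smul_smul, inv_mul_cancel₀ h4.ne']

theorem mulVec_layer [Nonempty β] {X : Matrix α ι ℝ} (hX : (blk e X).det ≠ 0) (ξ : α → ℝ)
    (z : β → ℝ) : X *ᵥ layer e X ξ z = ξ := by
  have h1 : IsUnit (HX e X).det := Ne.isUnit (abs_ne_zero.1 (abs_det_HX e hX ▸ one_ne_zero))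
  have h2 : HX e X *ᵥ layer e X ξ z = fun i => Sum.elim ξ z (e.symm i) := by
    rw [layer, dual, Matrix.vecMul_transpose, Matrix.mulVec_mulVec, Matrix.mul_nonsing_inv _ h1,
      Matrix.one_mulVec]
  funext a
  have h3 := congrFun h2 (e (Sum.inl a))
  rw [Equiv.symm_apply_apply, Sum.elim_inl] at h3
  rw [← h3]
  exact congrArg (· ⬝ᵥ layer e X ξ z) (HX_inl e X a).symm

theorem lv_dot_layer [Nonempty β] {X : Matrix α ι ℝ} (hX : (blk e X).det ≠ 0) (κ : α → ℤ)
    (ξ : α → ℝ) (z : β → ℝ) : lv κ X ⬝ᵥ layer e X ξ z = cv κ ⬝ᵥ ξ := by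
  rw [lv, ← Matrix.dotProduct_mulVec, mulVec_layer e hX]

theorem layer_add (X : Matrix α ι ℝ) (ξ ξ' : α → ℝ) (z z' : β → ℝ) :
    layer e X (ξ + ξ') (z + z') = layer e X ξ z + layer e X ξ' z' := by
  rw [layer, layer, layer, ← Matrix.add_vecMul]
  refine congrArg (· ᵥ* _) (funext fun i => ?_)
  rcases h : e.symm i with a | b <;> simp [h]

theorem layer_smul (X : Matrix α ι ℝ) (c : ℝ) (ξ : α → ℝ) (z : β → ℝ) :
    layer e X (c • ξ) (c • z) = c • layer e X ξ z := by
  rw [layer, layer, ← Matrix.smul_vecMul]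
  refine congrArg (· ᵥ* _) (funext fun i => ?_)
  rcases h : e.symm i with a | b <;> simp [h]

theorem layer_neg (X : Matrix α ι ℝ) (ξ : α → ℝ) (z : β → ℝ) :
    layer e X (-ξ) (-z) = -layer e X ξ z := by
  simpa using layer_smul e X (-1) ξ z

theorem continuous_layer (X : Matrix α ι ℝ) :
    Continuous fun p : (α → ℝ) × (β → ℝ) => layer e X p.1 p.2 := by
  refine Continuous.matrix_vecMul (continuous_pi fun i => ?_) continuous_const
  rcases e.symm i with a | b
  exacts [(continuous_apply a).comp continuous_fst, (continuous_apply b).comp continuous_snd]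

theorem mp_layer [Nonempty β] {X : Matrix α ι ℝ} (hX : (blk e X).det ≠ 0) :
    MeasurePreserving (fun p : (α → ℝ) × (β → ℝ) => layer e X p.1 p.2) (volume.prod volume)
      volume := by
  exact (blk_mp (by rw [det_dual, abs_inv, abs_det_HX e hX, inv_one])).comp (mp_vec_split e)

theorem mp_split_HX [Nonempty β] {X : Matrix α ι ℝ} (hX : (blk e X).det ≠ 0) :
    MeasurePreserving (fun p : (α → ℝ) × (β → ℝ) =>
      (fun i => Sum.elim p.1 p.2 (e.symm i)) ᵥ* HX e X) (volume.prod volume) volume := by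
  exact (blk_mp (abs_det_HX e hX)).comp (mp_vec_split e)

theorem layer_coer [Nonempty β] {X : Matrix α ι ℝ} (hX : (blk e X).det ≠ 0) :
    ∃ c : ℝ, 0 < c ∧ ∀ ξ z, c * (nsq ξ + nsq z) ≤ nsq (layer e X ξ z) := by
  obtain ⟨c, hc, h⟩ := exists_coer (g := dual (HX e X)) (by
    rw [det_dual]
    exact inv_ne_zero (abs_ne_zero.1 (abs_det_HX e hX ▸ one_ne_zero)))
  refine ⟨c, hc, fun ξ z => le_of_eq_of_le ?_ (h _)⟩
  rw [nsq, nsq, nsq, ← e.sum_comp, Fintype.sum_sum_type]
  simp

/-- coordinates on the space of all matrices -/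
theorem lintegral_lift [Nonempty β] (F : Matrix ι ι ℝ → ℝ≥0∞) (hF : Measurable F) :
    ∫⁻ g, F g = ∫⁻ X : Matrix α ι ℝ, ∫⁻ t : Matrix β α ℝ, ∫⁻ g : Matrix β β ℝ,
      F (lift e X t g) := by
  have h1 := mp_rows (ι := ι) e
  refine (h1.lintegral_comp hF).symm.trans
    ((lintegral_prod _ (hF.comp h1.measurable).aemeasurable).trans (lintegral_congr_ae ?_))
  filter_upwards [ae_blk e] with X hX
  have h2 : MeasurePreserving (fun Y : Matrix β ι ℝ => Y * HX e X) volume volume :=
    ⟨Measurable.mxmul measurable_id measurable_const, by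
      rw [map_mul_right _ (abs_ne_zero.1 (abs_det_HX e hX ▸ one_ne_zero)), abs_det_HX e hX]
      simp⟩
  have h3 := h2.comp (mp_cols (κ := β) e)
  have h4 := (hF.comp h1.measurable).comp (measurable_prodMk_left (x := X))
  refine (h3.lintegral_comp h4).symm.trans
    ((lintegral_prod _ (h4.comp h3.measurable).aemeasurable).trans ?_)
  refine lintegral_congr fun t => lintegral_congr fun g => congrArg F ?_
  ext i j
  obtain ⟨i, rfl⟩ := e.surjective i
  rcases i with a | b
  · simp [lift_inl]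
  · rw [lift_inr]
    simp only [Matrix.of_apply, Equiv.symm_apply_apply, Sum.elim_inr]
    rfl

end Pool.Agent.Eps.H
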