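import Pool.Agent.Lib.MP_3bda03_nt.H.Defs

/-!
From identities for nonnegative functions to identities for integrable functions.
-/

set_option autoImplicit false

noncomputable section

open MeasureTheory Matrix
open scoped ENNReal

namespace Pool.Agent.Eps.H

private theorem trans_summable {I : Type} {a : I → ℝ} (h : ∑' i, ‖a i‖ₑ ≠ ∞) : Summable a := by
  have h1 : Summable fun i => ‖a i‖₊ := ENNReal.tsum_coe_ne_top_iff_summable.1 h
  have h2 : Summable fun i => ‖a i‖ := by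
    simpa only [coe_nnnorm] using NNReal.summable_coe.2 h1
  exact h2.of_norm

private theorem trans_core {Ω I : Type} [MeasurableSpace Ω] [Countable I] {μ : Measure Ω}
    (F : I → Ω → ℝ) (hF : ∀ i, Measurable (F i)) (h : ∫⁻ ω, ∑' i, ‖F i ω‖ₑ ∂μ ≠ ∞) :
    (∀ᵐ ω ∂μ, Summable fun i => F i ω) ∧ Integrable (fun ω => ∑' i, F i ω) μ := by
  have hm : Measurable fun ω => ∑' i, ‖F i ω‖ₑ := Measurable.tsum fun i => (hF i).enorm
  refine ⟨(ae_lt_top hm h).mono fun ω hω => trans_summable hω.ne, ?_, ?_⟩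
  · exact (Measurable.tsum hF).aestronglyMeasurable
  · exact lt_of_le_of_lt (lintegral_mono fun ω => enorm_tsum_le_tsum_enorm) h.lt_top

theorem transfer {Ω Y I : Type} [MeasurableSpace Ω] [MeasurableSpace Y] [Countable I]
    {μ : Measure Ω} {ρ : Measure Y} (T : I → Ω → Y) (hT : ∀ i, Measurable (T i))
    (h : ∀ f : Y → ℝ≥0∞, Measurable f → ∫⁻ ω, ∑' i, f (T i ω) ∂μ = ∫⁻ y, f y ∂ρ)
    {F : Y → ℝ} (hF : Measurable F) (hi : Integrable F ρ) :
    (∀ᵐ ω ∂μ, Summable fun i => F (T i ω)) ∧ Integrable (fun ω => ∑' i, F (T i ω)) μ ∧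
      ∫ ω, ∑' i, F (T i ω) ∂μ = ∫ y, F y ∂ρ := by
  have hfin : ∫⁻ ω, ∑' i, ‖F (T i ω)‖ₑ ∂μ ≠ ∞ := by
    rw [h (fun y => ‖F y‖ₑ) hF.enorm]
    exact hi.2.ne
  have hFT : ∀ i, Measurable fun ω => F (T i ω) := fun i => hF.comp (hT i)
  obtain ⟨h1, h2⟩ := trans_core (fun i ω => F (T i ω)) hFT hfin
  refine ⟨h1, h2, ?_⟩
  have hρ : ρ = Measure.sum fun i => μ.map (T i) := by
    refine Measure.ext fun s hs => ?_
    have h3 := h (s.indicator 1) (measurable_one.indicator hs)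
    rw [lintegral_indicator_one hs] at h3
    have h4 : ∀ i, AEMeasurable (fun ω => s.indicator (1 : Y → ℝ≥0∞) (T i ω)) μ := fun i =>
      ((measurable_one.indicator hs).comp (hT i)).aemeasurable
    rw [← h3, Measure.sum_apply _ hs, lintegral_tsum h4]
    refine tsum_congr fun i => ?_
    rw [← lintegral_indicator_one hs, lintegral_map (measurable_one.indicator hs) (hT i)]
  have hfin' : ∑' i, ∫⁻ ω, ‖F (T i ω)‖ₑ ∂μ ≠ ∞ := by
    rwa [← lintegral_tsum fun i => (hFT i).enorm.aemeasurable]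
  rw [integral_tsum (fun i => (hFT i).aestronglyMeasurable) hfin']
  rw [hρ] at hi
  rw [hρ, integral_sum_measure hi]
  refine tsum_congr fun i => ?_
  rw [integral_map (hT i).aemeasurable hF.aestronglyMeasurable]

/-- upper bound form -/
theorem transfer_le {Ω I : Type} [MeasurableSpace Ω] [Countable I] {μ : Measure Ω}
    (F : I → Ω → ℝ) (hF : ∀ i, Measurable (F i)) {B : ℝ} (hB : 0 ≤ B)
    (h : ∫⁻ ω, ∑' i, ‖F i ω‖ₑ ∂μ ≤ ENNReal.ofReal B) :
    (∀ᵐ ω ∂μ, Summable fun i => F i ω) ∧ Integrable (fun ω => ∑' i, F i ω) μ ∧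
      ∫ ω, |∑' i, F i ω| ∂μ ≤ B := by
  obtain ⟨h1, h2⟩ := trans_core F hF (ne_top_of_le_ne_top ENNReal.ofReal_ne_top h)
  refine ⟨h1, h2, ?_⟩
  have h3 : ∫⁻ ω, ‖∑' i, F i ω‖ₑ ∂μ ≤ ENNReal.ofReal B :=
    (lintegral_mono fun ω => enorm_tsum_le_tsum_enorm).trans h
  have h4 := integral_norm_eq_lintegral_enorm h2.aestronglyMeasurable
  simp only [Real.norm_eq_abs] at h4
  rw [h4]
  exact ENNReal.toReal_le_of_le_ofReal hB h3

/-- a product of a measure, a counting measure and a measure: iterated form -/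
theorem integral_count_prod {X M Z : Type} [MeasurableSpace X] [MeasurableSpace M]
    [MeasurableSingletonClass M] [Countable M] [MeasurableSpace Z] {μ : Measure X} {ν : Measure Z}
    [SFinite μ] [SFinite ν] {F : X → M → Z → ℝ}
    (hF : ∀ m, Measurable fun p : X × Z => F p.1 m p.2)
    (hfin : ∫⁻ x, ∑' m, ∫⁻ z, ‖F x m z‖ₑ ∂ν ∂μ ≠ ∞) :
    Integrable (fun p : X × M × Z => F p.1 p.2.1 p.2.2) (μ.prod (Measure.count.prod ν)) ∧
    Integrable (fun x => ∑' m, ∫ z, F x m z ∂ν) μ ∧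
    ∫ p : X × M × Z, F p.1 p.2.1 p.2.2 ∂(μ.prod (Measure.count.prod ν)) =
      ∫ x, ∑' m, ∫ z, F x m z ∂ν ∂μ := by
  have hm : Measurable fun p : X × M × Z => F p.1 p.2.1 p.2.2 := by
    have h1 : Measurable fun q : (X × Z) × M => F q.1.1 q.2 q.1.2 :=
      measurable_from_prod_countable_left fun m => hF m
    have h2 : Measurable fun p : X × M × Z => ((p.1, p.2.2), p.2.1) := by fun_prop
    exact h1.comp h2
  have hint : Integrable (fun p : X × M × Z => F p.1 p.2.1 p.2.2)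
      (μ.prod (Measure.count.prod ν)) := by
    refine ⟨hm.aestronglyMeasurable, ?_⟩
    have e : ∫⁻ p : X × M × Z, ‖F p.1 p.2.1 p.2.2‖ₑ ∂(μ.prod (Measure.count.prod ν)) =
        ∫⁻ x, ∑' m, ∫⁻ z, ‖F x m z‖ₑ ∂ν ∂μ := by
      rw [lintegral_prod _ hm.enorm.aemeasurable]
      refine lintegral_congr fun x => ?_
      have hx : Measurable fun q : M × Z => ‖F x q.1 q.2‖ₑ :=
        hm.enorm.comp (measurable_prodMk_left (x := x))
      rw [lintegral_prod _ hx.aemeasurable, lintegral_count]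
    rw [HasFiniteIntegral, e]
    exact hfin.lt_top
  have hae : ∀ᵐ x ∂μ, ∫ q : M × Z, F x q.1 q.2 ∂(Measure.count.prod ν) =
      ∑' m, ∫ z, F x m z ∂ν := by
    filter_upwards [hint.prod_right_ae] with x hx
    rw [integral_prod _ hx, integral_countable hx.integral_prod_left]
    refine tsum_congr fun m => ?_
    simp [Measure.real]
  refine ⟨hint, hint.integral_prod_left.congr hae, ?_⟩
  rw [integral_prod _ hint]
  exact integral_congr_ae hae

end Pool.Agent.Eps.H
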