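import Pool.Agent.Lib.MP_3bda03_nt.H.Mixed
import Pool.Agent.Lib.MP_3bda03_nt.H.Trans

/-!
The mean value formulas for integrable real functions.
-/

set_option autoImplicit false

noncomputable section

open MeasureTheory Matrix
open scoped ENNReal

namespace Pool.Agent.Eps.H

theorem boch_meas {X M W E : Type} [MeasurableSpace X] [MeasurableSpace M]
    [MeasurableSingletonClass M] [Countable M] [MeasurableSpace W] [MeasurableSpace E]
    {F : X → M → W → E} (hF : ∀ m, Measurable fun p : X × W => F p.1 m p.2) :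
    Measurable fun p : X × M × W => F p.1 p.2.1 p.2.2 := by
  have h1 : Measurable fun q : (X × W) × M => F q.1.1 q.2 q.1.2 :=
    measurable_from_prod_countable_left fun m => hF m
  have h2 : Measurable fun p : X × M × W => ((p.1, p.2.2), p.2.1) :=
    (measurable_fst.prodMk measurable_snd.snd).prodMk measurable_snd.fst
  exact h1.comp h2

theorem boch_lint {X M Z : Type} [MeasurableSpace X] [MeasurableSpace M]
    [MeasurableSingletonClass M] [Countable M] [MeasurableSpace Z] {μ : Measure X}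
    {ν : Measure Z} [SFinite μ] [SFinite ν] {G : X × M × Z → ℝ≥0∞} (hG : Measurable G) :
    ∫⁻ p, G p ∂(μ.prod (Measure.count.prod ν)) = ∫⁻ x, ∑' m, ∫⁻ z, G (x, m, z) ∂ν ∂μ := by
  rw [lintegral_prod _ hG.aemeasurable]
  refine lintegral_congr fun x => ?_
  have h1 : Measurable fun q : M × Z => G (x, q) := hG.comp measurable_prodMk_left
  rw [lintegral_prod _ h1.aemeasurable, lintegral_count]

theorem boch_mixed {Ω X M Z W I : Type} [MeasurableSpace Ω] [MeasurableSpace X]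
    [MeasurableSpace M] [MeasurableSingletonClass M] [Countable M] [MeasurableSpace Z]
    [MeasurableSpace W] [Countable I] {μ : Measure Ω} {ξ : Measure X} {ν : Measure Z}
    [SFinite ξ] [SFinite ν] {c : ℝ≥0∞} (hc : c ≠ ∞) (L : X → M → Z → W)
    (hL : ∀ m, Measurable fun p : X × Z => L p.1 m p.2) (T : I → Ω → X × M × W)
    (hT : ∀ i, Measurable (T i))
    (h : ∀ f : X × M × W → ℝ≥0∞, Measurable f → ∫⁻ ω, ∑' i, f (T i ω) ∂μ =
      c * ∫⁻ x, ∑' m, ∫⁻ z, f (x, m, L x m z) ∂ν ∂ξ)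
    (F : X → M → W → ℝ) (hF : ∀ m, Measurable fun p : X × W => F p.1 m p.2)
    (hfin : ∫⁻ x, ∑' m, ∫⁻ z, ‖F x m (L x m z)‖ₑ ∂ν ∂ξ ≠ ∞) :
    (∀ᵐ ω ∂μ, Summable fun i => F (T i ω).1 (T i ω).2.1 (T i ω).2.2) ∧
    Integrable (fun ω => ∑' i, F (T i ω).1 (T i ω).2.1 (T i ω).2.2) μ ∧
    Integrable (fun x => ∑' m, ∫ z, F x m (L x m z) ∂ν) ξ ∧
    ∫ ω, ∑' i, F (T i ω).1 (T i ω).2.1 (T i ω).2.2 ∂μ =
      c.toReal * ∫ x, ∑' m, ∫ z, F x m (L x m z) ∂ν ∂ξ := by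
  have hL' : Measurable fun p : X × M × Z => L p.1 p.2.1 p.2.2 := boch_meas hL
  let Λ : X × M × Z → X × M × W := fun p => (p.1, p.2.1, L p.1 p.2.1 p.2.2)
  have hΛ : Measurable Λ := measurable_fst.prodMk (measurable_snd.fst.prodMk hL')
  have hF' : Measurable fun p : X × M × W => F p.1 p.2.1 p.2.2 := boch_meas hF
  have hFL : ∀ m, Measurable fun p : X × Z => F p.1 m (L p.1 m p.2) := fun m =>
    (hF m).comp (measurable_fst.prodMk (hL m))
  obtain ⟨i1, i2, i3⟩ := integral_count_prod (μ := ξ) (ν := ν)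
    (F := fun x m z => F x m (L x m z)) hFL hfin
  let ρ : Measure (X × M × W) := c • (ξ.prod (Measure.count.prod ν)).map Λ
  have hρ : ∀ f : X × M × W → ℝ≥0∞, Measurable f →
      ∫⁻ ω, ∑' i, f (T i ω) ∂μ = ∫⁻ y, f y ∂ρ := by
    intro f hf
    rw [h f hf, lintegral_smul_measure, lintegral_map hf hΛ, smul_eq_mul]
    congr 1
    exact (boch_lint (hf.comp hΛ)).symm
  have hi : Integrable (fun p : X × M × W => F p.1 p.2.1 p.2.2) ρ := by
    refine Integrable.smul_measure ?_ hc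
    exact (integrable_map_measure hF'.aestronglyMeasurable hΛ.aemeasurable).2 i1
  obtain ⟨j1, j2, j3⟩ := transfer T hT hρ hF' hi
  refine ⟨j1, j2, i2, ?_⟩
  rw [j3, integral_smul_measure, integral_map hΛ.aemeasurable hF'.aestronglyMeasurable,
    smul_eq_mul]
  congr 1

section
variable {τ ι : Type} [Fintype τ] [Fintype ι] [DecidableEq ι]

theorem siegel_int (h : 2 ≤ Fintype.card ι) {f : (ι → ℝ) → ℝ} (hf : Measurable f)
    (hi : Integrable f) :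
    (∀ᵐ g ∂mu ι, Summable fun k : {k : ι → ℤ // k ≠ 0} => f (lv k.1 g)) ∧
    Integrable (fun g => ∑' k : {k : ι → ℤ // k ≠ 0}, f (lv k.1 g)) (mu ι) ∧
    ∫ g, ∑' k : {k : ι → ℤ // k ≠ 0}, f (lv k.1 g) ∂mu ι = ∫ x, f x := by
  exact transfer (fun (k : {k : ι → ℤ // k ≠ 0}) (g : Matrix ι ι ℝ) => lv k.1 g)
    (fun k => measurable_lv k.1) (fun φ hφ => siegel h φ hφ) hf hi

theorem rogers_int (h : Fintype.card τ < Fintype.card ι) {F : Matrix τ ι ℝ → ℝ}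
    (hF : Measurable F) (hi : Integrable F) :
    (∀ᵐ g ∂mu ι, Summable fun Y : {Y : Matrix τ ι ℤ // Ind Y} => F (cz Y.1 * g)) ∧
    Integrable (fun g => ∑' Y : {Y : Matrix τ ι ℤ // Ind Y}, F (cz Y.1 * g)) (mu ι) ∧
    ∫ g, ∑' Y : {Y : Matrix τ ι ℤ // Ind Y}, F (cz Y.1 * g) ∂mu ι = ∫ X, F X := by
  exact transfer (fun (Y : {Y : Matrix τ ι ℤ // Ind Y}) (g : Matrix ι ι ℝ) => cz Y.1 * g)
    (fun _ => Measurable.mxmul measurable_const measurable_id) (fun φ hφ => rogers h φ hφ) hF hi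

theorem rogers2_int (h : 3 ≤ Fintype.card ι) {F : (ι → ℝ) → (ι → ℝ) → ℝ}
    (hF : Measurable (Function.uncurry F))
    (hi : Integrable (Function.uncurry F) (volume.prod volume)) :
    (∀ᵐ g ∂mu ι, Summable fun p : {p : (ι → ℤ) × (ι → ℤ) // Ind2 p} =>
      F (lv p.1.1 g) (lv p.1.2 g)) ∧
    Integrable (fun g => ∑' p : {p : (ι → ℤ) × (ι → ℤ) // Ind2 p}, F (lv p.1.1 g) (lv p.1.2 g))
      (mu ι) ∧
    ∫ g, ∑' p : {p : (ι → ℤ) × (ι → ℤ) // Ind2 p}, F (lv p.1.1 g) (lv p.1.2 g) ∂mu ι =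
      ∫ x, ∫ y, F x y := by
  obtain ⟨j1, j2, j3⟩ := transfer (μ := mu ι) (ρ := volume.prod volume)
    (fun (p : {p : (ι → ℤ) × (ι → ℤ) // Ind2 p}) (g : Matrix ι ι ℝ) => (lv p.1.1 g, lv p.1.2 g))
    (fun p => (measurable_lv p.1.1).prodMk (measurable_lv p.1.2))
    (fun φ hφ => by
      rw [lintegral_prod _ hφ.aemeasurable]
      exact rogers2 h (fun x y => φ (x, y)) hφ) hF hi
  refine ⟨j1, j2, ?_⟩
  rw [integral_prod _ hi] at j3
  exact j3

/-- dependent pairs of nonzero vectors -/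
def boch_Dep (p : (ι → ℤ) × (ι → ℤ)) : Prop := p.1 ≠ 0 ∧ p.2 ≠ 0 ∧ ¬ Ind2 p

omit [Fintype ι] [DecidableEq ι] in
theorem boch_ne {p : (ι → ℤ) × (ι → ℤ)} (h : Ind2 p) : p.1 ≠ 0 ∧ p.2 ≠ 0 :=
  ⟨LinearIndependent.ne_zero (0 : Fin 2) h, LinearIndependent.ne_zero (1 : Fin 2) h⟩

/-- pairs of nonzero vectors are independent or dependent -/
def boch_equiv : {k : ι → ℤ // k ≠ 0} × {k : ι → ℤ // k ≠ 0} ≃
    ↥({p : (ι → ℤ) × (ι → ℤ) | Ind2 p} ∪ {p | boch_Dep p}) where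
  toFun z := ⟨(z.1.1, z.2.1), by
    by_cases hz : Ind2 (z.1.1, z.2.1)
    · exact Or.inl hz
    · exact Or.inr ⟨z.1.2, z.2.2, hz⟩⟩
  invFun p := (⟨p.1.1, by
      rcases p.2 with hp | hp
      · exact (boch_ne hp).1
      · exact hp.1⟩, ⟨p.1.2, by
      rcases p.2 with hp | hp
      · exact (boch_ne hp).2
      · exact hp.2.1⟩)
  left_inv _ := rfl
  right_inv _ := rfl

omit [Fintype ι] [DecidableEq ι] in
theorem boch_sq {a : (ι → ℤ) → ℝ} (h0 : Summable fun k : {k : ι → ℤ // k ≠ 0} => a k.1)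
    (h1 : Summable fun p : {p : (ι → ℤ) × (ι → ℤ) // Ind2 p} => a p.1.1 * a p.1.2)
    (h2 : Summable fun p : {p : (ι → ℤ) × (ι → ℤ) // boch_Dep p} => a p.1.1 * a p.1.2) :
    (∑' k : {k : ι → ℤ // k ≠ 0}, a k.1) ^ 2 =
      ∑' p : {p : (ι → ℤ) × (ι → ℤ) // Ind2 p}, a p.1.1 * a p.1.2 +
        ∑' p : {p : (ι → ℤ) × (ι → ℤ) // boch_Dep p}, a p.1.1 * a p.1.2 := by
  have hd : Disjoint {p : (ι → ℤ) × (ι → ℤ) | Ind2 p} {p | boch_Dep p} :=
    Set.disjoint_left.2 fun p hp hq => hq.2.2 hp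
  have h3 := HasSum.add_disjoint (f := fun p : (ι → ℤ) × (ι → ℤ) => a p.1 * a p.2) hd
    h1.hasSum h2.hasSum
  have h4 := (boch_equiv (ι := ι)).hasSum_iff.2 h3
  rw [sq, tsum_mul_tsum_of_summable_norm h0.norm h0.norm]
  exact h4.tsum_eq

theorem boch_dep_le (G : (ι → ℤ) → (ι → ℤ) → ℝ≥0∞) :
    ∑' p : {p : (ι → ℤ) × (ι → ℤ) // boch_Dep p}, G p.1.1 p.1.2 ≤
      ∑' P : {P : Matrix Unit ι ℤ // Prim P}, ∑' p : ℕ, ∑' q : {q : ℤ // q ≠ 0},
        G (((p + 1 : ℕ) : ℤ) • P.1 ()) (q.1 • P.1 ()) := by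
  have key : ∀ p : {p : (ι → ℤ) × (ι → ℤ) // boch_Dep p},
      ∃ j : {P : Matrix Unit ι ℤ // Prim P} × ℕ × {q : ℤ // q ≠ 0},
        p.1.1 = ((j.2.1 + 1 : ℕ) : ℤ) • j.1.1 () ∧ p.1.2 = j.2.2.1 • j.1.1 () := by
    intro p
    obtain ⟨w, a, b, ha, hw, h1, h2⟩ := exists_of_not_ind2 p.2.1 p.2.2.2
    have hb : b ≠ 0 := by
      rintro rfl
      exact p.2.2.1 (by rw [h2, zero_smul])
    refine ⟨(⟨_, hw⟩, (a - 1).toNat, ⟨b, hb⟩), ?_, h2⟩
    have : (((a - 1).toNat + 1 : ℕ) : ℤ) = a := by omega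
    rw [this]
    exact h1
  choose φ hφ1 hφ2 using key
  have hinj : Function.Injective φ := by
    intro p q hpq
    apply Subtype.ext
    apply Prod.ext
    · rw [hφ1 p, hφ1 q, hpq]
    · rw [hφ2 p, hφ2 q, hpq]
  have h1 := ENNReal.tsum_comp_le_tsum_of_injective hinj
    (fun j : {P : Matrix Unit ι ℤ // Prim P} × ℕ × {q : ℤ // q ≠ 0} =>
      G (((j.2.1 + 1 : ℕ) : ℤ) • j.1.1 ()) (j.2.2.1 • j.1.1 ()))
  calc _ = ∑' p : {p : (ι → ℤ) × (ι → ℤ) // boch_Dep p},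
        G ((((φ p).2.1 + 1 : ℕ) : ℤ) • (φ p).1.1 ()) ((φ p).2.2.1 • (φ p).1.1 ()) :=
        tsum_congr fun p => by rw [← hφ1 p, ← hφ2 p]
    _ ≤ _ := h1
    _ = _ := by
        rw [ENNReal.tsum_prod']
        exact tsum_congr fun P => ENNReal.tsum_prod'

theorem boch_dep_mean (h : 2 ≤ Fintype.card ι) {f : (ι → ℝ) → ℝ} (hf : Measurable f) :
    ∫⁻ g, ∑' p : {p : (ι → ℤ) × (ι → ℤ) // boch_Dep p}, ‖f (lv p.1.1 g) * f (lv p.1.2 g)‖ₑ
        ∂mu ι ≤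
      ∑' p : ℕ, ∑' q : {q : ℤ // q ≠ 0},
        ∫⁻ x, ‖f (((p + 1 : ℕ) : ℝ) • x) * f ((q.1 : ℝ) • x)‖ₑ := by
  let e : Unit ⊕ Fin (Fintype.card ι - 1) ≃ ι := Fintype.equivOfCardEq (by simp; omega)
  have : Nonempty (Fin (Fintype.card ι - 1)) := ⟨⟨0, by omega⟩⟩
  let ψ : ℕ → {q : ℤ // q ≠ 0} → (ι → ℝ) → ℝ≥0∞ := fun p q x =>
    ‖f (((p + 1 : ℕ) : ℝ) • x) * f ((q.1 : ℝ) • x)‖ₑ
  have hψ : ∀ p q, Measurable (ψ p q) := fun p q =>
    ((hf.comp (measurable_const_smul _)).mul (hf.comp (measurable_const_smul _))).enorm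
  let Ψ : (ι → ℝ) → ℝ≥0∞ := fun x => ∑' p, ∑' q, ψ p q x
  have hΨ : Measurable Ψ :=
    Measurable.tsum fun p => Measurable.tsum fun q => hψ p q
  let Φ : Matrix Unit ι ℝ → ℝ≥0∞ := fun X => Ψ (X ())
  have hΦ : Measurable Φ := hΨ.comp (measurable_row ())
  calc _ ≤ ∫⁻ g, ∑' P : {P : Matrix Unit ι ℤ // Prim P}, Φ (cz P.1 * g) ∂mu ι := by
        refine lintegral_mono fun g => ?_
        refine (boch_dep_le fun k l => ‖f (lv k g) * f (lv l g)‖ₑ).trans (le_of_eq ?_)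
        refine tsum_congr fun P => ?_
        simp only [Φ, Ψ, ψ, cz_mul_row, lv_smul, Int.cast_natCast]
    _ = cc ι (Fin (Fintype.card ι - 1)) * ∫⁻ X, Φ X := frame_mean e Φ hΦ
    _ ≤ 1 * ∫⁻ X, Φ X := by
        gcongr
        exact cc_le_one e
    _ = ∫⁻ x, Ψ x := by
        rw [one_mul, ← mp_one_row.lintegral_comp hΦ]
        rfl
    _ = _ := by
        rw [lintegral_tsum fun p =>
          (Measurable.tsum fun q => hψ p q).aemeasurable]
        exact tsum_congr fun p => lintegral_tsum fun q => (hψ p q).aemeasurable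

/-- the variance of a sum over the nonzero lattice vectors is carried by the dependent pairs -/
theorem variance_le (h : 3 ≤ Fintype.card ι) {f : (ι → ℝ) → ℝ} (hf : Measurable f)
    (hi : Integrable f) :
    ∫⁻ g, ENNReal.ofReal ((∑' k : {k : ι → ℤ // k ≠ 0}, f (lv k.1 g) - ∫ x, f x) ^ 2) ∂mu ι ≤
      ∑' p : ℕ, ∑' q : {q : ℤ // q ≠ 0},
        ∫⁻ x, ‖f (((p + 1 : ℕ) : ℝ) • x) * f ((q.1 : ℝ) • x)‖ₑ := by
  set R := ∑' p : ℕ, ∑' q : {q : ℤ // q ≠ 0},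
    ∫⁻ x, ‖f (((p + 1 : ℕ) : ℝ) • x) * f ((q.1 : ℝ) • x)‖ₑ with hR
  by_cases hR' : R = ∞
  · rw [hR']
    exact le_top
  obtain ⟨s1, s2, s3⟩ := siegel_int (by omega) hf hi
  obtain ⟨r1, r2, r3⟩ := rogers2_int h (F := fun x y => f x * f y)
    ((hf.comp measurable_fst).mul (hf.comp measurable_snd)) (hi.mul_prod hi)
  obtain ⟨d1, d2, d3⟩ := transfer_le (μ := mu ι)
    (fun (p : {p : (ι → ℤ) × (ι → ℤ) // boch_Dep p}) (g : Matrix ι ι ℝ) =>
      f (lv p.1.1 g) * f (lv p.1.2 g))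
    (fun p => (hf.comp (measurable_lv _)).mul (hf.comp (measurable_lv _)))
    (B := R.toReal) ENNReal.toReal_nonneg
    (by
      rw [ENNReal.ofReal_toReal hR']
      exact boch_dep_mean (by omega) hf)
  set I := ∫ x, f x with hI
  set W : Matrix ι ι ℝ → ℝ := fun g => ∑' k : {k : ι → ℤ // k ≠ 0}, f (lv k.1 g) with hW
  set A : Matrix ι ι ℝ → ℝ := fun g =>
    ∑' p : {p : (ι → ℤ) × (ι → ℤ) // Ind2 p}, f (lv p.1.1 g) * f (lv p.1.2 g) with hA
  set D : Matrix ι ι ℝ → ℝ := fun g =>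
    ∑' p : {p : (ι → ℤ) × (ι → ℤ) // boch_Dep p}, f (lv p.1.1 g) * f (lv p.1.2 g) with hD
  have hae : (fun g => (W g - I) ^ 2) =ᵐ[mu ι] fun g => A g + D g - 2 * I * W g + I ^ 2 := by
    filter_upwards [s1, r1, d1] with g g1 g2 g3
    have := boch_sq (a := fun k => f (lv k g)) g1 g2 g3
    change W g ^ 2 = A g + D g at this
    rw [← this]
    ring
  have hint : Integrable (fun g => A g + D g - 2 * I * W g + I ^ 2) (mu ι) :=
    ((r2.add d2).sub (s2.const_mul _)).add (integrable_const _)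
  have hint' : Integrable (fun g => (W g - I) ^ 2) (mu ι) := hint.congr hae.symm
  have hA' : ∫ g, A g ∂mu ι = I ^ 2 := by
    rw [r3]
    simp only [integral_const_mul, integral_mul_const]
    ring
  have hval : ∫ g, (W g - I) ^ 2 ∂mu ι = ∫ g, D g ∂mu ι := by
    have i1 : Integrable (fun g => A g + D g) (mu ι) := r2.add d2
    have i2 : Integrable (fun g => 2 * I * W g) (mu ι) := s2.const_mul _
    have i3 : Integrable (fun g => A g + D g - 2 * I * W g) (mu ι) := i1.sub i2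
    have s4 : ∫ g, W g ∂mu ι = I := s3
    rw [integral_congr_ae hae, integral_add i3 (integrable_const _), integral_sub i1 i2,
      integral_add r2 d2, integral_const_mul, hA', s4]
    simp
    ring
  have hle : ∫ g, D g ∂mu ι ≤ R.toReal :=
    (integral_mono d2 d2.abs fun g => le_abs_self _).trans d3
  change ∫⁻ g, ENNReal.ofReal ((W g - I) ^ 2) ∂mu ι ≤ R
  rw [← ofReal_integral_eq_lintegral_ofReal hint' (Filter.Eventually.of_forall fun g =>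
    sq_nonneg _), hval]
  exact (ENNReal.ofReal_le_ofReal hle).trans (ENNReal.ofReal_toReal hR').le

end

variable {α β ι : Type} [Fintype α] [DecidableEq α] [Fintype β] [DecidableEq β] [Fintype ι]
  [DecidableEq ι] (e : α ⊕ β ≃ ι)

theorem mixed1_int (h : 2 ≤ Fintype.card β) (F : Matrix α ι ℝ → (α → ℤ) → (ι → ℝ) → ℝ)
    (hF : ∀ m, Measurable fun p : Matrix α ι ℝ × (ι → ℝ) => F p.1 m p.2)
    (hfin : ∫⁻ X : Matrix α ι ℝ, ∑' m : α → ℤ, ∫⁻ z, ‖F X m (layer e X (cv m) z)‖ₑ ≠ ∞) :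
    (∀ᵐ g ∂mu ι, Summable fun p : {P : Matrix α ι ℤ // Prim P} × {l : ι → ℤ // l ≠ 0} =>
      F (cz p.1.1 * dual g) (p.1.1 *ᵥ p.2.1) (lv p.2.1 g)) ∧
    Integrable (fun g => ∑' p : {P : Matrix α ι ℤ // Prim P} × {l : ι → ℤ // l ≠ 0},
      F (cz p.1.1 * dual g) (p.1.1 *ᵥ p.2.1) (lv p.2.1 g)) (mu ι) ∧
    Integrable (fun X : Matrix α ι ℝ => ∑' m : α → ℤ, ∫ z, F X m (layer e X (cv m) z)) ∧
    ∫ g, ∑' p : {P : Matrix α ι ℤ // Prim P} × {l : ι → ℤ // l ≠ 0},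
      F (cz p.1.1 * dual g) (p.1.1 *ᵥ p.2.1) (lv p.2.1 g) ∂mu ι =
      (cc ι β).toReal * ∫ X : Matrix α ι ℝ, ∑' m : α → ℤ, ∫ z, F X m (layer e X (cv m) z) := by
  refine boch_mixed (μ := mu ι) (ξ := volume) (ν := volume) cc_ne_top
    (fun (X : Matrix α ι ℝ) (m : α → ℤ) (z : β → ℝ) => layer e X (cv m) z)
    (fun m => (measurable_layer e).comp
      (measurable_fst.prodMk (measurable_const.prodMk measurable_snd)))
    (fun (p : {P : Matrix α ι ℤ // Prim P} × {l : ι → ℤ // l ≠ 0}) (g : Matrix ι ι ℝ) =>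
      (cz p.1.1 * dual g, p.1.1 *ᵥ p.2.1, lv p.2.1 g))
    (fun p => (Measurable.mxmul measurable_const measurable_dual).prodMk
      (measurable_const.prodMk (measurable_lv _))) (fun f hf => ?_) F hF hfin
  simp only [ENNReal.tsum_prod']
  exact mixed1' e h (fun X m y => f (X, m, y)) fun m =>
    hf.comp (measurable_fst.prodMk (measurable_const.prodMk measurable_snd))

theorem mixed2_int (h : 3 ≤ Fintype.card β)
    (F : Matrix α ι ℝ → (α → ℤ) × (α → ℤ) → (ι → ℝ) → (ι → ℝ) → ℝ)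
    (hF : ∀ m, Measurable fun p : Matrix α ι ℝ × (ι → ℝ) × (ι → ℝ) => F p.1 m p.2.1 p.2.2)
    (hfin : ∫⁻ X : Matrix α ι ℝ, ∑' m : (α → ℤ) × (α → ℤ), ∫⁻ z : (β → ℝ) × (β → ℝ),
      ‖F X m (layer e X (cv m.1) z.1) (layer e X (cv m.2) z.2)‖ₑ ≠ ∞) :
    (∀ᵐ g ∂mu ι, Summable fun p : {P : Matrix α ι ℤ // Prim P} ×
        {p : (ι → ℤ) × (ι → ℤ) // Ind2 p} =>
      F (cz p.1.1 * dual g) (p.1.1 *ᵥ p.2.1.1, p.1.1 *ᵥ p.2.1.2) (lv p.2.1.1 g) (lv p.2.1.2 g)) ∧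
    Integrable (fun g => ∑' p : {P : Matrix α ι ℤ // Prim P} × {p : (ι → ℤ) × (ι → ℤ) // Ind2 p},
      F (cz p.1.1 * dual g) (p.1.1 *ᵥ p.2.1.1, p.1.1 *ᵥ p.2.1.2) (lv p.2.1.1 g) (lv p.2.1.2 g))
      (mu ι) ∧
    Integrable (fun X : Matrix α ι ℝ => ∑' m : (α → ℤ) × (α → ℤ), ∫ z : (β → ℝ) × (β → ℝ),
      F X m (layer e X (cv m.1) z.1) (layer e X (cv m.2) z.2)) ∧
    ∫ g, ∑' p : {P : Matrix α ι ℤ // Prim P} × {p : (ι → ℤ) × (ι → ℤ) // Ind2 p},
      F (cz p.1.1 * dual g) (p.1.1 *ᵥ p.2.1.1, p.1.1 *ᵥ p.2.1.2) (lv p.2.1.1 g) (lv p.2.1.2 g)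
        ∂mu ι =
      (cc ι β).toReal * ∫ X : Matrix α ι ℝ, ∑' m : (α → ℤ) × (α → ℤ), ∫ z : (β → ℝ) × (β → ℝ),
        F X m (layer e X (cv m.1) z.1) (layer e X (cv m.2) z.2) := by
  have hL : ∀ m : (α → ℤ) × (α → ℤ), Measurable fun p : Matrix α ι ℝ × (β → ℝ) × (β → ℝ) =>
      (layer e p.1 (cv m.1) p.2.1, layer e p.1 (cv m.2) p.2.2) := fun m =>
    ((measurable_layer e).comp
      (measurable_fst.prodMk (measurable_const.prodMk measurable_snd.fst))).prodMk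
    ((measurable_layer e).comp
      (measurable_fst.prodMk (measurable_const.prodMk measurable_snd.snd)))
  refine boch_mixed (μ := mu ι) (ξ := volume) (ν := volume) cc_ne_top
    (fun (X : Matrix α ι ℝ) (m : (α → ℤ) × (α → ℤ)) (z : (β → ℝ) × (β → ℝ)) =>
      (layer e X (cv m.1) z.1, layer e X (cv m.2) z.2)) hL
    (fun (p : {P : Matrix α ι ℤ // Prim P} × {p : (ι → ℤ) × (ι → ℤ) // Ind2 p})
      (g : Matrix ι ι ℝ) =>
      (cz p.1.1 * dual g, (p.1.1 *ᵥ p.2.1.1, p.1.1 *ᵥ p.2.1.2), (lv p.2.1.1 g, lv p.2.1.2 g)))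
    (fun p => (Measurable.mxmul measurable_const measurable_dual).prodMk
      (measurable_const.prodMk ((measurable_lv _).prodMk (measurable_lv _)))) (fun f hf => ?_)
    (fun X m y => F X m y.1 y.2) hF hfin
  simp only [ENNReal.tsum_prod']
  rw [mixed2' e h (fun X m m' y y' => f (X, (m, m'), (y, y'))) fun m m' =>
    hf.comp (measurable_fst.prodMk (measurable_const.prodMk measurable_snd))]
  congr 1
  refine lintegral_congr fun X => tsum_congr fun m => tsum_congr fun m' => ?_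
  have h1 : Measurable fun z : (β → ℝ) × (β → ℝ) =>
      f (X, (m, m'), (layer e X (cv m) z.1, layer e X (cv m') z.2)) :=
    hf.comp (measurable_const.prodMk (measurable_const.prodMk
      ((hL (m, m')).comp measurable_prodMk_left)))
  exact (lintegral_prod _ h1.aemeasurable).symm

end Pool.Agent.Eps.H
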