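import Mathlib

/-!
Random lattices: definitions. A lattice is the set of integer combinations of the ROWS of an
invertible real matrix `g`; the group `GL ι ℤ` acts on the left.
-/

set_option autoImplicit false

noncomputable section

open MeasureTheory Matrix
open scoped ENNReal

namespace Pool.Agent.Eps.H

instance mxMeasurableSpace (α ι : Type) : MeasurableSpace (Matrix α ι ℝ) :=
  (MeasurableSpace.pi : MeasurableSpace (α → ι → ℝ))

instance mxMeasureSpace (α ι : Type) [Fintype α] [Fintype ι] : MeasureSpace (Matrix α ι ℝ) :=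
  { toMeasurableSpace := mxMeasurableSpace α ι
    volume := (volume : Measure (α → ι → ℝ)) }

instance mxBorelSpace (α ι : Type) [Fintype α] [Fintype ι] : BorelSpace (Matrix α ι ℝ) :=
  (inferInstance : BorelSpace (α → ι → ℝ))

instance mxSecondCountable (α ι : Type) [Fintype α] [Fintype ι] :
    SecondCountableTopology (Matrix α ι ℝ) :=
  (inferInstance : SecondCountableTopology (α → ι → ℝ))

instance mxLocallyCompact (α ι : Type) [Fintype α] [Fintype ι] :
    LocallyCompactSpace (Matrix α ι ℝ) :=
  (inferInstance : LocallyCompactSpace (α → ι → ℝ))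

instance mxHaar (α ι : Type) [Fintype α] [Fintype ι] :
    Measure.IsAddHaarMeasure (volume : Measure (Matrix α ι ℝ)) :=
  haveI := isAddHaarMeasure_volume_pi ι
  (inferInstance : Measure.IsAddHaarMeasure (Measure.pi fun _ : α => (volume : Measure (ι → ℝ))))

instance mxSigmaFinite (α ι : Type) [Fintype α] [Fintype ι] :
    SigmaFinite (volume : Measure (Matrix α ι ℝ)) :=
  (inferInstance : SigmaFinite (volume : Measure (α → ι → ℝ)))

instance mxCountable (α ι : Type) [Finite α] [Finite ι] : Countable (Matrix α ι ℤ) :=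
  (inferInstance : Countable (α → ι → ℤ))

instance glCountable (ι : Type) [Fintype ι] [DecidableEq ι] : Countable (GL ι ℤ) :=
  Function.Injective.countable (f := fun γ : GL ι ℤ => (γ.val : Matrix ι ι ℤ)) Units.val_injective

section
variable {α β ι : Type}

/-- squared Euclidean length -/
def nsq [Fintype ι] (x : ι → ℝ) : ℝ := ∑ i, x i ^ 2

/-- integer vector as a real vector -/
def cv (k : ι → ℤ) : ι → ℝ := fun i => (k i : ℝ)

/-- integer matrix as a real matrix -/
def cz (P : Matrix α ι ℤ) : Matrix α ι ℝ := P.map (fun x => (x : ℝ))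

/-- the integer combination of the rows of `X` with coefficients `k` -/
def lv [Fintype α] (k : α → ℤ) (X : Matrix α ι ℝ) : ι → ℝ := cv k ᵥ* X

/-- basis of the dual lattice -/
def dual [Fintype ι] [DecidableEq ι] (g : Matrix ι ι ℝ) : Matrix ι ι ℝ := (g⁻¹)ᵀ

/-- the rows form a primitive frame: they extend to a basis of the integer lattice -/
def Prim [Fintype ι] [DecidableEq α] (P : Matrix α ι ℤ) : Prop := ∃ Q : Matrix ι α ℤ, P * Q = 1

/-- the rows are linearly independent -/
def Ind (Y : Matrix α ι ℤ) : Prop := LinearIndependent ℤ (fun a => Y a)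

/-- two integer vectors are linearly independent -/
def Ind2 (p : (ι → ℤ) × (ι → ℤ)) : Prop := LinearIndependent ℤ ![p.1, p.2]

/-- a function of the basis that only depends on the lattice -/
def LInv [Fintype ι] [DecidableEq ι] {E : Type} (Φ : Matrix ι ι ℝ → E) : Prop :=
  ∀ (γ : GL ι ℤ) (g : Matrix ι ι ℝ), Φ (cz γ.val * g) = Φ g

/-- theta series -/
def theta [Fintype ι] (g : Matrix ι ι ℝ) (t : ℝ) : ℝ :=
  ∑' k : ι → ℤ, Real.exp (-Real.pi * t * nsq (lv k g))

/-- the unit cube of matrices -/
def cube (β α : Type) : Set (Matrix β α ℝ) := {t | ∀ b a, t b a ∈ Set.Ico (0 : ℝ) 1}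

end

section
variable (ι : Type) [Fintype ι] [DecidableEq ι]

/-- matrices with determinant of size between one half and two -/
def band : Set (Matrix ι ι ℝ) := {g | 1 / 2 ≤ |g.det| ∧ |g.det| ≤ 2}

/-- the bi-invariant measure, restricted to the band -/
def nu : Measure (Matrix ι ι ℝ) :=
  (volume.restrict (band ι)).withDensity
    (fun g => ENNReal.ofReal ((|g.det| ^ Fintype.card ι)⁻¹))

variable {ι}

/-- a positive function with finite sums over orbits -/
def psi (g : Matrix ι ι ℝ) : ℝ≥0∞ := ENNReal.ofReal (Real.exp (-∑ i, ∑ j, |g i j|))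

/-- the weight: its sum over the orbit of an invertible matrix is one -/
def wt (g : Matrix ι ι ℝ) : ℝ≥0∞ := psi g / ∑' γ : GL ι ℤ, psi (cz γ.val * g)

/-- rescaling to determinant of size one -/
def nrm (g : Matrix ι ι ℝ) : Matrix ι ι ℝ := (|g.det| ^ (-(1 / (Fintype.card ι : ℝ)))) • g

variable (ι)

/-- the invariant measure on lattices, before normalisation -/
def mu0 : Measure (Matrix ι ι ℝ) := ((nu ι).withDensity wt).map nrm

/-- its total mass -/
def Zm : ℝ≥0∞ := mu0 ι Set.univ

/-- the invariant probability measure on lattices of covolume one -/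
def mu : Measure (Matrix ι ι ℝ) := (Zm ι)⁻¹ • mu0 ι

/-- the density of primitive frames whose complement is indexed by `β` -/
def cc (β : Type) [Fintype β] [DecidableEq β] : ℝ≥0∞ := Zm β / Zm ι

end

section
variable {α β ι : Type} [Fintype α] [DecidableEq α] [Fintype β] [DecidableEq β] [Fintype ι]
  [DecidableEq ι] (e : α ⊕ β ≃ ι)

/-- the standard frame -/
def std : Matrix α ι ℤ := fun a i => if e (Sum.inl a) = i then 1 else 0

/-- the square block of a frame -/
def blk (X : Matrix α ι ℝ) : Matrix α α ℝ := X.submatrix id (fun a => e (Sum.inl a))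

/-- the scale of the complementary rows -/
def del (X : Matrix α ι ℝ) : ℝ := |(blk e X).det| ^ (-(1 / (Fintype.card β : ℝ)))

/-- a matrix of determinant of size one whose first rows are the frame `X` -/
def HX (X : Matrix α ι ℝ) : Matrix ι ι ℝ :=
  fun i j => Sum.elim (fun a => X a j)
    (fun b => if e (Sum.inr b) = j then del e X else 0) (e.symm i)

/-- the lattice with frame `X`, gluing `t` and quotient `g` -/
def lift (X : Matrix α ι ℝ) (t : Matrix β α ℝ) (g : Matrix β β ℝ) : Matrix ι ι ℝ :=
  Matrix.reindex e e (Matrix.fromBlocks 1 0 t g) * HX e X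

/-- the point with coordinate `z` of the affine space of vectors whose products with the frame
`X` are `ξ` -/
def layer (X : Matrix α ι ℝ) (ξ : α → ℝ) (z : β → ℝ) : ι → ℝ :=
  (fun i => Sum.elim ξ z (e.symm i)) ᵥ* dual (HX e X)

/-- the integral of `F` over that affine space -/
def lam (X : Matrix α ι ℝ) (F : (ι → ℝ) → ℝ) (ξ : α → ℝ) : ℝ := ∫ z, F (layer e X ξ z)

end

section
variable {ι : Type} [Fintype ι]

/-- Fourier transform -/
def ft (F : (ι → ℝ) → ℂ) (w : ι → ℝ) : ℂ :=
  ∫ y, Complex.exp (-(2 * Real.pi * (w ⬝ᵥ y) : ℝ) * Complex.I) * F y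

/-- cosine transform -/
def ftr (F : (ι → ℝ) → ℝ) (w : ι → ℝ) : ℝ := ∫ y, F y * Real.cos (2 * Real.pi * (w ⬝ᵥ y))

end

/-- the upper incomplete kernel -/
def fs (s ρ : ℝ) : ℝ := ∫ t in Set.Ioi (1 : ℝ), t ^ (s - 1) * Real.exp (-Real.pi * t * ρ)

/-- majorant of the Fourier transform of the uniform measure on a sphere in dimension `2 m`, at
`B = π² |x|² |w|²`, from the contour with real part `c` -/
def Om (m c B : ℝ) : ℝ :=
  Real.Gamma m * Real.exp c / (2 * Real.pi) *
    ∫ y : ℝ, (c ^ 2 + y ^ 2) ^ (-(m / 2)) * Real.exp (-(B * c / (c ^ 2 + y ^ 2)))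

end Pool.Agent.Eps.H
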