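import Pool.Agent.Lib.MP_3bda03_nt.H.Lin
import Pool.Agent.Lib.MP_3bda03_nt.H.Alg

/-!
The invariant measure on invertible matrices is preserved by the inverse transpose.
-/

set_option autoImplicit false

noncomputable section

open MeasureTheory Matrix
open scoped ENNReal

namespace Pool.Agent.Eps.H

variable {ι : Type} [Fintype ι] [DecidableEq ι]

/-- the invariant density -/
def dual_rho (g : Matrix ι ι ℝ) : ℝ≥0∞ := ENNReal.ofReal ((|g.det| ^ Fintype.card ι)⁻¹)

/-- the invariant measure -/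
def dual_nu (ι : Type) [Fintype ι] [DecidableEq ι] : Measure (Matrix ι ι ℝ) :=
  volume.withDensity dual_rho

instance dual_sfinite : SFinite (dual_nu ι) := by
  unfold dual_nu
  infer_instance

theorem dual_rho_meas : Measurable (dual_rho : Matrix ι ι ℝ → ℝ≥0∞) :=
  ((measurable_det.abs.pow_const _).inv).ennreal_ofReal

theorem dual_rho_mul (a b : Matrix ι ι ℝ) : dual_rho (a * b) = dual_rho a * dual_rho b := by
  unfold dual_rho
  rw [det_mul, abs_mul, mul_pow, mul_inv, ENNReal.ofReal_mul (by positivity)]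

theorem dual_rho_ne {a : Matrix ι ι ℝ} (ha : a.det ≠ 0) : dual_rho a ≠ 0 :=
  (ENNReal.ofReal_pos.2 (by positivity)).ne'

theorem dual_lint {G : Matrix ι ι ℝ → ℝ≥0∞} (hG : Measurable G) :
    ∫⁻ x, G x ∂dual_nu ι = ∫⁻ x, dual_rho x * G x :=
  lintegral_withDensity_eq_lintegral_mul _ dual_rho_meas hG

theorem dual_ae : ∀ᵐ g ∂dual_nu ι, g.det ≠ 0 :=
  (withDensity_absolutelyContinuous _ _).ae_le ae_det_ne_zero

theorem dual_inv_aux {a : Matrix ι ι ℝ} (ha : a.det ≠ 0) {m : Matrix ι ι ℝ → Matrix ι ι ℝ}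
    (hm : Measurable m) (h1 : Measure.map m volume = dual_rho a • volume)
    (h2 : ∀ x, dual_rho (m x) = dual_rho a * dual_rho x) {G : Matrix ι ι ℝ → ℝ≥0∞}
    (hG : Measurable G) : ∫⁻ x, G (m x) ∂dual_nu ι = ∫⁻ x, G x ∂dual_nu ι := by
  have k1 : Measurable fun x => dual_rho x * G x := dual_rho_meas.mul hG
  have k2 : Measurable fun x => G (m x) := hG.comp hm
  have k3 : Measurable fun x => dual_rho x * G (m x) := dual_rho_meas.mul k2
  have h3 := lintegral_map (μ := volume) k1 hm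
  rw [h1, lintegral_smul_measure, smul_eq_mul] at h3
  simp only [h2, mul_assoc] at h3
  rw [lintegral_const_mul _ k3] at h3
  rw [dual_lint k2, dual_lint hG]
  exact ((ENNReal.mul_right_inj (dual_rho_ne ha) ENNReal.ofReal_ne_top).1 h3).symm

theorem dual_left {a : Matrix ι ι ℝ} (ha : a.det ≠ 0) {G : Matrix ι ι ℝ → ℝ≥0∞}
    (hG : Measurable G) : ∫⁻ x, G (a * x) ∂dual_nu ι = ∫⁻ x, G x ∂dual_nu ι :=
  dual_inv_aux ha (Measurable.mxmul measurable_const measurable_id) (map_mul_left a ha)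
    (dual_rho_mul a) hG

theorem dual_right {a : Matrix ι ι ℝ} (ha : a.det ≠ 0) {G : Matrix ι ι ℝ → ℝ≥0∞}
    (hG : Measurable G) : ∫⁻ x, G (x * a) ∂dual_nu ι = ∫⁻ x, G x ∂dual_nu ι :=
  dual_inv_aux ha (Measurable.mxmul measurable_id measurable_const) (map_mul_right a ha)
    (fun x => (dual_rho_mul x a).trans (mul_comm _ _)) hG

/-- a function of total mass one -/
theorem dual_test : ∃ F : Matrix ι ι ℝ → ℝ≥0∞, Measurable F ∧ ∫⁻ x, F x ∂dual_nu ι = 1 := by
  have hm : Measurable ((cube ι ι).indicator fun g : Matrix ι ι ℝ => (dual_rho g)⁻¹) :=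
    dual_rho_meas.inv.indicator measurableSet_cube
  refine ⟨_, hm, ?_⟩
  rw [dual_lint hm, ← volume_cube (α := ι) (β := ι), ← lintegral_indicator_one measurableSet_cube]
  refine lintegral_congr_ae (ae_det_ne_zero.mono fun g hg => ?_)
  by_cases h : g ∈ cube ι ι
  · simp only [Set.indicator_of_mem h, Pi.one_apply]
    exact ENNReal.mul_inv_cancel (dual_rho_ne hg) ENNReal.ofReal_ne_top
  · simp only [Set.indicator_of_notMem h, mul_zero]

/-- a measure that is invariant on both sides is invariant under inversion -/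
theorem dual_inv {Φ : Matrix ι ι ℝ → ℝ≥0∞} (hΦ : Measurable Φ) :
    ∫⁻ y, Φ y⁻¹ ∂dual_nu ι = ∫⁻ y, Φ y ∂dual_nu ι := by
  obtain ⟨F, hF, h1⟩ := dual_test (ι := ι)
  have m1 : Measurable fun p : Matrix ι ι ℝ × Matrix ι ι ℝ => F (p.1 * p.2) * Φ p.1⁻¹ :=
    (hF.comp (Measurable.mxmul measurable_fst measurable_snd)).mul
      (hΦ.comp (measurable_mxinv.comp measurable_fst))
  have m2 : Measurable fun p : Matrix ι ι ℝ × Matrix ι ι ℝ => F p.2 * Φ (p.1 * p.2⁻¹) :=
    (hF.comp measurable_snd).mul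
      (hΦ.comp (Measurable.mxmul measurable_fst (measurable_mxinv.comp measurable_snd)))
  calc ∫⁻ y, Φ y⁻¹ ∂dual_nu ι
      = ∫⁻ y, ∫⁻ x, F (y * x) * Φ y⁻¹ ∂dual_nu ι ∂dual_nu ι := by
        refine lintegral_congr_ae (dual_ae.mono fun y hy => ?_)
        have h2 : Measurable fun x : Matrix ι ι ℝ => F (y * x) :=
          hF.comp (Measurable.mxmul measurable_const measurable_id)
        show _ = ∫⁻ x, F (y * x) * Φ y⁻¹ ∂dual_nu ι
        rw [lintegral_mul_const _ h2, dual_left hy hF, h1, one_mul]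
    _ = ∫⁻ x, ∫⁻ y, F (y * x) * Φ y⁻¹ ∂dual_nu ι ∂dual_nu ι :=
        lintegral_lintegral_swap m1.aemeasurable
    _ = ∫⁻ x, ∫⁻ y, F y * Φ (x * y⁻¹) ∂dual_nu ι ∂dual_nu ι := by
        refine lintegral_congr_ae (dual_ae.mono fun x hx => ?_)
        have h2 : Measurable fun y : Matrix ι ι ℝ => F y * Φ (x * y⁻¹) :=
          hF.mul (hΦ.comp (Measurable.mxmul measurable_const measurable_mxinv))
        show ∫⁻ y, F (y * x) * Φ y⁻¹ ∂dual_nu ι = ∫⁻ y, F y * Φ (x * y⁻¹) ∂dual_nu ι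
        rw [← dual_right hx h2]
        refine lintegral_congr fun y => ?_
        rw [Matrix.mul_inv_rev, Matrix.mul_nonsing_inv_cancel_left _ _ (Ne.isUnit hx)]
    _ = ∫⁻ y, ∫⁻ x, F y * Φ (x * y⁻¹) ∂dual_nu ι ∂dual_nu ι :=
        lintegral_lintegral_swap m2.aemeasurable
    _ = ∫⁻ y, F y * ∫⁻ x, Φ x ∂dual_nu ι ∂dual_nu ι := by
        refine lintegral_congr_ae (dual_ae.mono fun y hy => ?_)
        have h2 : Measurable fun x : Matrix ι ι ℝ => Φ (x * y⁻¹) :=
          hΦ.comp (Measurable.mxmul measurable_id measurable_const)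
        have h3 : y⁻¹.det ≠ 0 := (Matrix.isUnit_nonsing_inv_det _ (Ne.isUnit hy)).ne_zero
        show ∫⁻ x, F y * Φ (x * y⁻¹) ∂dual_nu ι = F y * ∫⁻ x, Φ x ∂dual_nu ι
        rw [lintegral_const_mul _ h2, dual_right h3 hΦ]
    _ = ∫⁻ y, Φ y ∂dual_nu ι := by rw [lintegral_mul_const _ hF, h1, one_mul]

theorem lintegral_dual_vol (F : Matrix ι ι ℝ → ℝ≥0∞) (hF : Measurable F) :
    ∫⁻ g : Matrix ι ι ℝ, ENNReal.ofReal ((|g.det| ^ Fintype.card ι)⁻¹) * F (dual g) =
      ∫⁻ g : Matrix ι ι ℝ, ENNReal.ofReal ((|g.det| ^ Fintype.card ι)⁻¹) * F g := by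
  have hT := mp_transpose (α := ι) (ι := ι)
  have k1 : Measurable fun g : Matrix ι ι ℝ => F gᵀ := hF.comp hT.measurable
  have k2 : Measurable fun g : Matrix ι ι ℝ => F g⁻¹ᵀ := k1.comp measurable_mxinv
  have k3 : Measurable fun g : Matrix ι ι ℝ => dual_rho g * F g := dual_rho_meas.mul hF
  have h1 := dual_inv k1
  rw [dual_lint k2, dual_lint k1] at h1
  refine h1.trans (Eq.trans ?_ (hT.lintegral_comp k3))
  refine lintegral_congr fun g => ?_
  simp only [dual_rho, det_transpose]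

end Pool.Agent.Eps.H
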