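import Pool.Agent.Lib.MP_3bda03_nt.H.Lin
import Pool.Agent.Lib.MP_3bda03_nt.H.Alg

/-!
The weight, unfolding, and invariance of the measure on lattices.
-/

set_option autoImplicit false

noncomputable section

open MeasureTheory Matrix
open scoped ENNReal

namespace Pool.Agent.Eps.H

variable {ι : Type} [Fintype ι] [DecidableEq ι]

theorem measurable_psi : Measurable (psi : Matrix ι ι ℝ → ℝ≥0∞) := by
  unfold psi
  refine ENNReal.measurable_ofReal.comp (Real.measurable_exp.comp (Measurable.neg ?_))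
  exact Finset.measurable_sum _ fun i _ => Finset.measurable_sum _ fun j _ =>
    continuous_abs.measurable.comp (measurable_entry i j)

omit [DecidableEq ι] in
theorem wt_meas_left (h : Matrix ι ι ℝ) : Measurable fun g : Matrix ι ι ℝ => h * g :=
  Measurable.mxmul measurable_const measurable_id

omit [DecidableEq ι] in
theorem wt_meas_right (h : Matrix ι ι ℝ) : Measurable fun g : Matrix ι ι ℝ => g * h :=
  Measurable.mxmul measurable_id measurable_const

theorem wt_meas_tsum {f : Matrix ι ι ℝ → ℝ≥0∞} (hf : Measurable f) :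
    Measurable fun g : Matrix ι ι ℝ => ∑' γ : GL ι ℤ, f (cz γ.val * g) :=
  Measurable.tsum fun γ => hf.comp (wt_meas_left (cz γ.val))

theorem measurable_wt : Measurable (wt : Matrix ι ι ℝ → ℝ≥0∞) := by
  unfold wt
  exact measurable_psi.div (wt_meas_tsum measurable_psi)

theorem wt_tsum_pi {κ : Type} [Fintype κ] (f : ℤ → ℝ≥0∞) :
    ∑' a : κ → ℤ, ∏ i, f (a i) ≤ ∏ _i : κ, ∑' x, f x := by
  classical
  rw [ENNReal.tsum_eq_iSup_sum]
  refine iSup_le fun s => ?_
  have h1 : s ⊆ Fintype.piFinset fun i => s.image fun a => a i := fun a ha =>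
    Fintype.mem_piFinset.2 fun i => Finset.mem_image_of_mem _ ha
  refine (Finset.sum_le_sum_of_subset h1).trans ?_
  rw [← Finset.prod_univ_sum (fun i => s.image fun a => a i) (fun _ x => f x)]
  exact Finset.prod_le_prod' fun i _ => ENNReal.sum_le_tsum _

theorem wt_tsum_exp {c : ℝ} (hc : 0 < c) :
    ∑' x : ℤ, ENNReal.ofReal (Real.exp (-(c * |(x : ℝ)|))) ≠ ∞ := by
  have h1 : Summable fun n : ℕ => Real.exp (n * (-c)) :=
    Real.summable_exp_nat_mul_iff.2 (by linarith)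
  have h2 : Summable fun x : ℤ => Real.exp (-(c * |(x : ℝ)|)) := by
    refine Summable.of_nat_of_neg (h1.congr fun n => ?_) (h1.congr fun n => ?_)
    · rw [Int.cast_natCast, Nat.abs_cast]
      ring_nf
    · rw [Int.cast_neg, Int.cast_natCast, abs_neg, Nat.abs_cast]
      ring_nf
  rw [← ENNReal.ofReal_tsum_of_nonneg (fun _ => (Real.exp_pos _).le) h2]
  exact ENNReal.ofReal_ne_top

theorem wt_coer {g : Matrix ι ι ℝ} (hg : g.det ≠ 0) : ∃ c : ℝ, 0 < c ∧ ∀ A : Matrix ι ι ℝ,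
    c * ∑ i, ∑ j, |A i j| ≤ ∑ i, ∑ j, |(A * g) i j| := by
  set M : ℝ := ∑ k, ∑ j, |g⁻¹ k j| with hM
  have hM0 : 0 ≤ M := Finset.sum_nonneg fun _ _ => Finset.sum_nonneg fun _ _ => abs_nonneg _
  refine ⟨(M + 1)⁻¹, by positivity, fun A => ?_⟩
  rw [inv_mul_le_iff₀ (by positivity), Finset.mul_sum]
  refine Finset.sum_le_sum fun i _ => ?_
  have e : A = A * g * g⁻¹ := by
    rw [Matrix.mul_assoc, Matrix.mul_nonsing_inv g (isUnit_iff_ne_zero.2 hg), Matrix.mul_one]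
  have h1 : ∀ j, |A i j| ≤ ∑ k, |(A * g) i k| * |g⁻¹ k j| := by
    intro j
    have e1 : A i j = ∑ k, (A * g) i k * g⁻¹ k j := by
      conv_lhs => rw [e]
      rw [Matrix.mul_apply]
    rw [e1]
    refine (Finset.abs_sum_le_sum_abs _ _).trans (le_of_eq ?_)
    simp only [abs_mul]
  refine (Finset.sum_le_sum fun j _ => h1 j).trans ?_
  rw [Finset.sum_comm, Finset.mul_sum]
  refine Finset.sum_le_sum fun k _ => ?_
  rw [← Finset.mul_sum, mul_comm]
  refine mul_le_mul_of_nonneg_right ?_ (abs_nonneg _)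
  have h2 : ∑ j, |g⁻¹ k j| ≤ M :=
    Finset.single_le_sum (f := fun k => ∑ j, |g⁻¹ k j|)
      (fun _ _ => Finset.sum_nonneg fun _ _ => abs_nonneg _) (Finset.mem_univ k)
  linarith

theorem tsum_psi_ne_top {g : Matrix ι ι ℝ} (hg : g.det ≠ 0) :
    ∑' γ : GL ι ℤ, psi (cz γ.val * g) ≠ ∞ := by
  obtain ⟨c, hc, h⟩ := wt_coer hg
  have h1 : ∀ γ : GL ι ℤ, psi (cz γ.val * g) ≤
      ∏ p : ι × ι, ENNReal.ofReal (Real.exp (-(c * |((γ.val p.1 p.2 : ℤ) : ℝ)|))) := by
    intro γ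
    rw [← ENNReal.ofReal_prod_of_nonneg fun _ _ => (Real.exp_pos _).le, ← Real.exp_sum]
    refine ENNReal.ofReal_le_ofReal (Real.exp_le_exp.2 ?_)
    rw [Finset.sum_neg_distrib, ← Finset.mul_sum, Fintype.sum_prod_type]
    exact neg_le_neg (h (cz γ.val))
  have h2 : Function.Injective fun (γ : GL ι ℤ) (p : ι × ι) => γ.val p.1 p.2 := by
    intro γ γ' e
    refine Units.ext (Matrix.ext fun i j => ?_)
    exact congrFun e (i, j)
  refine ne_top_of_le_ne_top ?_ ((ENNReal.tsum_le_tsum h1).trans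
    ((ENNReal.tsum_comp_le_tsum_of_injective h2 fun a : ι × ι → ℤ =>
      ∏ p : ι × ι, ENNReal.ofReal (Real.exp (-(c * |((a p : ℤ) : ℝ)|)))).trans
      (wt_tsum_pi fun x : ℤ => ENNReal.ofReal (Real.exp (-(c * |(x : ℝ)|))))))
  exact ENNReal.prod_ne_top fun _ _ => wt_tsum_exp hc

omit [DecidableEq ι] in
theorem wt_psi_ne_zero (g : Matrix ι ι ℝ) : psi g ≠ 0 :=
  (ENNReal.ofReal_pos.2 (Real.exp_pos _)).ne'

theorem wt_le_tsum (g : Matrix ι ι ℝ) : psi g ≤ ∑' γ : GL ι ℤ, psi (cz γ.val * g) := by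
  refine le_of_eq_of_le ?_ (ENNReal.le_tsum (1 : GL ι ℤ))
  rw [Units.val_one, cz_one, Matrix.one_mul]

theorem wt_tsum_shift (f : Matrix ι ι ℝ → ℝ≥0∞) (δ : GL ι ℤ) (g : Matrix ι ι ℝ) :
    ∑' γ : GL ι ℤ, f (cz γ.val * (cz δ.val * g)) = ∑' γ : GL ι ℤ, f (cz γ.val * g) := by
  rw [← (Equiv.mulRight δ).tsum_eq fun γ : GL ι ℤ => f (cz γ.val * g)]
  refine tsum_congr fun γ => ?_
  rw [Equiv.coe_mulRight, Units.val_mul, cz_mul, Matrix.mul_assoc]

theorem tsum_wt {g : Matrix ι ι ℝ} (hg : g.det ≠ 0) :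
    ∑' γ : GL ι ℤ, wt (cz γ.val * g) = 1 := by
  unfold wt
  simp only [wt_tsum_shift, div_eq_mul_inv]
  rw [ENNReal.tsum_mul_right]
  exact ENNReal.mul_inv_cancel
    (fun h => wt_psi_ne_zero g (le_antisymm (h ▸ wt_le_tsum g) zero_le)) (tsum_psi_ne_top hg)

theorem wt_le_one (g : Matrix ι ι ℝ) : wt g ≤ 1 := by
  unfold wt
  exact ENNReal.div_le_of_le_mul (by rw [one_mul]; exact wt_le_tsum g)

theorem wt_ne_zero {g : Matrix ι ι ℝ} (hg : g.det ≠ 0) : wt g ≠ 0 := by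
  unfold wt
  exact ENNReal.div_ne_zero.2 ⟨wt_psi_ne_zero g, tsum_psi_ne_top hg⟩

theorem wt_meas_dens : Measurable fun g : Matrix ι ι ℝ =>
    ENNReal.ofReal ((|g.det| ^ Fintype.card ι)⁻¹) :=
  ENNReal.measurable_ofReal.comp
    ((continuous_abs.measurable.comp measurable_det).pow_const _).inv

theorem wt_meas_ind {F : Matrix ι ι ℝ → ℝ≥0∞} (hF : Measurable F) : Measurable
    ((band ι).indicator fun g => ENNReal.ofReal ((|g.det| ^ Fintype.card ι)⁻¹) * F g) :=
  (wt_meas_dens.mul hF).indicator measurableSet_band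

theorem lintegral_nu (F : Matrix ι ι ℝ → ℝ≥0∞) (hF : Measurable F) :
    ∫⁻ g, F g ∂nu ι = ∫⁻ g, (band ι).indicator
      (fun g => ENNReal.ofReal ((|g.det| ^ Fintype.card ι)⁻¹) * F g) g := by
  unfold nu
  rw [lintegral_withDensity_eq_lintegral_mul _ wt_meas_dens hF,
    lintegral_indicator measurableSet_band]
  rfl

theorem ae_nu_det : ∀ᵐ g ∂nu ι, g.det ≠ 0 := by
  unfold nu
  exact (withDensity_absolutelyContinuous _ _).ae_le (ae_restrict_of_ae ae_det_ne_zero)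

theorem wt_nu_map {T : Matrix ι ι ℝ → Matrix ι ι ℝ} (hT : Measurable T)
    (h1 : Measure.map T volume = volume) (h2 : ∀ g, |(T g).det| = |g.det|)
    (F : Matrix ι ι ℝ → ℝ≥0∞) (hF : Measurable F) :
    ∫⁻ g, F (T g) ∂nu ι = ∫⁻ g, F g ∂nu ι := by
  rw [lintegral_nu (fun g => F (T g)) (hF.comp hT), lintegral_nu F hF]
  conv_rhs => rw [← h1]
  rw [lintegral_map (wt_meas_ind hF) hT]
  refine lintegral_congr fun g => ?_
  have h3 : T g ∈ band ι ↔ g ∈ band ι := by
    simp only [band, Set.mem_ofPred_eq, h2]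
  by_cases hg : g ∈ band ι
  · rw [Set.indicator_of_mem hg, Set.indicator_of_mem (h3.2 hg), h2]
  · rw [Set.indicator_of_notMem hg, Set.indicator_of_notMem fun h => hg (h3.1 h)]

theorem wt_det_ne {h : Matrix ι ι ℝ} (hh : |h.det| = 1) : h.det ≠ 0 := by
  intro e
  rw [e, abs_zero] at hh
  exact zero_ne_one hh

theorem lintegral_nu_left {h : Matrix ι ι ℝ} (hh : |h.det| = 1) (F : Matrix ι ι ℝ → ℝ≥0∞)
    (hF : Measurable F) : ∫⁻ g, F (h * g) ∂nu ι = ∫⁻ g, F g ∂nu ι := by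
  refine wt_nu_map (wt_meas_left h) ?_ (fun g => ?_) F hF
  · rw [map_mul_left h (wt_det_ne hh), hh, one_pow, inv_one, ENNReal.ofReal_one, one_smul]
  · rw [Matrix.det_mul, abs_mul, hh, one_mul]

theorem lintegral_nu_right {h : Matrix ι ι ℝ} (hh : |h.det| = 1) (F : Matrix ι ι ℝ → ℝ≥0∞)
    (hF : Measurable F) : ∫⁻ g, F (g * h) ∂nu ι = ∫⁻ g, F g ∂nu ι := by
  refine wt_nu_map (wt_meas_right h) ?_ (fun g => ?_) F hF
  · rw [map_mul_right h (wt_det_ne hh), hh, one_pow, inv_one, ENNReal.ofReal_one, one_smul]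
  · rw [Matrix.det_mul, abs_mul, hh, mul_one]

theorem nrm_mul_left {h : Matrix ι ι ℝ} (hh : |h.det| = 1) (g : Matrix ι ι ℝ) :
    nrm (h * g) = h * nrm g := by
  unfold nrm
  rw [Matrix.det_mul, abs_mul, hh, one_mul, Matrix.mul_smul]

theorem nrm_mul_right {h : Matrix ι ι ℝ} (hh : |h.det| = 1) (g : Matrix ι ι ℝ) :
    nrm (g * h) = nrm g * h := by
  unfold nrm
  rw [Matrix.det_mul, abs_mul, hh, mul_one, Matrix.smul_mul]

theorem abs_det_nrm {g : Matrix ι ι ℝ} (hg : g.det ≠ 0) : |(nrm g).det| = 1 := by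
  have h0 : 0 < |g.det| := abs_pos.2 hg
  rcases Nat.eq_zero_or_pos (Fintype.card ι) with hn | hn
  · have := Fintype.card_eq_zero_iff.1 hn
    rw [Matrix.det_isEmpty, abs_one]
  · have hn' : (Fintype.card ι : ℝ) ≠ 0 := Nat.cast_ne_zero.2 hn.ne'
    unfold nrm
    rw [Matrix.det_smul, abs_mul, abs_pow, abs_of_pos (Real.rpow_pos_of_pos h0 _),
      ← Real.rpow_mul_natCast h0.le, neg_mul, one_div_mul_cancel hn', Real.rpow_neg_one,
      inv_mul_cancel₀ h0.ne']

theorem nrm_dual {g : Matrix ι ι ℝ} (hg : g.det ≠ 0) : nrm (dual g) = dual (nrm g) := by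
  have h0 : 0 < |g.det| := abs_pos.2 hg
  have hc : |g.det| ^ (-(1 / (Fintype.card ι : ℝ))) ≠ 0 := (Real.rpow_pos_of_pos h0 _).ne'
  unfold nrm
  rw [det_dual, abs_inv, Real.inv_rpow h0.le]
  unfold dual
  rw [← Matrix.transpose_smul]
  refine congrArg Matrix.transpose (Matrix.inv_eq_right_inv ?_).symm
  rw [Matrix.smul_mul, Matrix.mul_smul, smul_smul, mul_inv_cancel₀ hc, one_smul,
    Matrix.mul_nonsing_inv g (isUnit_iff_ne_zero.2 hg)]

theorem lintegral_mu0 (Φ : Matrix ι ι ℝ → ℝ≥0∞) (hΦ : Measurable Φ) :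
    ∫⁻ g, Φ g ∂mu0 ι = ∫⁻ g, wt g * Φ (nrm g) ∂nu ι := by
  unfold mu0
  rw [lintegral_map hΦ measurable_nrm]
  exact lintegral_withDensity_eq_lintegral_mul _ measurable_wt (hΦ.comp measurable_nrm)

/-- unfolding against any weight -/
theorem unfold_weight {w : Matrix ι ι ℝ → ℝ≥0∞} (hw : Measurable w)
    (hw1 : ∀ g, g.det ≠ 0 → ∑' γ : GL ι ℤ, w (cz γ.val * g) = 1) (f : Matrix ι ι ℝ → ℝ≥0∞)
    (hf : Measurable f) :
    ∫⁻ g, w g * ∑' γ : GL ι ℤ, f (cz γ.val * g) ∂nu ι = ∫⁻ g, f g ∂nu ι := by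
  have h1 : ∀ γ : GL ι ℤ, ∫⁻ g, w g * f (cz γ.val * g) ∂nu ι =
      ∫⁻ g, w (cz (γ⁻¹).val * g) * f g ∂nu ι := by
    intro γ
    rw [← lintegral_nu_left (abs_det_cz γ) (fun g => w (cz (γ⁻¹).val * g) * f g)
      ((hw.comp (wt_meas_left _)).mul hf)]
    refine lintegral_congr fun g => ?_
    rw [← Matrix.mul_assoc, ← cz_mul, Units.inv_mul, cz_one, Matrix.one_mul]
  simp only [← ENNReal.tsum_mul_left]
  rw [lintegral_tsum (f := fun (γ : GL ι ℤ) g => w g * f (cz γ.val * g))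
    fun γ => (hw.mul (hf.comp (wt_meas_left _))).aemeasurable]
  simp only [h1]
  rw [← lintegral_tsum (f := fun (γ : GL ι ℤ) g => w (cz (γ⁻¹).val * g) * f g)
    fun γ => ((hw.comp (wt_meas_left _)).mul hf).aemeasurable]
  refine lintegral_congr_ae (ae_nu_det.mono fun g hg => ?_)
  have h2 := (Equiv.inv (GL ι ℤ)).tsum_eq fun γ : GL ι ℤ => w (cz γ.val * g)
  rw [hw1 g hg] at h2
  simp only [ENNReal.tsum_mul_right]
  exact (congrArg (· * f g) h2).trans (one_mul _)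

/-- the measure does not depend on the weight -/
theorem lintegral_mu0_of_weight {w : Matrix ι ι ℝ → ℝ≥0∞} (hw : Measurable w)
    (hw1 : ∀ g, g.det ≠ 0 → ∑' γ : GL ι ℤ, w (cz γ.val * g) = 1) {Φ : Matrix ι ι ℝ → ℝ≥0∞}
    (hΦ : Measurable Φ) (hi : LInv Φ) :
    ∫⁻ g, Φ g ∂mu0 ι = ∫⁻ g, w g * Φ (nrm g) ∂nu ι := by
  rw [lintegral_mu0 Φ hΦ, ← unfold_weight measurable_wt (fun g hg => tsum_wt hg)
    (fun g => w g * Φ (nrm g)) (hw.mul (hΦ.comp measurable_nrm))]
  refine lintegral_congr_ae (ae_nu_det.mono fun g hg => ?_)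
  have h1 : ∀ γ : GL ι ℤ, Φ (nrm (cz γ.val * g)) = Φ (nrm g) := fun γ => by
    rw [nrm_mul_left (abs_det_cz γ), hi]
  simp only [h1, ENNReal.tsum_mul_right, hw1 g hg, one_mul]

theorem lintegral_mu0_right {h : Matrix ι ι ℝ} (hh : |h.det| = 1) {Φ : Matrix ι ι ℝ → ℝ≥0∞}
    (hΦ : Measurable Φ) (hi : LInv Φ) : ∫⁻ g, Φ (g * h) ∂mu0 ι = ∫⁻ g, Φ g ∂mu0 ι := by
  have hu : IsUnit h.det := isUnit_iff_ne_zero.2 (wt_det_ne hh)
  have hw : Measurable fun g : Matrix ι ι ℝ => wt (g * h⁻¹) := measurable_wt.comp (wt_meas_right _)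
  rw [lintegral_mu0_of_weight hw (fun g hg => ?_) hΦ hi,
    lintegral_mu0 (fun g => Φ (g * h)) (hΦ.comp (wt_meas_right h)),
    ← lintegral_nu_right hh (fun g => wt (g * h⁻¹) * Φ (nrm g)) (hw.mul (hΦ.comp measurable_nrm))]
  · refine lintegral_congr fun g => ?_
    rw [Matrix.mul_assoc, Matrix.mul_nonsing_inv h hu, Matrix.mul_one, nrm_mul_right hh]
  · simp only [Matrix.mul_assoc]
    refine tsum_wt ?_
    rw [Matrix.det_mul]
    exact mul_ne_zero hg (Matrix.isUnit_nonsing_inv_det h hu).ne_zero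

theorem ae_mu0_det : ∀ᵐ g ∂mu0 ι, |g.det| = 1 := by
  unfold mu0
  refine (ae_map_iff measurable_nrm.aemeasurable ?_).2 ?_
  · exact measurableSet_eq_fun (continuous_abs.measurable.comp measurable_det) measurable_const
  · exact (withDensity_absolutelyContinuous _ _).ae_le (ae_nu_det.mono fun g hg => abs_det_nrm hg)

theorem ae_mu_det : ∀ᵐ g ∂mu ι, |g.det| = 1 := by
  unfold mu
  exact Measure.ae_smul_measure ae_mu0_det _

theorem wt_Zm : Zm ι = ∫⁻ g, wt g ∂nu ι := by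
  unfold Zm
  rw [← lintegral_one, lintegral_mu0 (fun _ => 1) measurable_const]
  simp only [mul_one]

theorem Zm_ne_zero : Zm ι ≠ 0 := by
  rw [wt_Zm, lintegral_nu _ measurable_wt]
  intro h
  rw [lintegral_eq_zero_iff (wt_meas_ind measurable_wt)] at h
  have ho : IsOpen {g : Matrix ι ι ℝ | 1 / 2 < |g.det| ∧ |g.det| < 2} :=
    (isOpen_lt continuous_const continuous_id.matrix_det.abs).inter
      (isOpen_lt continuous_id.matrix_det.abs continuous_const)
  refine ho.measure_ne_zero volume ⟨1, ?_⟩ (measure_mono_null ?_ (ae_iff.1 h))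
  · simp only [Set.mem_ofPred_eq, Matrix.det_one, abs_one]
    norm_num
  · intro g hg
    have h0 : 0 < |g.det| := lt_trans (by norm_num) hg.1
    have hb : g ∈ band ι := ⟨hg.1.le, hg.2.le⟩
    simp only [Set.mem_ofPred_eq, Set.indicator_of_mem hb, Pi.zero_apply]
    exact mul_ne_zero (ENNReal.ofReal_pos.2 (by positivity)).ne' (wt_ne_zero (abs_pos.1 h0))

/-- in dimension at most one the total mass is finite -/
theorem Zm_ne_top_of_le_one (h : Fintype.card ι ≤ 1) : Zm ι ≠ ∞ := by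
  have hs : Subsingleton ι := Fintype.card_le_one_iff_subsingleton.1 h
  rw [wt_Zm, lintegral_nu _ measurable_wt, lintegral_indicator measurableSet_band]
  have hK : IsCompact (X := Matrix ι ι ℝ)
      (Set.univ.pi fun _ : ι => Set.univ.pi fun _ : ι => Set.Icc (-2 : ℝ) 2) :=
    isCompact_univ_pi fun _ => isCompact_univ_pi fun _ => isCompact_Icc
  have hb : volume (band ι) < ∞ := by
    refine lt_of_le_of_lt (measure_mono ?_) (IsCompact.measure_lt_top (μ := volume) hK)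
    intro g hg i _ j _
    have h1 := hg.2
    rw [Matrix.det_eq_elem_of_subsingleton g i] at h1
    rw [← Subsingleton.elim i j]
    exact abs_le.1 h1
  refine ne_top_of_le_ne_top (b := ∫⁻ _ in band ι, ENNReal.ofReal (2 ^ Fintype.card ι)) ?_
    (setLIntegral_mono' measurableSet_band fun g hg => ?_)
  · rw [setLIntegral_const]
    exact ENNReal.mul_ne_top ENNReal.ofReal_ne_top hb.ne
  · refine (mul_le_of_le_one_right' (wt_le_one g)).trans (ENNReal.ofReal_le_ofReal ?_)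
    have h0 : 0 < |g.det| := lt_of_lt_of_le (by norm_num) hg.1
    rw [← inv_pow]
    refine pow_le_pow_left₀ (by positivity) ?_ _
    exact inv_le_of_inv_le₀ (by norm_num) (by simpa using hg.1)

instance sfinite_nu : SFinite (nu ι) := by
  unfold nu; infer_instance

instance sfinite_mu0 : SFinite (mu0 ι) := by
  unfold mu0; infer_instance

instance sfinite_mu : SFinite (mu ι) := by
  unfold mu; infer_instance

end Pool.Agent.Eps.H
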