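import Pool.Agent.Lib.MP_3bda03_nt.H.Blk
import Pool.Agent.Lib.MP_3bda03_nt.H.Wt
import Pool.Agent.Lib.MP_3bda03_nt.H.Orb
import Pool.Agent.Lib.MP_3bda03_nt.H.Equi

/-!
Unfolding over primitive frames.
-/

set_option autoImplicit false

noncomputable section

open MeasureTheory Matrix
open scoped ENNReal

namespace Pool.Agent.Eps.H

variable {α β ι : Type} [Fintype α] [DecidableEq α] [Fintype β] [DecidableEq β] [Fintype ι]
  [DecidableEq ι] (e : α ⊕ β ≃ ι)

/-- the upper rows -/
def frTop (g : Matrix ι ι ℝ) : Matrix α ι ℝ := g.submatrix (fun a => e (Sum.inl a)) id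

/-- the block triangular factor -/
def frT (g : Matrix ι ι ℝ) : Matrix ι ι ℝ := g * (HX e (frTop e g))⁻¹

/-- the gluing coordinate -/
def frt (g : Matrix ι ι ℝ) : Matrix β α ℝ :=
  (frT e g).submatrix (fun b => e (Sum.inr b)) (fun a => e (Sum.inl a))

/-- the quotient coordinate -/
def frq (g : Matrix ι ι ℝ) : Matrix β β ℝ :=
  (frT e g).submatrix (fun b => e (Sum.inr b)) (fun b => e (Sum.inr b))

/-- a weight for the stabiliser of the standard frame -/
def frw (g : Matrix ι ι ℝ) : ℝ≥0∞ :=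
  (cube β α).indicator (1 : Matrix β α ℝ → ℝ≥0∞) (frt e g) * wt (frq e g)

theorem fr_mc {A B C : Type} [MeasurableSpace A] [MeasurableSpace B] [MeasurableSpace C]
    {g : B → C} {f : A → B} (hg : Measurable g) (hf : Measurable f) :
    Measurable fun x => g (f x) := hg.comp hf

theorem fr_ml {Ω : Type} [MeasurableSpace Ω] {f : Ω → Matrix α ι ℝ} {g : Ω → Matrix β α ℝ}
    {h : Ω → Matrix β β ℝ} (hf : Measurable f) (hg : Measurable g) (hh : Measurable h) :
    Measurable fun x => lift e (f x) (g x) (h x) :=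
  fr_mc (f := fun x => (f x, g x, h x)) (measurable_lift e) (hf.prodMk (hg.prodMk hh))

omit [Fintype α] [DecidableEq α] [Fintype β] [DecidableEq β] [Fintype ι] [DecidableEq ι] in
theorem fr_measurable_top : Measurable (frTop e) :=
  measurable_mx.mpr fun _ _ => measurable_entry _ _

theorem fr_measurable_T : Measurable (frT e) :=
  Measurable.mxmul measurable_id (measurable_mxinv.comp ((measurable_HX e).comp
    (fr_measurable_top e)))

theorem fr_measurable_w : Measurable (frw e) := by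
  have h1 : Measurable (frt e) :=
    measurable_mx.mpr fun b a => measurable_mx.mp (fr_measurable_T e) (e (Sum.inr b)) (e (Sum.inl a))
  have h2 : Measurable (frq e) :=
    measurable_mx.mpr fun b a => measurable_mx.mp (fr_measurable_T e) (e (Sum.inr b)) (e (Sum.inr a))
  exact ((measurable_one.indicator measurableSet_cube).comp h1).mul (measurable_wt.comp h2)

theorem fr_top_lift (X : Matrix α ι ℝ) (t : Matrix β α ℝ) (q : Matrix β β ℝ) :
    frTop e (lift e X t q) = X := by
  ext a j
  exact congrFun (lift_inl e X t q a) j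

theorem fr_unit [Nonempty β] {X : Matrix α ι ℝ} (hX : (blk e X).det ≠ 0) :
    IsUnit (HX e X).det := by
  rw [isUnit_iff_ne_zero, ← abs_ne_zero, abs_det_HX e hX]
  exact one_ne_zero

theorem fr_T_lift [Nonempty β] {X : Matrix α ι ℝ} (hX : (blk e X).det ≠ 0) (t : Matrix β α ℝ)
    (q : Matrix β β ℝ) :
    frT e (lift e X t q) = Matrix.reindex e e (Matrix.fromBlocks 1 0 t q) := by
  rw [frT, fr_top_lift, lift, Matrix.mul_nonsing_inv_cancel_right _ _ (fr_unit e hX)]

theorem fr_w_lift [Nonempty β] {X : Matrix α ι ℝ} (hX : (blk e X).det ≠ 0) (t : Matrix β α ℝ)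
    (q : Matrix β β ℝ) :
    frw e (lift e X t q) = (cube β α).indicator (1 : Matrix β α ℝ → ℝ≥0∞) t * wt q := by
  have h1 : frt e (lift e X t q) = t := by
    rw [frt, fr_T_lift e hX]
    ext b a
    simp
  have h2 : frq e (lift e X t q) = q := by
    rw [frq, fr_T_lift e hX]
    ext b a
    simp
  rw [frw, h1, h2]

theorem fr_eq_lift [Nonempty β] {g : Matrix ι ι ℝ} (hX : (blk e (frTop e g)).det ≠ 0) :
    g = lift e (frTop e g) (frt e g) (frq e g) := by
  have hu := fr_unit e hX
  have h1 : frT e g = Matrix.reindex e e (Matrix.fromBlocks 1 0 (frt e g) (frq e g)) := by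
    have h2 : ∀ a j, frT e g (e (Sum.inl a)) j = (1 : Matrix ι ι ℝ) (e (Sum.inl a)) j := by
      intro a j
      rw [← Matrix.mul_nonsing_inv _ hu, frT, Matrix.mul_apply, Matrix.mul_apply, HX_inl]
      rfl
    ext i j
    obtain ⟨i, rfl⟩ := e.surjective i
    obtain ⟨j, rfl⟩ := e.surjective j
    rcases i with a | b <;> rcases j with a' | b'
    · rw [h2]
      simp [Matrix.one_apply]
    · rw [h2]
      simp
    · simp [frt]
    · simp [frq]
  rw [lift, ← h1, frT, Matrix.nonsing_inv_mul_cancel_right _ _ hu]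

theorem fr_stab_lift (b : Matrix β α ℤ) (δ : GL β ℤ) (X : Matrix α ι ℝ) (t : Matrix β α ℝ)
    (q : Matrix β β ℝ) :
    cz (stab e b δ).val * lift e X t q = lift e X (cz b + cz δ.val * t) (cz δ.val * q) := by
  have h1 : cz (stab e b δ).val =
      Matrix.reindex e e (Matrix.fromBlocks 1 0 (cz b) (cz δ.val)) := by
    ext i j
    obtain ⟨i, rfl⟩ := e.surjective i
    obtain ⟨j, rfl⟩ := e.surjective j
    rcases i with a | b <;> rcases j with a' | b' <;> simp [cz, stab, Matrix.one_apply]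
  rw [lift, lift, ← Matrix.mul_assoc, h1]
  congr 1
  simp only [Matrix.reindex_apply, Matrix.submatrix_mul_equiv, Matrix.fromBlocks_multiply]
  simp

theorem fr_tsum_w [Nonempty β] {g : Matrix ι ι ℝ} (hX : (blk e (frTop e g)).det ≠ 0)
    (hg : g.det ≠ 0) :
    ∑' b : Matrix β α ℤ, ∑' δ : GL β ℤ, frw e (cz (stab e b δ).val * g) = 1 := by
  have hq : (frq e g).det ≠ 0 := by
    rw [← abs_ne_zero, ← abs_det_lift e hX (frt e g), ← fr_eq_lift e hX, abs_ne_zero]
    exact hg
  have h1 : ∀ (b : Matrix β α ℤ) (δ : GL β ℤ), frw e (cz (stab e b δ).val * g) =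
      (cube β α).indicator (1 : Matrix β α ℝ → ℝ≥0∞) (cz b + cz δ.val * frt e g) *
        wt (cz δ.val * frq e g) := by
    intro b δ
    conv_lhs => rw [fr_eq_lift e hX, fr_stab_lift, fr_w_lift e hX]
  simp_rw [h1]
  rw [ENNReal.tsum_comm]
  simp_rw [ENNReal.tsum_mul_right, tsum_cube_indicator, one_mul]
  exact tsum_wt hq

theorem fr_ae [Nonempty β] :
    ∀ᵐ g ∂nu ι, ∀ γ : GL ι ℤ, (blk e (frTop e (cz γ.val * g))).det ≠ 0 := by
  set N : Set (Matrix ι ι ℝ) := {g | (blk e (frTop e g)).det = 0} with hN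
  have hb : Measurable fun g : Matrix ι ι ℝ => (blk e (frTop e g)).det :=
    measurable_det.comp (measurable_mx.mpr fun _ _ => measurable_entry _ _)
  have hNm : MeasurableSet N := hb (measurableSet_singleton 0)
  have hI : Measurable (N.indicator (1 : Matrix ι ι ℝ → ℝ≥0∞)) := measurable_one.indicator hNm
  have h0 : volume N = 0 := by
    rw [← lintegral_indicator_one hNm, lintegral_lift e _ hI]
    refine lintegral_eq_zero_of_ae_eq_zero ?_
    filter_upwards [ae_blk e] with X hX
    have : ∀ t q, N.indicator (1 : Matrix ι ι ℝ → ℝ≥0∞) (lift e X t q) = 0 := fun t q =>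
      Set.indicator_of_notMem (by simpa [hN, fr_top_lift] using hX) _
    simp [this]
  have h1 : nu ι N = 0 :=
    (withDensity_absolutelyContinuous _ _) (Measure.restrict_le_self N |>.trans_eq h0 |>
      nonpos_iff_eq_zero.mp)
  rw [ae_all_iff]
  intro γ
  have h2 := lintegral_nu_left (abs_det_cz γ) _ hI
  rw [lintegral_indicator_one hNm, h1, lintegral_eq_zero_iff
    (fr_mc hI (Measurable.mxmul measurable_const measurable_id'))] at h2
  filter_upwards [h2] with g hg h
  have : cz γ.val * g ∈ N := h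
  simp [Set.indicator_of_mem this] at hg

omit [DecidableEq α] [DecidableEq β] [DecidableEq ι] in
include e in
theorem fr_card : Fintype.card ι = Fintype.card α + Fintype.card β := by
  rw [← Fintype.card_sum, Fintype.card_congr e]

theorem fr_scale [Nonempty β] (Ψ : Matrix ι ι ℝ → ℝ≥0∞) (hΨ : Measurable Ψ) (t : Matrix β α ℝ)
    {q : Matrix β β ℝ} (hq : q.det ≠ 0) :
    ENNReal.ofReal ((|q.det| ^ Fintype.card ι)⁻¹) * ∫⁻ X : Matrix α ι ℝ, Ψ (nrm (lift e X t q)) =
      ENNReal.ofReal ((|q.det| ^ Fintype.card β)⁻¹) *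
        ∫⁻ X : Matrix α ι ℝ, Ψ (lift e X t (nrm q)) := by
  have hd : 0 < |q.det| := abs_pos.mpr hq
  set c : ℝ := |q.det| ^ (1 / (Fintype.card ι : ℝ)) with hc
  have hc0 : 0 < c := Real.rpow_pos_of_pos hd _
  have hn : Fintype.card ι ≠ 0 := by
    rw [fr_card e]
    have := Fintype.card_pos (α := β)
    omega
  have hcn : c ^ Fintype.card ι = |q.det| := by
    rw [hc, one_div, Real.rpow_inv_natCast_pow hd.le hn]
  have hF : Measurable fun X : Matrix α ι ℝ => Ψ (nrm (lift e X t q)) :=
    fr_mc hΨ (fr_mc measurable_nrm (fr_ml e measurable_id' measurable_const measurable_const))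
  have hs : Measurable fun X : Matrix α ι ℝ => c • X :=
    measurable_mx.mpr fun a i => (measurable_entry a i).const_mul c
  have h1 : ∫⁻ X : Matrix α ι ℝ, Ψ (lift e X t (nrm q)) =
      ENNReal.ofReal ((|q.det| ^ Fintype.card α)⁻¹) *
        ∫⁻ X : Matrix α ι ℝ, Ψ (nrm (lift e X t q)) := by
    have h2 := lintegral_map hF hs (μ := volume)
    rw [map_smul_mx hc0.ne', lintegral_smul_measure, smul_eq_mul, abs_of_pos hc0, mul_comm
      (Fintype.card α), pow_mul, hcn] at h2
    rw [h2]
    refine lintegral_congr_ae ?_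
    filter_upwards [ae_blk e] with X hX
    rw [nrm_lift e hX t hq]
  rw [h1, ← mul_assoc, ← ENNReal.ofReal_mul (by positivity), fr_card e, pow_add, mul_inv,
    mul_comm ((|q.det| ^ Fintype.card α)⁻¹)]

theorem fr_coord [Nonempty β] (Ψ : Matrix ι ι ℝ → ℝ≥0∞) (hΨ : Measurable Ψ) :
    ∫⁻ g, frw e g * Ψ (nrm g) ∂nu ι =
      ∫⁻ X : Matrix α ι ℝ, ∫⁻ g, (∫⁻ t in cube β α, Ψ (lift e X t g)) ∂mu0 β := by
  set K : ℕ → Matrix β β ℝ → ℝ≥0∞ := fun k q =>
    (band β).indicator (fun q => ENNReal.ofReal ((|q.det| ^ k)⁻¹)) q * wt q with hK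
  set I : Matrix β α ℝ → ℝ≥0∞ := (cube β α).indicator 1 with hI
  have hKm : ∀ k, Measurable (K k) := fun k =>
    ((((measurable_det.abs.pow_const k).inv).ennreal_ofReal).indicator measurableSet_band).mul
      measurable_wt
  have hIm : Measurable I := measurable_one.indicator measurableSet_cube
  have hf : Measurable fun g => frw e g * Ψ (nrm g) :=
    (fr_measurable_w e).mul (fr_mc hΨ measurable_nrm)
  have hL : Measurable fun p : Matrix α ι ℝ × Matrix β α ℝ × Matrix β β ℝ =>
      Ψ (nrm (lift e p.1 p.2.1 p.2.2)) := fr_mc hΨ (fr_mc measurable_nrm (measurable_lift e))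
  have hR : Measurable fun p : Matrix α ι ℝ × Matrix β α ℝ × Matrix β β ℝ =>
      Ψ (lift e p.1 p.2.1 (nrm p.2.2)) := fr_mc hΨ (fr_ml e measurable_fst measurable_snd.fst
        (fr_mc measurable_nrm measurable_snd.snd))
  have hW : ∀ k, Measurable fun p : Matrix β α ℝ × Matrix β β ℝ => I p.1 * K k p.2 := fun k =>
    (fr_mc hIm measurable_fst).mul (fr_mc (hKm k) measurable_snd)
  have swap : ∀ (k : ℕ) (F : Matrix α ι ℝ × Matrix β α ℝ × Matrix β β ℝ → ℝ≥0∞), Measurable F →
      ∫⁻ X : Matrix α ι ℝ, ∫⁻ t : Matrix β α ℝ, ∫⁻ q : Matrix β β ℝ, I t * K k q * F (X, t, q) =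
        ∫⁻ p : Matrix β α ℝ × Matrix β β ℝ, I p.1 * K k p.2 * (∫⁻ X : Matrix α ι ℝ, F (X, p))
          ∂(volume.prod volume) := by
    intro k F hF
    have hG : Measurable fun p : Matrix α ι ℝ × Matrix β α ℝ × Matrix β β ℝ =>
        I p.2.1 * K k p.2.2 * F p := (fr_mc (hW k) measurable_snd).mul hF
    have a1 : ∀ X : Matrix α ι ℝ, ∫⁻ t : Matrix β α ℝ, ∫⁻ q : Matrix β β ℝ,
        I t * K k q * F (X, t, q) = ∫⁻ p : Matrix β α ℝ × Matrix β β ℝ,
          I p.1 * K k p.2 * F (X, p) ∂(volume.prod volume) := fun X =>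
      (lintegral_prod (fun p : Matrix β α ℝ × Matrix β β ℝ => I p.1 * K k p.2 * F (X, p))
        (fr_mc (f := fun p => (X, p)) hG measurable_prodMk_left).aemeasurable).symm
    simp_rw [a1]
    rw [lintegral_lintegral_swap (f := fun (X : Matrix α ι ℝ) (p : Matrix β α ℝ × Matrix β β ℝ) =>
      I p.1 * K k p.2 * F (X, p)) hG.aemeasurable]
    refine lintegral_congr fun p => ?_
    exact lintegral_const_mul _ (fr_mc (f := fun X => (X, p)) hF measurable_prodMk_right)
  have left : ∫⁻ g, frw e g * Ψ (nrm g) ∂nu ι =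
      ∫⁻ X : Matrix α ι ℝ, ∫⁻ t : Matrix β α ℝ, ∫⁻ q : Matrix β β ℝ,
        I t * K (Fintype.card ι) q * Ψ (nrm (lift e X t q)) := by
    have hb : Measurable fun g : Matrix ι ι ℝ =>
        ENNReal.ofReal ((|g.det| ^ Fintype.card ι)⁻¹) * (frw e g * Ψ (nrm g)) :=
      (((measurable_det.abs.pow_const _).inv).ennreal_ofReal).mul hf
    rw [lintegral_nu _ hf, lintegral_lift e _ (hb.indicator measurableSet_band)]
    refine lintegral_congr_ae ?_
    filter_upwards [ae_blk e] with X hX
    refine lintegral_congr fun t => lintegral_congr fun q => ?_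
    have hd := abs_det_lift e hX t q
    by_cases hq : q ∈ band β
    · have : lift e X t q ∈ band ι := by
        simpa only [band, Set.mem_ofPred_eq, hd] using hq
      simp only [hK, Set.indicator_of_mem this, Set.indicator_of_mem hq, fr_w_lift e hX, hd]
      ring
    · have : lift e X t q ∉ band ι := by
        simpa only [band, Set.mem_ofPred_eq, hd] using hq
      simp only [hK, Set.indicator_of_notMem this, Set.indicator_of_notMem hq, zero_mul, mul_zero]
  have right : ∫⁻ X : Matrix α ι ℝ, ∫⁻ g, (∫⁻ t in cube β α, Ψ (lift e X t g)) ∂mu0 β =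
      ∫⁻ X : Matrix α ι ℝ, ∫⁻ t : Matrix β α ℝ, ∫⁻ q : Matrix β β ℝ,
        I t * K (Fintype.card β) q * Ψ (lift e X t (nrm q)) := by
    refine lintegral_congr fun X => ?_
    have m1 : Measurable fun p : Matrix β β ℝ × Matrix β α ℝ => Ψ (lift e X p.2 p.1) :=
      fr_mc hΨ (fr_ml e measurable_const measurable_snd measurable_fst)
    have m2 : Measurable fun g : Matrix β β ℝ => ∫⁻ t in cube β α, Ψ (lift e X t g) :=
      m1.lintegral_prod_right'
    have m4 : Measurable fun g : Matrix β β ℝ =>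
        wt g * ∫⁻ t in cube β α, Ψ (lift e X t (nrm g)) :=
      measurable_wt.mul (m2.comp measurable_nrm)
    rw [lintegral_mu0 _ m2, lintegral_nu _ m4,
      lintegral_lintegral_swap (f := fun (t : Matrix β α ℝ) (q : Matrix β β ℝ) =>
        I t * K (Fintype.card β) q * Ψ (lift e X t (nrm q)))
        ((hW _).mul (fr_mc (f := fun p => (X, p)) hR measurable_prodMk_left)).aemeasurable]
    refine lintegral_congr fun q => ?_
    have a2 : ∫⁻ t : Matrix β α ℝ, I t * K (Fintype.card β) q * Ψ (lift e X t (nrm q)) =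
        K (Fintype.card β) q * ∫⁻ t in cube β α, Ψ (lift e X t (nrm q)) := by
      have m3 : Measurable fun t : Matrix β α ℝ => Ψ (lift e X t (nrm q)) :=
        fr_mc hΨ (fr_ml e measurable_const measurable_id' measurable_const)
      rw [← lintegral_indicator measurableSet_cube, ← lintegral_const_mul _
        (m3.indicator measurableSet_cube)]
      refine lintegral_congr fun t => ?_
      by_cases ht : t ∈ cube β α <;> simp [hI, ht]
    rw [a2]
    by_cases hq : q ∈ band β <;> simp [hK, hq, mul_assoc]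
  rw [left, right, swap _ _ hL, swap _ _ hR]
  refine lintegral_congr fun p => ?_
  by_cases hq : p.2 ∈ band β
  · have hq0 : p.2.det ≠ 0 := by
      intro h
      have := hq.1
      rw [h, abs_zero] at this
      norm_num at this
    have := fr_scale e Ψ hΨ p.1 hq0
    simp only [hK, Set.indicator_of_mem hq]
    calc _ = I p.1 * wt p.2 * (ENNReal.ofReal ((|p.2.det| ^ Fintype.card ι)⁻¹) *
          ∫⁻ X : Matrix α ι ℝ, Ψ (nrm (lift e X p.1 p.2))) := by ring
      _ = _ := by rw [this]; ring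
  · simp only [hK, Set.indicator_of_notMem hq, zero_mul, mul_zero]

theorem frame0 [Nonempty β] (Φ : Matrix α ι ℤ → Matrix ι ι ℝ → ℝ≥0∞) (hm : ∀ P, Measurable (Φ P))
    (hΦ : ∀ (γ : GL ι ℤ) P g, Φ (P * γ.val) g = Φ P (cz γ.val * g)) :
    ∫⁻ g, ∑' P : {P : Matrix α ι ℤ // Prim P}, Φ P.1 g ∂mu0 ι =
      ∫⁻ X : Matrix α ι ℝ, ∫⁻ g, (∫⁻ t in cube β α, Φ (std e) (lift e X t g)) ∂mu0 β := by
  choose sec hsec using fun P : {P : Matrix α ι ℤ // Prim P} => exists_gl e P.2
  have hf : Measurable fun g => frw e g * Φ (std e) (nrm g) :=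
    (fr_measurable_w e).mul (fr_mc (hm _) measurable_nrm)
  rw [lintegral_mu0 _ (Measurable.tsum fun P => hm _), ← fr_coord e _ (hm _),
    ← unfold_weight measurable_wt (fun g hg => tsum_wt hg) _ hf]
  refine lintegral_congr_ae ?_
  filter_upwards [fr_ae e, ae_nu_det] with g hg hd
  congr 1
  rw [tsum_gl e sec hsec]
  refine tsum_congr fun P => ?_
  have h1 : ∀ (b : Matrix β α ℤ) (δ : GL β ℤ),
      Φ (std e) (nrm (cz (stab e b δ * sec P).val * g)) = Φ P.1 (nrm g) := by
    intro b δ
    rw [nrm_mul_left (abs_det_cz _), ← hΦ, Units.val_mul, ← Matrix.mul_assoc, std_mul_stab, hsec]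
  have h2 : (cz (sec P).val * g).det ≠ 0 := by
    rw [Matrix.det_mul]
    refine mul_ne_zero ?_ hd
    rw [← abs_ne_zero, abs_det_cz]
    exact one_ne_zero
  simp_rw [h1, ENNReal.tsum_mul_right, Units.val_mul, cz_mul, Matrix.mul_assoc]
  rw [fr_tsum_w e (hg _) h2, one_mul]

end Pool.Agent.Eps.H
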