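import Pool.Agent.Lib.MP_3bda03_nt.H.Lin
import Pool.Agent.Lib.MP_3bda03_nt.H.Alg

/-!
Poisson summation in several variables and the inversion of theta series.
-/

set_option autoImplicit false

noncomputable section

open MeasureTheory Matrix
open scoped ENNReal

namespace Pool.Agent.Eps.H

variable {α ι : Type} [Fintype α] [Fintype ι]

private theorem pois_one {c : ℝ} (hc : 0 < c) :
    Summable fun n : ℤ => Real.exp (-c * (n : ℝ) ^ 2) := by
  have h0 : Summable fun n : ℕ => Real.exp (-c * (n : ℝ) ^ 2) := by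
    refine Summable.of_nonneg_of_le (fun _ => (Real.exp_pos _).le) (fun n => ?_)
      (Real.summable_exp_nat_mul_iff.2 (show -c < 0 by linarith))
    apply Real.exp_le_exp.2
    have h1 : (n : ℝ) ≤ (n : ℝ) ^ 2 := by exact_mod_cast Nat.le_self_pow two_ne_zero n
    nlinarith
  refine summable_int_iff_summable_nat_and_neg.2 ⟨?_, ?_⟩
  · simpa using h0
  · simpa using h0

theorem summable_gauss_int {c : ℝ} (hc : 0 < c) :
    Summable fun m : α → ℤ => Real.exp (-c * nsq (cv m)) := by
  classical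
  have h1 := pois_one hc
  refine summable_of_sum_le (c := ∏ _i : α, ∑' n : ℤ, Real.exp (-c * (n : ℝ) ^ 2))
    (fun _ => (Real.exp_pos _).le) fun s => ?_
  have e : ∀ m : α → ℤ, Real.exp (-c * nsq (cv m)) = ∏ i, Real.exp (-c * (m i : ℝ) ^ 2) := by
    intro m
    rw [← Real.exp_sum, nsq, Finset.mul_sum]
    rfl
  simp_rw [e]
  set T : α → Finset ℤ := fun i => s.image fun m => m i with hT
  calc ∑ m ∈ s, ∏ i, Real.exp (-c * (m i : ℝ) ^ 2)
      ≤ ∑ m ∈ Fintype.piFinset T, ∏ i, Real.exp (-c * ((m i : ℤ) : ℝ) ^ 2) := by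
        refine Finset.sum_le_sum_of_subset_of_nonneg (fun m hm => ?_) fun _ _ _ =>
          Finset.prod_nonneg fun _ _ => (Real.exp_pos _).le
        exact Fintype.mem_piFinset.2 fun i => Finset.mem_image_of_mem _ hm
    _ = ∏ i, ∑ n ∈ T i, Real.exp (-c * ((n : ℤ) : ℝ) ^ 2) :=
        (Finset.prod_univ_sum T (fun _ (n : ℤ) => Real.exp (-c * (n : ℝ) ^ 2))).symm
    _ ≤ _ := Finset.prod_le_prod (fun _ _ => Finset.sum_nonneg fun _ _ => (Real.exp_pos _).le)
        fun _ _ => h1.sum_le_tsum _ fun _ _ => (Real.exp_pos _).le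

theorem integrable_gauss {c : ℝ} (hc : 0 < c) :
    Integrable fun x : α → ℝ => Real.exp (-c * nsq x) := by
  have e : ∀ x : α → ℝ, Real.exp (-c * nsq x) = ∏ i, Real.exp (-c * x i ^ 2) := by
    intro x
    rw [← Real.exp_sum, nsq, Finset.mul_sum]
  simp_rw [e]
  exact Integrable.fintype_prod (f := fun (_ : α) (v : ℝ) => Real.exp (-c * v ^ 2))
    fun _ => integrable_exp_neg_mul_sq hc

theorem integral_gauss {t : ℝ} (ht : 0 < t) :
    ∫ x : α → ℝ, Real.exp (-Real.pi * t * nsq x) = t ^ (-((Fintype.card α : ℝ) / 2)) := by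
  have e : ∀ x : α → ℝ, Real.exp (-Real.pi * t * nsq x) =
      ∏ i, Real.exp (-(Real.pi * t) * x i ^ 2) := by
    intro x
    rw [← Real.exp_sum, nsq, Finset.mul_sum]
    simp only [neg_mul]
  simp_rw [e]
  rw [integral_fintype_prod_volume_eq_prod
    (f := fun (_ : α) (v : ℝ) => Real.exp (-(Real.pi * t) * v ^ 2))]
  simp only [integral_gaussian, Finset.prod_const, Finset.card_univ]
  have h1 : Real.pi / (Real.pi * t) = t⁻¹ := by
    have := Real.pi_pos
    field_simp
  rw [h1, Real.sqrt_eq_rpow, Real.inv_rpow ht.le, ← Real.rpow_neg ht.le, ← Real.rpow_natCast,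
    ← Real.rpow_mul ht.le]
  congr 1
  ring

theorem ft_gauss {t : ℝ} (ht : 0 < t) (w : α → ℝ) :
    ft (fun x : α → ℝ => ((Real.exp (-Real.pi * t * nsq x) : ℝ) : ℂ)) w =
      ((t ^ (-((Fintype.card α : ℝ) / 2)) * Real.exp (-Real.pi * t⁻¹ * nsq w) : ℝ) : ℂ) := by
  have hp := Real.pi_pos
  have hb : 0 < (((Real.pi * t : ℝ) : ℂ)).re := by
    rw [Complex.ofReal_re]; positivity
  have h := GaussianFourier.integral_cexp_neg_mul_sum_add (ι := α) hb
    (fun i => -(2 * Real.pi * w i : ℝ) * Complex.I)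
  have e : ∀ y : α → ℝ, Complex.exp (-(2 * Real.pi * (w ⬝ᵥ y) : ℝ) * Complex.I) *
      ((Real.exp (-Real.pi * t * nsq y) : ℝ) : ℂ) =
      Complex.exp (-((Real.pi * t : ℝ) : ℂ) * ∑ i, (y i : ℂ) ^ 2 +
        ∑ i, (-(2 * Real.pi * w i : ℝ) * Complex.I) * y i) := by
    intro y
    rw [Complex.ofReal_exp, ← Complex.exp_add, add_comm]
    congr 2
    · simp only [nsq]; push_cast; ring
    · simp only [dotProduct]
      push_cast
      rw [Finset.mul_sum, ← Finset.sum_neg_distrib, Finset.sum_mul]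
      exact Finset.sum_congr rfl fun i _ => by ring
  rw [ft]
  simp_rw [e]
  rw [h, Complex.ofReal_mul (t ^ _), Complex.ofReal_exp]
  congr 1
  · have h1 : (Real.pi : ℂ) / ((Real.pi * t : ℝ) : ℂ) = ((t⁻¹ : ℝ) : ℂ) := by
      have h2 : (Real.pi : ℂ) ≠ 0 := by exact_mod_cast hp.ne'
      have h3 : (t : ℂ) ≠ 0 := by exact_mod_cast ht.ne'
      push_cast
      field_simp
    rw [h1, Real.rpow_neg ht.le, ← Real.inv_rpow ht.le,
      Complex.ofReal_cpow (inv_nonneg.2 ht.le)]
    push_cast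
    rfl
  · congr 1
    have h2 : (Real.pi : ℂ) ≠ 0 := by exact_mod_cast hp.ne'
    have h3 : (t : ℂ) ≠ 0 := by exact_mod_cast ht.ne'
    have h4 : ∀ i, (-(2 * Real.pi * w i : ℝ) * Complex.I : ℂ) ^ 2 =
        -(4 * (Real.pi : ℂ) ^ 2) * (w i : ℂ) ^ 2 := by
      intro i
      rw [mul_pow, Complex.I_sq]
      push_cast
      ring
    simp_rw [h4]
    rw [← Finset.mul_sum]
    simp only [nsq]
    push_cast
    field_simp

private def pbox (v : α → ℤ) : Set (α → ℝ) := {x | ∀ i, x i ∈ Set.Ioc (v i : ℝ) (v i + 1)}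

private theorem pois_mbox (v : α → ℤ) : MeasurableSet (pbox v) := by
  have : pbox v = Set.univ.pi fun i => Set.Ioc (v i : ℝ) (v i + 1) := by ext x; simp [pbox]
  rw [this]
  exact MeasurableSet.univ_pi fun i => measurableSet_Ioc

omit [Fintype α] in
private theorem pois_mem_box {v : α → ℤ} {x : α → ℝ} :
    x ∈ pbox v ↔ v = fun i => ⌈x i⌉ - 1 := by
  simp only [pbox, Set.mem_ofPred_eq, funext_iff, eq_sub_iff_add_eq]
  refine forall_congr' fun i => ?_
  rw [eq_comm, Int.ceil_eq_iff]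
  simp

private theorem pois_hasSum_box {F : Type} [NormedAddCommGroup F] [NormedSpace ℝ F]
    {h : (α → ℝ) → F} (hi : Integrable h) :
    HasSum (fun v : α → ℤ => ∫ x in pbox 0, h (x + cv v)) (∫ x, h x) := by
  have := hasSum_integral_iUnion (μ := volume) (f := h) pois_mbox
    (fun v v' hv => Set.disjoint_left.2 fun x h1 h2 =>
      hv ((pois_mem_box.1 h1).trans (pois_mem_box.1 h2).symm))
    hi.integrableOn
  rw [show ⋃ v : α → ℤ, pbox v = Set.univ from
    Set.eq_univ_of_forall fun x => Set.mem_iUnion.2 ⟨_, pois_mem_box.2 rfl⟩,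
    Measure.restrict_univ] at this
  convert this using 2 with v
  rw [← (measurePreserving_add_right volume (cv v)).setIntegral_preimage_emb
    (measurableEmbedding_addRight _) h (pbox v)]
  congr 2
  ext x
  simp only [pbox, cv, Set.mem_ofPred_eq, Set.mem_preimage, Pi.add_apply, Pi.zero_apply,
    Set.mem_Ioc]
  exact forall_congr' fun i => by constructor <;> rintro ⟨a, b⟩ <;> constructor <;>
    push_cast at * <;> linarith

private theorem pois_nsq_add (x y : α → ℝ) : nsq y / 2 - nsq x ≤ nsq (x + y) := by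
  simp only [nsq, Finset.sum_div, ← Finset.sum_sub_distrib]
  refine Finset.sum_le_sum fun i _ => ?_
  rw [Pi.add_apply]
  nlinarith [sq_nonneg (2 * x i + y i)]

theorem poisson (H : (α → ℝ) → ℂ) (hc : Continuous H) {C c : ℝ} (hc0 : 0 < c)
    (hb : ∀ x, ‖H x‖ ≤ C * Real.exp (-c * nsq x))
    (hs : Summable fun κ : α → ℤ => ‖ft H (cv κ)‖) (a : α → ℝ) :
    HasSum (fun κ : α → ℤ =>
      ft H (cv κ) * Complex.exp ((2 * Real.pi * (cv κ ⬝ᵥ a) : ℝ) * Complex.I))
      (∑' m : α → ℤ, H (a + cv m)) := by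
  have hC : 0 ≤ C := by
    have := (norm_nonneg _).trans (hb 0)
    exact nonneg_of_mul_nonneg_left this (Real.exp_pos _)
  set F : (α → ℝ) → ℂ := fun x => ∑' v : α → ℤ, H (x + cv v) with hF
  have cF : Continuous F := by
    refine continuous_iff_continuousAt.2 fun x0 => ?_
    have hU : {x : α → ℝ | nsq x < nsq x0 + 1} ∈ nhds x0 :=
      (isOpen_lt continuous_nsq continuous_const).mem_nhds (by simp)
    refine ContinuousOn.continuousAt ?_ hU
    refine continuousOn_tsum (u := fun v : α → ℤ =>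
      C * Real.exp (c * (nsq x0 + 1)) * Real.exp (-(c / 2) * nsq (cv v)))
      (fun v => (hc.comp (continuous_id.add continuous_const)).continuousOn)
      ((summable_gauss_int (half_pos hc0)).mul_left _) fun v x hx => (hb _).trans ?_
    rw [mul_assoc, ← Real.exp_add]
    refine mul_le_mul_of_nonneg_left (Real.exp_le_exp.2 ?_) hC
    have h1 := pois_nsq_add x (cv v)
    have h2 : nsq x < nsq x0 + 1 := hx
    nlinarith
  have pF : ∀ x (u : α → ℤ), F (x + cv u) = F x := fun x u => by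
    simp only [hF]
    rw [← (Equiv.addLeft u).tsum_eq fun v => H (x + cv v)]
    refine tsum_congr fun v => ?_
    congr 1
    ext i; simp [cv, add_assoc]
  set f0 : UnitAddTorus α → ℂ := fun y => F fun i => Quotient.out (y i) with hf0
  have e0 : ∀ x : α → ℝ, f0 (fun i => x i) = F x := fun x => by
    choose b hb' using fun i =>
      QuotientAddGroup.mk_out_eq_add (AddSubgroup.zmultiples (1 : ℝ)) (x i)
    choose n hn using fun i => AddSubgroup.mem_zmultiples_iff.1 (b i).2
    rw [← pF x n]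
    simp only [hf0]
    congr 1
    ext i
    exact (hb' i).trans (by rw [← hn]; simp [cv])
  have cf : Continuous f0 := by
    rw [← (IsOpenQuotientMap.piMap fun _ : α => QuotientAddGroup.isOpenQuotientMap_mk
      (N := AddSubgroup.zmultiples (1 : ℝ))).continuous_comp_iff]
    exact cF.congr fun x => (e0 x).symm
  have ch : ∀ (w : α → ℤ) (x : α → ℝ),
      UnitAddTorus.mFourier w (fun i => (x i : UnitAddCircle)) =
        Complex.exp ((2 * Real.pi * (cv w ⬝ᵥ x) : ℝ) * Complex.I) := fun w x => by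
    simp only [UnitAddTorus.mFourier, ContinuousMap.coe_mk, fourier_coe_apply, ← Complex.exp_sum,
      dotProduct, cv]
    congr 1
    push_cast
    rw [Finset.mul_sum, Finset.sum_mul]
    exact Finset.sum_congr rfl fun i _ => by ring
  have ch' : ∀ (w : α → ℤ) (x : α → ℝ),
      UnitAddTorus.mFourier (-w) (fun i => (x i : UnitAddCircle)) =
        Complex.exp (-(2 * Real.pi * (cv w ⬝ᵥ x) : ℝ) * Complex.I) := fun w x => by
    rw [ch, cv_neg, neg_dotProduct]
    congr 2
    push_cast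
    ring
  have hiH : Integrable H :=
    ((integrable_gauss hc0).const_mul C).mono' hc.aestronglyMeasurable (ae_of_all _ hb)
  have co : ∀ w, UnitAddTorus.mFourierCoeff (⟨f0, cf⟩ : C(_, ℂ)) w = ft H (cv w) := fun w => by
    have hi : Integrable fun x : α → ℝ =>
        Complex.exp (-(2 * Real.pi * (cv w ⬝ᵥ x) : ℝ) * Complex.I) * H x := by
      refine hiH.bdd_mul (c := 1) (Continuous.aestronglyMeasurable (by fun_prop))
        (ae_of_all _ fun x => ?_)
      rw [← Complex.ofReal_neg, Complex.norm_exp_ofReal_mul_I]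
    have h1 := hasSum_integral_of_summable_integral_norm (μ := volume.restrict (pbox 0))
      (F := fun (v : α → ℤ) x => Complex.exp (-(2 * Real.pi * (cv w ⬝ᵥ (x + cv v)) : ℝ) *
        Complex.I) * H (x + cv v))
      (fun v => (hi.comp_add_right _).integrableOn) (pois_hasSum_box hi.norm).summable
    rw [ft, (pois_hasSum_box hi).unique h1, UnitAddTorus.mFourierCoeff_eq_integral _ _ 0]
    simp only [ContinuousMap.coe_mk, e0, ch', smul_eq_mul, hF, ← tsum_mul_left]
    congr 1
    · simp [pbox]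
    · ext x
      refine tsum_congr fun v => ?_
      have : cv w ⬝ᵥ cv v = ((w ⬝ᵥ v : ℤ) : ℝ) := by simp [cv, dotProduct]
      rw [dotProduct_add, this]
      congr 1
      refine Complex.exp_eq_exp_iff_exists_int.2 ⟨w ⬝ᵥ v, ?_⟩
      push_cast
      ring
  have := UnitAddTorus.hasSum_mFourier_series_apply_of_summable (f := ⟨f0, cf⟩)
    (by rw [funext co]; exact hs.of_norm) fun i => (a i : UnitAddCircle)
  simp only [co] at this
  simpa only [ContinuousMap.coe_mk, e0, hF, ch, smul_eq_mul] using this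

variable [DecidableEq ι]

theorem summable_theta {g : Matrix ι ι ℝ} (hg : g.det ≠ 0) {t : ℝ} (ht : 0 < t) :
    Summable fun k : ι → ℤ => Real.exp (-Real.pi * t * nsq (lv k g)) := by
  obtain ⟨c, hc, h⟩ := exists_coer hg
  have hp := mul_pos Real.pi_pos ht
  refine Summable.of_nonneg_of_le (fun k => (Real.exp_pos _).le) (fun k => ?_)
    (summable_gauss_int (mul_pos hp hc))
  apply Real.exp_le_exp.mpr
  have := mul_le_mul_of_nonneg_left (h (cv k)) hp.le
  rw [lv]
  linarith

theorem hasSum_theta {g : Matrix ι ι ℝ} (hg : g.det ≠ 0) {t : ℝ} (ht : 0 < t) :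
    HasSum (fun k : {k : ι → ℤ // k ≠ 0} => Real.exp (-Real.pi * t * nsq (lv k.1 g)))
      (theta g t - 1) := by
  have h1 := (summable_theta hg ht).hasSum
  have h0 : nsq (lv (0 : ι → ℤ) g) = 0 := by rw [lv_zero]; exact nsq_eq_zero.2 rfl
  have h2 := (Finset.hasSum_compl_iff
    (f := fun k : ι → ℤ => Real.exp (-Real.pi * t * nsq (lv k g)))
    (a := theta g t - 1) ({0} : Finset (ι → ℤ))).mpr (by
      rw [Finset.sum_singleton, h0, mul_zero, Real.exp_zero, sub_add_cancel]
      exact h1)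
  exact ((Equiv.subtypeEquivRight (p := fun k : ι → ℤ => k ≠ 0)
    (q := fun x => x ∉ ({0} : Finset (ι → ℤ))) (fun k => by simp)).hasSum_iff.mpr h2)

private theorem pois_ft_vecMul {g : Matrix ι ι ℝ} (hg : g.det ≠ 0) {Φ : (ι → ℝ) → ℂ}
    (hc : Continuous Φ) (l : ι → ℤ) :
    ft (fun x => Φ (x ᵥ* g)) (cv l) = ((|g.det|⁻¹ : ℝ) : ℂ) * ft Φ (lv l (dual g)) := by
  have h2 := integral_map (μ := (volume : Measure (ι → ℝ))) (φ := fun x : ι → ℝ => x ᵥ* g)
    (f := fun y => Complex.exp (-(2 * Real.pi * (lv l (dual g) ⬝ᵥ y) : ℝ) * Complex.I) * Φ y)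
    (Continuous.aemeasurable (by fun_prop)) (Continuous.aestronglyMeasurable (by fun_prop))
  rw [map_vecMul g hg, integral_smul_measure,
    ENNReal.toReal_ofReal (inv_nonneg.2 (abs_nonneg _))] at h2
  rw [ft, ft, ← Complex.real_smul, h2]
  congr 1
  ext x
  have : lv l (dual g) ⬝ᵥ (x ᵥ* g) = cv l ⬝ᵥ x := by
    rw [lv, dual, Matrix.vecMul_transpose, dotProduct_comm _ (x ᵥ* _), Matrix.dotProduct_mulVec,
      Matrix.vecMul_vecMul, Matrix.mul_nonsing_inv _ (Ne.isUnit hg), Matrix.vecMul_one,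
      dotProduct_comm]
  rw [this]

/-- the shifted theta series -/
theorem hasSum_theta_shift {g : Matrix ι ι ℝ} (hg : g.det ≠ 0) {t : ℝ} (ht : 0 < t) (a : ι → ℝ) :
    HasSum (fun l : ι → ℤ => |g.det|⁻¹ * t ^ (-((Fintype.card ι : ℝ) / 2)) *
      (Real.exp (-Real.pi * t⁻¹ * nsq (lv l (dual g))) * Real.cos (2 * Real.pi * (cv l ⬝ᵥ a))))
      (∑' k : ι → ℤ, Real.exp (-Real.pi * t * nsq ((a + cv k) ᵥ* g))) := by
  obtain ⟨c, hc, h⟩ := exists_coer hg
  have hp := mul_pos Real.pi_pos ht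
  have hn : Continuous (nsq : (ι → ℝ) → ℝ) := continuous_nsq
  have hΦ : Continuous fun x : ι → ℝ => ((Real.exp (-Real.pi * t * nsq x) : ℝ) : ℂ) := by
    fun_prop
  have hd : (dual g).det ≠ 0 := by rw [det_dual]; exact inv_ne_zero hg
  have e := fun l => (pois_ft_vecMul hg hΦ l).trans
    (congrArg (((|g.det|⁻¹ : ℝ) : ℂ) * ·) (ft_gauss ht (lv l (dual g))))
  have hP := poisson (fun x : ι → ℝ => ((Real.exp (-Real.pi * t * nsq (x ᵥ* g)) : ℝ) : ℂ))
    (hΦ.comp (f := fun x : ι → ℝ => x ᵥ* g) (by fun_prop)) (C := 1) (mul_pos hp hc) (fun x => by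
      rw [Complex.norm_real, Real.norm_of_nonneg (Real.exp_pos _).le, one_mul]
      apply Real.exp_le_exp.mpr
      have := mul_le_mul_of_nonneg_left (h x) hp.le
      linarith) (by
      simp only [e, ← Complex.ofReal_mul, Complex.norm_real]
      exact (((summable_theta hd (inv_pos.2 ht)).mul_left _).mul_left _).norm) a
  simp only [e] at hP
  rw [← Complex.ofReal_tsum] at hP
  have hR := Complex.hasSum_re hP
  rw [Complex.ofReal_re] at hR
  convert hR using 2 with l
  rw [← Complex.ofReal_mul, Complex.re_ofReal_mul, Complex.exp_ofReal_mul_I_re]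
  ring

theorem theta_dual {g : Matrix ι ι ℝ} (hg : g.det ≠ 0) {t : ℝ} (ht : 0 < t) :
    theta g t = |g.det|⁻¹ * t ^ (-((Fintype.card ι : ℝ) / 2)) * theta (dual g) t⁻¹ := by
  have h := hasSum_theta_shift hg ht 0
  simp only [zero_add, dotProduct_zero, mul_zero, Real.cos_zero, mul_one] at h
  rw [theta, theta, ← tsum_mul_left, h.tsum_eq]
  rfl

end Pool.Agent.Eps.H
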