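import Pool.Agent.Lib.MP_3bda03_nt.H.Blk
import Pool.Agent.Lib.MP_3bda03_nt.H.Poisson

/-!
Poisson summation over the layers, for radial functions with jumps.
-/

set_option autoImplicit false

noncomputable section

open MeasureTheory Matrix
open scoped ENNReal

namespace Pool.Agent.Eps.H

/-- a radial profile: measurable, continuous off a countable set, with exponential decay -/
structure Prof (φ : ℝ → ℝ) : Prop where
  meas : Measurable φ
  cont : {ρ | ¬ ContinuousAt φ ρ}.Countable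
  decay : ∃ C c : ℝ, 0 < c ∧ ∀ ρ, 0 ≤ ρ → |φ ρ| ≤ C * Real.exp (-c * ρ)

theorem layer_decay {φ : ℝ → ℝ} (h : Prof φ) :
    ∃ C c : ℝ, 0 ≤ C ∧ 0 < c ∧ ∀ ρ, 0 ≤ ρ → |φ ρ| ≤ C * Real.exp (-c * ρ) := by
  obtain ⟨C, c, hc, hb⟩ := h.decay
  exact ⟨C, c, by simpa using (abs_nonneg _).trans (hb 0 le_rfl), hc, hb⟩

theorem layer_frontier {s : Set ℝ} (hs : s.OrdConnected) : (frontier s).Countable := by
  have h1 : {x | IsLUB s x}.Subsingleton := fun _ a _ b => IsLUB.unique a b
  have h2 : {x | IsGLB s x}.Subsingleton := fun _ a _ b => IsGLB.unique a b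
  refine (h1.countable.union h2.countable).mono fun x hx => ?_
  by_cases k1 : x ∈ upperBounds s
  · exact Or.inl (isLUB_of_mem_closure k1 hx.1)
  by_cases k2 : x ∈ lowerBounds s
  · exact Or.inr (isGLB_of_mem_closure k2 hx.1)
  simp only [mem_upperBounds, mem_lowerBounds, not_forall, not_le] at k1 k2
  obtain ⟨b, hb, k1⟩ := k1
  obtain ⟨a, ha, k2⟩ := k2
  exact absurd (mem_interior_iff_mem_nhds.2
    (Filter.mem_of_superset (Icc_mem_nhds k2 k1) (hs.out ha hb))) hx.2

theorem layer_int {ι : Type} [Fintype ι] {F : (ι → ℝ) → ℝ} (hi : Integrable F) (w : ι → ℝ) :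
    Integrable fun y => Complex.exp (-(2 * Real.pi * (w ⬝ᵥ y) : ℝ) * Complex.I) * (F y : ℂ) := by
  refine hi.ofReal.bdd_mul (c := 1) (Continuous.aestronglyMeasurable ?_) (ae_of_all _ fun y => ?_)
  · have : Continuous fun y : ι → ℝ => w ⬝ᵥ y := continuous_const.dotProduct continuous_id
    fun_prop
  · rw [← Complex.ofReal_neg, Complex.norm_exp_ofReal_mul_I]

theorem layer_par {ι : Type} [Fintype ι] (x y : ι → ℝ) :
    nsq (x + y) + nsq (x - y) = 2 * nsq x + 2 * nsq y := by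
  simp only [nsq, Finset.mul_sum, ← Finset.sum_add_distrib, Pi.add_apply, Pi.sub_apply]
  exact Finset.sum_congr rfl fun i _ => by ring

theorem Prof.mul {φ ψ : ℝ → ℝ} (h : Prof φ) (h' : Prof ψ) : Prof fun ρ => φ ρ * ψ ρ := by
  obtain ⟨C, c, hc, hb⟩ := h.decay
  obtain ⟨C', c', hc', hb'⟩ := h'.decay
  refine ⟨h.meas.mul h'.meas, (h.cont.union h'.cont).mono fun ρ hρ => ?_,
    C * C', c + c', by positivity, fun ρ hρ => ?_⟩
  · by_contra k
    simp only [Set.mem_union, Set.mem_ofPred_eq, not_or, not_not] at k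
    exact hρ (k.1.mul k.2)
  · rw [abs_mul, neg_add, add_mul, Real.exp_add, mul_mul_mul_comm]
    exact mul_le_mul (hb ρ hρ) (hb' ρ hρ) (abs_nonneg _) ((abs_nonneg _).trans (hb ρ hρ))

theorem Prof.add {φ ψ : ℝ → ℝ} (h : Prof φ) (h' : Prof ψ) : Prof fun ρ => φ ρ + ψ ρ := by
  obtain ⟨C, c, hC, hc, hb⟩ := layer_decay h
  obtain ⟨C', c', hC', hc', hb'⟩ := layer_decay h'
  refine ⟨h.meas.add h'.meas, (h.cont.union h'.cont).mono fun ρ hρ => ?_,
    C + C', min c c', lt_min hc hc', fun ρ hρ => ?_⟩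
  · by_contra k
    simp only [Set.mem_union, Set.mem_ofPred_eq, not_or, not_not] at k
    exact hρ (k.1.add k.2)
  · rw [add_mul]
    refine (abs_add_le _ _).trans (add_le_add ((hb ρ hρ).trans ?_) ((hb' ρ hρ).trans ?_))
    · gcongr
      exact min_le_left _ _
    · gcongr
      exact min_le_right _ _

theorem Prof.const_mul {φ : ℝ → ℝ} (h : Prof φ) (a : ℝ) : Prof fun ρ => a * φ ρ := by
  obtain ⟨C, c, hc, hb⟩ := h.decay
  refine ⟨h.meas.const_mul a, h.cont.mono fun ρ hρ k => hρ (continuousAt_const.mul k),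
    |a| * C, c, hc, fun ρ hρ => ?_⟩
  rw [abs_mul, mul_assoc]
  exact mul_le_mul_of_nonneg_left (hb ρ hρ) (abs_nonneg _)

theorem Prof.abs {φ : ℝ → ℝ} (h : Prof φ) : Prof fun ρ => |φ ρ| := by
  obtain ⟨C, c, hc, hb⟩ := h.decay
  refine ⟨continuous_abs.measurable.comp h.meas, h.cont.mono fun ρ hρ k => hρ (ContinuousAt.abs k), C, c, hc,
    fun ρ hρ => (abs_abs _).trans_le (hb ρ hρ)⟩

theorem Prof.scale {φ : ℝ → ℝ} (h : Prof φ) {a : ℝ} (ha : 0 < a) : Prof fun ρ => φ (a * ρ) := by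
  obtain ⟨C, c, hc, hb⟩ := h.decay
  refine ⟨h.meas.comp (measurable_const_mul a),
    (h.cont.preimage (mul_right_injective₀ ha.ne')).mono fun ρ hρ k =>
      hρ (ContinuousAt.comp (f := fun ρ => a * ρ) k (continuous_const_mul a).continuousAt),
    C, c * a, by positivity, fun ρ hρ => ?_⟩
  rw [← neg_mul, mul_assoc]
  exact hb _ (by positivity)

theorem Prof.indicator {φ : ℝ → ℝ} (h : Prof φ) {s : Set ℝ} (hs : s.OrdConnected) :
    Prof (s.indicator φ) := by
  obtain ⟨C, c, hc, hb⟩ := h.decay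
  refine ⟨h.meas.indicator hs.measurableSet, (h.cont.union (layer_frontier hs)).mono fun ρ hρ => ?_,
    C, c, hc, fun ρ hρ => (norm_indicator_le_norm_self φ ρ).trans (hb ρ hρ)⟩
  by_contra k
  simp only [Set.mem_union, Set.mem_ofPred_eq, not_or, not_not] at k
  have k2 : ρ ∈ (frontier s)ᶜ := k.2
  rw [compl_frontier_eq_union_interior] at k2
  rcases k2 with k2 | k2
  · refine hρ (k.1.congr ?_)
    filter_upwards [mem_interior_iff_mem_nhds.1 k2] with x hx
    exact (Set.indicator_of_mem hx φ).symm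
  · refine hρ ((continuousAt_const (y := (0 : ℝ))).congr ?_)
    filter_upwards [mem_interior_iff_mem_nhds.1 k2] with x hx
    exact (Set.indicator_of_notMem hx φ).symm

theorem Prof.integrable {ι : Type} [Fintype ι] {φ : ℝ → ℝ} (h : Prof φ) :
    Integrable fun x : ι → ℝ => φ (nsq x) := by
  obtain ⟨C, c, hc, hb⟩ := h.decay
  exact ((integrable_gauss hc).const_mul C).mono'
    (h.meas.comp measurable_nsq).aestronglyMeasurable (ae_of_all _ fun x => hb _ (nsq_nonneg x))

theorem ft_eq_ftr {ι : Type} [Fintype ι] {F : (ι → ℝ) → ℝ} (hi : Integrable F)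
    (hev : ∀ x, F (-x) = F x) (w : ι → ℝ) : ft (fun x => (F x : ℂ)) w = (ftr F w : ℂ) := by
  have h1 := layer_int hi w
  have h2 := layer_int hi (-w)
  have h3 : ft (fun x => (F x : ℂ)) (-w) = ft (fun x => (F x : ℂ)) w := by
    rw [ft, ← integral_neg_eq_self]
    simp only [hev, neg_dotProduct_neg, ft]
  refine mul_left_cancel₀ (two_ne_zero (α := ℂ)) ?_
  have h4 : _ = ft (fun x => (F x : ℂ)) w + ft (fun x => (F x : ℂ)) (-w) := integral_add h1 h2
  rw [h3] at h4
  rw [two_mul, ← h4, ftr, ← integral_complex_ofReal, ← integral_const_mul]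
  refine integral_congr_ae (ae_of_all _ fun y => ?_)
  simp only [neg_dotProduct, mul_neg, Complex.ofReal_neg, neg_neg]
  rw [Complex.ofReal_mul (F y), Complex.ofReal_cos, mul_left_comm, Complex.two_cos]
  ring

theorem ftr_zero {ι : Type} [Fintype ι] (F : (ι → ℝ) → ℝ) : ftr F 0 = ∫ y, F y := by
  simp [ftr]

theorem ftr_neg {ι : Type} [Fintype ι] (F : (ι → ℝ) → ℝ) (w : ι → ℝ) : ftr F (-w) = ftr F w := by
  simp [ftr]

theorem ftr_comp_smul {ι : Type} [Fintype ι] (F : (ι → ℝ) → ℝ) {c : ℝ} (hc : 0 < c) (w : ι → ℝ) :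
    ftr (fun x => F (c • x)) w = (c ^ Fintype.card ι)⁻¹ * ftr F (c⁻¹ • w) := by
  have h := Measure.integral_comp_smul volume
    (fun y => F y * Real.cos (2 * Real.pi * ((c⁻¹ • w) ⬝ᵥ y))) c
  rw [Module.finrank_fintype_fun_eq_card, abs_of_pos (by positivity), smul_eq_mul] at h
  rw [ftr, ftr, ← h]
  simp only [smul_dotProduct, dotProduct_smul, smul_smul, mul_inv_cancel₀ hc.ne', one_smul]

variable {α β ι : Type} [Fintype α] [DecidableEq α] [Fintype β] [DecidableEq β] [Fintype ι]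
  [DecidableEq ι] (e : α ⊕ β ≃ ι)

theorem layer_meas (X : Matrix α ι ℝ) {φ : ℝ → ℝ} (h : Prof φ) (ξ : α → ℝ) :
    AEStronglyMeasurable (fun z => φ (nsq (layer e X ξ z))) volume :=
  (h.meas.comp (continuous_nsq.comp ((continuous_layer e X).comp
    (Continuous.prodMk_right ξ))).measurable).aestronglyMeasurable

theorem layer_bound [Nonempty β] {X : Matrix α ι ℝ} (hX : (blk e X).det ≠ 0) {φ : ℝ → ℝ}
    (h : Prof φ) : ∃ C c : ℝ, 0 ≤ C ∧ 0 < c ∧ ∀ ξ z,
      |φ (nsq (layer e X ξ z))| ≤ C * Real.exp (-c * nsq ξ) * Real.exp (-c * nsq z) := by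
  obtain ⟨C, c, hC, hc, hb⟩ := layer_decay h
  obtain ⟨c', hc', hb'⟩ := layer_coer e hX
  refine ⟨C, c * c', hC, by positivity, fun ξ z => (hb _ (nsq_nonneg _)).trans ?_⟩
  rw [mul_assoc, ← Real.exp_add]
  refine mul_le_mul_of_nonneg_left (Real.exp_le_exp.2 ?_) hC
  linarith [mul_le_mul_of_nonneg_left (hb' ξ z) hc.le]

theorem layer_null [Nonempty β] {X : Matrix α ι ℝ} (hX : (blk e X).det ≠ 0) (ξ : α → ℝ) (ρ : ℝ) :
    ∀ᵐ z : β → ℝ, ρ ≠ nsq (layer e X ξ z) := by
  obtain ⟨c, hc, hb⟩ := layer_coer e hX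
  have hs : Convex ℝ {z : β → ℝ | nsq (layer e X ξ z) ≤ ρ} := fun z hz z' hz' a b ha hb hab => by
    have e1 : layer e X ξ (a • z + b • z') = a • layer e X ξ z + b • layer e X ξ z' := by
      rw [← layer_smul, ← layer_smul, ← layer_add, ← add_smul, hab, one_smul]
    have e2 : nsq (a • layer e X ξ z + b • layer e X ξ z') ≤
        a * nsq (layer e X ξ z) + b * nsq (layer e X ξ z') := by
      simp only [nsq, Finset.mul_sum, ← Finset.sum_add_distrib, Pi.add_apply, Pi.smul_apply,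
        smul_eq_mul]
      refine Finset.sum_le_sum fun i _ => ?_
      obtain rfl : b = 1 - a := by linarith
      nlinarith [mul_nonneg (mul_nonneg ha hb) (sq_nonneg (layer e X ξ z i - layer e X ξ z' i))]
    rw [Set.mem_ofPred_eq, e1]
    refine e2.trans ((add_le_add (mul_le_mul_of_nonneg_left hz ha)
      (mul_le_mul_of_nonneg_left hz' hb)).trans_eq ?_)
    rw [← add_mul, hab, one_mul]
  refine measure_mono_null (fun z hz => ?_) (hs.addHaar_frontier volume)
  have hz' : ρ = nsq (layer e X ξ z) := not_not.1 hz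
  refine ⟨subset_closure hz'.ge, fun hi => ?_⟩
  have n0 := mem_interior_iff_mem_nhds.1 hi
  have t1 : Filter.Tendsto (fun v : β → ℝ => z + v) (nhds 0) (nhds z) :=
    (continuous_const_add z).tendsto' _ _ (add_zero z)
  have t2 : Filter.Tendsto (fun v : β → ℝ => z + -v) (nhds 0) (nhds z) :=
    (continuous_const.add continuous_neg).tendsto' _ _ (by simp)
  obtain ⟨v, ⟨v1, v2⟩, v3⟩ := ((((t1.eventually n0).and (t2.eventually n0)).filter_mono
    (nhdsWithin_le_nhds (s := {0}ᶜ))).and self_mem_nhdsWithin).exists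
  have e1 := layer_add e X ξ 0 z v
  have e2 := layer_add e X ξ (-0) z (-v)
  rw [layer_neg, neg_zero, ← sub_eq_add_neg (layer e X ξ z)] at e2
  rw [add_zero] at e1 e2
  have e3 := layer_par (layer e X ξ z) (layer e X 0 v)
  have e4 := hb 0 v
  have e5 : 0 < nsq v := (nsq_nonneg v).lt_of_ne' fun k => v3 (nsq_eq_zero.1 k)
  rw [← e1, ← e2] at e3
  rw [nsq_eq_zero.2 rfl, zero_add] at e4
  have v1 : nsq (layer e X ξ (z + v)) ≤ ρ := v1
  have v2 : nsq (layer e X ξ (z + -v)) ≤ ρ := v2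
  linarith [mul_pos hc e5]

theorem integrable_layer [Nonempty β] {X : Matrix α ι ℝ} (hX : (blk e X).det ≠ 0) {φ : ℝ → ℝ}
    (h : Prof φ) (ξ : α → ℝ) : Integrable fun z => φ (nsq (layer e X ξ z)) := by
  obtain ⟨C, c, -, hc, hb⟩ := layer_bound e hX h
  exact ((integrable_gauss hc).const_mul _).mono' (layer_meas e X h ξ) (ae_of_all _ (hb ξ))

theorem continuous_lam [Nonempty β] {X : Matrix α ι ℝ} (hX : (blk e X).det ≠ 0) {φ : ℝ → ℝ}
    (h : Prof φ) : Continuous (lam e X fun y => φ (nsq y)) := by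
  obtain ⟨C, c, hC, hc, hb⟩ := layer_bound e hX h
  refine continuous_iff_continuousAt.2 fun ξ => continuousAt_of_dominated
    (Filter.Eventually.of_forall (layer_meas e X h))
    (Filter.Eventually.of_forall fun ξ' => ae_of_all _ fun z => (hb ξ' z).trans ?_)
    ((integrable_gauss hc).const_mul C) ?_
  · refine mul_le_mul_of_nonneg_right (mul_le_of_le_one_right hC ?_) (Real.exp_pos _).le
    exact Real.exp_le_one_iff.2 (by linarith [mul_nonneg hc.le (nsq_nonneg ξ')])
  · filter_upwards [(ae_ball_iff h.cont).2 fun ρ _ => layer_null e hX ξ ρ] with z hz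
    exact ContinuousAt.comp (f := fun ξ' => nsq (layer e X ξ' z)) (by_contra fun k => hz _ k rfl)
      (continuous_nsq.comp ((continuous_layer e X).comp (Continuous.prodMk_left z))).continuousAt

theorem lam_decay [Nonempty β] {X : Matrix α ι ℝ} (hX : (blk e X).det ≠ 0) {φ : ℝ → ℝ}
    (h : Prof φ) : ∃ C c : ℝ, 0 < c ∧ ∀ ξ,
      (∫ z, |φ (nsq (layer e X ξ z))|) ≤ C * Real.exp (-c * nsq ξ) := by
  obtain ⟨C, c, -, hc, hb⟩ := layer_bound e hX h
  refine ⟨C * ∫ z : β → ℝ, Real.exp (-c * nsq z), c, hc, fun ξ => ?_⟩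
  rw [mul_right_comm, ← integral_const_mul]
  exact integral_mono (integrable_layer e hX h ξ).abs ((integrable_gauss hc).const_mul _) (hb ξ)

theorem summable_lam [Nonempty β] {X : Matrix α ι ℝ} (hX : (blk e X).det ≠ 0) {φ : ℝ → ℝ}
    (h : Prof φ) (a : α → ℝ) :
    Summable fun m : α → ℤ => lam e X (fun y => φ (nsq y)) (a + cv m) := by
  obtain ⟨C, c, hc, hb⟩ := lam_decay e hX h
  have hC : 0 ≤ C := nonneg_of_mul_nonneg_left
    ((integral_nonneg fun z => abs_nonneg _).trans (hb 0)) (Real.exp_pos _)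
  refine Summable.of_norm_bounded ((summable_gauss_int (half_pos hc)).mul_left
    (C * Real.exp (c * nsq a))) fun m => (abs_integral_le_integral_abs.trans (hb _)).trans ?_
  have h1 := layer_par (a + cv m) a
  have h2 := nsq_nonneg (a + cv m + a)
  rw [add_sub_cancel_left] at h1
  rw [mul_assoc, ← Real.exp_add]
  exact mul_le_mul_of_nonneg_left (Real.exp_le_exp.2 (by nlinarith)) hC

theorem ft_lam [Nonempty β] {X : Matrix α ι ℝ} (hX : (blk e X).det ≠ 0) {φ : ℝ → ℝ} (h : Prof φ)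
    (κ : α → ℤ) :
    ft (fun ξ => ((lam e X (fun y => φ (nsq y)) ξ : ℝ) : ℂ)) (cv κ) =
      (ftr (fun y => φ (nsq y)) (lv κ X) : ℂ) := by
  have h1 := layer_int h.integrable (lv κ X)
  have h2 := mp_layer e hX
  rw [← ft_eq_ftr h.integrable (fun x => by rw [nsq_neg]), ft, ft, ← h2.map_eq,
    integral_map h2.measurable.aemeasurable (h2.map_eq.symm ▸ h1.aestronglyMeasurable)]
  refine Eq.trans (integral_congr_ae (ae_of_all _ fun ξ => ?_))
    (integral_prod _ (h2.integrable_comp_of_integrable h1)).symm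
  simp only [Function.comp_apply, lv_dot_layer e hX, integral_const_mul, lam]
  rw [integral_complex_ofReal]

theorem layer_poisson [Nonempty β] {X : Matrix α ι ℝ} (hX : (blk e X).det ≠ 0) {φ : ℝ → ℝ}
    (h : Prof φ) (hs : Summable fun κ : α → ℤ => |ftr (fun y => φ (nsq y)) (lv κ X)|)
    (a : α → ℝ) :
    HasSum (fun κ : α → ℤ =>
      ftr (fun y => φ (nsq y)) (lv κ X) * Real.cos (2 * Real.pi * (cv κ ⬝ᵥ a)))
      (∑' m : α → ℤ, lam e X (fun y => φ (nsq y)) (a + cv m)) := by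
  obtain ⟨C, c, hc, hb⟩ := lam_decay e hX h
  have h1 := poisson (fun ξ => ((lam e X (fun y => φ (nsq y)) ξ : ℝ) : ℂ))
    (Complex.continuous_ofReal.comp (continuous_lam e hX h)) hc
    (fun x => (Complex.norm_real _).trans_le (abs_integral_le_integral_abs.trans (hb x)))
    (by simpa only [ft_lam e hX h, Complex.norm_real, Real.norm_eq_abs] using hs) a
  have h2 := Complex.hasSum_re h1
  simpa only [ft_lam e hX h, Complex.re_ofReal_mul, Complex.exp_ofReal_mul_I_re,
    ← Complex.ofReal_tsum, Complex.ofReal_re] using h2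

/-- rescaling inside a layer -/
theorem lam_comp_smul (X : Matrix α ι ℝ) (F : (ι → ℝ) → ℝ) {c : ℝ} (hc : 0 < c) (ξ : α → ℝ) :
    lam e X (fun y => F (c • y)) ξ = (c ^ Fintype.card β)⁻¹ * lam e X F (c • ξ) := by
  have h := Measure.integral_comp_smul volume (fun z => F (layer e X (c • ξ) z)) c
  rw [Module.finrank_fintype_fun_eq_card, abs_of_pos (by positivity), smul_eq_mul] at h
  rw [lam, lam, ← h]
  simp only [layer_smul]

/-- translation inside a layer -/
theorem lam_shift (X : Matrix α ι ℝ) (F : (ι → ℝ) → ℝ) (ξ ξ' : α → ℝ) (z : β → ℝ) :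
    ∫ z', F (layer e X ξ z + layer e X ξ' z') = lam e X F (ξ + ξ') := by
  simp only [← layer_add]
  exact integral_add_left_eq_self (fun z' => F (layer e X (ξ + ξ') z')) z

end Pool.Agent.Eps.H
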