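import Pool.Agent.Lib.MP_3bda03_nt.H.Defs

/-!
Measurability and linear changes of variables on spaces of matrices.
-/

set_option autoImplicit false

noncomputable section

open MeasureTheory Matrix
open scoped ENNReal

namespace Pool.Agent.Eps.H

section
variable {α β ι κ : Type}

theorem measurable_mx {Ω : Type} [MeasurableSpace Ω] {f : Ω → Matrix α ι ℝ} :
    Measurable f ↔ ∀ a i, Measurable fun x => f x a i :=
  ⟨fun h a i => measurable_pi_iff.1 (measurable_pi_iff.1 h a) i,
    fun h => measurable_pi_iff.2 fun a => measurable_pi_iff.2 (h a)⟩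

theorem measurable_entry (a : α) (i : ι) : Measurable fun X : Matrix α ι ℝ => X a i :=
  measurable_mx.1 measurable_id a i

theorem measurable_row (a : α) : Measurable fun X : Matrix α ι ℝ => (X a : ι → ℝ) :=
  measurable_pi_iff.2 (measurable_entry a)

theorem Measurable.mxmul {Ω : Type} [MeasurableSpace Ω] [Fintype ι] {f : Ω → Matrix α ι ℝ}
    {g : Ω → Matrix ι κ ℝ} (hf : Measurable f) (hg : Measurable g) :
    Measurable fun x => f x * g x :=
  measurable_mx.2 fun a k => Finset.measurable_sum _ fun i _ =>
    (measurable_mx.1 hf a i).mul (measurable_mx.1 hg i k)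

theorem Measurable.vmul {Ω : Type} [MeasurableSpace Ω] [Fintype ι] {f : Ω → ι → ℝ}
    {g : Ω → Matrix ι κ ℝ} (hf : Measurable f) (hg : Measurable g) :
    Measurable fun x => f x ᵥ* g x :=
  measurable_pi_iff.2 fun k => Finset.measurable_sum _ fun i _ =>
    (measurable_pi_iff.1 hf i).mul (measurable_mx.1 hg i k)

theorem Measurable.mulv {Ω : Type} [MeasurableSpace Ω] [Fintype ι] {f : Ω → Matrix α ι ℝ}
    {g : Ω → ι → ℝ} (hf : Measurable f) (hg : Measurable g) :
    Measurable fun x => f x *ᵥ g x :=
  measurable_pi_iff.2 fun a => Finset.measurable_sum _ fun i _ =>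
    (measurable_mx.1 hf a i).mul (measurable_pi_iff.1 hg i)

theorem measurable_lv [Fintype α] (k : α → ℤ) : Measurable fun X : Matrix α ι ℝ => lv k X :=
  Measurable.vmul measurable_const measurable_id

theorem measurable_nsq [Fintype ι] : Measurable (nsq : (ι → ℝ) → ℝ) :=
  Finset.measurable_sum _ fun i _ => (measurable_pi_apply i).pow_const 2

theorem continuous_nsq [Fintype ι] : Continuous (nsq : (ι → ℝ) → ℝ) :=
  continuous_finsetSum _ fun i _ => (continuous_apply i).pow 2

theorem measurable_det [Fintype ι] [DecidableEq ι] :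
    Measurable fun g : Matrix ι ι ℝ => g.det := by
  simp only [Matrix.det_apply']
  exact Finset.measurable_sum _ fun σ _ => measurable_const.mul
    (Finset.measurable_prod _ fun i _ => measurable_entry _ _)

theorem lin_inv [Fintype ι] [DecidableEq ι] : Measurable fun g : Matrix ι ι ℝ => g⁻¹ := by
  simp only [Matrix.inv_def, Ring.inverse_eq_inv']
  exact measurable_mx.2 fun a i => measurable_det.inv.mul
    (measurable_mx.1 continuous_id.matrix_adjugate.measurable a i)

theorem measurable_dual [Fintype ι] [DecidableEq ι] :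
    Measurable (dual : Matrix ι ι ℝ → Matrix ι ι ℝ) :=
  measurable_mx.2 fun a i => measurable_mx.1 lin_inv i a

theorem measurable_mxinv [Fintype ι] [DecidableEq ι] :
    Measurable fun g : Matrix ι ι ℝ => g⁻¹ := lin_inv

theorem measurable_nrm [Fintype ι] [DecidableEq ι] :
    Measurable (nrm : Matrix ι ι ℝ → Matrix ι ι ℝ) :=
  measurable_mx.2 fun a i =>
    ((continuous_abs.measurable.comp measurable_det).pow_const _).mul (measurable_entry a i)

theorem measurableSet_band [Fintype ι] [DecidableEq ι] : MeasurableSet (band ι) :=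
  (measurableSet_le measurable_const (continuous_abs.measurable.comp measurable_det)).inter
    (measurableSet_le (continuous_abs.measurable.comp measurable_det) measurable_const)

theorem lin_cube : cube β α =
    (Set.univ.pi fun _ : β => Set.univ.pi fun _ : α => Set.Ico (0 : ℝ) 1 : Set (β → α → ℝ)) :=
  Set.ext fun _ => ⟨fun h b _ a _ => h b a, fun h b a => h b trivial a trivial⟩

theorem measurableSet_cube [Fintype α] [Fintype β] : MeasurableSet (cube β α) := by
  rw [lin_cube]
  exact MeasurableSet.univ_pi fun _ => MeasurableSet.univ_pi fun _ => measurableSet_Ico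

theorem volume_cube [Fintype α] [Fintype β] : volume (cube β α) = 1 := by
  rw [lin_cube]
  exact (volume_pi_pi (α := fun _ : β => α → ℝ) _).trans (by simp [volume_pi_pi])

end

section
variable {α β ι κ : Type} [Fintype α] [Fintype β] [Fintype ι] [Fintype κ]

theorem map_vecMul [DecidableEq ι] (H : Matrix ι ι ℝ) (hH : H.det ≠ 0) :
    Measure.map (fun x : ι → ℝ => x ᵥ* H) volume = ENNReal.ofReal (|H.det|⁻¹) • volume := by
  have h := Real.map_matrix_volume_pi_eq_smul_volume_pi (M := Hᵀ) (by rwa [det_transpose])
  rw [det_transpose, abs_inv] at h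
  rw [← h]
  congr 1
  funext x
  rw [toLin'_apply, mulVec_transpose]

theorem map_mul_right [DecidableEq ι] (H : Matrix ι ι ℝ) (hH : H.det ≠ 0) :
    Measure.map (fun X : Matrix α ι ℝ => X * H) volume =
      ENNReal.ofReal ((|H.det| ^ Fintype.card α)⁻¹) • volume := by
  have : Measure.IsAddHaarMeasure (volume : Measure (α → ι → ℝ)) := mxHaar α ι
  have hd : LinearMap.det (LinearMap.pi fun a : α => (toLin' Hᵀ).comp (LinearMap.proj a) :
      (α → ι → ℝ) →ₗ[ℝ] (α → ι → ℝ)) = H.det ^ Fintype.card α := by
    rw [LinearMap.det_pi]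
    simp
  have h := Measure.map_linearMap_addHaar_eq_smul_addHaar (volume : Measure (α → ι → ℝ))
    (hd ▸ pow_ne_zero _ hH)
  rw [hd, abs_inv, abs_pow] at h
  refine Eq.trans ?_ h
  congr 1
  funext X
  ext a j
  exact Finset.sum_congr rfl fun i _ => mul_comm _ _

theorem mp_transpose :
    MeasurePreserving (fun X : Matrix α ι ℝ => Xᵀ) volume volume := by
  have hm : Measurable fun X : Matrix α ι ℝ => Xᵀ := measurable_mx.2 fun i a => measurable_entry a i
  have : Measure.IsAddHaarMeasure (Measure.map (fun X : Matrix α ι ℝ => Xᵀ) volume) :=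
    (transposeAddEquiv α ι ℝ).isAddHaarMeasure_map volume continuous_id.matrix_transpose
      continuous_id.matrix_transpose
  have h := Measure.isAddLeftInvariant_eq_smul (Measure.map (fun X : Matrix α ι ℝ => Xᵀ) volume)
    volume
  have h1 := congrArg (fun μ : Measure (Matrix ι α ℝ) => μ (cube ι α)) h
  have h2 : (fun X : Matrix α ι ℝ => Xᵀ) ⁻¹' cube ι α = cube α ι :=
    Set.ext fun X => ⟨fun h a i => h i a, fun h i a => h a i⟩
  simp only [Measure.map_apply hm measurableSet_cube, h2, Measure.smul_apply, volume_cube,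
    ENNReal.smul_def, smul_eq_mul, mul_one] at h1
  refine ⟨hm, ?_⟩
  rw [h, ENNReal.coe_eq_one.1 h1.symm, one_smul]

theorem map_mul_left [DecidableEq α] (A : Matrix α α ℝ) (hA : A.det ≠ 0) :
    Measure.map (fun X : Matrix α ι ℝ => A * X) volume =
      ENNReal.ofReal ((|A.det| ^ Fintype.card ι)⁻¹) • volume := by
  have h := map_mul_right (α := ι) Aᵀ (by rwa [det_transpose])
  have hm : Measurable fun X : Matrix ι α ℝ => X * Aᵀ :=
    Measurable.mxmul measurable_id measurable_const
  have e : (fun X : Matrix α ι ℝ => A * X) = (fun Y : Matrix ι α ℝ => Yᵀ) ∘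
      (fun X : Matrix ι α ℝ => X * Aᵀ) ∘ fun X : Matrix α ι ℝ => Xᵀ := by
    funext X
    simp
  rw [e, ← Measure.map_map mp_transpose.measurable (hm.comp mp_transpose.measurable),
    ← Measure.map_map hm mp_transpose.measurable, mp_transpose.map_eq, h, Measure.map_smul,
    mp_transpose.map_eq, det_transpose]

theorem map_smul_mx {c : ℝ} (hc : c ≠ 0) :
    Measure.map (fun X : Matrix α ι ℝ => c • X) volume =
      ENNReal.ofReal ((|c| ^ (Fintype.card α * Fintype.card ι))⁻¹) • volume := by
  have : Measure.IsAddHaarMeasure (volume : Measure (α → ι → ℝ)) := mxHaar α ι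
  have h := Measure.map_addHaar_smul (volume : Measure (α → ι → ℝ)) hc
  have hr : Module.finrank ℝ (α → ι → ℝ) = Fintype.card α * Fintype.card ι := by
    simp [Module.finrank_pi_fintype]
  rw [hr, abs_inv, abs_pow] at h
  exact h

theorem map_smul_vec {c : ℝ} (hc : c ≠ 0) :
    Measure.map (fun x : ι → ℝ => c • x) volume =
      ENNReal.ofReal ((|c| ^ Fintype.card ι)⁻¹) • volume := by
  have h := Measure.map_addHaar_smul (volume : Measure (ι → ℝ)) hc
  rwa [Module.finrank_fintype_fun_eq_card, abs_inv, abs_pow] at h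

theorem lin_reidx (X : Type) [MeasureSpace X] [SigmaFinite (volume : Measure X)] (e : α ≃ β) :
    MeasurePreserving (fun (x : α → X) (b : β) => x (e.symm b)) volume volume :=
  volume_preserving_arrowCongr' e (MeasurableEquiv.refl X) (MeasurePreserving.id _)

theorem lin_split (X : Type) [MeasureSpace X] [SigmaFinite (volume : Measure X)]
    (e : α ⊕ β ≃ κ) :
    MeasurePreserving (fun (p : (α → X) × (β → X)) (k : κ) => Sum.elim p.1 p.2 (e.symm k))
      (volume.prod volume) volume := by
  have h := (lin_reidx X e).comp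
    (volume_measurePreserving_sumPiEquivProdPi_symm fun _ : α ⊕ β => X)
  refine h.congr ?_ (Filter.Eventually.of_forall fun p => funext fun k => ?_)
  · refine measurable_pi_iff.2 fun k => ?_
    cases e.symm k
    exacts [(measurable_pi_apply _).comp measurable_fst, (measurable_pi_apply _).comp measurable_snd]
  · change _ = Sum.elim p.1 p.2 (e.symm k)
    simp only [Function.comp_apply]
    cases e.symm k <;> rfl

theorem mp_reindex (e : α ≃ β) (e' : ι ≃ κ) :
    MeasurePreserving (fun X : Matrix α ι ℝ => Matrix.reindex e e' X) volume volume :=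
  (lin_reidx (κ → ℝ) e).comp (volume_preserving_pi fun _ : α => lin_reidx ℝ e')

/-- splitting the coordinates of a vector -/
theorem mp_vec_split (e : α ⊕ β ≃ ι) :
    MeasurePreserving (fun p : (α → ℝ) × (β → ℝ) => fun i => Sum.elim p.1 p.2 (e.symm i))
      (volume.prod volume) (volume : Measure (ι → ℝ)) := lin_split ℝ e

/-- splitting the rows of a matrix -/
theorem mp_rows (e : α ⊕ β ≃ κ) :
    MeasurePreserving (fun p : Matrix α ι ℝ × Matrix β ι ℝ =>
      (Matrix.of fun k j => Sum.elim (fun a => p.1 a j) (fun b => p.2 b j) (e.symm k) :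
        Matrix κ ι ℝ)) (volume.prod volume) volume := by
  have h : (fun p : Matrix α ι ℝ × Matrix β ι ℝ =>
      (Matrix.of fun k j => Sum.elim (fun a => p.1 a j) (fun b => p.2 b j) (e.symm k) :
        Matrix κ ι ℝ)) = fun p k => Sum.elim p.1 p.2 (e.symm k) := by
    funext p
    ext k j
    rw [of_apply]
    cases e.symm k <;> rfl
  rw [h]
  exact lin_split (ι → ℝ) e

/-- splitting the columns of a matrix -/
theorem mp_cols (e : α ⊕ β ≃ ι) :
    MeasurePreserving (fun p : Matrix κ α ℝ × Matrix κ β ℝ =>
      (Matrix.of fun k j => Sum.elim (p.1 k) (p.2 k) (e.symm j) : Matrix κ ι ℝ))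
      (volume.prod volume) volume :=
  mp_transpose.comp ((mp_rows e).comp (mp_transpose.prod mp_transpose))

/-- a matrix with one row -/
theorem mp_one_row :
    MeasurePreserving (fun x : ι → ℝ => (Matrix.of fun (_ : Unit) j => x j : Matrix Unit ι ℝ))
      volume volume :=
  (volume_preserving_funUnique Unit (ι → ℝ)).symm

/-- a matrix with two rows -/
theorem mp_two_rows :
    MeasurePreserving (fun p : (ι → ℝ) × (ι → ℝ) => (Matrix.of ![p.1, p.2] : Matrix (Fin 2) ι ℝ))
      (volume.prod volume) volume :=
  (volume_preserving_finTwoArrow (ι → ℝ)).symm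

theorem ae_det_ne_zero [DecidableEq ι] : ∀ᵐ g : Matrix ι ι ℝ, g.det ≠ 0 := by
  have hm : MeasurableSet {p : Matrix ι ι ℝ × ℝ | (scalar ι p.2 + p.1).det ≠ 0} := by
    refine (measurableSet_eq_fun (measurable_det.comp (measurable_mx.2 fun i j => ?_))
      measurable_const).compl
    simp only [Matrix.add_apply, scalar_apply, diagonal_apply]
    refine Measurable.add ?_ ((measurable_entry i j).comp measurable_fst)
    split_ifs
    exacts [measurable_snd, measurable_const]
  have h1 : ∀ᵐ g : Matrix ι ι ℝ, ∀ᵐ t : ℝ, (scalar ι t + g).det ≠ 0 :=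
    Filter.Eventually.of_forall fun g => by
      filter_upwards [(Polynomial.finite_setOfPred_isRoot
        (charpoly_monic (-g)).ne_zero).countable.ae_notMem volume] with t ht
      rwa [Polynomial.IsRoot, eval_charpoly, sub_neg_eq_add] at ht
  obtain ⟨t, ht⟩ := ((Measure.ae_ae_comm hm).1 h1).exists
  exact (eventually_add_left_iff (p := fun g : Matrix ι ι ℝ => g.det ≠ 0) volume (scalar ι t)).1 ht

end

end Pool.Agent.Eps.H
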