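import Pool.Agent.Lib.MP_3bda03_nt.H.Rogers

/-!
A primitive frame of the lattice and one or two vectors of the dual lattice.
-/

set_option autoImplicit false

noncomputable section

open MeasureTheory Matrix
open scoped ENNReal

namespace Pool.Agent.Eps.H

theorem mixed_tsum_sub {A : Type} (p : A → Prop) [DecidablePred p] (f : A → ℝ≥0∞) :
    ∑' x : {x // p x}, f x.1 = ∑' x, if p x then f x else 0 := by
  have h := tsum_subtype {x | p x} f
  refine h.trans (tsum_congr fun x => ?_)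
  by_cases hx : p x
  · rw [if_pos hx, Set.indicator_of_mem (show x ∈ {x | p x} from hx)]
  · rw [if_neg hx, Set.indicator_of_notMem (show x ∉ {x | p x} from hx)]

theorem mixed_meas_ite {Ω : Type} [MeasurableSpace Ω] (p : Prop) [Decidable p] {f : Ω → ℝ≥0∞}
    (hf : Measurable f) : Measurable fun x => if p then f x else 0 := by
  by_cases hp : p
  · simpa only [if_pos hp] using hf
  · simpa only [if_neg hp] using measurable_const

section
variable {α β : Type} [Fintype α] [Fintype β] [DecidableEq β]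

theorem mixed_vecMul_dual {g : Matrix β β ℝ} (hg : |g.det| = 1) (G : (β → ℝ) → ℝ≥0∞)
    (hG : Measurable G) : ∫⁻ s, G (s ᵥ* dual g) = ∫⁻ s, G s := by
  have h1 : |(dual g).det| = 1 := by rw [det_dual, abs_inv, hg, inv_one]
  have h0 : (dual g).det ≠ 0 := fun h => by rw [h, abs_zero] at h1; exact zero_ne_one h1
  have hm : Measurable fun x : β → ℝ => x ᵥ* dual g :=
    Measurable.vmul measurable_id measurable_const
  rw [← lintegral_map hG hm, map_vecMul _ h0, h1, inv_one, ENNReal.ofReal_one, one_smul]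

theorem mixed_meas_arg (m : α → ℤ) (l : β → ℤ) :
    Measurable fun p : Matrix β β ℝ × Matrix β α ℝ => (cv l - p.2 *ᵥ cv m) ᵥ* dual p.1 :=
  Measurable.vmul (measurable_const.sub (Measurable.mulv measurable_snd measurable_const))
    (measurable_dual.comp measurable_fst)

theorem mixed_swap {M : Type} [Countable M] (H : M → Matrix β β ℝ → Matrix β α ℝ → ℝ≥0∞)
    (hH : ∀ m, Measurable fun p : Matrix β β ℝ × Matrix β α ℝ => H m p.1 p.2) :
    ∫⁻ g, (∫⁻ t in cube β α, ∑' m, H m g t) ∂mu β =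
      ∑' m, ∫⁻ g, (∫⁻ t in cube β α, H m g t) ∂mu β := by
  rw [← lintegral_tsum fun m => (Measurable.lintegral_prod_right' (hH m)).aemeasurable]
  refine lintegral_congr fun g => ?_
  exact lintegral_tsum fun m => ((hH m).comp measurable_prodMk_left).aemeasurable

open Classical in
theorem mixed_core1 (h : 2 ≤ Fintype.card β) (m : α → ℤ) (G : (β → ℝ) → ℝ≥0∞)
    (hG : Measurable G) :
    ∫⁻ g, (∫⁻ t in cube β α, ∑' l : β → ℤ,
      if ¬ (m = 0 ∧ l = 0) then G ((cv l - t *ᵥ cv m) ᵥ* dual g) else 0) ∂mu β = ∫⁻ z, G z := by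
  by_cases hm : m = 0
  · subst hm
    rw [← siegel_dual h G hG]
    refine lintegral_congr fun g => ?_
    simp only [cv_zero, Matrix.mulVec_zero, sub_zero, true_and]
    rw [setLIntegral_const, volume_cube, mul_one,
      mixed_tsum_sub (fun l : β → ℤ => l ≠ 0) (fun l => G (lv l (dual g)))]
    refine tsum_congr fun l => ?_
    by_cases hl : l = 0
    · rw [if_neg (not_not.2 hl), if_neg (not_not.2 hl)]
    · rw [if_pos hl, if_pos hl]; rfl
  · have h1 : ∀ l : β → ℤ, ¬ (m = 0 ∧ l = 0) := fun l hl => hm hl.1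
    simp only [if_pos (h1 _)]
    have h2 : ∀ᵐ g ∂mu β, (∫⁻ t in cube β α, ∑' l : β → ℤ,
        G ((cv l - t *ᵥ cv m) ᵥ* dual g)) = ∫⁻ z, G z := by
      filter_upwards [ae_mu_det] with g hg
      rw [equi_one hm (fun s => G (s ᵥ* dual g))
        (hG.comp (Measurable.vmul measurable_id measurable_const)), mixed_vecMul_dual hg G hG]
    rw [lintegral_congr_ae h2, lintegral_const, measure_univ, mul_one]

theorem mixed_subst {a b u v : ℝ} (huv : u * a + v * b = 1) (G : (β → ℝ) → (β → ℝ) → ℝ≥0∞)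
    (hG : Measurable (Function.uncurry G)) :
    ∫⁻ y, ∫⁻ s, G (a • s - v • y) (b • s + u • y) = ∫⁻ z, ∫⁻ z', G z z' := by
  let A : Matrix (Fin 2) (Fin 2) ℝ := !![-v, a; u, b]
  have hA : A.det = -1 := by
    simp only [A, Matrix.det_fin_two_of]; linear_combination (-1 : ℝ) * huv
  have hA0 : A.det ≠ 0 := by rw [hA]; norm_num
  let K : Matrix (Fin 2) β ℝ → ℝ≥0∞ := fun M => G (M 0) (M 1)
  have hK : Measurable K :=
    hG.comp (f := fun M : Matrix (Fin 2) β ℝ => ((M 0 : β → ℝ), (M 1 : β → ℝ)))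
      ((measurable_row 0).prodMk (measurable_row 1))
  have hmA : Measurable fun M : Matrix (Fin 2) β ℝ => A * M :=
    Measurable.mxmul measurable_const measurable_id
  have h1 : ∫⁻ z, ∫⁻ z', G z z' = ∫⁻ M, K M := by
    rw [← mp_two_rows.lintegral_comp hK]
    exact (lintegral_prod _ (hK.comp mp_two_rows.measurable).aemeasurable).symm
  have h2 : ∫⁻ M : Matrix (Fin 2) β ℝ, K (A * M) = ∫⁻ M, K M := by
    rw [← lintegral_map hK hmA, map_mul_left A hA0, hA, abs_neg, abs_one, one_pow, inv_one,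
      ENNReal.ofReal_one, one_smul]
  have hKA : Measurable fun M : Matrix (Fin 2) β ℝ => K (A * M) := hK.comp hmA
  rw [h1, ← h2, ← mp_two_rows.lintegral_comp hKA]
  refine Eq.trans ?_ (lintegral_prod _ (hKA.comp mp_two_rows.measurable).aemeasurable).symm
  refine lintegral_congr fun y => lintegral_congr fun s => ?_
  have e0 : (A * (Matrix.of ![y, s] : Matrix (Fin 2) β ℝ)) 0 = a • s - v • y := by
    funext j
    simp [A, Matrix.mul_apply, Fin.sum_univ_two]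
    ring
  have e1 : (A * (Matrix.of ![y, s] : Matrix (Fin 2) β ℝ)) 1 = b • s + u • y := by
    funext j
    simp [A, Matrix.mul_apply, Fin.sum_univ_two]
    ring
  show _ = G ((A * (Matrix.of ![y, s] : Matrix (Fin 2) β ℝ)) 0)
    ((A * (Matrix.of ![y, s] : Matrix (Fin 2) β ℝ)) 1)
  rw [e0, e1]

/-- independence of the two glued vectors -/
def MixedInd (m m' : α → ℤ) (l l' : β → ℤ) : Prop :=
  ∀ s t : ℤ, s • m + t • m' = 0 → s • l + t • l' = 0 → s = 0 ∧ t = 0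

theorem mixed_ind2_iff {γ : Type} (k l : γ → ℤ) :
    Ind2 (k, l) ↔ ∀ s t : ℤ, s • k + t • l = 0 → s = 0 ∧ t = 0 := by
  unfold Ind2
  exact LinearIndependent.pair_iff

theorem mixed_exists {m m' : α → ℤ} (h : ¬ Ind2 (m, m')) (h0 : ¬ (m = 0 ∧ m' = 0)) :
    ∃ (w : α → ℤ) (a b u v : ℤ), w ≠ 0 ∧ u * a + v * b = 1 ∧ m = a • w ∧ m' = b • w := by
  classical
  by_cases hm : m = 0
  · exact ⟨m', 0, 1, 0, 1, fun h' => h0 ⟨hm, h'⟩, by norm_num, by rw [hm, zero_smul],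
      by rw [one_smul]⟩
  · obtain ⟨w, p, q, hp, -, hk, hl⟩ := exists_of_not_ind2 hm h
    have hd : 0 < Int.gcd p q := Int.gcd_pos_of_ne_zero_left _ hp.ne'
    obtain ⟨a, b, hab, ha, hb⟩ := Int.exists_gcd_one hd
    obtain ⟨u, v, huv⟩ := Int.isCoprime_iff_gcd_eq_one.2 hab
    have e1 : m = a • ((Int.gcd p q : ℤ) • w) := by rw [smul_smul, ← ha, hk]
    have e2 : m' = b • ((Int.gcd p q : ℤ) • w) := by rw [smul_smul, ← hb, hl]
    refine ⟨(Int.gcd p q : ℤ) • w, a, b, u, v, fun h' => hm ?_, huv, e1, e2⟩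
    rw [e1, h', smul_zero]

/-- the unimodular change of the pair of vectors -/
def mixedEquiv {a b u v : ℤ} (huv : u * a + v * b = 1) :
    (β → ℤ) × (β → ℤ) ≃ (β → ℤ) × (β → ℤ) where
  toFun p := (a • p.2 - v • p.1, b • p.2 + u • p.1)
  invFun p := (a • p.2 - b • p.1, u • p.1 + v • p.2)
  left_inv p := by
    refine Prod.ext ?_ ?_
    · funext j
      simp only [Pi.add_apply, Pi.sub_apply, Pi.smul_apply, smul_eq_mul]
      linear_combination (p.1 j) * huv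
    · funext j
      simp only [Pi.add_apply, Pi.sub_apply, Pi.smul_apply, smul_eq_mul]
      linear_combination (p.2 j) * huv
  right_inv p := by
    refine Prod.ext ?_ ?_
    · funext j
      simp only [Pi.add_apply, Pi.sub_apply, Pi.smul_apply, smul_eq_mul]
      linear_combination (p.1 j) * huv
    · funext j
      simp only [Pi.add_apply, Pi.sub_apply, Pi.smul_apply, smul_eq_mul]
      linear_combination (p.2 j) * huv

theorem mixed_ind_dep {w : α → ℤ} (hw : w ≠ 0) {a b u v : ℤ} (huv : u * a + v * b = 1)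
    (y s : β → ℤ) : MixedInd (a • w) (b • w) (a • s - v • y) (b • s + u • y) ↔ y ≠ 0 := by
  constructor
  · intro h hy
    have := h (-b) a (by rw [smul_smul, smul_smul, ← add_smul]; simp [mul_comm]) (by
      funext j
      simp only [hy, Pi.add_apply, Pi.sub_apply, Pi.smul_apply, smul_eq_mul, Pi.zero_apply]
      ring)
    have hb : b = 0 := by simpa using this.1
    rw [hb, this.2] at huv
    simp at huv
  · intro hy c d h1 h2
    rw [smul_smul, smul_smul, ← add_smul] at h1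
    have h3 : c * a + d * b = 0 := (smul_eq_zero.1 h1).resolve_right hw
    have h4 : (d * u - c * v) • y = 0 := by
      funext j
      have := congrFun h2 j
      simp only [Pi.add_apply, Pi.sub_apply, Pi.smul_apply, smul_eq_mul, Pi.zero_apply] at this ⊢
      linear_combination this - (s j) * h3
    have h5 : d * u - c * v = 0 := (smul_eq_zero.1 h4).resolve_right hy
    constructor
    · linear_combination u * h3 - b * h5 - c * huv
    · linear_combination v * h3 + a * h5 - d * huv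

theorem mixed_core2a {m m' : α → ℤ} (hi : Ind2 (m, m')) (G : (β → ℝ) → (β → ℝ) → ℝ≥0∞)
    (hG : Measurable (Function.uncurry G)) :
    ∫⁻ g, (∫⁻ t in cube β α, ∑' p : (β → ℤ) × (β → ℤ),
        G ((cv p.1 - t *ᵥ cv m) ᵥ* dual g) ((cv p.2 - t *ᵥ cv m') ᵥ* dual g)) ∂mu β =
      ∫⁻ z, ∫⁻ z', G z z' := by
  have h2 : ∀ᵐ g ∂mu β, (∫⁻ t in cube β α, ∑' p : (β → ℤ) × (β → ℤ),
      G ((cv p.1 - t *ᵥ cv m) ᵥ* dual g) ((cv p.2 - t *ᵥ cv m') ᵥ* dual g)) =
      ∫⁻ z, ∫⁻ z', G z z' := by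
    filter_upwards [ae_mu_det] with g hg
    have hv : Measurable fun x : β → ℝ => x ᵥ* dual g :=
      Measurable.vmul measurable_id measurable_const
    have hG' : Measurable (Function.uncurry fun s s' : β → ℝ =>
        G (s ᵥ* dual g) (s' ᵥ* dual g)) :=
      hG.comp (f := fun p : (β → ℝ) × (β → ℝ) => (p.1 ᵥ* dual g, p.2 ᵥ* dual g))
        ((hv.comp measurable_fst).prodMk (hv.comp measurable_snd))
    simp only [ENNReal.tsum_prod']
    rw [equi_two hi (fun s s' => G (s ᵥ* dual g) (s' ᵥ* dual g)) hG',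
      ← mixed_vecMul_dual hg (fun z => ∫⁻ z', G z z') hG.lintegral_prod_right]
    exact lintegral_congr fun s =>
      mixed_vecMul_dual hg (G (s ᵥ* dual g)) hG.of_uncurry_left
  rw [lintegral_congr_ae h2, lintegral_const, measure_univ, mul_one]

open Classical in
theorem mixed_core2c (h : 2 ≤ Fintype.card β) {w : α → ℤ} (hw : w ≠ 0)
    (K : (β → ℝ) → (β → ℝ) → ℝ≥0∞) (hK : Measurable (Function.uncurry K)) :
    ∫⁻ g, (∫⁻ t in cube β α, ∑' y : β → ℤ, if y ≠ 0 then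
        ∑' s : β → ℤ, K (lv y (dual g)) ((cv s - t *ᵥ cv w) ᵥ* dual g) else 0) ∂mu β =
      ∫⁻ y, ∫⁻ s, K y s := by
  rw [← siegel_dual h (fun y => ∫⁻ s, K y s) hK.lintegral_prod_right]
  refine lintegral_congr_ae ?_
  filter_upwards [ae_mu_det] with g hg
  have hv : Measurable fun x : β → ℝ => x ᵥ* dual g :=
    Measurable.vmul measurable_id measurable_const
  have hm : ∀ y : β → ℤ, Measurable fun t : Matrix β α ℝ =>
      ∑' s : β → ℤ, K (lv y (dual g)) ((cv s - t *ᵥ cv w) ᵥ* dual g) := fun y =>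
    Measurable.tsum fun s => (hK.of_uncurry_left (x := lv y (dual g))).comp
      (hv.comp (measurable_const.sub (Measurable.mulv measurable_id measurable_const)))
  rw [lintegral_tsum fun y => (mixed_meas_ite _ (hm y)).aemeasurable,
    mixed_tsum_sub (fun l : β → ℤ => l ≠ 0) (fun l => ∫⁻ s, K (lv l (dual g)) s)]
  refine tsum_congr fun y => ?_
  by_cases hy : y ≠ 0
  · simp only [if_pos hy]
    rw [equi_one hw (fun s => K (lv y (dual g)) (s ᵥ* dual g))
      ((hK.of_uncurry_left (x := lv y (dual g))).comp hv)]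
    exact mixed_vecMul_dual hg (K (lv y (dual g))) hK.of_uncurry_left
  · simp only [if_neg hy, lintegral_const, zero_mul]

open Classical in
theorem mixed_reindex {w : α → ℤ} (hw : w ≠ 0) {a b u v : ℤ} (huv : u * a + v * b = 1)
    (G : (β → ℝ) → (β → ℝ) → ℝ≥0∞) (D : Matrix β β ℝ) (t : Matrix β α ℝ) :
    (∑' p : (β → ℤ) × (β → ℤ), if MixedInd (a • w) (b • w) p.1 p.2 then
        G ((cv p.1 - t *ᵥ cv (a • w)) ᵥ* D) ((cv p.2 - t *ᵥ cv (b • w)) ᵥ* D) else 0) =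
      ∑' y : β → ℤ, if y ≠ 0 then
        ∑' s : β → ℤ, G ((a : ℝ) • ((cv s - t *ᵥ cv w) ᵥ* D) - (v : ℝ) • lv y D)
          ((b : ℝ) • ((cv s - t *ᵥ cv w) ᵥ* D) + (u : ℝ) • lv y D) else 0 := by
  rw [← (mixedEquiv huv).tsum_eq, ENNReal.tsum_prod']
  refine tsum_congr fun y => ?_
  by_cases hy : y ≠ 0
  · rw [if_pos hy]
    refine tsum_congr fun s => ?_
    have hc : MixedInd (a • w) (b • w) (mixedEquiv huv (y, s)).1 (mixedEquiv huv (y, s)).2 :=
      (mixed_ind_dep hw huv y s).2 hy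
    rw [if_pos hc]
    have f1 : (cv (mixedEquiv huv (y, s)).1 - t *ᵥ cv (a • w)) ᵥ* D =
        (a : ℝ) • ((cv s - t *ᵥ cv w) ᵥ* D) - (v : ℝ) • lv y D := by
      show (cv (a • s - v • y) - t *ᵥ cv (a • w)) ᵥ* D = _
      rw [lv, ← Matrix.smul_vecMul, ← Matrix.smul_vecMul, ← Matrix.sub_vecMul, sub_eq_add_neg
        (a • s), cv_add, cv_neg, cv_smul, cv_smul, cv_smul, Matrix.mulVec_smul]
      congr 1
      module
    have f2 : (cv (mixedEquiv huv (y, s)).2 - t *ᵥ cv (b • w)) ᵥ* D =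
        (b : ℝ) • ((cv s - t *ᵥ cv w) ᵥ* D) + (u : ℝ) • lv y D := by
      show (cv (b • s + u • y) - t *ᵥ cv (b • w)) ᵥ* D = _
      rw [lv, ← Matrix.smul_vecMul, ← Matrix.smul_vecMul, ← Matrix.add_vecMul,
        cv_add, cv_smul, cv_smul, cv_smul, Matrix.mulVec_smul]
      congr 1
      module
    rw [f1, f2]
  · rw [if_neg hy]
    refine ENNReal.tsum_eq_zero.2 fun s => ?_
    have hc : ¬ MixedInd (a • w) (b • w) (mixedEquiv huv (y, s)).1 (mixedEquiv huv (y, s)).2 :=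
      fun hc => hy ((mixed_ind_dep hw huv y s).1 hc)
    rw [if_neg hc]

open Classical in
theorem mixed_core2 (h : 3 ≤ Fintype.card β) (m m' : α → ℤ) (G : (β → ℝ) → (β → ℝ) → ℝ≥0∞)
    (hG : Measurable (Function.uncurry G)) :
    ∫⁻ g, (∫⁻ t in cube β α, ∑' p : (β → ℤ) × (β → ℤ),
      if MixedInd m m' p.1 p.2 then
        G ((cv p.1 - t *ᵥ cv m) ᵥ* dual g) ((cv p.2 - t *ᵥ cv m') ᵥ* dual g) else 0) ∂mu β =
      ∫⁻ z, ∫⁻ z', G z z' := by
  by_cases hi : Ind2 (m, m')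
  · have h1 : ∀ p : (β → ℤ) × (β → ℤ), MixedInd m m' p.1 p.2 := fun p s t hs _ =>
      (mixed_ind2_iff m m').1 hi s t hs
    simp only [if_pos (h1 _)]
    exact mixed_core2a hi G hG
  by_cases h0 : m = 0 ∧ m' = 0
  · obtain ⟨rfl, rfl⟩ := h0
    rw [← rogers2_dual h G hG]
    refine lintegral_congr fun g => ?_
    simp only [cv_zero, Matrix.mulVec_zero, sub_zero]
    rw [setLIntegral_const, volume_cube, mul_one,
      mixed_tsum_sub (fun p : (β → ℤ) × (β → ℤ) => Ind2 p)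
        (fun p => G (lv p.1 (dual g)) (lv p.2 (dual g)))]
    refine tsum_congr fun p => ?_
    have hp : MixedInd (0 : α → ℤ) 0 p.1 p.2 ↔ Ind2 p := by
      rw [show p = (p.1, p.2) from rfl, mixed_ind2_iff]
      exact ⟨fun h s t hs => h s t (by simp) hs, fun h s t _ hs => h s t hs⟩
    by_cases hl : Ind2 p
    · rw [if_pos (hp.2 hl), if_pos hl]; rfl
    · rw [if_neg (fun h => hl (hp.1 h)), if_neg hl]
  obtain ⟨w, a, b, u, v, hw, huv, rfl, rfl⟩ := mixed_exists hi h0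
  have huv' : (u : ℝ) * a + v * b = 1 := by exact_mod_cast huv
  have hK : Measurable (Function.uncurry fun y s : β → ℝ =>
      G ((a : ℝ) • s - (v : ℝ) • y) ((b : ℝ) • s + (u : ℝ) • y)) :=
    hG.comp (f := fun p : (β → ℝ) × (β → ℝ) =>
      ((a : ℝ) • p.2 - (v : ℝ) • p.1, (b : ℝ) • p.2 + (u : ℝ) • p.1)) (by fun_prop)
  rw [← mixed_subst huv' G hG, ← mixed_core2c (le_trans (by norm_num) h) hw _ hK]
  exact lintegral_congr fun g => lintegral_congr fun t => mixed_reindex hw huv G (dual g) t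

end

section
variable {α ι : Type} [Fintype α] [DecidableEq α] [Fintype ι] [DecidableEq ι]

/-- the action of the integer group on integer vectors -/
def mixedAct (γ : GL ι ℤ) : (ι → ℤ) ≃ (ι → ℤ) where
  toFun l := γ.val *ᵥ l
  invFun l := (γ⁻¹).val *ᵥ l
  left_inv l := by
    show (γ⁻¹).val *ᵥ (γ.val *ᵥ l) = l
    rw [Matrix.mulVec_mulVec, Units.inv_mul, Matrix.one_mulVec]
  right_inv l := by
    show γ.val *ᵥ ((γ⁻¹).val *ᵥ l) = l
    rw [Matrix.mulVec_mulVec, Units.mul_inv, Matrix.one_mulVec]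

/-- the action of the integer group on primitive frames -/
def mixedPrim (γ : GL ι ℤ) : {P : Matrix α ι ℤ // Prim P} ≃ {P : Matrix α ι ℤ // Prim P} where
  toFun P := ⟨P.1 * γ.val, (Prim.mul_gl γ).2 P.2⟩
  invFun P := ⟨P.1 * (γ⁻¹).val, (Prim.mul_gl γ⁻¹).2 P.2⟩
  left_inv P := Subtype.ext (by
    show P.1 * γ.val * (γ⁻¹).val = P.1
    rw [Matrix.mul_assoc, Units.mul_inv, Matrix.mul_one])
  right_inv P := Subtype.ext (by
    show P.1 * (γ⁻¹).val * γ.val = P.1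
    rw [Matrix.mul_assoc, Units.inv_mul, Matrix.mul_one])

theorem mixed_linv (Φ : Matrix α ι ℤ → Matrix ι ι ℝ → ℝ≥0∞)
    (hΦ : ∀ (γ : GL ι ℤ) P g, Φ (P * γ.val) g = Φ P (cz γ.val * g)) :
    LInv fun g => ∑' P : {P : Matrix α ι ℤ // Prim P}, Φ P.1 g := by
  intro γ g
  show ∑' P : {P : Matrix α ι ℤ // Prim P}, Φ P.1 (cz γ.val * g) =
    ∑' P : {P : Matrix α ι ℤ // Prim P}, Φ P.1 g
  rw [← (mixedPrim (α := α) γ).tsum_eq fun P => Φ P.1 g]
  exact tsum_congr fun P => (hΦ γ P.1 g).symm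

theorem mixed_dualize (Φ : Matrix α ι ℤ → Matrix ι ι ℝ → ℝ≥0∞) (hm : ∀ P, Measurable (Φ P))
    (hΦ : ∀ (γ : GL ι ℤ) P g, Φ (P * γ.val) g = Φ P (cz γ.val * g)) :
    ∫⁻ g, ∑' P : {P : Matrix α ι ℤ // Prim P}, Φ P.1 (dual g) ∂mu ι =
      ∫⁻ g, ∑' P : {P : Matrix α ι ℤ // Prim P}, Φ P.1 g ∂mu ι :=
  lintegral_mu_dual (Φ := fun g => ∑' P : {P : Matrix α ι ℤ // Prim P}, Φ P.1 g)
    (Measurable.tsum fun P => hm P.1) (mixed_linv Φ hΦ)

theorem mixed_meas1 (F : Matrix α ι ℝ → (α → ℤ) → (ι → ℝ) → ℝ≥0∞)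
    (hF : ∀ m, Measurable fun p : Matrix α ι ℝ × (ι → ℝ) => F p.1 m p.2) (P : Matrix α ι ℤ) :
    Measurable fun g : Matrix ι ι ℝ => ∑' l : {l : ι → ℤ // l ≠ 0},
      F (cz P * g) (P *ᵥ l.1) (lv l.1 (dual g)) :=
  Measurable.tsum fun l => (hF (P *ᵥ l.1)).comp
    (f := fun g : Matrix ι ι ℝ => (cz P * g, lv l.1 (dual g)))
    ((Measurable.mxmul measurable_const measurable_id).prodMk
      ((measurable_lv l.1).comp measurable_dual))

theorem mixed_equiv1 (F : Matrix α ι ℝ → (α → ℤ) → (ι → ℝ) → ℝ≥0∞) (γ : GL ι ℤ)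
    (P : Matrix α ι ℤ) (g : Matrix ι ι ℝ) :
    (∑' l : {l : ι → ℤ // l ≠ 0},
      F (cz (P * γ.val) * g) ((P * γ.val) *ᵥ l.1) (lv l.1 (dual g))) =
    ∑' l : {l : ι → ℤ // l ≠ 0},
      F (cz P * (cz γ.val * g)) (P *ᵥ l.1) (lv l.1 (dual (cz γ.val * g))) := by
  let E : {l : ι → ℤ // l ≠ 0} ≃ {l : ι → ℤ // l ≠ 0} :=
    (mixedAct γ).subtypeEquiv fun l => by
      have h0 : mixedAct γ 0 = 0 := Matrix.mulVec_zero _
      rw [← h0, (mixedAct γ).injective.ne_iff, h0]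
  rw [← E.tsum_eq fun l => F (cz P * (cz γ.val * g)) (P *ᵥ l.1) (lv l.1 (dual (cz γ.val * g)))]
  refine tsum_congr fun l => ?_
  show _ = F (cz P * (cz γ.val * g)) (P *ᵥ (γ.val *ᵥ l.1))
    (lv (γ.val *ᵥ l.1) (dual (cz γ.val * g)))
  rw [lv_mulVec_dual, Matrix.mulVec_mulVec, cz_mul, Matrix.mul_assoc]

theorem mixed_meas2 (F : Matrix α ι ℝ → (α → ℤ) → (α → ℤ) → (ι → ℝ) → (ι → ℝ) → ℝ≥0∞)
    (hF : ∀ m m', Measurable fun p : Matrix α ι ℝ × (ι → ℝ) × (ι → ℝ) =>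
      F p.1 m m' p.2.1 p.2.2) (P : Matrix α ι ℤ) :
    Measurable fun g : Matrix ι ι ℝ => ∑' p : {p : (ι → ℤ) × (ι → ℤ) // Ind2 p},
      F (cz P * g) (P *ᵥ p.1.1) (P *ᵥ p.1.2) (lv p.1.1 (dual g)) (lv p.1.2 (dual g)) :=
  Measurable.tsum fun p => (hF (P *ᵥ p.1.1) (P *ᵥ p.1.2)).comp
    (f := fun g : Matrix ι ι ℝ => (cz P * g, lv p.1.1 (dual g), lv p.1.2 (dual g)))
    ((Measurable.mxmul measurable_const measurable_id).prodMk
      (((measurable_lv p.1.1).comp measurable_dual).prodMk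
        ((measurable_lv p.1.2).comp measurable_dual)))

theorem mixed_equiv2 (F : Matrix α ι ℝ → (α → ℤ) → (α → ℤ) → (ι → ℝ) → (ι → ℝ) → ℝ≥0∞)
    (γ : GL ι ℤ) (P : Matrix α ι ℤ) (g : Matrix ι ι ℝ) :
    (∑' p : {p : (ι → ℤ) × (ι → ℤ) // Ind2 p},
      F (cz (P * γ.val) * g) ((P * γ.val) *ᵥ p.1.1) ((P * γ.val) *ᵥ p.1.2) (lv p.1.1 (dual g))
        (lv p.1.2 (dual g))) =
    ∑' p : {p : (ι → ℤ) × (ι → ℤ) // Ind2 p},
      F (cz P * (cz γ.val * g)) (P *ᵥ p.1.1) (P *ᵥ p.1.2) (lv p.1.1 (dual (cz γ.val * g)))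
        (lv p.1.2 (dual (cz γ.val * g))) := by
  let E : {p : (ι → ℤ) × (ι → ℤ) // Ind2 p} ≃ {p : (ι → ℤ) × (ι → ℤ) // Ind2 p} :=
    ((mixedAct γ).prodCongr (mixedAct γ)).subtypeEquiv fun p => (Ind2.mulVec_gl γ p.1 p.2).symm
  rw [← E.tsum_eq fun p => F (cz P * (cz γ.val * g)) (P *ᵥ p.1.1) (P *ᵥ p.1.2)
    (lv p.1.1 (dual (cz γ.val * g))) (lv p.1.2 (dual (cz γ.val * g)))]
  refine tsum_congr fun p => ?_
  show _ = F (cz P * (cz γ.val * g)) (P *ᵥ (γ.val *ᵥ p.1.1)) (P *ᵥ (γ.val *ᵥ p.1.2))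
    (lv (γ.val *ᵥ p.1.1) (dual (cz γ.val * g))) (lv (γ.val *ᵥ p.1.2) (dual (cz γ.val * g)))
  rw [lv_mulVec_dual, lv_mulVec_dual, Matrix.mulVec_mulVec, Matrix.mulVec_mulVec, cz_mul,
    Matrix.mul_assoc]

end

variable {α β ι : Type} [Fintype α] [DecidableEq α] [Fintype β] [DecidableEq β] [Fintype ι]
  [DecidableEq ι] (e : α ⊕ β ≃ ι)

/-- splitting an integer vector -/
def mixedSplit : (α → ℤ) × (β → ℤ) ≃ (ι → ℤ) where
  toFun p := fun i => Sum.elim p.1 p.2 (e.symm i)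
  invFun l := (fun a => l (e (Sum.inl a)), fun b => l (e (Sum.inr b)))
  left_inv p := by
    refine Prod.ext ?_ ?_
    · funext a; simp
    · funext b; simp
  right_inv l := by
    funext i
    obtain ⟨x, rfl⟩ := e.surjective i
    rcases x with a | b <;> simp

theorem mixed_std_lift (X : Matrix α ι ℝ) (t : Matrix β α ℝ) (g : Matrix β β ℝ) :
    cz (std e) * lift e X t g = X := by
  rw [cz_std_mul]
  funext a j
  exact congrFun (lift_inl e X t g a) j

theorem mixed_std_split (m : α → ℤ) (l : β → ℤ) : std e *ᵥ mixedSplit e (m, l) = m := by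
  rw [std_mulVec]
  funext a
  simp [mixedSplit]

theorem mixed_split_comb (s t : ℤ) (m m' : α → ℤ) (l l' : β → ℤ) :
    s • mixedSplit e (m, l) + t • mixedSplit e (m', l') =
      mixedSplit e (s • m + t • m', s • l + t • l') := by
  funext i
  obtain ⟨x, rfl⟩ := e.surjective i
  rcases x with a | b <;> simp [mixedSplit]

theorem mixed_split_eq_zero (m : α → ℤ) (l : β → ℤ) :
    mixedSplit e (m, l) = 0 ↔ m = 0 ∧ l = 0 := by
  have h0 : mixedSplit e (0, 0) = 0 := by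
    funext i
    obtain ⟨x, rfl⟩ := e.surjective i
    rcases x with a | b <;> simp [mixedSplit]
  rw [← h0, (mixedSplit e).injective.eq_iff, Prod.mk.injEq]

theorem mixed_split_ind (m m' : α → ℤ) (l l' : β → ℤ) :
    Ind2 (mixedSplit e (m, l), mixedSplit e (m', l')) ↔ MixedInd m m' l l' := by
  rw [mixed_ind2_iff]
  simp only [mixed_split_comb, mixed_split_eq_zero]
  exact ⟨fun h s t h1 h2 => h s t ⟨h1, h2⟩, fun h s t h1 => h s t h1.1 h1.2⟩

theorem mixed_meas_layer (X : Matrix α ι ℝ) (ξ : α → ℝ) : Measurable (layer e X ξ) :=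
  (measurable_layer e).comp (f := fun z : β → ℝ => (X, ξ, z))
    (measurable_const.prodMk (measurable_const.prodMk measurable_id))

theorem mixed1 (h : 2 ≤ Fintype.card β) (F : Matrix α ι ℝ → (α → ℤ) → (ι → ℝ) → ℝ≥0∞)
    (hF : ∀ m, Measurable fun p : Matrix α ι ℝ × (ι → ℝ) => F p.1 m p.2) :
    ∫⁻ g, ∑' P : {P : Matrix α ι ℤ // Prim P}, ∑' l : {l : ι → ℤ // l ≠ 0},
      F (cz P.1 * g) (P.1 *ᵥ l.1) (lv l.1 (dual g)) ∂mu ι =
      cc ι β * ∫⁻ X : Matrix α ι ℝ, ∑' m : α → ℤ, ∫⁻ z, F X m (layer e X (cv m) z) := by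
  classical
  haveI : Nonempty β := Fintype.card_pos_iff.1 (by omega)
  rw [frame e (fun P g => ∑' l : {l : ι → ℤ // l ≠ 0},
      F (cz P * g) (P *ᵥ l.1) (lv l.1 (dual g))) (mixed_meas1 F hF) (mixed_equiv1 F)]
  congr 1
  refine lintegral_congr_ae ?_
  filter_upwards [ae_blk e] with X hX
  have hG : ∀ m : α → ℤ, Measurable fun z : β → ℝ => F X m (layer e X (cv m) z) := fun m =>
    (hF m).comp (f := fun z : β → ℝ => (X, layer e X (cv m) z))
      (measurable_const.prodMk (mixed_meas_layer e X (cv m)))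
  have hH : ∀ m : α → ℤ, Measurable fun p : Matrix β β ℝ × Matrix β α ℝ => ∑' l : β → ℤ,
      if ¬ (m = 0 ∧ l = 0) then
        F X m (layer e X (cv m) ((cv l - p.2 *ᵥ cv m) ᵥ* dual p.1)) else 0 := fun m =>
    Measurable.tsum fun l => mixed_meas_ite _ ((hG m).comp (mixed_meas_arg m l))
  have h1 := fun m : α → ℤ => mixed_core1 h m _ (hG m)
  simp only [← h1]
  rw [← mixed_swap (fun m g t => ∑' l : β → ℤ, if ¬ (m = 0 ∧ l = 0) then
    F X m (layer e X (cv m) ((cv l - t *ᵥ cv m) ᵥ* dual g)) else 0) hH]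
  refine lintegral_congr_ae ?_
  filter_upwards [ae_mu_det] with g hg
  have hg0 : g.det ≠ 0 := fun h => by rw [h, abs_zero] at hg; exact zero_ne_one hg
  refine lintegral_congr fun t => ?_
  rw [mixed_tsum_sub (fun l : ι → ℤ => l ≠ 0) (fun l => F (cz (std e) * lift e X t g)
    (std e *ᵥ l) (lv l (dual (lift e X t g)))), ← (mixedSplit e).tsum_eq, ENNReal.tsum_prod']
  refine tsum_congr fun m => tsum_congr fun l => ?_
  by_cases hc : m = 0 ∧ l = 0
  · rw [if_neg (not_not.2 hc), if_neg (not_not.2 ((mixed_split_eq_zero e m l).2 hc))]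
  · rw [if_pos hc, if_pos (fun h => hc ((mixed_split_eq_zero e m l).1 h)), mixed_std_lift,
      mixed_std_split, ← lv_dual_lift e hX t hg0 m l]
    rfl

theorem mixed2 (h : 3 ≤ Fintype.card β)
    (F : Matrix α ι ℝ → (α → ℤ) → (α → ℤ) → (ι → ℝ) → (ι → ℝ) → ℝ≥0∞)
    (hF : ∀ m m', Measurable fun p : Matrix α ι ℝ × (ι → ℝ) × (ι → ℝ) =>
      F p.1 m m' p.2.1 p.2.2) :
    ∫⁻ g, ∑' P : {P : Matrix α ι ℤ // Prim P}, ∑' p : {p : (ι → ℤ) × (ι → ℤ) // Ind2 p},
      F (cz P.1 * g) (P.1 *ᵥ p.1.1) (P.1 *ᵥ p.1.2) (lv p.1.1 (dual g)) (lv p.1.2 (dual g))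
        ∂mu ι =
      cc ι β * ∫⁻ X : Matrix α ι ℝ, ∑' m : α → ℤ, ∑' m' : α → ℤ, ∫⁻ z, ∫⁻ z',
        F X m m' (layer e X (cv m) z) (layer e X (cv m') z') := by
  classical
  haveI : Nonempty β := Fintype.card_pos_iff.1 (by omega)
  rw [frame e (fun P g => ∑' p : {p : (ι → ℤ) × (ι → ℤ) // Ind2 p},
      F (cz P * g) (P *ᵥ p.1.1) (P *ᵥ p.1.2) (lv p.1.1 (dual g)) (lv p.1.2 (dual g)))
      (mixed_meas2 F hF) (mixed_equiv2 F)]
  congr 1
  refine lintegral_congr_ae ?_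
  filter_upwards [ae_blk e] with X hX
  have hG : ∀ m m' : α → ℤ, Measurable (Function.uncurry fun z z' : β → ℝ =>
      F X m m' (layer e X (cv m) z) (layer e X (cv m') z')) := fun m m' =>
    (hF m m').comp (f := fun p : (β → ℝ) × (β → ℝ) =>
      (X, layer e X (cv m) p.1, layer e X (cv m') p.2))
      (measurable_const.prodMk (((mixed_meas_layer e X (cv m)).comp measurable_fst).prodMk
        ((mixed_meas_layer e X (cv m')).comp measurable_snd)))
  have hH : ∀ q : (α → ℤ) × (α → ℤ), Measurable fun x : Matrix β β ℝ × Matrix β α ℝ =>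
      ∑' p : (β → ℤ) × (β → ℤ), if MixedInd q.1 q.2 p.1 p.2 then
        F X q.1 q.2 (layer e X (cv q.1) ((cv p.1 - x.2 *ᵥ cv q.1) ᵥ* dual x.1))
          (layer e X (cv q.2) ((cv p.2 - x.2 *ᵥ cv q.2) ᵥ* dual x.1)) else 0 := fun q =>
    Measurable.tsum fun p => mixed_meas_ite _ ((hG q.1 q.2).comp
      (f := fun x : Matrix β β ℝ × Matrix β α ℝ =>
        ((cv p.1 - x.2 *ᵥ cv q.1) ᵥ* dual x.1, (cv p.2 - x.2 *ᵥ cv q.2) ᵥ* dual x.1))
      ((mixed_meas_arg q.1 p.1).prodMk (mixed_meas_arg q.2 p.2)))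
  have h1 := fun m m' : α → ℤ => mixed_core2 h m m' _ (hG m m')
  simp only [← h1]
  rw [← ENNReal.tsum_prod, ← mixed_swap (fun (q : (α → ℤ) × (α → ℤ)) g t =>
    ∑' p : (β → ℤ) × (β → ℤ), if MixedInd q.1 q.2 p.1 p.2 then
        F X q.1 q.2 (layer e X (cv q.1) ((cv p.1 - t *ᵥ cv q.1) ᵥ* dual g))
          (layer e X (cv q.2) ((cv p.2 - t *ᵥ cv q.2) ᵥ* dual g)) else 0) hH]
  refine lintegral_congr_ae ?_
  filter_upwards [ae_mu_det] with g hg
  have hg0 : g.det ≠ 0 := fun h => by rw [h, abs_zero] at hg; exact zero_ne_one hg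
  refine lintegral_congr fun t => ?_
  let E : ((α → ℤ) × (α → ℤ)) × ((β → ℤ) × (β → ℤ)) ≃ (ι → ℤ) × (ι → ℤ) :=
    (Equiv.prodProdProdComm _ _ _ _).trans ((mixedSplit e).prodCongr (mixedSplit e))
  rw [mixed_tsum_sub (fun p : (ι → ℤ) × (ι → ℤ) => Ind2 p) (fun p => F (cz (std e) * lift e X t g)
    (std e *ᵥ p.1) (std e *ᵥ p.2) (lv p.1 (dual (lift e X t g))) (lv p.2 (dual (lift e X t g)))),
    ← E.tsum_eq, ENNReal.tsum_prod']
  refine tsum_congr fun q => tsum_congr fun p => ?_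
  have hE : E (q, p) = (mixedSplit e (q.1, p.1), mixedSplit e (q.2, p.2)) := rfl
  rw [hE]
  by_cases hc : MixedInd q.1 q.2 p.1 p.2
  · rw [if_pos hc, if_pos ((mixed_split_ind e _ _ _ _).2 hc), mixed_std_lift,
      mixed_std_split, mixed_std_split, ← lv_dual_lift e hX t hg0 q.1 p.1,
      ← lv_dual_lift e hX t hg0 q.2 p.2]
    rfl
  · rw [if_neg hc, if_neg (fun h => hc ((mixed_split_ind e _ _ _ _).1 h))]

theorem mixed1' (h : 2 ≤ Fintype.card β) (F : Matrix α ι ℝ → (α → ℤ) → (ι → ℝ) → ℝ≥0∞)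
    (hF : ∀ m, Measurable fun p : Matrix α ι ℝ × (ι → ℝ) => F p.1 m p.2) :
    ∫⁻ g, ∑' P : {P : Matrix α ι ℤ // Prim P}, ∑' l : {l : ι → ℤ // l ≠ 0},
      F (cz P.1 * dual g) (P.1 *ᵥ l.1) (lv l.1 g) ∂mu ι =
      cc ι β * ∫⁻ X : Matrix α ι ℝ, ∑' m : α → ℤ, ∫⁻ z, F X m (layer e X (cv m) z) := by
  rw [← mixed1 e h F hF, ← mixed_dualize (fun P g => ∑' l : {l : ι → ℤ // l ≠ 0},
      F (cz P * g) (P *ᵥ l.1) (lv l.1 (dual g))) (mixed_meas1 F hF) (mixed_equiv1 F)]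
  refine lintegral_congr_ae ?_
  filter_upwards [ae_mu_det] with g hg
  have hg0 : g.det ≠ 0 := fun h => by rw [h, abs_zero] at hg; exact zero_ne_one hg
  rw [dual_dual hg0]

theorem mixed2' (h : 3 ≤ Fintype.card β)
    (F : Matrix α ι ℝ → (α → ℤ) → (α → ℤ) → (ι → ℝ) → (ι → ℝ) → ℝ≥0∞)
    (hF : ∀ m m', Measurable fun p : Matrix α ι ℝ × (ι → ℝ) × (ι → ℝ) =>
      F p.1 m m' p.2.1 p.2.2) :
    ∫⁻ g, ∑' P : {P : Matrix α ι ℤ // Prim P}, ∑' p : {p : (ι → ℤ) × (ι → ℤ) // Ind2 p},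
      F (cz P.1 * dual g) (P.1 *ᵥ p.1.1) (P.1 *ᵥ p.1.2) (lv p.1.1 g) (lv p.1.2 g) ∂mu ι =
      cc ι β * ∫⁻ X : Matrix α ι ℝ, ∑' m : α → ℤ, ∑' m' : α → ℤ, ∫⁻ z, ∫⁻ z',
        F X m m' (layer e X (cv m) z) (layer e X (cv m') z') := by
  rw [← mixed2 e h F hF, ← mixed_dualize (fun P g => ∑' p : {p : (ι → ℤ) × (ι → ℤ) // Ind2 p},
      F (cz P * g) (P *ᵥ p.1.1) (P *ᵥ p.1.2) (lv p.1.1 (dual g)) (lv p.1.2 (dual g)))
      (mixed_meas2 F hF) (mixed_equiv2 F)]
  refine lintegral_congr_ae ?_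
  filter_upwards [ae_mu_det] with g hg
  have hg0 : g.det ≠ 0 := fun h => by rw [h, abs_zero] at hg; exact zero_ne_one hg
  rw [dual_dual hg0]

end Pool.Agent.Eps.H
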