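import Pool.Agent.Lib.MP_3bda03_nt.H.Radial
import Pool.Agent.Lib.MP_3bda03_nt.H.Poisson

/-!
A majorant for the Fourier transform of radial functions.
-/

set_option autoImplicit false

noncomputable section

open MeasureTheory Matrix
open scoped ENNReal

namespace Pool.Agent.Eps.H

theorem om_base {μ : ℝ} (hμ : 1 / 2 < μ) : Integrable fun η : ℝ => (1 + η ^ 2) ^ (-μ) := by
  have h := integrable_rpow_neg_one_add_norm_sq (E := ℝ) (μ := volume) (r := 2 * μ)
    (by simp only [Module.finrank_self, Nat.cast_one]; linarith)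
  refine h.congr (Filter.Eventually.of_forall fun η => ?_)
  simp only [Real.norm_eq_abs, sq_abs]
  congr 1
  ring

theorem om_scale {c : ℝ} (hc : 0 < c) (μ η : ℝ) :
    (c ^ 2 + (c * η) ^ 2) ^ (-μ) = c ^ (-(2 * μ)) * (1 + η ^ 2) ^ (-μ) := by
  have h1 : c ^ 2 + (c * η) ^ 2 = c ^ 2 * (1 + η ^ 2) := by ring
  rw [h1, Real.mul_rpow (by positivity) (by positivity)]
  congr 1
  rw [← Real.rpow_natCast, ← Real.rpow_mul hc.le]
  congr 1
  push_cast
  ring

theorem om_base' {μ c : ℝ} (hμ : 1 / 2 < μ) (hc : 0 < c) :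
    Integrable fun y : ℝ => (c ^ 2 + y ^ 2) ^ (-μ) := by
  have h : Integrable fun η : ℝ => (c ^ 2 + (c * η) ^ 2) ^ (-μ) := by
    simp_rw [om_scale hc]
    exact (om_base hμ).const_mul _
  exact (integrable_comp_mul_left_iff (fun y : ℝ => (c ^ 2 + y ^ 2) ^ (-μ)) hc.ne').1 h

theorem integrable_Om {m c B : ℝ} (hm : 1 < m) (hc : 0 < c) (hB : 0 ≤ B) :
    Integrable fun y : ℝ => (c ^ 2 + y ^ 2) ^ (-(m / 2)) * Real.exp (-(B * c / (c ^ 2 + y ^ 2))) := by
  refine (om_base' (μ := m / 2) (by linarith) hc).mono' ?_ (Filter.Eventually.of_forall fun y => ?_)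
  · exact Measurable.aestronglyMeasurable (by fun_prop)
  · have h1 : 0 < c ^ 2 + y ^ 2 := by positivity
    have h2 : 0 ≤ (c ^ 2 + y ^ 2) ^ (-(m / 2)) := Real.rpow_nonneg h1.le _
    rw [Real.norm_eq_abs, abs_of_nonneg (by positivity)]
    refine mul_le_of_le_one_right h2 ?_
    rw [Real.exp_le_one_iff]
    have : 0 ≤ B * c / (c ^ 2 + y ^ 2) := by positivity
    linarith

theorem Om_nonneg {m : ℝ} (hm : 0 < m) (c B : ℝ) : 0 ≤ Om m c B := by
  unfold Om
  have := Real.Gamma_pos_of_pos hm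
  have := Real.pi_pos
  refine mul_nonneg (by positivity) (integral_nonneg fun y => ?_)
  exact mul_nonneg (Real.rpow_nonneg (by positivity) _) (Real.exp_pos _).le

theorem Om_antitone {m c B B' : ℝ} (hm : 1 < m) (hc : 0 < c) (hB : 0 ≤ B) (h : B ≤ B') :
    Om m c B' ≤ Om m c B := by
  unfold Om
  have := Real.Gamma_pos_of_pos (by linarith : 0 < m)
  have := Real.pi_pos
  refine mul_le_mul_of_nonneg_left ?_ (by positivity)
  refine integral_mono (integrable_Om hm hc (hB.trans h)) (integrable_Om hm hc hB) fun y => ?_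
  have h1 : 0 < c ^ 2 + y ^ 2 := by positivity
  refine mul_le_mul_of_nonneg_left ?_ (Real.rpow_nonneg h1.le _)
  rw [Real.exp_le_exp, neg_le_neg_iff]
  gcongr

theorem measurable_Om (m : ℝ) : Measurable fun p : ℝ × ℝ => Om m p.1 p.2 := by
  unfold Om
  refine Measurable.mul (by fun_prop) ?_
  have h : StronglyMeasurable fun q : (ℝ × ℝ) × ℝ =>
      (q.1.1 ^ 2 + q.2 ^ 2) ^ (-(m / 2)) * Real.exp (-(q.1.2 * q.1.1 / (q.1.1 ^ 2 + q.2 ^ 2))) :=
    Measurable.stronglyMeasurable (by fun_prop)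
  exact (h.integral_prod_right' (ν := volume)).measurable

theorem om_subst {c : ℝ} (hc : 0 < c) (m B : ℝ) :
    Om m c B = Real.Gamma m * Real.exp c * c ^ (1 - m) / (2 * Real.pi) *
      ∫ η : ℝ, (1 + η ^ 2) ^ (-(m / 2)) * Real.exp (-(B / c / (1 + η ^ 2))) := by
  unfold Om
  have h := Measure.integral_comp_mul_left
    (fun y : ℝ => (c ^ 2 + y ^ 2) ^ (-(m / 2)) * Real.exp (-(B * c / (c ^ 2 + y ^ 2)))) c
  have h2 : ∀ η : ℝ, (c ^ 2 + (c * η) ^ 2) ^ (-(m / 2)) *
      Real.exp (-(B * c / (c ^ 2 + (c * η) ^ 2))) =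
      c ^ (-m) * ((1 + η ^ 2) ^ (-(m / 2)) * Real.exp (-(B / c / (1 + η ^ 2)))) := by
    intro η
    rw [om_scale hc]
    have e1 : -(2 * (m / 2)) = -m := by ring
    have e2 : B * c / (c ^ 2 + (c * η) ^ 2) = B / c / (1 + η ^ 2) := by
      field_simp
    rw [e1, e2, mul_assoc]
  simp_rw [h2] at h
  rw [integral_const_mul, abs_of_pos (inv_pos.2 hc), smul_eq_mul] at h
  have h3 : (∫ y : ℝ, (c ^ 2 + y ^ 2) ^ (-(m / 2)) * Real.exp (-(B * c / (c ^ 2 + y ^ 2)))) =
      c * (c ^ (-m) *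
        ∫ η : ℝ, (1 + η ^ 2) ^ (-(m / 2)) * Real.exp (-(B / c / (1 + η ^ 2)))) := by
    rw [h, ← mul_assoc, mul_inv_cancel₀ hc.ne', one_mul]
  have h4 : c ^ (1 - m) = c * c ^ (-m) := by
    rw [sub_eq_add_neg, Real.rpow_add hc, Real.rpow_one]
  rw [h3, h4]
  ring

theorem om_le_of {m c B θ K : ℝ} (hm : 0 < m) (hc : 0 < c) (h : θ + 1 / 2 < m / 2)
    (hK : ∀ η : ℝ, Real.exp (-(B / c / (1 + η ^ 2))) ≤ K * (1 + η ^ 2) ^ θ) :
    Om m c B ≤ Real.Gamma m * Real.exp c * c ^ (1 - m) / (2 * Real.pi) * K *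
      ∫ η : ℝ, (1 + η ^ 2) ^ (-(m / 2 - θ)) := by
  rw [om_subst hc, mul_assoc _ K, ← integral_const_mul K]
  have := Real.Gamma_pos_of_pos hm
  have := Real.pi_pos
  have hc' : 0 < c ^ (1 - m) := Real.rpow_pos_of_pos hc _
  have hc'' : 0 ≤ Real.Gamma m * Real.exp c * c ^ (1 - m) / (2 * Real.pi) := by positivity
  refine mul_le_mul_of_nonneg_left ?_ hc''
  refine integral_mono_of_nonneg (Filter.Eventually.of_forall fun η => ?_)
    ((om_base (μ := m / 2 - θ) (by linarith)).const_mul K)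
    (Filter.Eventually.of_forall fun η => ?_)
  · exact mul_nonneg (Real.rpow_nonneg (by positivity) _) (Real.exp_pos _).le
  · have h1 : (0 : ℝ) < 1 + η ^ 2 := by positivity
    have h2 : (1 + η ^ 2) ^ (-(m / 2 - θ)) = (1 + η ^ 2) ^ (-(m / 2)) * (1 + η ^ 2) ^ θ := by
      rw [← Real.rpow_add h1]
      congr 1
      ring
    have h3 := mul_le_mul_of_nonneg_left (hK η) (Real.rpow_nonneg h1.le (-(m / 2)))
    show (1 + η ^ 2) ^ (-(m / 2)) * Real.exp (-(B / c / (1 + η ^ 2))) ≤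
      K * (1 + η ^ 2) ^ (-(m / 2 - θ))
    rw [h2]
    calc _ ≤ _ := h3
      _ = _ := by ring

/-- exponential decay -/
theorem Om_le_exp {m c B : ℝ} (hm : 0 < m) (hc : 0 < c) (hB : 0 ≤ B) (h : B / c + 1 / 2 < m / 2) :
    Om m c B ≤ Real.Gamma m * Real.exp c * c ^ (1 - m) / (2 * Real.pi) * Real.exp (-(B / c)) *
      ∫ η : ℝ, (1 + η ^ 2) ^ (-(m / 2 - B / c)) := by
  refine om_le_of hm hc h fun η => ?_
  have h1 : (0 : ℝ) < 1 + η ^ 2 := by positivity
  rw [Real.rpow_def_of_pos h1, ← Real.exp_add, Real.exp_le_exp]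
  have h2 := Real.one_sub_inv_le_log_of_pos h1
  have h3 : 0 ≤ B / c := by positivity
  have h4 := mul_le_mul_of_nonneg_left h2 h3
  rw [div_eq_mul_inv (B / c)]
  nlinarith

/-- power decay -/
theorem Om_le_pow {m c B θ : ℝ} (hm : 0 < m) (hc : 0 < c) (hB : 0 < B) (hθ : 0 < θ)
    (h : θ + 1 / 2 < m / 2) :
    Om m c B ≤ Real.Gamma m * Real.exp c * c ^ (1 - m) / (2 * Real.pi) *
      (θ * c / (Real.exp 1 * B)) ^ θ * ∫ η : ℝ, (1 + η ^ 2) ^ (-(m / 2 - θ)) := by
  refine om_le_of hm hc h fun η => ?_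
  have h1 : (0 : ℝ) < 1 + η ^ 2 := by positivity
  have he := Real.exp_pos 1
  rw [← Real.mul_rpow (by positivity) h1.le]
  set x : ℝ := B / c / (1 + η ^ 2) with hx
  have hx0 : 0 < x := by positivity
  have e1 : θ * c / (Real.exp 1 * B) * (1 + η ^ 2) = (Real.exp 1 * (x / θ))⁻¹ := by
    rw [hx]
    field_simp
  have hxθ : 0 < x / θ := by positivity
  rw [e1, Real.rpow_def_of_pos (by positivity), Real.exp_le_exp, Real.log_inv,
    Real.log_mul he.ne' hxθ.ne', Real.log_exp]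
  have h2 := Real.log_le_sub_one_of_pos hxθ
  have h3 := mul_le_mul_of_nonneg_left h2 hθ.le
  have h4 : θ * (x / θ - 1) = x - θ := by field_simp
  nlinarith

theorem integral_one_add_sq_le {μ : ℝ} (hμ : 1 < μ) :
    ∫ η : ℝ, (1 + η ^ 2) ^ (-μ) ≤ Real.sqrt (Real.pi / (μ - 1)) := by
  have h0 : (∫ η : ℝ, (1 + η ^ 2) ^ (-μ)) = 2 * ∫ η in Set.Ioi (0 : ℝ), (1 + η ^ 2) ^ (-μ) := by
    rw [← integral_comp_abs (f := fun η : ℝ => (1 + η ^ 2) ^ (-μ))]
    simp only [sq_abs]
  let g : ℝ → ℝ := fun u => Real.sqrt (Real.exp (u ^ 2) - 1)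
  let g' : ℝ → ℝ := fun u => Real.exp (u ^ 2) * (2 * u) / (2 * Real.sqrt (Real.exp (u ^ 2) - 1))
  have hpos : ∀ u ∈ Set.Ioi (0 : ℝ), 0 < Real.exp (u ^ 2) - 1 := by
    intro u hu
    have hu' : (0 : ℝ) < u := hu
    have : 1 < Real.exp (u ^ 2) := Real.one_lt_exp_iff.2 (by positivity)
    linarith
  have hd : ∀ u ∈ Set.Ioi (0 : ℝ), HasDerivWithinAt g (g' u) (Set.Ioi 0) u := by
    intro u hu
    have h1 : HasDerivAt (fun u : ℝ => Real.exp (u ^ 2) - 1) (Real.exp (u ^ 2) * (2 * u)) u := by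
      have h2 : HasDerivAt (fun u : ℝ => u ^ 2) (2 * u) u := by
        simpa using hasDerivAt_pow 2 u
      exact h2.exp.sub_const 1
    exact (h1.sqrt (hpos u hu).ne').hasDerivWithinAt
  have hinj : Set.InjOn g (Set.Ioi 0) := by
    intro u hu v hv huv
    have h1 := (Real.sqrt_inj (hpos u hu).le (hpos v hv).le).1 huv
    have h2 : u ^ 2 = v ^ 2 := Real.exp_injective (by linarith)
    exact (pow_left_inj₀ (le_of_lt hu) (le_of_lt hv) two_ne_zero).1 h2
  have him : g '' Set.Ioi 0 = Set.Ioi 0 := by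
    ext η
    constructor
    · rintro ⟨u, hu, rfl⟩
      exact Real.sqrt_pos.2 (hpos u hu)
    · intro hη
      have hη' : (0 : ℝ) < η := hη
      have hl : 0 < Real.log (1 + η ^ 2) := Real.log_pos (by nlinarith)
      refine ⟨Real.sqrt (Real.log (1 + η ^ 2)), Real.sqrt_pos.2 hl, ?_⟩
      show Real.sqrt (Real.exp (Real.sqrt (Real.log (1 + η ^ 2)) ^ 2) - 1) = η
      rw [Real.sq_sqrt hl.le, Real.exp_log (by positivity), add_sub_cancel_left,
        Real.sqrt_sq hη'.le]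
  have h1 := integral_image_eq_integral_abs_deriv_smul measurableSet_Ioi hd hinj
    (fun η : ℝ => (1 + η ^ 2) ^ (-μ))
  rw [him] at h1
  have h2 := integral_gaussian_Ioi (μ - 1)
  have h3 : (∫ u in Set.Ioi (0 : ℝ), |g' u| • (1 + g u ^ 2) ^ (-μ)) ≤
      ∫ u in Set.Ioi (0 : ℝ), Real.exp (-(μ - 1) * u ^ 2) := by
    refine integral_mono_of_nonneg (Filter.Eventually.of_forall fun u => ?_)
      (integrable_exp_neg_mul_sq (by linarith : 0 < μ - 1)).integrableOn ?_
    · exact smul_nonneg (abs_nonneg _) (Real.rpow_nonneg (by positivity) _)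
    · filter_upwards [ae_restrict_mem measurableSet_Ioi] with u hu
      have hu' : (0 : ℝ) < u := hu
      have hp := hpos u hu
      have hs := Real.sqrt_pos.2 hp
      have e1 : 1 + g u ^ 2 = Real.exp (u ^ 2) := by
        show 1 + Real.sqrt (Real.exp (u ^ 2) - 1) ^ 2 = _
        rw [Real.sq_sqrt hp.le]
        ring
      have e2 : g' u ≤ Real.exp (u ^ 2) := by
        show Real.exp (u ^ 2) * (2 * u) / (2 * Real.sqrt (Real.exp (u ^ 2) - 1)) ≤ _
        rw [div_le_iff₀ (by positivity)]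
        refine mul_le_mul_of_nonneg_left ?_ (Real.exp_pos _).le
        have : u ≤ Real.sqrt (Real.exp (u ^ 2) - 1) := by
          refine Real.le_sqrt_of_sq_le ?_
          have := Real.add_one_le_exp (u ^ 2)
          linarith
        linarith
      have e3 : 0 ≤ g' u := by
        show 0 ≤ Real.exp (u ^ 2) * (2 * u) / (2 * Real.sqrt (Real.exp (u ^ 2) - 1))
        positivity
      rw [e1, abs_of_nonneg e3, smul_eq_mul, ← Real.exp_mul]
      calc g' u * Real.exp (u ^ 2 * -μ) ≤ Real.exp (u ^ 2) * Real.exp (u ^ 2 * -μ) :=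
            mul_le_mul_of_nonneg_right e2 (Real.exp_pos _).le
        _ = _ := by
            rw [← Real.exp_add]
            congr 1
            ring
  rw [h0, h1]
  linarith

/-- the radial density -/
def omDens (m ρ : ℝ) : ℝ := Real.pi ^ m / Real.Gamma m * ρ ^ (m - 1)

/-- the radial measure -/
def omNu (m : ℝ) : Measure ℝ :=
  (volume.restrict (Set.Ioi (0 : ℝ))).withDensity fun ρ => ENNReal.ofReal (omDens m ρ)

instance omNu_sfinite (m : ℝ) : SFinite (omNu m) := by
  unfold omNu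
  infer_instance

theorem om_meas_dens (m : ℝ) : Measurable (omDens m) := by
  unfold omDens
  fun_prop

theorem om_dens_pos {m ρ : ℝ} (hm : 0 < m) (hρ : 0 < ρ) : 0 < omDens m ρ := by
  unfold omDens
  have := Real.Gamma_pos_of_pos hm
  have := Real.pi_pos
  positivity

theorem om_ae_pos (m : ℝ) : ∀ᵐ ρ ∂omNu m, 0 < ρ :=
  (withDensity_absolutelyContinuous _ _).ae_le (ae_restrict_mem measurableSet_Ioi)

/-- the spherical mean of the cosine -/
def omS {ι : Type} [Fintype ι] (σ : Measure (ι → ℝ)) (w : ι → ℝ) (ρ : ℝ) : ℝ :=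
  ∫ θ, Real.cos (2 * Real.pi * (w ⬝ᵥ (Real.sqrt ρ • θ))) ∂σ

theorem om_cont_S {ι : Type} [Fintype ι] (σ : Measure (ι → ℝ)) [IsProbabilityMeasure σ]
    (w : ι → ℝ) : Continuous (omS σ w) := by
  unfold omS
  refine continuous_of_dominated (bound := fun _ => (1 : ℝ)) (fun ρ => ?_)
    (fun ρ => Filter.Eventually.of_forall fun θ => ?_) (integrable_const _)
    (Filter.Eventually.of_forall fun θ => ?_)
  · exact Continuous.aestronglyMeasurable (by fun_prop)
  · exact Real.abs_cos_le_one _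
  · fun_prop

theorem om_abs_S {ι : Type} [Fintype ι] (σ : Measure (ι → ℝ)) [IsProbabilityMeasure σ]
    (w : ι → ℝ) (ρ : ℝ) : |omS σ w ρ| ≤ 1 := by
  have h := norm_integral_le_of_norm_le_const (μ := σ) (C := 1)
    (f := fun θ : ι → ℝ => Real.cos (2 * Real.pi * (w ⬝ᵥ (Real.sqrt ρ • θ))))
    (Filter.Eventually.of_forall fun θ => Real.abs_cos_le_one _)
  simpa [omS] using h

theorem om_nsq_smul {ι : Type} [Fintype ι] (a : ℝ) (x : ι → ℝ) : nsq (a • x) = a ^ 2 * nsq x := by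
  simp [nsq, Finset.mul_sum, mul_pow]

theorem om_polar {ι : Type} [Fintype ι] {E : Type} [NormedAddCommGroup E] [NormedSpace ℝ E]
    [CompleteSpace E] {m : ℝ} {σ : Measure (ι → ℝ)} [IsProbabilityMeasure σ]
    (h1 : ∀ᵐ θ ∂σ, nsq θ = 1)
    (hT : MeasurePreserving (fun p : ℝ × (ι → ℝ) => Real.sqrt p.1 • p.2) ((omNu m).prod σ) volume)
    (w : ι → ℝ) {G : ℝ → E} (hG : Integrable fun x : ι → ℝ => G (nsq x)) :
    ∫ x : ι → ℝ, Real.cos (2 * Real.pi * (w ⬝ᵥ x)) • G (nsq x) = ∫ ρ, omS σ w ρ • G ρ ∂omNu m := by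
  have hf : Integrable fun x : ι → ℝ => Real.cos (2 * Real.pi * (w ⬝ᵥ x)) • G (nsq x) := by
    refine hG.mono (AEStronglyMeasurable.smul ?_ hG.1) (Filter.Eventually.of_forall fun x => ?_)
    · exact Continuous.aestronglyMeasurable (by fun_prop)
    · rw [norm_smul]
      exact mul_le_of_le_one_left (norm_nonneg _) (Real.abs_cos_le_one _)
  have hf' := hT.integrable_comp_of_integrable hf
  have e1 := integral_map (μ := (omNu m).prod σ) hT.measurable.aemeasurable
    (f := fun x : ι → ℝ => Real.cos (2 * Real.pi * (w ⬝ᵥ x)) • G (nsq x))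
    (by rw [hT.map_eq]; exact hf.1)
  rw [hT.map_eq] at e1
  rw [e1]
  refine (integral_prod _ hf').trans (integral_congr_ae ?_)
  filter_upwards [om_ae_pos m] with ρ hρ
  rw [omS, ← integral_smul_const]
  refine integral_congr_ae ?_
  filter_upwards [h1] with θ hθ
  simp only [Function.comp]
  rw [om_nsq_smul, hθ, Real.sq_sqrt hρ.le, mul_one]

theorem om_gauss {ι : Type} [Fintype ι] {b : ℂ} (hb : 0 < b.re) (w : ι → ℝ) :
    (Integrable fun x : ι → ℝ => Complex.exp (-b * (nsq x : ℝ))) ∧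
    ∫ x : ι → ℝ, Real.cos (2 * Real.pi * (w ⬝ᵥ x)) • Complex.exp (-b * (nsq x : ℝ)) =
      (Real.pi / b) ^ ((Fintype.card ι : ℂ) / 2) *
        Complex.exp (-((Real.pi ^ 2 * nsq w : ℝ) / b)) := by
  have hb0 : b ≠ 0 := by
    rintro rfl
    simp at hb
  have hn : ∀ x : ι → ℝ, ((nsq x : ℝ) : ℂ) = ∑ i, (x i : ℂ) ^ 2 := by
    intro x
    simp [nsq]
  constructor
  · have h := GaussianFourier.integrable_cexp_neg_mul_sum_add (ι := ι) hb (fun _ => 0)
    simpa [hn] using h
  · have i1 := GaussianFourier.integrable_cexp_neg_mul_sum_add (ι := ι) hb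
      (fun i => 2 * Real.pi * Complex.I * w i)
    have i2 := GaussianFourier.integrable_cexp_neg_mul_sum_add (ι := ι) hb
      (fun i => -(2 * Real.pi * Complex.I * w i))
    have j1 := GaussianFourier.integral_cexp_neg_mul_sum_add (ι := ι) hb
      (fun i => 2 * Real.pi * Complex.I * w i)
    have j2 := GaussianFourier.integral_cexp_neg_mul_sum_add (ι := ι) hb
      (fun i => -(2 * Real.pi * Complex.I * w i))
    have k1 : (∑ i, (2 * Real.pi * Complex.I * w i : ℂ) ^ 2) / (4 * b) =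
        -((Real.pi ^ 2 * nsq w : ℝ) / b) := by
      have : (∑ i, (2 * Real.pi * Complex.I * w i : ℂ) ^ 2) =
          -(4 * (Real.pi : ℂ) ^ 2) * ∑ i, (w i : ℂ) ^ 2 := by
        rw [Finset.mul_sum]
        refine Finset.sum_congr rfl fun i _ => ?_
        rw [mul_pow, mul_pow, Complex.I_sq]
        ring
      rw [this]
      push_cast
      rw [hn]
      field_simp
    simp only [even_two.neg_pow] at j2
    rw [k1] at j1 j2
    have e : ∀ x : ι → ℝ, Real.cos (2 * Real.pi * (w ⬝ᵥ x)) • Complex.exp (-b * (nsq x : ℝ)) =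
        (1 / 2 : ℂ) * (Complex.exp (-b * ∑ i, (x i : ℂ) ^ 2 +
            ∑ i, 2 * Real.pi * Complex.I * w i * x i) +
          Complex.exp (-b * ∑ i, (x i : ℂ) ^ 2 +
            ∑ i, -(2 * Real.pi * Complex.I * w i) * x i)) := by
      intro x
      have s1 : (∑ i, 2 * Real.pi * Complex.I * w i * x i : ℂ) =
          ((2 * Real.pi * (w ⬝ᵥ x) : ℝ) : ℂ) * Complex.I := by
        simp only [dotProduct]
        push_cast
        rw [Finset.mul_sum, Finset.sum_mul]
        refine Finset.sum_congr rfl fun i _ => by ring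
      have s2 : (∑ i, -(2 * Real.pi * Complex.I * w i) * x i : ℂ) =
          -((2 * Real.pi * (w ⬝ᵥ x) : ℝ) : ℂ) * Complex.I := by
        rw [neg_mul, ← s1, ← Finset.sum_neg_distrib]
        refine Finset.sum_congr rfl fun i _ => by ring
      rw [s1, s2, Complex.real_smul, Complex.ofReal_cos, Complex.cos, hn, Complex.exp_add,
        Complex.exp_add]
      ring
    simp_rw [e]
    rw [integral_const_mul, integral_add i1 i2, j1, j2]
    ring

theorem om_norm_gauss {n : ℕ} {ρ c y W : ℝ} (hρ : 0 < ρ) (hc : 0 < c) {b : ℂ}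
    (hre : b.re = c / ρ) (him : b.im = y / ρ) :
    ‖(Real.pi / b) ^ ((n : ℂ) / 2) * Complex.exp (-((W : ℝ) / b))‖ =
      Real.pi ^ ((n : ℝ) / 2) * ρ ^ ((n : ℝ) / 2) * ((c ^ 2 + y ^ 2) ^ (-((n : ℝ) / 2 / 2)) *
        Real.exp (-(W * ρ * c / (c ^ 2 + y ^ 2)))) := by
  have hcy : 0 < c ^ 2 + y ^ 2 := by positivity
  have hns : Complex.normSq b = (c ^ 2 + y ^ 2) / ρ ^ 2 := by
    rw [Complex.normSq_apply, hre, him]
    field_simp
  have hnb : ‖b‖ = (c ^ 2 + y ^ 2) ^ (1 / 2 : ℝ) / ρ := by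
    rw [Complex.norm_def, hns, Real.sqrt_div hcy.le, Real.sqrt_sq hρ.le, Real.sqrt_eq_rpow]
  have e1 : ((n : ℂ) / 2) = (((n : ℝ) / 2 : ℝ) : ℂ) := by push_cast; ring
  rw [norm_mul, e1, Complex.norm_cpow_real, Complex.norm_exp, norm_div, Complex.norm_real,
    Real.norm_eq_abs, abs_of_pos Real.pi_pos, hnb]
  have e2 : (-((W : ℂ) / b)).re = -(W * ρ * c / (c ^ 2 + y ^ 2)) := by
    rw [Complex.neg_re, Complex.div_re, hns, hre]
    simp only [Complex.ofReal_re, Complex.ofReal_im, zero_mul, zero_div, add_zero]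
    field_simp
  have hp : 0 < (c ^ 2 + y ^ 2) ^ (1 / 2 : ℝ) := Real.rpow_pos_of_pos hcy _
  have e3 : Real.pi / ((c ^ 2 + y ^ 2) ^ (1 / 2 : ℝ) / ρ) =
      Real.pi * ρ * (c ^ 2 + y ^ 2) ^ (-(1 / 2) : ℝ) := by
    rw [Real.rpow_neg hcy.le]
    field_simp
  rw [e2, e3, Real.mul_rpow (by have := Real.pi_pos; positivity) (Real.rpow_nonneg hcy.le _),
    Real.mul_rpow Real.pi_pos.le hρ.le, ← Real.rpow_mul hcy.le]
  have e4 : -(1 / 2) * ((n : ℝ) / 2) = -((n : ℝ) / 2 / 2) := by ring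
  rw [e4]
  ring

theorem om_key {ι : Type} [Fintype ι] (h3 : 3 ≤ Fintype.card ι) {σ : Measure (ι → ℝ)}
    [IsProbabilityMeasure σ] (h1 : ∀ᵐ θ ∂σ, nsq θ = 1)
    (hT : MeasurePreserving (fun p : ℝ × (ι → ℝ) => Real.sqrt p.1 • p.2)
      ((omNu ((Fintype.card ι : ℝ) / 2)).prod σ) volume)
    (w : ι → ℝ) {ρ c : ℝ} (hρ : 0 < ρ) (hc : 0 < c) :
    |omS σ w ρ| ≤ Om ((Fintype.card ι : ℝ) / 2) c (Real.pi ^ 2 * ρ * nsq w) := by
  set m : ℝ := (Fintype.card ι : ℝ) / 2 with hm
  have hm1 : 1 < m := by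
    have : (3 : ℝ) ≤ Fintype.card ι := by exact_mod_cast h3
    rw [hm]
    linarith
  have hm0 : 0 < m := by linarith
  have hπ := Real.pi_pos
  have hΓ := Real.Gamma_pos_of_pos hm0
  have hW : 0 ≤ nsq w := Finset.sum_nonneg fun i _ => sq_nonneg _
  set a : ℝ := c / ρ with ha
  have ha0 : 0 < a := by positivity
  let u0 : ℝ → ℂ := fun r => ((omDens m r * (omS σ w r * Real.exp (-a * r)) : ℝ) : ℂ)
  let u : ℝ → ℂ := (Set.Ioi (0 : ℝ)).indicator u0
  have hS := om_cont_S σ w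
  have hu : Integrable u := by
    refine (integrable_indicator_iff measurableSet_Ioi).2 ?_
    have hI := (integrableOn_rpow_mul_exp_neg_mul_rpow (s := m - 1) (p := 1) (b := a)
      (by linarith) one_pos ha0).const_mul (Real.pi ^ m / Real.Gamma m)
    refine Integrable.mono' hI ?_ ?_
    · refine Measurable.aestronglyMeasurable ?_
      exact Complex.measurable_ofReal.comp ((om_meas_dens m).mul (hS.measurable.mul (by fun_prop)))
    · filter_upwards [ae_restrict_mem measurableSet_Ioi] with r hr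
      have hd := om_dens_pos hm0 hr
      show ‖((omDens m r * (omS σ w r * Real.exp (-a * r)) : ℝ) : ℂ)‖ ≤ _
      rw [Complex.norm_real, Real.norm_eq_abs, abs_mul, abs_mul, abs_of_pos hd,
        abs_of_pos (Real.exp_pos _), Real.rpow_one, ← mul_assoc (Real.pi ^ m / Real.Gamma m)]
      refine mul_le_mul_of_nonneg_left ?_ hd.le
      exact mul_le_of_le_one_left (Real.exp_pos _).le (om_abs_S σ w r)
  have hcont : ContinuousAt u ρ := by
    have hd : ContinuousAt (omDens m) ρ := by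
      unfold omDens
      exact continuousAt_const.mul (Real.continuousAt_rpow_const _ _ (Or.inl hρ.ne'))
    have h0 : ContinuousAt u0 ρ :=
      Complex.continuous_ofReal.continuousAt.comp (hd.mul (hS.continuousAt.mul (by fun_prop)))
    refine h0.congr ?_
    filter_upwards [Ioi_mem_nhds hρ] with r hr
    exact (Set.indicator_of_mem hr u0).symm
  let K : ℝ → ℝ := fun y => (c ^ 2 + y ^ 2) ^ (-(m / 2)) *
    Real.exp (-(Real.pi ^ 2 * ρ * nsq w * c / (c ^ 2 + y ^ 2)))
  have hK : Integrable K := integrable_Om hm1 hc (by positivity)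
  have hF : ∀ ξ : ℝ, ‖FourierTransform.fourier u ξ‖ =
      Real.pi ^ m * ρ ^ m * K (2 * Real.pi * ρ * ξ) := by
    intro ξ
    let b : ℂ := a + (2 * Real.pi * ξ : ℝ) * Complex.I
    have hre : b.re = c / ρ := by simp [b, ha]
    have him : b.im = (2 * Real.pi * ρ * ξ) / ρ := by
      simp only [b, Complex.add_im, Complex.ofReal_im, Complex.mul_im, Complex.ofReal_re,
        Complex.I_im, Complex.I_re, mul_one, mul_zero, add_zero, zero_add]
      field_simp
    have hb : 0 < b.re := by rw [hre]; positivity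
    obtain ⟨g1, g2⟩ := om_gauss hb w
    have g3 := om_polar (E := ℂ) h1 hT w (G := fun r : ℝ => Complex.exp (-b * r)) g1
    have g4 : FourierTransform.fourier u ξ =
        ∫ r, omS σ w r • Complex.exp (-b * r) ∂omNu m := by
      rw [Real.fourier_real_eq_integral_exp_smul, omNu,
        integral_withDensity_eq_integral_toReal_smul (om_meas_dens m).ennreal_ofReal
          (Filter.Eventually.of_forall fun _ => ENNReal.ofReal_lt_top),
        ← integral_indicator measurableSet_Ioi]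
      refine integral_congr_ae (Filter.Eventually.of_forall fun r => ?_)
      by_cases hr : r ∈ Set.Ioi (0 : ℝ)
      · simp only [u, Set.indicator_of_mem hr, u0]
        rw [ENNReal.toReal_ofReal (om_dens_pos hm0 hr).le]
        simp only [smul_eq_mul, Complex.real_smul, b]
        push_cast
        have : Complex.exp (-((a : ℂ) + 2 * Real.pi * ξ * Complex.I) * r) =
            Complex.exp (-2 * Real.pi * r * ξ * Complex.I) * Complex.exp (-a * r) := by
          rw [← Complex.exp_add]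
          congr 1
          ring
        rw [this]
        ring
      · simp only [u, Set.indicator_of_notMem hr, smul_zero]
    rw [g4, ← g3, g2, om_norm_gauss hρ hc hre him]
    simp only [K, hm]
    congr 5
    ring
  have hK' : Integrable fun ξ : ℝ => Real.pi ^ m * ρ ^ m * K (2 * Real.pi * ρ * ξ) :=
    (hK.comp_mul_left' (by positivity)).const_mul _
  have hFu : Integrable (FourierTransform.fourier u) := by
    refine hK'.mono' ?_ (Filter.Eventually.of_forall fun ξ => (hF ξ).le)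
    exact (VectorFourier.fourierIntegral_continuous Real.continuous_fourierChar
      (by fun_prop) hu).aestronglyMeasurable
  have hinv := hu.fourierInv_fourier_eq hFu hcont
  have hle : ‖u ρ‖ ≤ ∫ ξ : ℝ, Real.pi ^ m * ρ ^ m * K (2 * Real.pi * ρ * ξ) := by
    rw [← hinv, Real.fourierInv_eq]
    refine (norm_integral_le_integral_norm _).trans (le_of_eq ?_)
    refine integral_congr_ae (Filter.Eventually.of_forall fun ξ => ?_)
    simp only [Circle.norm_smul]
    exact hF ξ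
  rw [integral_const_mul, Measure.integral_comp_mul_left K, smul_eq_mul,
    abs_of_pos (by positivity)] at hle
  have hd := om_dens_pos hm0 hρ
  have huρ : ‖u ρ‖ = omDens m ρ * (|omS σ w ρ| * Real.exp (-c)) := by
    have hρ' : ρ ∈ Set.Ioi (0 : ℝ) := hρ
    simp only [u, Set.indicator_of_mem hρ', u0]
    have : -a * ρ = -c := by rw [ha]; field_simp
    rw [Complex.norm_real, Real.norm_eq_abs, abs_mul, abs_mul, abs_of_pos hd,
      abs_of_pos (Real.exp_pos _), this]
  rw [huρ] at hle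
  have hec := Real.exp_pos c
  have hpow : ρ ^ m = ρ ^ (m - 1) * ρ := by
    rw [Real.rpow_sub_one hρ.ne']
    field_simp
  have hρm : 0 < ρ ^ (m - 1) := Real.rpow_pos_of_pos hρ _
  have hπm : 0 < Real.pi ^ m := Real.rpow_pos_of_pos hπ _
  have hfin : Om m c (Real.pi ^ 2 * ρ * nsq w) * (omDens m ρ * Real.exp (-c)) =
      Real.pi ^ m * ρ ^ m * ((2 * Real.pi * ρ)⁻¹ * ∫ y, K y) := by
    unfold Om omDens
    rw [hpow, Real.exp_neg]
    show Real.Gamma m * Real.exp c / (2 * Real.pi) * (∫ y, K y) * _ = _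
    field_simp
  rw [← hfin] at hle
  have hpos : 0 < omDens m ρ * Real.exp (-c) := mul_pos hd (Real.exp_pos _)
  refine le_of_mul_le_mul_right ?_ hpos
  calc _ = omDens m ρ * (|omS σ w ρ| * Real.exp (-c)) := by ring
    _ ≤ _ := hle

/-- the majorant, with a contour that may depend on the radius -/
theorem abs_ftr_le {ι : Type} [Fintype ι] (h3 : 3 ≤ Fintype.card ι) {φ c : ℝ → ℝ}
    (hφ : Measurable φ) (hi : Integrable fun x : ι → ℝ => φ (nsq x)) (hc : Measurable c)
    (hc0 : ∀ ρ, 0 < c ρ) (w : ι → ℝ) :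
    ‖ftr (fun x : ι → ℝ => φ (nsq x)) w‖ₑ ≤ ∫⁻ x : ι → ℝ, ‖φ (nsq x)‖ₑ * ENNReal.ofReal
      (Om ((Fintype.card ι : ℝ) / 2) (c (nsq x)) (Real.pi ^ 2 * nsq x * nsq w)) := by
  have : Nonempty ι := Fintype.card_pos_iff.1 (by omega)
  obtain ⟨σ, hσ, h1, -, hT⟩ := exists_sph (ι := ι)
  have hT' : MeasurePreserving (fun p : ℝ × (ι → ℝ) => Real.sqrt p.1 • p.2)
      ((omNu ((Fintype.card ι : ℝ) / 2)).prod σ) volume := hT
  have e1 : ftr (fun x : ι → ℝ => φ (nsq x)) w =
      ∫ ρ, omS σ w ρ • φ ρ ∂omNu ((Fintype.card ι : ℝ) / 2) := by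
    rw [← om_polar h1 hT' w hi, ftr]
    simp only [smul_eq_mul, mul_comm]
  have hΦ : Measurable fun ρ : ℝ => ‖φ ρ‖ₑ * ENNReal.ofReal
      (Om ((Fintype.card ι : ℝ) / 2) (c ρ) (Real.pi ^ 2 * ρ * nsq w)) := by
    refine hφ.enorm.mul (Measurable.ennreal_ofReal ?_)
    exact (measurable_Om _).comp
      (f := fun ρ : ℝ => (c ρ, Real.pi ^ 2 * ρ * nsq w)) (hc.prodMk (by fun_prop))
  rw [e1, lintegral_radial _ hΦ]
  refine (enorm_integral_le_lintegral_enorm _).trans ?_
  refine (lintegral_mono_ae (g := fun ρ : ℝ => ‖φ ρ‖ₑ * ENNReal.ofReal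
      (Om ((Fintype.card ι : ℝ) / 2) (c ρ) (Real.pi ^ 2 * ρ * nsq w))) ?_).trans (le_of_eq ?_)
  · filter_upwards [om_ae_pos ((Fintype.card ι : ℝ) / 2)] with ρ hρ
    rw [enorm_smul, mul_comm, Real.enorm_eq_ofReal_abs (omS σ w ρ)]
    exact mul_le_mul_right (ENNReal.ofReal_le_ofReal (om_key h3 h1 hT' w hρ (hc0 ρ))) _
  · rw [omNu, lintegral_withDensity_eq_lintegral_mul _ (om_meas_dens _).ennreal_ofReal hΦ]
    refine lintegral_congr fun ρ => ?_
    simp only [Pi.mul_apply, omDens]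
    rw [mul_comm]

end Pool.Agent.Eps.H
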