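import Pool.Agent.Lib.MP_3bda03_nt.H.Siegel

/-!
The mean value formula for independent tuples.
-/

set_option autoImplicit false

noncomputable section

open MeasureTheory Matrix
open scoped ENNReal

namespace Pool.Agent.Eps.H

section
open Classical in
/-- a value switched on by a condition -/
def rogers_on (p : Prop) (x : ℝ≥0∞) : ℝ≥0∞ := if p then x else 0

theorem rogers_on_pos {p : Prop} (h : p) (x : ℝ≥0∞) : rogers_on p x = x := by
  unfold rogers_on
  exact if_pos h

theorem rogers_on_neg {p : Prop} (h : ¬ p) (x : ℝ≥0∞) : rogers_on p x = 0 := by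
  unfold rogers_on
  exact if_neg h

theorem rogers_on_congr {p q : Prop} (h : p ↔ q) (x : ℝ≥0∞) : rogers_on p x = rogers_on q x := by
  rw [propext h]

theorem rogers_sub {A : Type} (p : A → Prop) (f : A → ℝ≥0∞) :
    ∑' a : {a // p a}, f a.1 = ∑' a, rogers_on (p a) (f a) := by
  refine (tsum_subtype {a | p a} f).trans (tsum_congr fun a => ?_)
  by_cases h : p a
  · rw [rogers_on_pos h, Set.indicator_of_mem (show a ∈ {a | p a} from h)]
  · rw [rogers_on_neg h, Set.indicator_of_notMem (show a ∉ {a | p a} from h)]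

theorem rogers_sub_equiv {A B : Type} (E : A ≃ B) {p : A → Prop} {q : B → Prop}
    (h : ∀ a, p a ↔ q (E a)) (f : A → ℝ≥0∞) (f' : B → ℝ≥0∞) (hf : ∀ a, f a = f' (E a)) :
    ∑' a : {a // p a}, f a.1 = ∑' b : {b // q b}, f' b.1 :=
  (tsum_congr fun a : {a // p a} => hf a.1).trans ((E.subtypeEquiv h).tsum_eq fun b => f' b.1)

theorem rogers_on_tsum {A : Type} (p : Prop) (f : A → ℝ≥0∞) :
    ∑' a, rogers_on p (f a) = rogers_on p (∑' a, f a) := by
  by_cases h : p
  · simp only [rogers_on_pos h]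
  · simp only [rogers_on_neg h, tsum_zero]

theorem rogers_on_lintegral {A : Type} [MeasurableSpace A] (μ : Measure A) (p : Prop)
    (f : A → ℝ≥0∞) : ∫⁻ a, rogers_on p (f a) ∂μ = rogers_on p (∫⁻ a, f a ∂μ) := by
  by_cases h : p
  · simp only [rogers_on_pos h]
  · simp only [rogers_on_neg h, lintegral_zero]

theorem rogers_on_measurable {A : Type} [MeasurableSpace A] (p : Prop) {f : A → ℝ≥0∞}
    (hf : Measurable f) : Measurable fun a => rogers_on p (f a) := by
  by_cases h : p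
  · simpa only [rogers_on_pos h] using hf
  · simp only [rogers_on_neg h]
    exact measurable_const

end

section
variable {σ τ ι β : Type}

/-- one vector as a matrix -/
def rogers_row {R : Type} (v : ι → R) : Matrix Unit ι R := Matrix.of fun (_ : Unit) => v

theorem rogers_ind_smul [Fintype σ] {c : ℤ} (hc : c ≠ 0) (P : Matrix Unit ι ℤ)
    (Y : Matrix σ ι ℤ) :
    Ind (Matrix.fromRows (rogers_row (c • P ())) Y) ↔ Ind (Matrix.fromRows P Y) := by
  unfold Ind
  rw [Fintype.linearIndependent_iff, Fintype.linearIndependent_iff]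
  have h1 : ∀ g : Unit ⊕ σ → ℤ, ∑ i, g i • Matrix.fromRows (rogers_row (c • P ())) Y i =
      (g (Sum.inl ()) * c) • P () + ∑ b, g (Sum.inr b) • Y b := by
    intro g
    rw [Fintype.sum_sum_type, Fintype.sum_unique, mul_smul]
    rfl
  have h2 : ∀ g : Unit ⊕ σ → ℤ, ∑ i, g i • Matrix.fromRows P Y i =
      g (Sum.inl ()) • P () + ∑ b, g (Sum.inr b) • Y b := by
    intro g
    rw [Fintype.sum_sum_type, Fintype.sum_unique]
    rfl
  constructor
  · intro h g hg
    rw [h2] at hg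
    have h3 := h (Sum.elim (fun _ => g (Sum.inl ())) fun b => c * g (Sum.inr b)) (by
      rw [h1]
      simp only [Sum.elim_inl, Sum.elim_inr, mul_smul]
      rw [← Finset.smul_sum, smul_comm, ← smul_add, hg, smul_zero])
    rintro (a | b)
    · exact h3 (Sum.inl ())
    · exact (mul_eq_zero.1 (h3 (Sum.inr b))).resolve_left hc
  · intro h g hg
    rw [h1] at hg
    have h3 := h (Sum.elim (fun _ => g (Sum.inl ()) * c) fun b => g (Sum.inr b)) (by
      rw [h2]
      exact hg)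
    rintro (a | b)
    · exact (mul_eq_zero.1 (h3 (Sum.inl ()))).resolve_right hc
    · exact h3 (Sum.inr b)

theorem rogers_not_ind_zero (Y : Matrix σ ι ℤ) :
    ¬ Ind (Matrix.fromRows (rogers_row (0 : ι → ℤ)) Y) := fun h =>
  h.ne_zero (Sum.inl ()) rfl

/-- right multiplication by an invertible matrix -/
def rogers_mulEquiv [Fintype ι] [DecidableEq ι] (σ : Type) (γ : GL ι ℤ) :
    Matrix σ ι ℤ ≃ Matrix σ ι ℤ where
  toFun Y := Y * γ.val
  invFun Y := Y * (γ⁻¹).val
  left_inv Y := by simp only [Matrix.mul_assoc, Units.mul_inv, Matrix.mul_one]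
  right_inv Y := by simp only [Matrix.mul_assoc, Units.inv_mul, Matrix.mul_one]

/-- gluing columns -/
def rogers_cols {R α : Type} (e : α ⊕ β ≃ ι) (m : Matrix σ α R) (l : Matrix σ β R) :
    Matrix σ ι R := Matrix.of fun k j => Sum.elim (m k) (l k) (e.symm j)

/-- splitting columns -/
def rogers_colsEquiv {α : Type} (σ : Type) (e : α ⊕ β ≃ ι) :
    Matrix σ β ℤ × Matrix σ α ℤ ≃ Matrix σ ι ℤ where
  toFun p := rogers_cols e p.2 p.1
  invFun Y := (Y.submatrix id fun b => e (Sum.inr b), Y.submatrix id fun a => e (Sum.inl a))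
  left_inv p := by
    ext k j <;> simp [rogers_cols]
  right_inv Y := by
    ext k j
    obtain ⟨s, rfl⟩ := e.surjective j
    cases s <;> simp [rogers_cols]

/-- splitting rows -/
def rogers_rowsEquiv (σ τ ι : Type) : Matrix σ ι ℤ × Matrix τ ι ℤ ≃ Matrix (σ ⊕ τ) ι ℤ where
  toFun p := Matrix.fromRows p.1 p.2
  invFun Y := (Y.submatrix Sum.inl id, Y.submatrix Sum.inr id)
  left_inv p := by
    ext k j <;> simp
  right_inv Y := by
    ext k j
    cases k <;> simp

/-- one row -/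
def rogers_rowEquiv (ι : Type) : (ι → ℤ) ≃ Matrix Unit ι ℤ where
  toFun v := rogers_row v
  invFun Y := Y ()
  left_inv _ := rfl
  right_inv _ := rfl

/-- two rows -/
def rogers_twoEquiv (ι : Type) : (ι → ℤ) × (ι → ℤ) ≃ Matrix (Fin 2) ι ℤ where
  toFun p := Matrix.of ![p.1, p.2]
  invFun Y := (Y 0, Y 1)
  left_inv _ := rfl
  right_inv Y := by
    ext k j
    fin_cases k <;> rfl

theorem rogers_cz_fromRows [Fintype ι] (A : Matrix σ ι ℤ) (B : Matrix τ ι ℤ) (g : Matrix ι ι ℝ) :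
    cz (Matrix.fromRows A B) * g = Matrix.fromRows (cz A * g) (cz B * g) := by
  rw [← Matrix.fromRows_mul]
  congr 1
  ext k j
  cases k <;> rfl

theorem rogers_cols_lift {α : Type} [Fintype α] [DecidableEq α] [Fintype β] [DecidableEq β]
    [Fintype ι] [DecidableEq ι] (e : α ⊕ β ≃ ι) (X : Matrix α ι ℝ) (t : Matrix β α ℝ)
    (g : Matrix β β ℝ) (m : Matrix σ α ℤ) (l : Matrix σ β ℤ) :
    cz (rogers_cols e m l) * lift e X t g =
      rogers_cols e (cz m + cz l * t) (cz l * g) * HX e X := by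
  funext k
  rw [cz_mul_row]
  refine (lv_lift e X t g (m k) (l k)).trans ?_
  rfl

theorem rogers_measurable_cols {α Ω : Type} [MeasurableSpace Ω] (e : α ⊕ β ≃ ι)
    {f : Ω → Matrix σ α ℝ} {g : Ω → Matrix σ β ℝ} (hf : Measurable f) (hg : Measurable g) :
    Measurable fun x => rogers_cols e (f x) (g x) := by
  rw [measurable_mx] at hf hg ⊢
  intro k j
  obtain ⟨s, rfl⟩ := e.surjective j
  cases s with
  | inl a => simpa [rogers_cols] using hf k a
  | inr b => simpa [rogers_cols] using hg k b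

theorem rogers_measurable_rows {Ω : Type} [MeasurableSpace Ω]
    {f : Ω → Matrix σ ι ℝ} {g : Ω → Matrix τ ι ℝ} (hf : Measurable f) (hg : Measurable g) :
    Measurable fun x => Matrix.fromRows (f x) (g x) := by
  rw [measurable_mx] at hf hg ⊢
  intro k j
  cases k with
  | inl a => exact hf a j
  | inr b => exact hg b j

theorem rogers_measurable_add {Ω : Type} [MeasurableSpace Ω]
    {f g : Ω → Matrix σ ι ℝ} (hf : Measurable f) (hg : Measurable g) :
    Measurable fun x => f x + g x := by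
  rw [measurable_mx] at hf hg ⊢
  intro k j
  exact (hf k j).add (hg k j)

theorem rogers_mp_rows [Fintype σ] [Fintype τ] [Fintype ι] :
    MeasurePreserving (fun p : Matrix σ ι ℝ × Matrix τ ι ℝ => Matrix.fromRows p.1 p.2)
      (volume.prod volume) volume := by
  have h := mp_rows (ι := ι) (Equiv.refl (σ ⊕ τ))
  have h2 : (fun p : Matrix σ ι ℝ × Matrix τ ι ℝ => Matrix.fromRows p.1 p.2) =
      fun p : Matrix σ ι ℝ × Matrix τ ι ℝ => (Matrix.of fun k j =>
        Sum.elim (fun a => p.1 a j) (fun b => p.2 b j) ((Equiv.refl (σ ⊕ τ)).symm k) :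
          Matrix (σ ⊕ τ) ι ℝ) := by
    funext p
    ext k j
    cases k <;> rfl
  rw [h2]
  exact h

theorem rogers_lintegral_rows [Fintype σ] [Fintype τ] [Fintype ι]
    (F : Matrix (σ ⊕ τ) ι ℝ → ℝ≥0∞) (hF : Measurable F) :
    ∫⁻ X, F X = ∫⁻ A : Matrix σ ι ℝ, ∫⁻ B : Matrix τ ι ℝ, F (Matrix.fromRows A B) := by
  rw [← rogers_mp_rows.lintegral_comp hF]
  exact lintegral_prod _
    (hF.comp (rogers_measurable_rows measurable_fst measurable_snd)).aemeasurable

theorem rogers_lintegral_row [Fintype ι] (f : (ι → ℝ) → ℝ≥0∞) (hf : Measurable f) :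
    ∫⁻ X : Matrix Unit ι ℝ, f (X ()) = ∫⁻ x, f x :=
  (mp_one_row.lintegral_comp (f := fun X : Matrix Unit ι ℝ => f (X ()))
    (hf.comp (measurable_row ()))).symm

theorem rogers_lintegral_two [Fintype ι] (f : (ι → ℝ) → (ι → ℝ) → ℝ≥0∞)
    (hf : Measurable (Function.uncurry f)) :
    ∫⁻ X : Matrix (Fin 2) ι ℝ, f (X 0) (X 1) = ∫⁻ x, ∫⁻ y, f x y := by
  have hm : Measurable fun X : Matrix (Fin 2) ι ℝ => f (X 0) (X 1) :=
    hf.comp ((measurable_row 0).prodMk (measurable_row 1))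
  rw [← mp_two_rows.lintegral_comp hm]
  exact lintegral_prod _ hf.aemeasurable

end

section
variable {σ τ ι β : Type} [Fintype σ] [Fintype τ] [Fintype ι] [DecidableEq ι] [Fintype β]
  [DecidableEq β]

/-- the mean value formula for tuples indexed by `τ` in the space indexed by `ι` -/
def rogers_Holds (τ ι : Type) [Fintype τ] [Fintype ι] [DecidableEq ι] : Prop :=
  ∀ F : Matrix τ ι ℝ → ℝ≥0∞, Measurable F →
    ∫⁻ g, ∑' Y : Matrix τ ι ℤ, rogers_on (Ind Y) (F (cz Y * g)) ∂mu ι = ∫⁻ X, F X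

theorem rogers_empty [IsEmpty τ] : rogers_Holds τ ι := by
  intro F _
  have hs : ∀ X : Matrix τ ι ℝ, F X = F 0 := fun X => congrArg F (Subsingleton.elim _ _)
  have h1 : ∀ g : Matrix ι ι ℝ,
      ∑' Y : Matrix τ ι ℤ, rogers_on (Ind Y) (F (cz Y * g)) = F 0 := by
    intro g
    rw [tsum_eq_single 0 fun Y hY => absurd (Subsingleton.elim _ _) hY,
      rogers_on_pos (show Ind (0 : Matrix τ ι ℤ) from linearIndependent_empty_type), hs]
  have h2 : (volume : Measure (Matrix τ ι ℝ)) Set.univ = 1 :=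
    (Measure.pi_univ fun _ : τ => (volume : Measure (ι → ℝ))).trans (Finset.prod_of_isEmpty _)
  simp only [h1]
  rw [lintegral_congr hs, lintegral_const, lintegral_const, h2, measure_univ]

theorem rogers_equiv (d : σ ≃ τ) (h : rogers_Holds σ ι) : rogers_Holds τ ι := by
  intro F hF
  have hmp := mp_reindex d (Equiv.refl ι)
  rw [← hmp.lintegral_comp hF,
    ← h (fun X => F (Matrix.reindex d (Equiv.refl ι) X)) (hF.comp hmp.measurable)]
  refine lintegral_congr fun g => ?_
  rw [← (Matrix.reindex d (Equiv.refl ι)).tsum_eq]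
  refine tsum_congr fun Y => ?_
  have hi : Ind (Matrix.reindex d (Equiv.refl ι) Y) ↔ Ind Y :=
    linearIndependent_equiv d.symm (f := fun a => Y a)
  rw [rogers_on_congr hi]
  rfl

/-- the gluing parameters and the quotient lattice are integrated out -/
theorem rogers_fibre {α : Type} [Fintype α] [DecidableEq α] [Nonempty β] (e : α ⊕ β ≃ ι)
    (h : rogers_Holds σ β) {X : Matrix α ι ℝ} (hX : (blk e X).det ≠ 0)
    (K : Matrix σ ι ℝ → ℝ≥0∞) (hK : Measurable K) :
    ∫⁻ g, (∫⁻ t in cube β α, ∑' Y : Matrix σ ι ℤ,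
      rogers_on (Ind (Matrix.fromRows (std e) Y)) (K (cz Y * lift e X t g))) ∂mu β =
      ∫⁻ W, K W := by
  have hL : Measurable fun p : Matrix σ α ℝ × Matrix σ β ℝ =>
      K (rogers_cols e p.1 p.2 * HX e X) :=
    hK.comp (Measurable.mxmul (rogers_measurable_cols e measurable_fst measurable_snd)
      measurable_const)
  have h1 : ∀ g : Matrix β β ℝ, ∫⁻ t in cube β α, ∑' Y : Matrix σ ι ℤ,
      rogers_on (Ind (Matrix.fromRows (std e) Y)) (K (cz Y * lift e X t g)) =
      ∑' l : Matrix σ β ℤ, rogers_on (Ind l)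
        (∫⁻ s : Matrix σ α ℝ, K (rogers_cols e s (cz l * g) * HX e X)) := by
    intro g
    have h2 : ∀ t : Matrix β α ℝ, ∑' Y : Matrix σ ι ℤ,
        rogers_on (Ind (Matrix.fromRows (std e) Y)) (K (cz Y * lift e X t g)) =
        ∑' l : Matrix σ β ℤ, rogers_on (Ind l) (∑' m : Matrix σ α ℤ,
          K (rogers_cols e (cz m + cz l * t) (cz l * g) * HX e X)) := by
      intro t
      rw [← (rogers_colsEquiv σ e).tsum_eq, ENNReal.tsum_prod']
      refine tsum_congr fun l => ?_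
      rw [← rogers_on_tsum]
      refine tsum_congr fun m => ?_
      have hi : Ind (Matrix.fromRows (std e) (rogers_cols e m l)) ↔ Ind l := by
        rw [ind_std_iff]
        have : (rogers_cols e m l).submatrix id (fun b => e (Sum.inr b)) = l := by
          ext k b
          simp [rogers_cols]
        rw [this]
      change rogers_on (Ind (Matrix.fromRows (std e) (rogers_cols e m l)))
        (K (cz (rogers_cols e m l) * lift e X t g)) = _
      rw [rogers_on_congr hi, rogers_cols_lift]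
    have hG : ∀ l : Matrix σ β ℤ, Measurable fun s : Matrix σ α ℝ =>
        K (rogers_cols e s (cz l * g) * HX e X) := fun l =>
      hK.comp (Measurable.mxmul (rogers_measurable_cols e measurable_id measurable_const)
        measurable_const)
    rw [lintegral_congr h2, lintegral_tsum]
    · refine tsum_congr fun l => ?_
      by_cases hl : Ind l
      · simp only [rogers_on_pos hl]
        exact equi l hl _ (hG l)
      · simp only [rogers_on_neg hl, lintegral_zero]
    · intro l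
      refine (rogers_on_measurable _ (Measurable.ennreal_tsum fun m => ?_)).aemeasurable
      exact (hG l).comp (rogers_measurable_add measurable_const
        (Measurable.mxmul measurable_const measurable_id))
  rw [lintegral_congr h1, h _ hL.lintegral_prod_left', ← lintegral_prod_symm' _ hL]
  have hH : Measurable fun W : Matrix σ ι ℝ => W * HX e X :=
    Measurable.mxmul measurable_id measurable_const
  have h3 := (mp_cols (κ := σ) e).lintegral_comp (hK.comp hH)
  refine Eq.trans h3 ?_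
  have hd := abs_det_HX e hX
  have hne : (HX e X).det ≠ 0 := by
    intro h0
    rw [h0, abs_zero] at hd
    exact zero_ne_one hd
  have h4 := map_mul_right (α := σ) (HX e X) hne
  rw [hd, one_pow, inv_one, ENNReal.ofReal_one, one_smul] at h4
  have h5 := lintegral_map (μ := (volume : Measure (Matrix σ ι ℝ))) hK hH
  rw [h4] at h5
  exact h5.symm

theorem rogers_scale (q : ℕ) (f : (ι → ℝ) → ℝ≥0∞) (hf : Measurable f) :
    ∫⁻ x, f ((((q + 1 : ℕ) : ℤ) : ℝ) • x) =
      (((q + 1 : ℕ) : ℝ≥0∞) ^ Fintype.card ι)⁻¹ * ∫⁻ x, f x := by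
  have hc : (0 : ℝ) < (((q + 1 : ℕ) : ℤ) : ℝ) := by exact_mod_cast Nat.succ_pos q
  rw [← lintegral_map hf (measurable_const_smul _), map_smul_vec hc.ne', lintegral_smul_measure,
    smul_eq_mul, abs_of_pos hc, ENNReal.ofReal_inv_of_pos (pow_pos hc _),
    ENNReal.ofReal_pow hc.le, Int.cast_natCast, ENNReal.ofReal_natCast]

/-- the tuples completing the multiple `c` of a vector -/
def rogers_term (G : (ι → ℝ) → Matrix σ ι ℝ → ℝ≥0∞) (c : ℝ) (P : Matrix Unit ι ℤ)
    (g : Matrix ι ι ℝ) : ℝ≥0∞ :=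
  ∑' Y : Matrix σ ι ℤ, rogers_on (Ind (Matrix.fromRows P Y)) (G (c • lv (P ()) g) (cz Y * g))

theorem rogers_term_measurable {G : (ι → ℝ) → Matrix σ ι ℝ → ℝ≥0∞}
    (hG : Measurable (Function.uncurry G)) (c : ℝ) (P : Matrix Unit ι ℤ) :
    Measurable (rogers_term G c P) := by
  refine Measurable.ennreal_tsum fun Y => rogers_on_measurable _ ?_
  have h1 : Measurable fun g : Matrix ι ι ℝ => (c • lv (P ()) g, cz Y * g) :=
    ((measurable_const_smul c).comp (measurable_lv (P ()))).prodMk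
      (Measurable.mxmul measurable_const measurable_id)
  exact hG.comp h1

theorem rogers_term_mul (G : (ι → ℝ) → Matrix σ ι ℝ → ℝ≥0∞) (c : ℝ) (γ : GL ι ℤ)
    (P : Matrix Unit ι ℤ) (g : Matrix ι ι ℝ) :
    rogers_term G c (P * γ.val) g = rogers_term G c P (cz γ.val * g) := by
  unfold rogers_term
  rw [← (rogers_mulEquiv σ γ).tsum_eq]
  refine tsum_congr fun Y => ?_
  have hi : Ind (Matrix.fromRows (P * γ.val) (Y * γ.val)) ↔ Ind (Matrix.fromRows P Y) := by
    rw [← Matrix.fromRows_mul, Ind.mul_gl]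
  have h1 : lv ((P * γ.val) ()) g = lv (P ()) (cz γ.val * g) := lv_vecMul (P ()) γ.val g
  change rogers_on (Ind (Matrix.fromRows (P * γ.val) (Y * γ.val)))
    (G (c • lv ((P * γ.val) ()) g) (cz (Y * γ.val) * g)) = _
  rw [rogers_on_congr hi, h1, cz_mul, Matrix.mul_assoc]

theorem rogers_term_lift [Nonempty β] (e : Unit ⊕ β ≃ ι) (h : rogers_Holds σ β)
    {G : (ι → ℝ) → Matrix σ ι ℝ → ℝ≥0∞} (hG : Measurable (Function.uncurry G)) (c : ℝ)
    {X : Matrix Unit ι ℝ} (hX : (blk e X).det ≠ 0) :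
    ∫⁻ g, (∫⁻ t in cube β Unit, rogers_term G c (std e) (lift e X t g)) ∂mu β =
      ∫⁻ W, G (c • X ()) W := by
  have h6 : ∀ (t : Matrix β Unit ℝ) (g : Matrix β β ℝ),
      lv (std e ()) (lift e X t g) = X () := by
    intro t g
    rw [← cz_mul_row, cz_std_mul]
    exact lift_inl e X t g ()
  have hK : Measurable (G (c • X ())) := hG.of_uncurry_left
  rw [← rogers_fibre e h hX _ hK]
  refine lintegral_congr fun g => lintegral_congr fun t => ?_
  unfold rogers_term
  rw [h6]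

theorem rogers_decomp (G : (ι → ℝ) → Matrix σ ι ℝ → ℝ≥0∞) (g : Matrix ι ι ℝ) :
    ∑' v : ι → ℤ, ∑' Y : Matrix σ ι ℤ,
      rogers_on (Ind (Matrix.fromRows (rogers_row v) Y)) (G (lv v g) (cz Y * g)) =
      ∑' P : {P : Matrix Unit ι ℤ // Prim P}, ∑' q : ℕ,
        rogers_term G (((q + 1 : ℕ) : ℤ) : ℝ) P.1 g := by
  obtain ⟨f, hf⟩ : ∃ f : (ι → ℤ) → ℝ≥0∞, ∀ v, f v = ∑' Y : Matrix σ ι ℤ,
    rogers_on (Ind (Matrix.fromRows (rogers_row v) Y)) (G (lv v g) (cz Y * g)) := ⟨_, fun _ => rfl⟩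
  have h3 : ∑' v, f v = ∑' v : {v : ι → ℤ // v ≠ 0}, f v.1 := by
    rw [rogers_sub (fun v : ι → ℤ => v ≠ 0) f]
    refine tsum_congr fun v => ?_
    by_cases hv : v = 0
    · rw [rogers_on_neg (not_not.2 hv), hv, hf]
      simp only [rogers_on_neg (rogers_not_ind_zero _), tsum_zero]
    · rw [rogers_on_pos hv]
  rw [← tsum_congr hf, h3, tsum_ne_zero f]
  refine tsum_congr fun P => tsum_congr fun q => ?_
  rw [hf]
  unfold rogers_term
  refine tsum_congr fun Y => ?_
  rw [rogers_on_congr (rogers_ind_smul (Int.natCast_ne_zero.2 (Nat.succ_ne_zero q)) P.1 Y),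
    lv_smul]

theorem rogers_step [Nonempty β] (e : Unit ⊕ β ≃ ι) (h : rogers_Holds σ β) :
    rogers_Holds (Unit ⊕ σ) ι := by
  intro F hF
  obtain ⟨G, hGF⟩ : ∃ G : (ι → ℝ) → Matrix σ ι ℝ → ℝ≥0∞,
    ∀ x W, G x W = F (Matrix.fromRows (rogers_row x) W) := ⟨_, fun _ _ => rfl⟩
  have hG : Measurable (Function.uncurry G) := by
    have h0 : Function.uncurry G =
        fun p : (ι → ℝ) × Matrix σ ι ℝ => F (Matrix.fromRows (rogers_row p.1) p.2) :=
      funext fun p => hGF p.1 p.2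
    have h1 : Measurable fun p : (ι → ℝ) × Matrix σ ι ℝ => rogers_row p.1 :=
      mp_one_row.measurable.comp measurable_fst
    rw [h0]
    exact hF.comp (rogers_measurable_rows h1 measurable_snd)
  have h1 : ∀ g : Matrix ι ι ℝ,
      ∑' Y : Matrix (Unit ⊕ σ) ι ℤ, rogers_on (Ind Y) (F (cz Y * g)) =
        ∑' P : {P : Matrix Unit ι ℤ // Prim P}, ∑' q : ℕ,
          rogers_term G (((q + 1 : ℕ) : ℤ) : ℝ) P.1 g := by
    intro g
    rw [← rogers_decomp, ← (rogers_rowsEquiv Unit σ ι).tsum_eq, ENNReal.tsum_prod',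
      ← (rogers_rowEquiv ι).tsum_eq]
    refine tsum_congr fun v => tsum_congr fun Y => ?_
    change rogers_on (Ind (Matrix.fromRows (rogers_row v) Y))
      (F (cz (Matrix.fromRows (rogers_row v) Y) * g)) = _
    rw [rogers_cz_fromRows, hGF]
    rfl
  have h4 : ∀ᵐ X : Matrix Unit ι ℝ, ∫⁻ g, (∫⁻ t in cube β Unit, ∑' q : ℕ,
      rogers_term G (((q + 1 : ℕ) : ℤ) : ℝ) (std e) (lift e X t g)) ∂mu β =
        ∑' q : ℕ, ∫⁻ W, G ((((q + 1 : ℕ) : ℤ) : ℝ) • X ()) W := by
    filter_upwards [ae_blk e] with X hX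
    have hl0 : Measurable fun p : Matrix β β ℝ × Matrix β Unit ℝ => (X, p.2, p.1) :=
      measurable_const.prodMk (measurable_snd.prodMk measurable_fst)
    have hl1 := (measurable_lift e).comp hl0
    have hl : Measurable fun p : Matrix β β ℝ × Matrix β Unit ℝ => lift e X p.2 p.1 := hl1
    have hq : ∀ c : ℝ, Measurable fun p : Matrix β β ℝ × Matrix β Unit ℝ =>
        rogers_term G c (std e) (lift e X p.2 p.1) := fun c =>
      (rogers_term_measurable hG c (std e)).comp hl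
    have hq1 : ∀ (c : ℝ) (g : Matrix β β ℝ), Measurable fun t : Matrix β Unit ℝ =>
        rogers_term G c (std e) (lift e X t g) := fun c g => by
      have h0 := (hq c).comp (measurable_prodMk_left (x := g))
      exact h0
    have hq2 : ∀ c : ℝ, Measurable fun g : Matrix β β ℝ =>
        ∫⁻ t in cube β Unit, rogers_term G c (std e) (lift e X t g) := fun c =>
      (hq c).lintegral_prod_right'
    rw [lintegral_congr fun g => lintegral_tsum fun q => (hq1 _ g).aemeasurable,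
      lintegral_tsum fun q => (hq2 _).aemeasurable]
    exact tsum_congr fun q => rogers_term_lift e h hG _ hX
  have hI : Measurable fun x : ι → ℝ => ∫⁻ W, G x W := hG.lintegral_prod_right
  have hI2 : ∀ c : ℝ, Measurable fun x : ι → ℝ => ∫⁻ W, G (c • x) W := fun c =>
    hI.comp (measurable_const_smul c)
  have h8 : ∀ q : ℕ, AEMeasurable (fun X : Matrix Unit ι ℝ =>
      ∫⁻ W, G ((((q + 1 : ℕ) : ℤ) : ℝ) • X ()) W) volume := fun q =>
    ((hI2 _).comp (measurable_row ())).aemeasurable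
  have h7 : ∀ q : ℕ, ∫⁻ X : Matrix Unit ι ℝ, ∫⁻ W, G ((((q + 1 : ℕ) : ℤ) : ℝ) • X ()) W =
      (((q + 1 : ℕ) : ℝ≥0∞) ^ Fintype.card ι)⁻¹ * ∫⁻ x, ∫⁻ W, G x W := fun q =>
    (rogers_lintegral_row _ (hI2 _)).trans (rogers_scale q _ hI)
  have h9 := frame e (fun P g => ∑' q : ℕ, rogers_term G (((q + 1 : ℕ) : ℤ) : ℝ) P g)
    (fun P => Measurable.ennreal_tsum fun q => rogers_term_measurable hG _ P)
    (fun γ P g => tsum_congr fun q => rogers_term_mul G _ γ P g)
  rw [lintegral_congr h1, h9, lintegral_congr_ae h4, lintegral_tsum h8, tsum_congr h7,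
    ENNReal.tsum_mul_right, ← mul_assoc, cc_mul_tsum e, one_mul, rogers_lintegral_rows F hF,
    ← rogers_lintegral_row _ hI]
  exact lintegral_congr fun X => lintegral_congr fun W => hGF _ _

theorem rogers_holds (k : ℕ) : ∀ (τ ι : Type) [Fintype τ] [Fintype ι] [DecidableEq ι],
    Fintype.card τ = k → k < Fintype.card ι → rogers_Holds τ ι := by
  induction k with
  | zero =>
    intro τ ι _ _ _ hτ _
    have := Fintype.card_eq_zero_iff.1 hτ
    exact rogers_empty
  | succ k ih =>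
    intro τ ι _ _ _ hτ hι
    obtain ⟨n, hn⟩ : ∃ n, Fintype.card ι = n + 1 + 1 := ⟨Fintype.card ι - 2, by omega⟩
    have e : Unit ⊕ Fin (n + 1) ≃ ι := Fintype.equivOfCardEq (by simp [hn]; omega)
    have d : Unit ⊕ Fin k ≃ τ := Fintype.equivOfCardEq (by simp [hτ]; omega)
    exact rogers_equiv d (rogers_step e (ih (Fin k) (Fin (n + 1)) (Fintype.card_fin k)
      (by rw [Fintype.card_fin]; omega)))

end

section
variable {τ ι : Type} [Fintype τ] [Fintype ι] [DecidableEq ι]

theorem rogers (h : Fintype.card τ < Fintype.card ι) (F : Matrix τ ι ℝ → ℝ≥0∞)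
    (hF : Measurable F) :
    ∫⁻ g, ∑' Y : {Y : Matrix τ ι ℤ // Ind Y}, F (cz Y.1 * g) ∂mu ι = ∫⁻ X, F X :=
  (lintegral_congr fun g => rogers_sub Ind fun Y => F (cz Y * g)).trans
    (rogers_holds _ τ ι rfl h F hF)

theorem rogers_dual (h : Fintype.card τ < Fintype.card ι) (F : Matrix τ ι ℝ → ℝ≥0∞)
    (hF : Measurable F) :
    ∫⁻ g, ∑' Y : {Y : Matrix τ ι ℤ // Ind Y}, F (cz Y.1 * dual g) ∂mu ι = ∫⁻ X, F X := by
  have hm : Measurable fun g : Matrix ι ι ℝ =>
      ∑' Y : {Y : Matrix τ ι ℤ // Ind Y}, F (cz Y.1 * g) :=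
    Measurable.ennreal_tsum fun Y => hF.comp (Measurable.mxmul measurable_const measurable_id)
  have hi : LInv fun g : Matrix ι ι ℝ => ∑' Y : {Y : Matrix τ ι ℤ // Ind Y}, F (cz Y.1 * g) := by
    intro γ g
    refine (rogers_sub Ind fun Y => F (cz Y * (cz γ.val * g))).trans
      (Eq.trans ?_ (rogers_sub Ind fun Y => F (cz Y * g)).symm)
    refine Eq.trans ?_ ((rogers_mulEquiv τ γ).tsum_eq fun Y => rogers_on (Ind Y) (F (cz Y * g)))
    refine tsum_congr fun Y => ?_
    change _ = rogers_on (Ind (Y * γ.val)) (F (cz (Y * γ.val) * g))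
    rw [rogers_on_congr (Ind.mul_gl γ), cz_mul, Matrix.mul_assoc]
  exact (lintegral_mu_dual hm hi).trans (rogers h F hF)

theorem rogers_two_sum (F : (ι → ℝ) → (ι → ℝ) → ℝ≥0∞) (g : Matrix ι ι ℝ) :
    ∑' p : {p : (ι → ℤ) × (ι → ℤ) // Ind2 p}, F (lv p.1.1 g) (lv p.1.2 g) =
      ∑' Y : {Y : Matrix (Fin 2) ι ℤ // Ind Y}, F ((cz Y.1 * g) 0) ((cz Y.1 * g) 1) :=
  rogers_sub_equiv (rogers_twoEquiv ι) (p := Ind2) (q := Ind) (fun _ => Iff.rfl)
    (fun p => F (lv p.1 g) (lv p.2 g))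
    (fun Y => F ((cz Y * g) 0) ((cz Y * g) 1)) fun _ => rfl

theorem rogers2 (h : 3 ≤ Fintype.card ι) (F : (ι → ℝ) → (ι → ℝ) → ℝ≥0∞)
    (hF : Measurable (Function.uncurry F)) :
    ∫⁻ g, ∑' p : {p : (ι → ℤ) × (ι → ℤ) // Ind2 p}, F (lv p.1.1 g) (lv p.1.2 g) ∂mu ι =
      ∫⁻ x, ∫⁻ y, F x y := by
  have hm : Measurable fun X : Matrix (Fin 2) ι ℝ => F (X 0) (X 1) :=
    hF.comp ((measurable_row 0).prodMk (measurable_row 1))
  exact (lintegral_congr fun g => rogers_two_sum F g).trans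
    ((rogers (by rw [Fintype.card_fin]; omega) _ hm).trans (rogers_lintegral_two F hF))

theorem rogers2_dual (h : 3 ≤ Fintype.card ι) (F : (ι → ℝ) → (ι → ℝ) → ℝ≥0∞)
    (hF : Measurable (Function.uncurry F)) :
    ∫⁻ g, ∑' p : {p : (ι → ℤ) × (ι → ℤ) // Ind2 p},
      F (lv p.1.1 (dual g)) (lv p.1.2 (dual g)) ∂mu ι = ∫⁻ x, ∫⁻ y, F x y := by
  have hm : Measurable fun X : Matrix (Fin 2) ι ℝ => F (X 0) (X 1) :=
    hF.comp ((measurable_row 0).prodMk (measurable_row 1))
  exact (lintegral_congr fun g => rogers_two_sum F (dual g)).trans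
    ((rogers_dual (by rw [Fintype.card_fin]; omega) _ hm).trans (rogers_lintegral_two F hF))

theorem rogers_pair {σ : Type} [Fintype σ] (h : Fintype.card τ + Fintype.card σ < Fintype.card ι)
    (F : Matrix τ ι ℝ → Matrix σ ι ℝ → ℝ≥0∞) (hF : Measurable (Function.uncurry F)) :
    ∫⁻ g, ∑' p : {p : Matrix τ ι ℤ × Matrix σ ι ℤ // Ind (Matrix.fromRows p.1 p.2)},
      F (cz p.1.1 * g) (cz p.1.2 * g) ∂mu ι = ∫⁻ X, ∫⁻ W, F X W := by
  have h1 : Measurable fun Z : Matrix (τ ⊕ σ) ι ℝ => Z.submatrix Sum.inl id :=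
    measurable_mx.2 fun a i => measurable_entry (Sum.inl a) i
  have h2 : Measurable fun Z : Matrix (τ ⊕ σ) ι ℝ => Z.submatrix Sum.inr id :=
    measurable_mx.2 fun a i => measurable_entry (Sum.inr a) i
  have hm : Measurable fun Z : Matrix (τ ⊕ σ) ι ℝ =>
      F (Z.submatrix Sum.inl id) (Z.submatrix Sum.inr id) := by
    have h0 := hF.comp (h1.prodMk h2)
    exact h0
  have h3 := (rogers (by rw [Fintype.card_sum]; exact h) _ hm).trans (rogers_lintegral_rows _ hm)
  have h4 : ∀ (A : Matrix τ ι ℝ) (B : Matrix σ ι ℝ),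
      (Matrix.fromRows A B).submatrix Sum.inl id = A := fun _ _ => rfl
  have h5 : ∀ (A : Matrix τ ι ℝ) (B : Matrix σ ι ℝ),
      (Matrix.fromRows A B).submatrix Sum.inr id = B := fun _ _ => rfl
  simp only [h4, h5] at h3
  rw [← h3]
  refine lintegral_congr fun g => ?_
  refine rogers_sub_equiv (rogers_rowsEquiv τ σ ι)
    (p := fun p => Ind (Matrix.fromRows p.1 p.2)) (q := Ind) (fun _ => Iff.rfl)
    (fun p => F (cz p.1 * g) (cz p.2 * g))
    (fun Y => F ((cz Y * g).submatrix Sum.inl id) ((cz Y * g).submatrix Sum.inr id)) fun p => ?_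
  change _ = F ((cz (Matrix.fromRows p.1 p.2) * g).submatrix Sum.inl id)
    ((cz (Matrix.fromRows p.1 p.2) * g).submatrix Sum.inr id)
  rw [rogers_cz_fromRows, h4, h5]

/-- a tuple and one more vector -/
theorem rogers_succ (h : Fintype.card τ + 1 < Fintype.card ι)
    (F : Matrix τ ι ℝ → (ι → ℝ) → ℝ≥0∞) (hF : Measurable (Function.uncurry F)) :
    ∫⁻ g, ∑' p : {p : Matrix τ ι ℤ × (ι → ℤ) //
        Ind (Matrix.fromRows p.1 (Matrix.of fun (_ : Unit) => p.2))},
      F (cz p.1.1 * g) (lv p.1.2 g) ∂mu ι = ∫⁻ X, ∫⁻ y, F X y := by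
  have h1 : Measurable fun p : Matrix τ ι ℝ × Matrix Unit ι ℝ => (p.1, (p.2 () : ι → ℝ)) :=
    measurable_fst.prodMk ((measurable_row ()).comp measurable_snd)
  have h0 := hF.comp h1
  have h2 : Measurable (Function.uncurry fun (X : Matrix τ ι ℝ) (W : Matrix Unit ι ℝ) =>
      F X (W ())) := h0
  have h3 := rogers_pair (τ := τ) (σ := Unit) (by rw [Fintype.card_unit]; exact h)
    (fun X W => F X (W ())) h2
  have h4 : ∀ X : Matrix τ ι ℝ, ∫⁻ W : Matrix Unit ι ℝ, F X (W ()) = ∫⁻ y, F X y := fun X =>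
    rogers_lintegral_row (F X) hF.of_uncurry_left
  rw [← lintegral_congr h4, ← h3]
  refine lintegral_congr fun g => ?_
  exact rogers_sub_equiv ((Equiv.refl (Matrix τ ι ℤ)).prodCongr (rogers_rowEquiv ι))
    (p := fun p => Ind (Matrix.fromRows p.1 (Matrix.of fun (_ : Unit) => p.2)))
    (q := fun p => Ind (Matrix.fromRows p.1 p.2))
    (fun _ => Iff.rfl) (fun p => F (cz p.1 * g) (lv p.2 g))
    (fun p => F (cz p.1 * g) ((cz p.2 * g) ())) fun _ => rfl

/-- a tuple and two more vectors -/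
theorem rogers_succ2 (h : Fintype.card τ + 2 < Fintype.card ι)
    (F : Matrix τ ι ℝ → (ι → ℝ) → (ι → ℝ) → ℝ≥0∞)
    (hF : Measurable fun p : Matrix τ ι ℝ × (ι → ℝ) × (ι → ℝ) => F p.1 p.2.1 p.2.2) :
    ∫⁻ g, ∑' p : {p : Matrix τ ι ℤ × (ι → ℤ) × (ι → ℤ) //
        Ind (Matrix.fromRows p.1 (Matrix.of ![p.2.1, p.2.2]))},
      F (cz p.1.1 * g) (lv p.1.2.1 g) (lv p.1.2.2 g) ∂mu ι = ∫⁻ X, ∫⁻ y, ∫⁻ z, F X y z := by
  have h1 : Measurable fun p : Matrix τ ι ℝ × Matrix (Fin 2) ι ℝ =>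
      (p.1, (p.2 0 : ι → ℝ), (p.2 1 : ι → ℝ)) :=
    measurable_fst.prodMk (((measurable_row 0).comp measurable_snd).prodMk
      ((measurable_row 1).comp measurable_snd))
  have h0 := hF.comp h1
  have h2 : Measurable (Function.uncurry fun (X : Matrix τ ι ℝ) (W : Matrix (Fin 2) ι ℝ) =>
      F X (W 0) (W 1)) := h0
  have h3 := rogers_pair (τ := τ) (σ := Fin 2) (by rw [Fintype.card_fin]; exact h)
    (fun X W => F X (W 0) (W 1)) h2
  have h4 : ∀ X : Matrix τ ι ℝ, Measurable (Function.uncurry (F X)) := fun X => by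
    have h0 := hF.comp (measurable_prodMk_left (x := X))
    exact h0
  have h5 : ∀ X : Matrix τ ι ℝ, ∫⁻ W : Matrix (Fin 2) ι ℝ, F X (W 0) (W 1) =
      ∫⁻ y, ∫⁻ z, F X y z := fun X => rogers_lintegral_two (F X) (h4 X)
  rw [← lintegral_congr h5, ← h3]
  refine lintegral_congr fun g => ?_
  exact rogers_sub_equiv ((Equiv.refl (Matrix τ ι ℤ)).prodCongr (rogers_twoEquiv ι))
    (p := fun p => Ind (Matrix.fromRows p.1 (Matrix.of ![p.2.1, p.2.2])))
    (q := fun p => Ind (Matrix.fromRows p.1 p.2))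
    (fun _ => Iff.rfl) (fun p => F (cz p.1 * g) (lv p.2.1 g) (lv p.2.2 g))
    (fun p => F (cz p.1 * g) ((cz p.2 * g) 0) ((cz p.2 * g) 1)) fun _ => rfl

end

variable {α β ι : Type} [Fintype α] [DecidableEq α] [Fintype β] [DecidableEq β] [Fintype ι]
  [DecidableEq ι] (e : α ⊕ β ≃ ι)

include e in
theorem cc_le_one [Nonempty β] : cc ι β ≤ 1 := by
  have hF : Measurable ((cube α ι).indicator (1 : Matrix α ι ℝ → ℝ≥0∞)) :=
    measurable_one.indicator measurableSet_cube
  have h1 : ∫⁻ X, (cube α ι).indicator (1 : Matrix α ι ℝ → ℝ≥0∞) X = 1 := by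
    rw [lintegral_indicator_one measurableSet_cube, volume_cube]
  have hc : Fintype.card α < Fintype.card ι := by
    have h2 := Fintype.card_congr e
    have h3 : 0 < Fintype.card β := Fintype.card_pos
    rw [Fintype.card_sum] at h2
    omega
  have h4 := frame_mean e _ hF
  have h5 := rogers hc _ hF
  rw [h1] at h4 h5
  rw [mul_one] at h4
  rw [← h4, ← h5]
  refine lintegral_mono fun g => ?_
  exact ENNReal.tsum_comp_le_tsum_of_injective
    (f := fun P : {P : Matrix α ι ℤ // Prim P} => (⟨P.1, P.2.ind⟩ : {Y : Matrix α ι ℤ // Ind Y}))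
    (fun P Q hPQ => Subtype.ext (Subtype.mk.inj hPQ))
    fun Y => (cube α ι).indicator (1 : Matrix α ι ℝ → ℝ≥0∞) (cz Y.1 * g)

end Pool.Agent.Eps.H
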