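import Pool.Agent.Lib.MP_3bda03_nt.H.Frame
import Pool.Agent.Lib.MP_3bda03_nt.H.Dual
import Pool.Agent.Lib.MP_3bda03_nt.H.Poisson

/-!
Finite total mass, duality and the mean value formula for one vector.
-/

set_option autoImplicit false

noncomputable section

open MeasureTheory Matrix
open scoped ENNReal

namespace Pool.Agent.Eps.H

section
variable {ι : Type} [Fintype ι] [DecidableEq ι]

theorem sgl_dual_mem_band (g : Matrix ι ι ℝ) : dual g ∈ band ι ↔ g ∈ band ι := by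
  simp only [band, Set.mem_ofPred_eq, det_dual, abs_inv]
  have h0 : 0 ≤ |g.det| := abs_nonneg _
  generalize |g.det| = x at h0
  rcases h0.eq_or_lt with h | h
  · subst h
    norm_num
  · rw [le_inv_comm₀ (by norm_num) h, inv_le_comm₀ h (by norm_num)]
    norm_num
    exact and_comm

theorem sgl_nu_dual (F : Matrix ι ι ℝ → ℝ≥0∞) (hF : Measurable F) :
    ∫⁻ g, F (dual g) ∂nu ι = ∫⁻ g, F g ∂nu ι := by
  rw [lintegral_nu (fun g => F (dual g)) (hF.comp measurable_dual), lintegral_nu F hF]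
  have h := lintegral_dual_vol ((band ι).indicator F) (hF.indicator measurableSet_band)
  have h1 : ∀ g : Matrix ι ι ℝ, (band ι).indicator
      (fun g => ENNReal.ofReal ((|g.det| ^ Fintype.card ι)⁻¹) * F (dual g)) g =
      ENNReal.ofReal ((|g.det| ^ Fintype.card ι)⁻¹) * (band ι).indicator F (dual g) := by
    intro g
    by_cases hg : g ∈ band ι
    · rw [Set.indicator_of_mem hg, Set.indicator_of_mem ((sgl_dual_mem_band g).2 hg)]
    · rw [Set.indicator_of_notMem hg,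
        Set.indicator_of_notMem (fun h => hg ((sgl_dual_mem_band g).1 h)), mul_zero]
  have h2 : ∀ g : Matrix ι ι ℝ, (band ι).indicator
      (fun g => ENNReal.ofReal ((|g.det| ^ Fintype.card ι)⁻¹) * F g) g =
      ENNReal.ofReal ((|g.det| ^ Fintype.card ι)⁻¹) * (band ι).indicator F g := by
    intro g
    by_cases hg : g ∈ band ι
    · rw [Set.indicator_of_mem hg, Set.indicator_of_mem hg]
    · rw [Set.indicator_of_notMem hg, Set.indicator_of_notMem hg, mul_zero]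
  simp_rw [h1, h2]
  exact h

/-- inverse transpose as a permutation of the integer group -/
def sglT : GL ι ℤ ≃ GL ι ℤ := ⟨glT, glT, glT_glT, glT_glT⟩

theorem lintegral_mu0_dual {Φ : Matrix ι ι ℝ → ℝ≥0∞} (hΦ : Measurable Φ) (hi : LInv Φ) :
    ∫⁻ g, Φ (dual g) ∂mu0 ι = ∫⁻ g, Φ g ∂mu0 ι := by
  have hw : Measurable fun g : Matrix ι ι ℝ => wt (dual g) := measurable_wt.comp measurable_dual
  have hw1 : ∀ g : Matrix ι ι ℝ, g.det ≠ 0 →
      ∑' γ : GL ι ℤ, wt (dual (cz γ.val * g)) = 1 := by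
    intro g hg
    have hd : (dual g).det ≠ 0 := by rw [det_dual]; exact inv_ne_zero hg
    rw [← tsum_wt hd, ← (sglT (ι := ι)).tsum_eq (fun γ : GL ι ℤ => wt (cz γ.val * dual g))]
    refine tsum_congr fun γ => ?_
    rw [dual_mul, dual_cz]
    rfl
  rw [lintegral_mu0 (fun g => Φ (dual g)) (hΦ.comp measurable_dual),
    lintegral_mu0_of_weight hw hw1 hΦ hi,
    ← sgl_nu_dual (fun g => wt g * Φ (dual (nrm g)))
      (measurable_wt.mul (hΦ.comp (measurable_dual.comp measurable_nrm)))]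
  refine lintegral_congr_ae ?_
  filter_upwards [ae_nu_det] with g hg
  have h1 : (nrm g).det ≠ 0 := by
    have := abs_det_nrm hg
    intro h
    rw [h, abs_zero] at this
    exact zero_ne_one this
  rw [nrm_dual hg, dual_dual h1]

omit [DecidableEq ι] in
theorem sgl_measurable_sum (f : (ι → ℝ) → ℝ≥0∞) (hf : Measurable f) :
    Measurable fun g : Matrix ι ι ℝ => ∑' k : {k : ι → ℤ // k ≠ 0}, f (lv k.1 g) :=
  Measurable.tsum fun k => hf.comp (measurable_lv k.1)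

theorem sgl_vecMul_ne (γ : GL ι ℤ) {k : ι → ℤ} (hk : k ≠ 0) : k ᵥ* γ.val ≠ 0 := by
  intro h
  apply hk
  have : (k ᵥ* γ.val) ᵥ* (γ⁻¹).val = k := by
    rw [Matrix.vecMul_vecMul, Units.mul_inv, Matrix.vecMul_one]
  rw [← this, h, Matrix.zero_vecMul]

/-- the integer group permutes the nonzero vectors -/
def sglPerm (γ : GL ι ℤ) : {k : ι → ℤ // k ≠ 0} ≃ {k : ι → ℤ // k ≠ 0} where
  toFun k := ⟨k.1 ᵥ* γ.val, sgl_vecMul_ne γ k.2⟩
  invFun k := ⟨k.1 ᵥ* (γ⁻¹).val, sgl_vecMul_ne γ⁻¹ k.2⟩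
  left_inv k := Subtype.ext (by
    show (k.1 ᵥ* γ.val) ᵥ* (γ⁻¹).val = k.1
    rw [Matrix.vecMul_vecMul, Units.mul_inv, Matrix.vecMul_one])
  right_inv k := Subtype.ext (by
    show (k.1 ᵥ* (γ⁻¹).val) ᵥ* γ.val = k.1
    rw [Matrix.vecMul_vecMul, Units.inv_mul, Matrix.vecMul_one])

theorem sgl_linv_sum (f : (ι → ℝ) → ℝ≥0∞) :
    LInv fun g : Matrix ι ι ℝ => ∑' k : {k : ι → ℤ // k ≠ 0}, f (lv k.1 g) := by
  intro γ g
  show ∑' k : {k : ι → ℤ // k ≠ 0}, f (lv k.1 (cz γ.val * g)) =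
    ∑' k : {k : ι → ℤ // k ≠ 0}, f (lv k.1 g)
  rw [← (sglPerm γ).tsum_eq (fun k : {k : ι → ℤ // k ≠ 0} => f (lv k.1 g))]
  refine tsum_congr fun k => ?_
  rw [← lv_vecMul]
  rfl

end

section
variable {α β ι : Type} [Fintype α] [DecidableEq α] [Fintype β] [DecidableEq β] [Fintype ι]
  [DecidableEq ι] (e : α ⊕ β ≃ ι)

theorem sgl_std_lift (X : Matrix α ι ℝ) (t : Matrix β α ℝ) (g : Matrix β β ℝ) :
    cz (std e) * lift e X t g = X := by
  rw [cz_std_mul]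
  ext a j
  exact congrFun (lift_inl e X t g a) j

include e in
theorem sgl_frame_mean0 [Nonempty β] (F : Matrix α ι ℝ → ℝ≥0∞) (hF : Measurable F) :
    ∫⁻ g, ∑' P : {P : Matrix α ι ℤ // Prim P}, F (cz P.1 * g) ∂mu0 ι =
      ∫⁻ X, F X * Zm β := by
  rw [frame0 e (fun P g => F (cz P * g))
    (fun P => hF.comp (Measurable.mxmul measurable_const measurable_id))
    (fun γ P g => by rw [cz_mul, Matrix.mul_assoc])]
  refine lintegral_congr fun X => ?_
  simp_rw [sgl_std_lift]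
  rw [setLIntegral_const, volume_cube, mul_one, lintegral_const]
  rfl

end

section
variable {β ι : Type} [Fintype β] [DecidableEq β] [Fintype ι] [DecidableEq ι]

/-- the value of the zeta function -/
def sglZ (n : ℕ) : ℝ≥0∞ := ∑' q : ℕ, (((q + 1 : ℕ) : ℝ≥0∞) ^ n)⁻¹

theorem sglZ_ne_top {n : ℕ} (h : 2 ≤ n) : sglZ n ≠ ∞ := by
  have hs : Summable fun q : ℕ => ((((q + 1 : ℕ) : ℝ)) ^ n)⁻¹ :=
    (summable_nat_add_iff (f := fun q : ℕ => ((q : ℝ) ^ n)⁻¹) 1).2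
      (Real.summable_nat_pow_inv.2 (by omega))
  have h1 : sglZ n = ∑' q : ℕ, ENNReal.ofReal ((((q + 1 : ℕ) : ℝ)) ^ n)⁻¹ := by
    refine tsum_congr fun q => ?_
    rw [ENNReal.ofReal_inv_of_pos (by positivity), ENNReal.ofReal_pow (by positivity),
      ENNReal.ofReal_natCast]
  rw [h1]
  exact hs.tsum_ofReal_ne_top

theorem sgl_siegel0 [Nonempty β] (e : Unit ⊕ β ≃ ι) (f : (ι → ℝ) → ℝ≥0∞) (hf : Measurable f) :
    ∫⁻ g, ∑' k : {k : ι → ℤ // k ≠ 0}, f (lv k.1 g) ∂mu0 ι =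
      Zm β * sglZ (Fintype.card ι) * ∫⁻ x, f x := by
  have hq : ∀ q : ℕ, Measurable fun X : Matrix Unit ι ℝ => f ((((q + 1 : ℕ) : ℤ) : ℝ) • X ()) :=
    fun q => hf.comp ((measurable_const_smul ((((q + 1 : ℕ) : ℤ) : ℝ))).comp (measurable_row ()))
  have hF : Measurable fun X : Matrix Unit ι ℝ =>
      ∑' q : ℕ, f ((((q + 1 : ℕ) : ℤ) : ℝ) • X ()) := Measurable.tsum hq
  have h1 : ∀ g : Matrix ι ι ℝ, ∑' k : {k : ι → ℤ // k ≠ 0}, f (lv k.1 g) =
      ∑' P : {P : Matrix Unit ι ℤ // Prim P},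
        (fun X : Matrix Unit ι ℝ => ∑' q : ℕ, f ((((q + 1 : ℕ) : ℤ) : ℝ) • X ())) (cz P.1 * g) := by
    intro g
    rw [tsum_ne_zero (fun k => f (lv k g))]
    refine tsum_congr fun P => tsum_congr fun q => ?_
    rw [lv_smul, cz_mul_row]
  simp_rw [h1]
  rw [sgl_frame_mean0 e _ hF, lintegral_mul_const _ hF, lintegral_tsum fun q => (hq q).aemeasurable,
    mul_comm, mul_assoc]
  congr 1
  unfold sglZ
  rw [← ENNReal.tsum_mul_right]
  refine tsum_congr fun q => ?_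
  have hc : ((((q + 1 : ℕ) : ℤ) : ℝ)) ≠ 0 := by positivity
  rw [← (mp_one_row (ι := ι)).lintegral_comp (hq q)]
  have h2 := lintegral_map (μ := (volume : Measure (ι → ℝ))) hf
    (measurable_const_smul ((((q + 1 : ℕ) : ℤ) : ℝ)))
  have h3 := map_smul_vec (ι := ι) hc
  have h4 : ENNReal.ofReal ((|(((q + 1 : ℕ) : ℤ) : ℝ)| ^ Fintype.card ι)⁻¹) =
      (((q + 1 : ℕ) : ℝ≥0∞) ^ Fintype.card ι)⁻¹ := by
    rw [abs_of_pos (by positivity), ENNReal.ofReal_inv_of_pos (by positivity),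
      ENNReal.ofReal_pow (by positivity), Int.cast_natCast, ENNReal.ofReal_natCast]
  rw [h3, lintegral_smul_measure, h4, smul_eq_mul] at h2
  exact h2.symm

end

section
variable {ι : Type} [Fintype ι] [DecidableEq ι]

/-- the Gaussian -/
def sglG (t : ℝ) (x : ι → ℝ) : ℝ≥0∞ := ENNReal.ofReal (Real.exp (-Real.pi * t * nsq x))

omit [DecidableEq ι] in
theorem sglG_measurable (t : ℝ) : Measurable (sglG (ι := ι) t) :=
  (Real.measurable_exp.comp (measurable_nsq.const_mul _)).ennreal_ofReal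

omit [DecidableEq ι] in
theorem sglG_lintegral {t : ℝ} (ht : 0 < t) :
    ∫⁻ x : ι → ℝ, sglG t x = ENNReal.ofReal (t ^ (-((Fintype.card ι : ℝ) / 2))) := by
  have hi : Integrable fun x : ι → ℝ => Real.exp (-Real.pi * t * nsq x) := by
    have := integrable_gauss (α := ι) (c := Real.pi * t) (mul_pos Real.pi_pos ht)
    simpa only [neg_mul] using this
  rw [← integral_gauss ht, ofReal_integral_eq_lintegral_ofReal hi
    (Filter.Eventually.of_forall fun x => (Real.exp_pos _).le)]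
  rfl

theorem sgl_theta {g : Matrix ι ι ℝ} (hg : g.det ≠ 0) {t : ℝ} (ht : 0 < t) :
    ENNReal.ofReal (theta g t) = 1 + ∑' k : {k : ι → ℤ // k ≠ 0}, sglG t (lv k.1 g) := by
  have h := hasSum_theta hg ht
  have h0 : 0 ≤ theta g t - 1 := h.nonneg fun k => (Real.exp_pos _).le
  have h1 : ENNReal.ofReal (theta g t - 1) = ∑' k : {k : ι → ℤ // k ≠ 0}, sglG t (lv k.1 g) := by
    rw [← h.tsum_eq, ENNReal.ofReal_tsum_of_nonneg (fun k => (Real.exp_pos _).le) h.summable]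
    rfl
  rw [← h1, ← ENNReal.ofReal_one, ← ENNReal.ofReal_add zero_le_one h0]
  congr 1
  ring

theorem sgl_theta_dual {g : Matrix ι ι ℝ} (hg : |g.det| = 1) {t : ℝ} (ht : 0 < t) :
    1 + ∑' k : {k : ι → ℤ // k ≠ 0}, sglG t (lv k.1 g) =
      ENNReal.ofReal (t ^ (-((Fintype.card ι : ℝ) / 2))) *
        (1 + ∑' k : {k : ι → ℤ // k ≠ 0}, sglG t⁻¹ (lv k.1 (dual g))) := by
  have hg0 : g.det ≠ 0 := by
    intro h
    rw [h, abs_zero] at hg
    exact zero_ne_one hg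
  have hd : (dual g).det ≠ 0 := by rw [det_dual]; exact inv_ne_zero hg0
  rw [← sgl_theta hg0 ht, ← sgl_theta hd (inv_pos.2 ht), theta_dual hg0 ht, hg, inv_one, one_mul,
    ENNReal.ofReal_mul (Real.rpow_nonneg ht.le _)]

theorem sgl_two_le {n : ℕ} (h : 2 ≤ n) : (2 : ℝ) ≤ (1 / 2 : ℝ) ^ (-((n : ℝ) / 2)) := by
  have h1 : (1 / 2 : ℝ) ^ (-((n : ℝ) / 2)) = 2 ^ ((n : ℝ) / 2) := by
    rw [Real.rpow_neg (by norm_num), one_div, Real.inv_rpow (by norm_num), inv_inv]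
  have h2 : (1 : ℝ) ≤ (n : ℝ) / 2 := by
    have : (2 : ℝ) ≤ n := by exact_mod_cast h
    linarith
  rw [h1]
  calc (2 : ℝ) = 2 ^ (1 : ℝ) := (Real.rpow_one 2).symm
    _ ≤ _ := Real.rpow_le_rpow_of_exponent_le (by norm_num) h2

end

theorem sgl_Zm_ne_top (n : ℕ) : ∀ (ι : Type) [Fintype ι] [DecidableEq ι],
    Fintype.card ι = n → Zm ι ≠ ∞ := by
  induction n with
  | zero => intro ι _ _ h; exact Zm_ne_top_of_le_one (by omega)
  | succ n ih =>
    intro ι _ _ h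
    by_cases hn : n = 0
    · exact Zm_ne_top_of_le_one (by omega)
    have : Nonempty (Fin n) := ⟨⟨0, by omega⟩⟩
    have e : Unit ⊕ Fin n ≃ ι := Fintype.equivOfCardEq (by simp [h]; omega)
    have h2 : 2 ≤ Fintype.card ι := by omega
    have ht : (0 : ℝ) < 1 / 2 := by norm_num
    have h1 := sgl_siegel0 e (sglG (1 / 2)) (sglG_measurable _)
    rw [sglG_lintegral ht] at h1
    have h3 : Zm ι ≤ ∫⁻ g, ∑' k : {k : ι → ℤ // k ≠ 0}, sglG (1 / 2) (lv k.1 g) ∂mu0 ι := by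
      unfold Zm
      rw [← lintegral_one]
      refine lintegral_mono_ae ?_
      filter_upwards [ae_mu0_det] with g hg
      have h4 := sgl_theta_dual hg ht
      have h5 : (2 : ℝ≥0∞) ≤ ENNReal.ofReal ((1 / 2 : ℝ) ^ (-((Fintype.card ι : ℝ) / 2))) := by
        have := ENNReal.ofReal_le_ofReal (sgl_two_le h2)
        rwa [ENNReal.ofReal_ofNat] at this
      have h6 : (1 : ℝ≥0∞) + 1 ≤ 1 + ∑' k : {k : ι → ℤ // k ≠ 0}, sglG (1 / 2) (lv k.1 g) := by
        rw [h4, one_add_one_eq_two]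
        calc (2 : ℝ≥0∞) = 2 * 1 := (mul_one _).symm
          _ ≤ _ := mul_le_mul' h5 le_self_add
      exact (ENNReal.add_le_add_iff_left ENNReal.one_ne_top).1 h6
    rw [h1] at h3
    exact ne_top_of_le_ne_top (ENNReal.mul_ne_top (ENNReal.mul_ne_top
      (ih (Fin n) (Fintype.card_fin n)) (sglZ_ne_top h2)) ENNReal.ofReal_ne_top) h3

section
variable {ι : Type} [Fintype ι] [DecidableEq ι]

theorem Zm_ne_top : Zm ι ≠ ∞ := sgl_Zm_ne_top _ ι rfl

instance isProbabilityMeasure_mu : IsProbabilityMeasure (mu ι) :=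
  ⟨by
    unfold mu
    rw [Measure.smul_apply, smul_eq_mul]
    exact ENNReal.inv_mul_cancel Zm_ne_zero Zm_ne_top⟩

theorem sgl_lintegral_mu (Φ : Matrix ι ι ℝ → ℝ≥0∞) :
    ∫⁻ g, Φ g ∂mu ι = (Zm ι)⁻¹ * ∫⁻ g, Φ g ∂mu0 ι := by
  unfold mu
  rw [lintegral_smul_measure, smul_eq_mul]

theorem sgl_lintegral_mu0 (Φ : Matrix ι ι ℝ → ℝ≥0∞) :
    ∫⁻ g, Φ g ∂mu0 ι = Zm ι * ∫⁻ g, Φ g ∂mu ι := by
  rw [sgl_lintegral_mu, ← mul_assoc, ENNReal.mul_inv_cancel Zm_ne_zero Zm_ne_top, one_mul]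

theorem lintegral_mu_dual {Φ : Matrix ι ι ℝ → ℝ≥0∞} (hΦ : Measurable Φ) (hi : LInv Φ) :
    ∫⁻ g, Φ (dual g) ∂mu ι = ∫⁻ g, Φ g ∂mu ι := by
  rw [sgl_lintegral_mu, sgl_lintegral_mu, lintegral_mu0_dual hΦ hi]

theorem lintegral_mu_right {h : Matrix ι ι ℝ} (hh : |h.det| = 1) {Φ : Matrix ι ι ℝ → ℝ≥0∞}
    (hΦ : Measurable Φ) (hi : LInv Φ) : ∫⁻ g, Φ (g * h) ∂mu ι = ∫⁻ g, Φ g ∂mu ι := by
  rw [sgl_lintegral_mu, sgl_lintegral_mu, lintegral_mu0_right hh hΦ hi]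

theorem sgl_map_dual {Φ : Matrix ι ι ℝ → ℝ} (hΦ : Measurable Φ) (hi : LInv Φ) :
    Measure.map (fun g => Φ (dual g)) (mu ι) = Measure.map Φ (mu ι) := by
  ext s hs
  have hm : Measurable fun g : Matrix ι ι ℝ => s.indicator (1 : ℝ → ℝ≥0∞) (Φ g) :=
    (measurable_one.indicator hs).comp hΦ
  have h := lintegral_mu_dual (Φ := fun g => s.indicator (1 : ℝ → ℝ≥0∞) (Φ g)) hm
    (fun γ g => by show s.indicator 1 (Φ _) = s.indicator 1 (Φ g); rw [hi γ g])
  rw [← lintegral_indicator_one hs, ← lintegral_indicator_one hs,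
    lintegral_map (g := fun g => Φ (dual g)) (measurable_one.indicator hs)
      (hΦ.comp measurable_dual),
    lintegral_map (measurable_one.indicator hs) hΦ]
  exact h

theorem integral_mu_dual {Φ : Matrix ι ι ℝ → ℝ} (hΦ : Measurable Φ) (hi : LInv Φ) :
    ∫ g, Φ (dual g) ∂mu ι = ∫ g, Φ g ∂mu ι := by
  have h1 := integral_map (μ := mu ι) (φ := fun g => Φ (dual g)) (f := fun y : ℝ => y)
    (hΦ.comp measurable_dual).aemeasurable measurable_id.aestronglyMeasurable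
  have h2 := integral_map (μ := mu ι) (φ := Φ) (f := fun y : ℝ => y)
    hΦ.aemeasurable measurable_id.aestronglyMeasurable
  rw [← h1, ← h2, sgl_map_dual hΦ hi]

theorem integrable_mu_dual {Φ : Matrix ι ι ℝ → ℝ} (hΦ : Measurable Φ) (hi : LInv Φ) :
    Integrable (fun g => Φ (dual g)) (mu ι) ↔ Integrable Φ (mu ι) := by
  have h1 := integrable_map_measure (μ := mu ι) (f := fun g => Φ (dual g)) (g := fun y : ℝ => y)
    measurable_id.aestronglyMeasurable (hΦ.comp measurable_dual).aemeasurable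
  have h2 := integrable_map_measure (μ := mu ι) (f := Φ) (g := fun y : ℝ => y)
    measurable_id.aestronglyMeasurable hΦ.aemeasurable
  rw [sgl_map_dual hΦ hi] at h1
  exact h1.symm.trans h2

theorem sgl_siegel1 {β : Type} [Fintype β] [DecidableEq β] [Nonempty β] (e : Unit ⊕ β ≃ ι)
    (f : (ι → ℝ) → ℝ≥0∞) (hf : Measurable f) :
    ∫⁻ g, ∑' k : {k : ι → ℤ // k ≠ 0}, f (lv k.1 g) ∂mu ι =
      cc ι β * sglZ (Fintype.card ι) * ∫⁻ x, f x := by
  rw [sgl_lintegral_mu, sgl_siegel0 e f hf, cc, div_eq_mul_inv]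
  ring

theorem sgl_const {β : Type} [Fintype β] [DecidableEq β] [Nonempty β] (e : Unit ⊕ β ≃ ι) :
    cc ι β * sglZ (Fintype.card ι) = 1 := by
  have h2 : 2 ≤ Fintype.card ι := by
    have := Fintype.card_congr e
    have h0 : 0 < Fintype.card β := Fintype.card_pos
    simp only [Fintype.card_sum, Fintype.card_unique] at this
    omega
  have hc : cc ι β * sglZ (Fintype.card ι) ≠ ∞ :=
    ENNReal.mul_ne_top (ENNReal.div_ne_top Zm_ne_top Zm_ne_zero) (sglZ_ne_top h2)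
  have ht : (0 : ℝ) < 1 / 2 := by norm_num
  have hA : ∀ {t : ℝ}, 0 < t →
      ∫⁻ g, (1 + ∑' k : {k : ι → ℤ // k ≠ 0}, sglG t (lv k.1 g)) ∂mu ι =
        1 + cc ι β * sglZ (Fintype.card ι) *
          ENNReal.ofReal (t ^ (-((Fintype.card ι : ℝ) / 2))) := by
    intro t ht
    rw [lintegral_add_left measurable_const, sgl_siegel1 e _ (sglG_measurable t),
      sglG_lintegral ht, lintegral_const, measure_univ, mul_one]
  have hm : Measurable fun g : Matrix ι ι ℝ =>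
      1 + ∑' k : {k : ι → ℤ // k ≠ 0}, sglG (1 / 2 : ℝ)⁻¹ (lv k.1 g) :=
    measurable_const.add (sgl_measurable_sum _ (sglG_measurable _))
  have hB : ∫⁻ g, (1 + ∑' k : {k : ι → ℤ // k ≠ 0}, sglG (1 / 2) (lv k.1 g)) ∂mu ι =
      ENNReal.ofReal ((1 / 2 : ℝ) ^ (-((Fintype.card ι : ℝ) / 2))) *
        ∫⁻ g, (1 + ∑' k : {k : ι → ℤ // k ≠ 0}, sglG (1 / 2 : ℝ)⁻¹ (lv k.1 g)) ∂mu ι := by
    rw [← lintegral_mu_dual hm
      (fun γ g => congrArg (fun x : ℝ≥0∞ => 1 + x) (sgl_linv_sum (sglG (1 / 2 : ℝ)⁻¹) γ g)),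
      ← lintegral_const_mul' _ _ ENNReal.ofReal_ne_top]
    refine lintegral_congr_ae ?_
    filter_upwards [ae_mu_det] with g hg
    exact sgl_theta_dual hg ht
  rw [hA ht, hA (inv_pos.2 ht), Real.inv_rpow ht.le] at hB
  have ha := sgl_two_le h2
  generalize (1 / 2 : ℝ) ^ (-((Fintype.card ι : ℝ) / 2)) = a at hB ha
  generalize cc ι β * sglZ (Fintype.card ι) = c at hB hc
  lift c to NNReal using hc
  have ha0 : 0 < a := by linarith
  rw [← ENNReal.ofReal_coe_nnreal, ← ENNReal.ofReal_one,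
    ← ENNReal.ofReal_mul c.coe_nonneg, ← ENNReal.ofReal_mul c.coe_nonneg,
    ← ENNReal.ofReal_add zero_le_one (by positivity),
    ← ENNReal.ofReal_add zero_le_one (by positivity), ← ENNReal.ofReal_mul ha0.le,
    ENNReal.ofReal_eq_ofReal_iff (by positivity) (by positivity)] at hB
  have h3 : ((c : ℝ) - 1) * (a - 1) = 0 := by
    have : a * (1 + (c : ℝ) * a⁻¹) = a + c := by field_simp
    rw [this] at hB
    linarith
  have h4 : (c : ℝ) = 1 := by
    rcases mul_eq_zero.1 h3 with h | h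
    · linarith
    · linarith
  have h5 : c = 1 := by exact_mod_cast h4
  rw [h5]
  rfl

theorem siegel (h : 2 ≤ Fintype.card ι) (f : (ι → ℝ) → ℝ≥0∞) (hf : Measurable f) :
    ∫⁻ g, ∑' k : {k : ι → ℤ // k ≠ 0}, f (lv k.1 g) ∂mu ι = ∫⁻ x, f x := by
  have : Nonempty (Fin (Fintype.card ι - 1)) := ⟨⟨0, by omega⟩⟩
  have e : Unit ⊕ Fin (Fintype.card ι - 1) ≃ ι := Fintype.equivOfCardEq (by simp; omega)
  rw [sgl_siegel1 e f hf, sgl_const e, one_mul]

theorem siegel_dual (h : 2 ≤ Fintype.card ι) (f : (ι → ℝ) → ℝ≥0∞) (hf : Measurable f) :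
    ∫⁻ g, ∑' k : {k : ι → ℤ // k ≠ 0}, f (lv k.1 (dual g)) ∂mu ι = ∫⁻ x, f x := by
  rw [← siegel h f hf]
  exact lintegral_mu_dual (sgl_measurable_sum f hf) (sgl_linv_sum f)

end

variable {α β ι : Type} [Fintype α] [DecidableEq α] [Fintype β] [DecidableEq β] [Fintype ι]
  [DecidableEq ι] (e : α ⊕ β ≃ ι)

theorem cc_ne_top : cc ι β ≠ ∞ := ENNReal.div_ne_top Zm_ne_top Zm_ne_zero

theorem frame [Nonempty β] (Φ : Matrix α ι ℤ → Matrix ι ι ℝ → ℝ≥0∞) (hm : ∀ P, Measurable (Φ P))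
    (hΦ : ∀ (γ : GL ι ℤ) P g, Φ (P * γ.val) g = Φ P (cz γ.val * g)) :
    ∫⁻ g, ∑' P : {P : Matrix α ι ℤ // Prim P}, Φ P.1 g ∂mu ι =
      cc ι β * ∫⁻ X : Matrix α ι ℝ, ∫⁻ g, (∫⁻ t in cube β α, Φ (std e) (lift e X t g)) ∂mu β := by
  rw [sgl_lintegral_mu, frame0 e Φ hm hΦ]
  simp_rw [sgl_lintegral_mu0 (ι := β)]
  rw [lintegral_const_mul' _ _ Zm_ne_top, cc, div_eq_mul_inv]
  ring

include e in
/-- the mean number of primitive frames -/
theorem frame_mean [Nonempty β] (F : Matrix α ι ℝ → ℝ≥0∞) (hF : Measurable F) :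
    ∫⁻ g, ∑' P : {P : Matrix α ι ℤ // Prim P}, F (cz P.1 * g) ∂mu ι = cc ι β * ∫⁻ X, F X := by
  rw [sgl_lintegral_mu, sgl_frame_mean0 e F hF, lintegral_mul_const _ hF, cc, div_eq_mul_inv]
  ring

include e in
/-- the empty frame -/
theorem cc_eq_one [IsEmpty α] [Nonempty β] : cc ι β = 1 := by
  have h := frame_mean e (fun _ => 1) measurable_const
  have : Unique {P : Matrix α ι ℤ // Prim P} :=
    ⟨⟨⟨std e, prim_std e⟩⟩, fun P => Subtype.ext (by ext a; exact isEmptyElim a)⟩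
  have hv : (volume : Measure (Matrix α ι ℝ)) Set.univ = 1 := by
    show Measure.pi (fun _ : α => (volume : Measure (ι → ℝ))) Set.univ = 1
    rw [Measure.pi_univ]
    simp
  simp only [tsum_fintype, Finset.sum_const, Finset.card_univ, Fintype.card_unique, one_smul,
    lintegral_const, measure_univ, mul_one, hv] at h
  exact h.symm

include e in
/-- one primitive vector -/
theorem cc_mul_tsum [Unique α] [Nonempty β] :
    cc ι β * ∑' q : ℕ, (((q + 1 : ℕ) : ℝ≥0∞) ^ Fintype.card ι)⁻¹ = 1 :=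
  sgl_const ((Equiv.sumCongr (Equiv.ofUnique Unit α) (Equiv.refl β)).trans e)

end Pool.Agent.Eps.H
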